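import Pool.Agent.H41.QC.KKL
import Pool.Agent.H91.IIC.Russo

/-! # QC module Sharp: sharp threshold for symmetric increasing events (paper 6.4) -/

open MeasureTheory
open Pool.Agent.H17.IIC

namespace Pool.Agent.H41.QC

theorem russo_incr {ι : Type} [Fintype ι] [DecidableEq ι] {A : Set (ι → Bool)} (hA : Incr A)
    {x : ℝ} (h0 : 0 < x) (h1 : x < 1) :
    HasDerivAt (fun y => (prodBern ι (Pool.Agent.H91.IIC.prm y)).real A)
      (∑ i, Inf (Pool.Agent.H91.IIC.prm x) A i) x := by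
  classical
  have hdep : Pool.Agent.H91.IIC.DepOn (Finset.univ : Finset ι)
      (fun ω => A.indicator (fun _ => (1:ℝ)) ω) := by
    intro ω ω' h
    have : ω = ω' := funext fun e => h e (Finset.mem_univ e)
    rw [this]
  have h := Pool.Agent.H91.IIC.russo (Finset.univ : Finset ι) _ hdep x h0 h1
  have hm : ∀ B : Set (ι → Bool), MeasurableSet B := fun B => B.toFinite.measurableSet
  have e1 : (fun y => ∫ ω, A.indicator (fun _ => (1:ℝ)) ω
      ∂(prodBern ι (Pool.Agent.H91.IIC.prm y))) =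
      fun y => (prodBern ι (Pool.Agent.H91.IIC.prm y)).real A := by
    funext y
    rw [integral_indicator (hm A)]
    simp
  rw [e1] at h
  have e2 : ∀ e : ι, ∫ ω, (A.indicator (fun _ => (1:ℝ)) (Function.update ω e true) -
      A.indicator (fun _ => (1:ℝ)) (Function.update ω e false))
        ∂(prodBern ι (Pool.Agent.H91.IIC.prm x)) = Inf (Pool.Agent.H91.IIC.prm x) A e := by
    intro e
    have e3 : (fun ω => A.indicator (fun _ => (1:ℝ)) (Function.update ω e true) -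
      A.indicator (fun _ => (1:ℝ)) (Function.update ω e false)) =
      ({ω | Function.update ω e true ∈ A ∧ Function.update ω e false ∉ A} :
        Set (ι → Bool)).indicator (fun _ => (1:ℝ)) := by
      funext ω
      have hmono : Function.update ω e false ∈ A → Function.update ω e true ∈ A := by
        apply hA
        intro f hf
        by_cases hfe : f = e
        · subst hfe; simp
        · rw [Function.update_of_ne hfe] at hf ⊢
          exact hf
      by_cases g1 : Function.update ω e false ∈ A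
      · have g2 := hmono g1
        rw [Set.indicator_of_mem g1, Set.indicator_of_mem g2, Set.indicator_of_notMem]
        · simp
        · rintro ⟨_, g3⟩; exact g3 g1
      · by_cases g2 : Function.update ω e true ∈ A
        · rw [Set.indicator_of_notMem g1, Set.indicator_of_mem g2, Set.indicator_of_mem]
          · simp
          · exact ⟨g2, g1⟩
        · rw [Set.indicator_of_notMem g1, Set.indicator_of_notMem g2, Set.indicator_of_notMem]
          · simp
          · rintro ⟨g3, _⟩; exact g2 g3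
    rw [e3, integral_indicator (hm _)]
    simp [Inf]
  rw [Finset.sum_congr rfl fun e _ => e2 e] at h
  exact h

lemma Sharp_Inf_nonneg {ι : Type} [DecidableEq ι] (p : unitInterval) (A : Set (ι → Bool))
    (i : ι) : 0 ≤ Inf p A i := measureReal_nonneg

/-- the differential inequality -/
lemma Sharp_ineq {a b : ℝ} (ha : 0 < a) (hb : b < 1) :
    ∃ κ : ℝ, 0 < κ ∧ ∃ L₀ : ℕ, 2 ≤ L₀ ∧ ∀ (p : unitInterval), a ≤ (p : ℝ) → (p : ℝ) ≤ b →
      ∀ (ι : Type) [Fintype ι] [DecidableEq ι] (A : Set (ι → Bool)) (L : ℕ), L₀ ≤ L → Incr A →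
      (∀ i₀ : ι, (L : ℝ) / 2 * Inf p A i₀ ≤ ∑ i, Inf p A i) →
      κ * Real.log L * ((prodBern ι p).real A * (1 - (prodBern ι p).real A)) ≤
        ∑ i, Inf p A i := by
  obtain ⟨C, hC1, hC⟩ := kkl ha hb
  obtain ⟨l, hl⟩ : ∃ l : ℝ, l = max 1 (Real.log C) := ⟨_, rfl⟩
  have hl1 : 1 ≤ l := by rw [hl]; exact le_max_left _ _
  have hlC : Real.log C ≤ l := by rw [hl]; exact le_max_right _ _
  have hl0 : 0 < l := by linarith
  have hev : ∀ᶠ L : ℕ in Filter.atTop, 16 * l ≤ Real.log L :=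
    (Real.tendsto_log_atTop.comp tendsto_natCast_atTop_atTop).eventually_ge_atTop _
  obtain ⟨L₁, hL₁⟩ := Filter.eventually_atTop.mp hev
  refine ⟨1 / (32 * l), by positivity, max L₁ 2, le_max_right _ _, ?_⟩
  intro p hpa hpb ι _ _ A L hL hA hsym
  have hLL := hL₁ L ((le_max_left _ _).trans hL)
  have hL2 : 2 ≤ L := (le_max_right _ _).trans hL
  have hLr : (2:ℝ) ≤ L := by exact_mod_cast hL2
  have hL0 : (0:ℝ) < L := by linarith
  have hlog0 : 0 < Real.log L := Real.log_pos (by linarith)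
  obtain ⟨f, hf⟩ : ∃ f, f = (prodBern ι p).real A := ⟨_, rfl⟩
  obtain ⟨D, hD⟩ : ∃ D, D = ∑ i, Inf p A i := ⟨_, rfl⟩
  have hf0 : 0 ≤ f := by rw [hf]; exact measureReal_nonneg
  have hf1 : f ≤ 1 := by rw [hf]; exact measureReal_le_one
  have hD0 : 0 ≤ D := by rw [hD]; exact Finset.sum_nonneg fun i _ => Sharp_Inf_nonneg p A i
  have hff : f * (1 - f) ≤ 1 := by nlinarith
  have hff0 : 0 ≤ f * (1 - f) := mul_nonneg hf0 (by linarith)
  rw [← hf, ← hD]
  by_cases hbig : ∃ i₀ : ι, (L:ℝ) ^ (-(1/2) : ℝ) ≤ Inf p A i₀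
  · obtain ⟨i₀, hi₀⟩ := hbig
    have h1 := hsym i₀
    rw [← hD] at h1
    have h2 : (L:ℝ) / 2 * (L:ℝ) ^ (-(1/2) : ℝ) = (L:ℝ) ^ (1/2 : ℝ) / 2 := by
      have : (L:ℝ) * (L:ℝ) ^ (-(1/2) : ℝ) = (L:ℝ) ^ (1/2 : ℝ) := by
        nth_rewrite 1 [← Real.rpow_one (L:ℝ)]
        rw [← Real.rpow_add hL0]
        norm_num
      linarith
    have h3 : (L:ℝ) ^ (1/2 : ℝ) / 2 ≤ D := by
      rw [← h2]
      exact (mul_le_mul_of_nonneg_left hi₀ (by positivity)).trans h1
    have h4 : Real.log L ≤ 2 * (L:ℝ) ^ (1/2 : ℝ) := by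
      have h5 : Real.log ((L:ℝ) ^ (1/2 : ℝ)) ≤ (L:ℝ) ^ (1/2 : ℝ) - 1 :=
        Real.log_le_sub_one_of_pos (by positivity)
      rw [Real.log_rpow hL0] at h5
      linarith
    have h5 : 1 / (32 * l) ≤ 1 / 32 := one_div_le_one_div_of_le (by norm_num) (by linarith)
    have h6 : 0 ≤ (L:ℝ) ^ (1/2 : ℝ) := by positivity
    calc 1 / (32 * l) * Real.log L * (f * (1 - f)) ≤ 1 / 32 * Real.log L * 1 := by
          apply mul_le_mul (mul_le_mul_of_nonneg_right h5 hlog0.le) hff hff0 (by positivity)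
      _ ≤ D := by linarith
  · push Not at hbig
    obtain ⟨k, hk⟩ : ∃ k : ℕ, k = ⌊Real.log L / (8 * l)⌋₊ := ⟨_, rfl⟩
    have hk1 : (k:ℝ) ≤ Real.log L / (8 * l) := by rw [hk]; exact Nat.floor_le (by positivity)
    have hk2 : Real.log L / (8 * l) < k + 1 := by rw [hk]; exact Nat.lt_floor_add_one _
    have hq2 : 2 ≤ Real.log L / (8 * l) := by
      rw [le_div_iff₀ (by positivity)]; linarith
    have hk0 : 1 ≤ k := by
      have : (1:ℝ) < k + 1 := by linarith
      have h : (0:ℝ) < k := by linarith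
      exact_mod_cast h
    have hkr : (1:ℝ) ≤ k := by exact_mod_cast hk0
    have h1 := hC p hpa hpb ι A hA k hk0
    rw [← hf, ← hD] at h1
    have hsq : ∑ i, Inf p A i * Real.sqrt (Inf p A i) ≤ (L:ℝ) ^ (-(1/4) : ℝ) * D := by
      rw [hD, Finset.mul_sum]
      refine Finset.sum_le_sum fun i _ => ?_
      have h2 : Real.sqrt (Inf p A i) ≤ (L:ℝ) ^ (-(1/4) : ℝ) := by
        rw [Real.sqrt_eq_rpow]
        have h3 := Real.rpow_le_rpow (Sharp_Inf_nonneg p A i) (hbig i).le
          (show (0:ℝ) ≤ 1/2 by norm_num)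
        rw [← Real.rpow_mul hL0.le] at h3
        norm_num at h3 ⊢
        exact h3
      rw [mul_comm]
      exact mul_le_mul_of_nonneg_right h2 (Sharp_Inf_nonneg p A i)
    have hCk : C ^ k ≤ (L:ℝ) ^ (1/8 : ℝ) := by
      have hC0 : 0 < C := by linarith
      rw [← Real.log_le_log_iff (by positivity) (by positivity), Real.log_pow, Real.log_rpow hL0]
      have h2 : (k:ℝ) * Real.log C ≤ k * l := mul_le_mul_of_nonneg_left hlC (by linarith)
      have h3 : (k:ℝ) * l ≤ Real.log L / (8 * l) * l := mul_le_mul_of_nonneg_right hk1 hl0.le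
      have h4 : Real.log L / (8 * l) * l = 1 / 8 * Real.log L := by field_simp
      linarith
    have hL8 : (k:ℝ) ≤ (L:ℝ) ^ (1/8 : ℝ) := by
      have h2 : Real.log ((L:ℝ) ^ (1/8 : ℝ)) ≤ (L:ℝ) ^ (1/8 : ℝ) - 1 :=
        Real.log_le_sub_one_of_pos (by positivity)
      rw [Real.log_rpow hL0] at h2
      have h3 : Real.log L / (8 * l) ≤ 1 / 8 * Real.log L := by
        rw [div_le_iff₀ (by positivity)]
        nlinarith
      linarith
    have hprod : C ^ k * (L:ℝ) ^ (-(1/4) : ℝ) ≤ 1 / k := by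
      have h2 : C ^ k * (L:ℝ) ^ (-(1/4) : ℝ) ≤ (L:ℝ) ^ (1/8 : ℝ) * (L:ℝ) ^ (-(1/4) : ℝ) :=
        mul_le_mul_of_nonneg_right hCk (by positivity)
      have h3 : (L:ℝ) ^ (1/8 : ℝ) * (L:ℝ) ^ (-(1/4) : ℝ) = ((L:ℝ) ^ (1/8 : ℝ))⁻¹ := by
        rw [← Real.rpow_add hL0, ← Real.rpow_neg hL0.le]
        norm_num
      rw [h3] at h2
      refine h2.trans ?_
      rw [inv_eq_one_div]
      exact one_div_le_one_div_of_le (by linarith) hL8
    have h2 : f * (1 - f) ≤ 2 / k * D := by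
      have h3 : C ^ k * ∑ i, Inf p A i * Real.sqrt (Inf p A i) ≤ 1 / k * D := by
        calc C ^ k * ∑ i, Inf p A i * Real.sqrt (Inf p A i)
            ≤ C ^ k * ((L:ℝ) ^ (-(1/4) : ℝ) * D) :=
              mul_le_mul_of_nonneg_left hsq (by positivity)
          _ = C ^ k * (L:ℝ) ^ (-(1/4) : ℝ) * D := by ring
          _ ≤ 1 / k * D := mul_le_mul_of_nonneg_right hprod hD0
      have h4 : (2:ℝ) / k * D = 1 / k * D + 1 / k * D := by ring
      linarith
    have h3 : 1 / (32 * l) * Real.log L ≤ k / 2 := by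
      have h4 : Real.log L / (8 * l) = 4 * (1 / (32 * l) * Real.log L) := by field_simp; norm_num
      rw [h4] at hk2 hq2
      linarith
    have hk0' : (0:ℝ) < k := by linarith
    calc 1 / (32 * l) * Real.log L * (f * (1 - f)) ≤ k / 2 * (2 / k * D) :=
          mul_le_mul h3 h2 hff0 (by positivity)
      _ = D := by field_simp

theorem sharp (a b : unitInterval) (ha : 0 < (a : ℝ)) (hab : (a : ℝ) < b) (hb : (b : ℝ) < 1)
    {c₁ : ℝ} (hc₁ : 0 < c₁) :
    ∃ c : ℝ, 0 < c ∧ ∃ L₀ : ℕ, ∀ (ι : Type) [Fintype ι] [DecidableEq ι] (A : Set (ι → Bool))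
      (L : ℕ), L₀ ≤ L → Incr A →
      (∀ (p : unitInterval) (i₀ : ι), (L : ℝ) / 2 * Inf p A i₀ ≤ ∑ i, Inf p A i) →
      c₁ ≤ (prodBern ι a).real A → 1 - (prodBern ι b).real A ≤ (L : ℝ) ^ (-c) := by
  obtain ⟨κ, hκ, L₀, hL₀2, hineq⟩ := Sharp_ineq ha hb
  have hba : 0 < (b:ℝ) - a := by linarith
  refine ⟨κ * c₁ * (b - a), by positivity, L₀, ?_⟩
  intro ι _ _ A L hL hA hsym hca
  have hL2 : 2 ≤ L := hL₀2.trans hL
  have hLr : (2:ℝ) ≤ L := by exact_mod_cast hL2
  have hL0 : (0:ℝ) < L := by linarith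
  have hlog0 : 0 < Real.log L := Real.log_pos (by linarith)
  obtain ⟨f, hf⟩ : ∃ f : ℝ → ℝ, ∀ y, f y = (prodBern ι (Pool.Agent.H91.IIC.prm y)).real A :=
    ⟨_, fun _ => rfl⟩
  obtain ⟨D, hD⟩ : ∃ D : ℝ → ℝ, ∀ y, D y = ∑ i, Inf (Pool.Agent.H91.IIC.prm y) A i :=
    ⟨_, fun _ => rfl⟩
  have hD0 : ∀ y, 0 ≤ D y := by
    intro y; rw [hD]; exact Finset.sum_nonneg fun i _ => Sharp_Inf_nonneg _ A i
  have hder : ∀ x ∈ Set.Icc (a:ℝ) b, HasDerivAt f (D x) x := by
    intro x hx
    have h1 := russo_incr hA (x := x) (by linarith [hx.1]) (by linarith [hx.2])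
    rw [hD]
    have h2 : f = fun y => (prodBern ι (Pool.Agent.H91.IIC.prm y)).real A := funext hf
    rw [h2]
    exact h1
  have hcont : ContinuousOn f (Set.Icc (a:ℝ) b) := fun x hx =>
    (hder x hx).continuousAt.continuousWithinAt
  have hprma : Pool.Agent.H91.IIC.prm (a:ℝ) = a := by
    apply Subtype.ext
    exact Pool.Agent.H91.IIC.prm_coe a.2.1 a.2.2
  have hprmb : Pool.Agent.H91.IIC.prm (b:ℝ) = b := by
    apply Subtype.ext
    exact Pool.Agent.H91.IIC.prm_coe b.2.1 b.2.2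
  have hmono : MonotoneOn f (Set.Icc (a:ℝ) b) := by
    apply monotoneOn_of_deriv_nonneg (convex_Icc _ _) hcont
    · intro x hx
      rw [interior_Icc] at hx
      exact (hder x ⟨hx.1.le, hx.2.le⟩).differentiableAt.differentiableWithinAt
    · intro x hx
      rw [interior_Icc] at hx
      rw [(hder x ⟨hx.1.le, hx.2.le⟩).deriv]
      exact hD0 x
  have hfa : c₁ ≤ f a := by rw [hf, hprma]; exact hca
  have hfc : ∀ x ∈ Set.Icc (a:ℝ) b, c₁ ≤ f x := fun x hx =>
    hfa.trans (hmono ⟨le_rfl, hab.le⟩ hx hx.1)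
  have hf1 : ∀ x, f x ≤ 1 := by intro x; rw [hf]; exact measureReal_le_one
  have hkey : ∀ x ∈ Set.Icc (a:ℝ) b, κ * Real.log L * c₁ * (1 - f x) ≤ D x := by
    intro x hx
    have hcoe : ((Pool.Agent.H91.IIC.prm x : unitInterval) : ℝ) = x :=
      Pool.Agent.H91.IIC.prm_coe (by linarith [hx.1]) (by linarith [hx.2])
    have h1 := hineq (Pool.Agent.H91.IIC.prm x) (by rw [hcoe]; exact hx.1)
      (by rw [hcoe]; exact hx.2) ι A L hL hA (hsym _)
    rw [← hf, ← hD] at h1
    have h2 := hfc x hx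
    have h3 : 0 ≤ 1 - f x := by linarith [hf1 x]
    have h4 : κ * Real.log L * c₁ * (1 - f x) ≤ κ * Real.log L * (f x * (1 - f x)) := by
      have : c₁ * (1 - f x) ≤ f x * (1 - f x) := mul_le_mul_of_nonneg_right h2 h3
      have := mul_le_mul_of_nonneg_left this (show 0 ≤ κ * Real.log L by positivity)
      linarith
    exact h4.trans h1
  obtain ⟨lam, hlam⟩ : ∃ lam, lam = κ * Real.log L * c₁ := ⟨_, rfl⟩
  have hgder : ∀ x ∈ Set.Icc (a:ℝ) b, HasDerivAt (fun y => (1 - f y) * Real.exp (lam * (y - a)))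
      ((-D x) * Real.exp (lam * (x - a)) + (1 - f x) * (Real.exp (lam * (x - a)) * lam)) x := by
    intro x hx
    have h1 : HasDerivAt (fun y => 1 - f y) (-D x) x := (hder x hx).const_sub 1
    have h2 : HasDerivAt (fun y => Real.exp (lam * (y - a))) (Real.exp (lam * (x - a)) * lam) x := by
      have h3 : HasDerivAt (fun y : ℝ => lam * (y - a)) (lam * 1) x :=
        ((hasDerivAt_id x).sub_const _).const_mul lam
      rw [mul_one] at h3
      exact h3.exp
    exact h1.mul h2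
  have hanti : AntitoneOn (fun y => (1 - f y) * Real.exp (lam * (y - a))) (Set.Icc (a:ℝ) b) := by
    apply antitoneOn_of_deriv_nonpos (convex_Icc _ _)
    · exact fun x hx => (hgder x hx).continuousAt.continuousWithinAt
    · intro x hx
      rw [interior_Icc] at hx
      exact (hgder x ⟨hx.1.le, hx.2.le⟩).differentiableAt.differentiableWithinAt
    · intro x hx
      rw [interior_Icc] at hx
      rw [(hgder x ⟨hx.1.le, hx.2.le⟩).deriv]
      have h1 := hkey x ⟨hx.1.le, hx.2.le⟩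
      rw [← hlam] at h1
      have h2 := Real.exp_pos (lam * (x - a))
      nlinarith
  have hfin := hanti ⟨le_rfl, hab.le⟩ ⟨hab.le, le_rfl⟩ hab.le
  simp only [sub_self, mul_zero, Real.exp_zero, mul_one] at hfin
  have h1 : (1 - f b) * Real.exp (lam * (b - a)) ≤ 1 := by
    have : 0 ≤ f a := hc₁.le.trans hfa
    linarith
  have h2 : (L:ℝ) ^ (-(κ * c₁ * (b - a))) = (Real.exp (lam * (b - a)))⁻¹ := by
    rw [Real.rpow_def_of_pos hL0, ← Real.exp_neg, hlam]
    congr 1
    ring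
  rw [h2]
  have h3 : (prodBern ι b).real A = f b := by rw [hf, hprmb]
  rw [h3, ← one_div, le_div_iff₀ (Real.exp_pos _)]
  exact h1

end Pool.Agent.H41.QC
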