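import Pool.Agent.H41.QC.Defs

/-! # QC module Path: positions, concatenation, elements of a path -/

namespace Pool.Agent.H41.QC

variable {d : ℕ}

lemma pos_zero {N : ℕ} (s : Fin N → Step d) : pos s 0 = 0 := by
  simp [pos]

lemma pos_succ {N : ℕ} (s : Fin N → Step d) (t : Fin N) :
    pos s ((t : ℕ) + 1) = pos s (t : ℕ) + stepVec (s t) := by
  unfold pos
  have h1 : stepVec (s t) = ∑ u : Fin N, if u = t then stepVec (s u) else 0 := by
    rw [Finset.sum_ite_eq' Finset.univ t (fun u => stepVec (s u))]
    simp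
  rw [h1, ← Finset.sum_add_distrib]
  apply Finset.sum_congr rfl
  intro u _
  by_cases hu : u = t
  · subst hu
    simp
  · have hu' : (u : ℕ) ≠ (t : ℕ) := fun h => hu (Fin.ext h)
    by_cases h2 : (u : ℕ) < (t : ℕ)
    · rw [if_pos (by omega), if_pos h2, if_neg hu, add_zero]
    · rw [if_neg (by omega), if_neg h2, if_neg hu, add_zero]

lemma path_abs_stepVec_le (s : Step d) (i : Fin d) : |stepVec s i| ≤ 1 := by
  unfold stepVec
  rcases s with ⟨j, b⟩
  by_cases h : i = j
  · subst h
    cases b <;> simp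
  · simp [Pi.single_eq_of_ne h]

lemma abs_pos_le {N : ℕ} (s : Fin N → Step d) (t : ℕ) (i : Fin d) : |pos s t i| ≤ t := by
  unfold pos
  rw [Finset.sum_apply]
  refine (Finset.abs_sum_le_sum_abs _ _).trans ?_
  have h1 : ∀ u : Fin N, |(if (u : ℕ) < t then stepVec (s u) else 0 : V d) i|
      ≤ if (u : ℕ) < t then 1 else 0 := by
    intro u
    by_cases h : (u : ℕ) < t
    · simp only [if_pos h]
      exact path_abs_stepVec_le _ _
    · simp [if_neg h]
  refine (Finset.sum_le_sum (fun u _ => h1 u)).trans ?_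
  rw [← Finset.sum_filter, Finset.sum_const, nsmul_eq_mul, mul_one]
  have h2 : (Finset.univ.filter (fun u : Fin N => (u : ℕ) < t)).card ≤ t := by
    calc (Finset.univ.filter (fun u : Fin N => (u : ℕ) < t)).card
        = ((Finset.univ.filter (fun u : Fin N => (u : ℕ) < t)).image (fun u : Fin N => (u : ℕ))).card :=
          (Finset.card_image_of_injective _ Fin.val_injective).symm
      _ ≤ (Finset.range t).card := by
          apply Finset.card_le_card
          intro x hx
          simp only [Finset.mem_image, Finset.mem_filter, Finset.mem_univ, true_and] at hx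
          obtain ⟨u, hu, rfl⟩ := hx
          exact Finset.mem_range.mpr hu
      _ = t := Finset.card_range t
  exact_mod_cast h2

lemma pos_append_left {M N : ℕ} (a : Fin M → Step d) (b : Fin N → Step d) {t : ℕ} (ht : t ≤ M) :
    pos (Fin.append a b) t = pos a t := by
  unfold pos
  rw [Fin.sum_univ_add]
  have h2 : ∑ i : Fin N, (if ((Fin.natAdd M i : Fin (M + N)) : ℕ) < t
      then stepVec (Fin.append a b (Fin.natAdd M i)) else (0 : V d)) = 0 := by
    apply Finset.sum_eq_zero
    intro i _
    rw [if_neg]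
    simp only [Fin.val_natAdd]
    omega
  rw [h2, add_zero]
  apply Finset.sum_congr rfl
  intro i _
  rw [Fin.append_left]
  rfl

lemma pos_append_right {M N : ℕ} (a : Fin M → Step d) (b : Fin N → Step d) (t : ℕ) :
    pos (Fin.append a b) (M + t) = pos a M + pos b t := by
  unfold pos
  rw [Fin.sum_univ_add]
  congr 1
  · apply Finset.sum_congr rfl
    intro i _
    rw [Fin.append_left, if_pos, if_pos i.2]
    simp only [Fin.val_castAdd]
    omega
  · apply Finset.sum_congr rfl
    intro i _
    rw [Fin.append_right]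
    simp only [Fin.val_natAdd, Nat.add_lt_add_iff_left]

lemma mem_saws {N : ℕ} {s : Fin N → Step d} : s ∈ saws d N ↔ IsSAW s := by
  simp [saws]

lemma saws_append_left {M N : ℕ} {a : Fin M → Step d} {b : Fin N → Step d}
    (h : Fin.append a b ∈ saws d (M + N)) : a ∈ saws d M := by
  rw [mem_saws] at h ⊢
  intro t u htu
  simp only at htu
  have h1 := @h ⟨(t : ℕ), by omega⟩ ⟨(u : ℕ), by omega⟩ (by
    simp only
    rw [pos_append_left a b (by omega), pos_append_left a b (by omega)]
    exact htu)
  simp only [Fin.mk.injEq] at h1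
  exact Fin.ext h1

lemma saws_append_right {M N : ℕ} {a : Fin M → Step d} {b : Fin N → Step d}
    (h : Fin.append a b ∈ saws d (M + N)) : b ∈ saws d N := by
  rw [mem_saws] at h ⊢
  intro t u htu
  simp only at htu
  have h1 := @h ⟨M + (t : ℕ), by omega⟩ ⟨M + (u : ℕ), by omega⟩ (by
    simp only
    rw [pos_append_right a b, pos_append_right a b, htu])
  simp only [Fin.mk.injEq] at h1
  exact Fin.ext (by omega)

/-- a nonnegative sum over long SAWs is at most the double sum over the two halves -/
theorem sum_saws_append_le {M N : ℕ} (f : (Fin (M + N) → Step d) → ℝ) (hf : ∀ s, 0 ≤ f s) :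
    ∑ s ∈ saws d (M + N), f s ≤ ∑ a ∈ saws d M, ∑ b ∈ saws d N, f (Fin.append a b) := by
  classical
  rw [← Finset.sum_product']
  have hinj : Set.InjOn (fun p : (Fin M → Step d) × (Fin N → Step d) => Fin.append p.1 p.2)
      ((saws d M ×ˢ saws d N : Finset _) : Set _) := by
    intro p _ q _ hpq
    exact (Fin.appendEquiv M N).injective hpq
  rw [← Finset.sum_image (f := f) hinj]
  apply Finset.sum_le_sum_of_subset_of_nonneg
  · intro s hs
    rw [Finset.mem_image]
    obtain ⟨⟨a, b⟩, rfl⟩ := (Fin.appendEquiv M N).surjective s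
    exact ⟨(a, b), Finset.mem_product.mpr ⟨saws_append_left hs, saws_append_right hs⟩, rfl⟩
  · intro s _ _
    exact hf s

lemma el_append_left (κ : Kind) (x : V d) {M N : ℕ} (a : Fin M → Step d) (b : Fin N → Step d)
    (t : Fin M) : el κ x (Fin.append a b) (Fin.castAdd N t) = el κ x a t := by
  have h1 : pos (Fin.append a b) (t : ℕ) = pos a (t : ℕ) := pos_append_left a b (by omega)
  have h2 : pos (Fin.append a b) ((t : ℕ) + 1) = pos a ((t : ℕ) + 1) :=
    pos_append_left a b (by omega)
  cases κ <;> simp [el, h1, h2]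

lemma el_append_right (κ : Kind) (x : V d) {M N : ℕ} (a : Fin M → Step d) (b : Fin N → Step d)
    (t : Fin N) :
    el κ x (Fin.append a b) (Fin.natAdd M t) = el κ (x + pos a M) b t := by
  have h1 : pos (Fin.append a b) (M + (t : ℕ)) = pos a M + pos b (t : ℕ) :=
    pos_append_right a b _
  have h2 : pos (Fin.append a b) (M + ((t : ℕ) + 1)) = pos a M + pos b ((t : ℕ) + 1) :=
    pos_append_right a b _
  cases κ <;> simp [el, h1, h2, add_assoc]

/-- a SAW uses distinct elements -/
lemma el_injective (κ : Kind) (x : V d) {N : ℕ} {s : Fin N → Step d} (hs : IsSAW s) :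
    Function.Injective (el κ x s) := by
  have key : ∀ t u : ℕ, t ≤ N → u ≤ N → pos s t = pos s u → t = u := by
    intro t u ht hu h
    have h1 := @hs ⟨t, by omega⟩ ⟨u, by omega⟩ h
    simpa using h1
  intro t u h
  cases κ with
  | bond =>
    simp only [el] at h
    rw [Sym2.eq_iff] at h
    rcases h with ⟨h1, -⟩ | ⟨h1, h2⟩
    · exact Fin.ext (key _ _ (by omega) (by omega) (add_left_cancel h1))
    · have e1 := key _ _ (by omega) (by omega) (add_left_cancel h1)
      have e2 := key _ _ (by omega) (by omega) (add_left_cancel h2)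
      omega
  | site =>
    simp only [el] at h
    rw [Sym2.eq_iff] at h
    have h1 : x + pos s ((t : ℕ) + 1) = x + pos s ((u : ℕ) + 1) := by
      rcases h with ⟨h1, -⟩ | ⟨h1, -⟩ <;> exact h1
    have e1 := key _ _ (by omega) (by omega) (add_left_cancel h1)
    exact Fin.ext (by omega)

lemma card_saws_le (d N : ℕ) : ((saws d N).card : ℝ) ≤ (2 * d : ℝ) ^ N := by
  classical
  have h1 : (saws d N).card ≤ Fintype.card (Fin N → Step d) := Finset.card_le_univ _
  have h2 : Fintype.card (Fin N → Step d) = (2 * d) ^ N := by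
    rw [Fintype.card_fun, Fintype.card_prod, Fintype.card_fin, Fintype.card_fin, Fintype.card_bool]
    congr 1
    ring
  rw [h2] at h1
  exact_mod_cast h1

/-- translation of elements -/
lemma el_add (κ : Kind) (x v : V d) {N : ℕ} (s : Fin N → Step d) (t : Fin N) :
    el κ (x + v) s t = (el κ x s t).map (· + v) := by
  cases κ <;> simp [el, add_right_comm]

/-- both endpoints of an element are within `ℓ∞` distance `N` of the start -/
lemma el_mem_near (κ : Kind) (x : V d) {N : ℕ} (s : Fin N → Step d) (t : Fin N) {y : V d}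
    (hy : y ∈ el κ x s t) (i : Fin d) : |y i - x i| ≤ N := by
  have key : ∀ u : ℕ, u ≤ N → y = x + pos s u → |y i - x i| ≤ N := by
    intro u hu h
    rw [h, Pi.add_apply, add_sub_cancel_left]
    refine (abs_pos_le s u i).trans ?_
    exact_mod_cast hu
  cases κ with
  | bond =>
    simp only [el, Sym2.mem_iff] at hy
    rcases hy with h | h
    · exact key _ (by omega) h
    · exact key _ (by omega) h
  | site =>
    simp only [el, Sym2.mem_iff, or_self] at hy
    exact key _ (by omega) hy

lemma S_nonneg (κ : Kind) (g : El d → ℕ) (N : ℕ) (x : V d) : 0 ≤ S κ g N x := by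
  unfold S
  positivity

lemma one_le_W (κ : Kind) (g : El d → ℕ) (N : ℕ) (B : Finset (V d)) : 1 ≤ W κ g N B := by
  unfold W
  have : 0 ≤ ∑ x ∈ B, S κ g N x := Finset.sum_nonneg (fun x _ => S_nonneg κ g N x)
  linarith

lemma path_S_le (κ : Kind) (g : El d → ℕ) (N : ℕ) (x : V d) : S κ g N x ≤ (2 * d : ℝ) ^ N := by
  unfold S
  refine (Finset.sum_le_card_nsmul _ _ 1 ?_).trans ?_
  · intro s _
    rw [Real.exp_le_one_iff]
    have : (0 : ℝ) ≤ (En κ g x s : ℝ) := by positivity
    linarith
  · rw [nsmul_eq_mul, mul_one]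
    exact card_saws_le d N

lemma W_le (κ : Kind) (g : El d → ℕ) (N : ℕ) (B : Finset (V d)) :
    W κ g N B ≤ 1 + B.card * (2 * d : ℝ) ^ N := by
  unfold W
  have : ∑ x ∈ B, S κ g N x ≤ B.card * (2 * d : ℝ) ^ N := by
    refine (Finset.sum_le_card_nsmul _ _ ((2 * d : ℝ) ^ N) (fun x _ => path_S_le κ g N x)).trans ?_
    rw [nsmul_eq_mul]
  linarith

lemma Lg_nonneg (κ : Kind) (g : El d → ℕ) (N : ℕ) (B : Finset (V d)) : 0 ≤ Lg κ g N B :=
  Real.log_nonneg (one_le_W κ g N B)

lemma Lg_le (κ : Kind) (g : El d → ℕ) (N : ℕ) (B : Finset (V d)) :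
    Lg κ g N B ≤ Real.log (1 + B.card * (2 * d : ℝ) ^ N) :=
  Real.log_le_log (by linarith [one_le_W κ g N B]) (W_le κ g N B)

lemma Lg_mono (κ : Kind) (g : El d → ℕ) (N : ℕ) {B B' : Finset (V d)} (h : B ⊆ B') :
    Lg κ g N B ≤ Lg κ g N B' := by
  apply Real.log_le_log (by linarith [one_le_W κ g N B])
  unfold W
  have := Finset.sum_le_sum_of_subset_of_nonneg h (f := fun x => S κ g N x)
    (fun x _ _ => S_nonneg κ g N x)
  linarith

/-- the finite set of elements used by paths of length `N` started in `B` -/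
noncomputable def supp (κ : Kind) (N : ℕ) (B : Finset (V d)) : Finset (El d) :=
  B.biUnion fun x => (saws d N).biUnion fun s => Finset.univ.image (el κ x s)

lemma el_mem_supp (κ : Kind) {N : ℕ} {B : Finset (V d)} {x : V d} (hx : x ∈ B)
    {s : Fin N → Step d} (hs : s ∈ saws d N) (t : Fin N) : el κ x s t ∈ supp κ N B := by
  unfold supp
  rw [Finset.mem_biUnion]
  refine ⟨x, hx, ?_⟩
  rw [Finset.mem_biUnion]
  exact ⟨s, hs, Finset.mem_image_of_mem _ (Finset.mem_univ t)⟩

lemma Lg_congr (κ : Kind) {g g' : El d → ℕ} (N : ℕ) (B : Finset (V d))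
    (h : ∀ e ∈ supp κ N B, g e = g' e) : Lg κ g N B = Lg κ g' N B := by
  unfold Lg W
  have : ∑ x ∈ B, S κ g N x = ∑ x ∈ B, S κ g' N x := by
    apply Finset.sum_congr rfl
    intro x hx
    unfold S
    apply Finset.sum_congr rfl
    intro s hs
    have : En κ g x s = En κ g' x s := by
      unfold En
      apply Finset.sum_congr rfl
      intro t _
      exact h _ (el_mem_supp κ hx hs t)
    rw [this]
  rw [this]

lemma card_box (v : V d) (m : ℕ) : (box v m).card = m ^ d := by
  unfold box
  rw [Fintype.card_piFinset]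
  simp

lemma mem_box {v x : V d} {m : ℕ} : x ∈ box v m ↔ ∀ i, v i ≤ x i ∧ x i < v i + m := by
  unfold box
  simp [Fintype.mem_piFinset]

end Pool.Agent.H41.QC
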