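import Mathlib

/-! # QC module Prod: product measures, functions of finitely many coordinates -/

open MeasureTheory

namespace Pool.Agent.H41.QC

variable {ι ι' α : Type*}

/-- `F` depends only on the coordinates in `Λ` -/
def Dep {β : Type*} (Λ : Finset ι) (F : (ι → α) → β) : Prop :=
  ∀ ω ω' : ι → α, (∀ e ∈ Λ, ω e = ω' e) → F ω = F ω'

/-- iid product measure -/
noncomputable abbrev PP (ι : Type*) {α : Type*} [MeasurableSpace α] (μ : Measure α)
    [IsProbabilityMeasure μ] : Measure (ι → α) :=
  Measure.infinitePi (fun _ : ι => μ)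

variable [MeasurableSpace α] [MeasurableSingletonClass α] [Countable α]

open Classical in
/-- extension of a finite configuration by a constant -/
noncomputable def extc (Λ : Finset ι) (a0 : α) (f : Λ → α) : ι → α :=
  fun i => if h : i ∈ Λ then f ⟨i, h⟩ else a0

omit [MeasurableSpace α] [MeasurableSingletonClass α] [Countable α] in
lemma Dep.eq_extc {β : Type*} {Λ : Finset ι} {F : (ι → α) → β} (h : Dep Λ F) (a0 : α)
    (ω : ι → α) : F ω = F (extc Λ a0 (fun e : Λ => ω e)) := by
  apply h
  intro e he
  simp [extc, he]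

lemma Dep.measurable {β : Type*} [MeasurableSpace β] {Λ : Finset ι} {F : (ι → α) → β}
    (h : Dep Λ F) [Nonempty α] : Measurable F := by
  classical
  obtain ⟨a0⟩ := (inferInstance : Nonempty α)
  have h1 : F = (fun f : Λ → α => F (extc Λ a0 f)) ∘ (fun ω (e : Λ) => ω e) := by
    funext ω
    exact h.eq_extc a0 ω
  rw [h1]
  apply Measurable.comp
  · exact measurable_of_countable _
  · exact measurable_pi_lambda _ (fun e => measurable_pi_apply _)

lemma Dep.measurableSet {Λ : Finset ι} {A : Set (ι → α)} (h : Dep Λ (fun ω => ω ∈ A))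
    [Nonempty α] : MeasurableSet A := by
  have h1 : Measurable (fun ω => ω ∈ A) := h.measurable
  exact measurableSet_setOfPred.mpr h1

variable (μ : Measure α) [IsProbabilityMeasure μ]

omit [MeasurableSingletonClass α] [Countable α] in
lemma measurable_upd2 [DecidableEq ι] (e : ι) :
    Measurable (fun x : α × (ι → α) => Function.update x.2 e x.1) := by
  rw [measurable_pi_iff]
  intro i
  by_cases h : i = e
  · subst h
    simpa using measurable_fst
  · simp only [Function.update_of_ne h]
    exact (measurable_pi_apply i).comp measurable_snd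

omit [MeasurableSingletonClass α] [Countable α] in
lemma map_upd2 [DecidableEq ι] (e : ι) :
    (μ.prod (PP ι μ)).map (fun x : α × (ι → α) => Function.update x.2 e x.1) = PP ι μ := by
  apply Measure.eq_infinitePi
  intro s t ht
  rw [Measure.map_apply (measurable_upd2 e) (MeasurableSet.pi s.countable_toSet (fun i _ => ht i))]
  by_cases he : e ∈ s
  · have : (fun x : α × (ι → α) => Function.update x.2 e x.1) ⁻¹' (Set.pi s t)
        = t e ×ˢ (Set.pi (s.erase e) t) := by
      ext ⟨b, x⟩
      simp only [Set.mem_preimage, Set.mem_pi, Finset.mem_coe, Set.mem_prod, Finset.mem_erase]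
      constructor
      · intro h
        refine ⟨by simpa using h e he, fun i hi => ?_⟩
        have := h i hi.2
        rwa [Function.update_of_ne hi.1] at this
      · rintro ⟨h1, h2⟩ i hi
        by_cases hie : i = e
        · subst hie; simpa using h1
        · rw [Function.update_of_ne hie]
          exact h2 i ⟨hie, hi⟩
    rw [this, Measure.prod_prod,
      Measure.infinitePi_pi (μ := fun _ : ι => μ) (fun i _ => ht i),
      Finset.mul_prod_erase s (fun i => μ (t i)) he]
  · have : (fun x : α × (ι → α) => Function.update x.2 e x.1) ⁻¹' (Set.pi s t)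
        = Set.univ ×ˢ (Set.pi s t) := by
      ext ⟨b, x⟩
      simp only [Set.mem_preimage, Set.mem_pi, Finset.mem_coe, Set.mem_prod, Set.mem_univ, true_and]
      have hne : ∀ i ∈ s, i ≠ e := fun i hi h => he (h ▸ hi)
      constructor
      · intro h i hi
        have := h i hi
        rwa [Function.update_of_ne (hne i hi)] at this
      · intro h i hi
        rw [Function.update_of_ne (hne i hi)]
        exact h i hi
    rw [this, Measure.prod_prod,
      Measure.infinitePi_pi (μ := fun _ : ι => μ) (fun i _ => ht i), measure_univ, one_mul]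

omit [MeasurableSingletonClass α] [Countable α] in
include μ in
lemma nonempty_of_prob : Nonempty α := by
  by_contra h
  rw [not_nonempty_iff] at h
  have h1 : μ Set.univ = 1 := measure_univ
  rw [Set.univ_eq_empty_iff.mpr h] at h1
  simp at h1

/-- bounded functions of finitely many coordinates are integrable -/
lemma Dep.integrable {Λ : Finset ι} {F : (ι → α) → ℝ} (h : Dep Λ F)
    {C : ℝ} (hC : ∀ ω, |F ω| ≤ C) : Integrable F (PP ι μ) := by
  have := nonempty_of_prob μ
  exact Integrable.of_bound h.measurable.aestronglyMeasurable C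
    (Filter.Eventually.of_forall (fun ω => by simpa using hC ω))

/-- averaging out one coordinate -/
theorem integral_resample [DecidableEq ι] {Λ : Finset ι} {F : (ι → α) → ℝ} (h : Dep Λ F)
    {C : ℝ} (hC : ∀ ω, |F ω| ≤ C) (e : ι) :
    ∫ g, F g ∂(PP ι μ) = ∫ a, ∫ g, F (Function.update g e a) ∂(PP ι μ) ∂μ := by
  have := nonempty_of_prob μ
  conv_lhs => rw [← map_upd2 μ e]
  rw [integral_map (measurable_upd2 e).aemeasurable h.measurable.aestronglyMeasurable]
  rw [integral_prod]
  exact Integrable.of_bound (h.measurable.comp (measurable_upd2 e)).aestronglyMeasurable C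
    (Filter.Eventually.of_forall (fun ω => by simpa using hC _))

/-- the averaged function -/
noncomputable def avo [DecidableEq ι] (e : ι) (F : (ι → α) → ℝ) : (ι → α) → ℝ :=
  fun g => ∫ a, F (Function.update g e a) ∂μ

/-- averaging out one coordinate, the other order of integration -/
theorem integral_avo [DecidableEq ι] {Λ : Finset ι} {F : (ι → α) → ℝ} (h : Dep Λ F)
    {C : ℝ} (hC : ∀ ω, |F ω| ≤ C) (e : ι) :
    ∫ g, avo μ e F g ∂(PP ι μ) = ∫ g, F g ∂(PP ι μ) := by
  have := nonempty_of_prob μ
  conv_rhs => rw [← map_upd2 μ e]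
  rw [integral_map (measurable_upd2 e).aemeasurable h.measurable.aestronglyMeasurable]
  rw [integral_prod_symm]
  · rfl
  exact Integrable.of_bound (h.measurable.comp (measurable_upd2 e)).aestronglyMeasurable C
    (Filter.Eventually.of_forall (fun ω => by simpa using hC _))

omit [MeasurableSingletonClass α] [Countable α] [IsProbabilityMeasure μ] in
lemma Dep.avo [DecidableEq ι] {Λ : Finset ι} {F : (ι → α) → ℝ} {e : ι}
    (h : Dep (insert e Λ) F) : Dep Λ (avo μ e F) := by
  intro ω ω' hω
  unfold QC.avo
  congr 1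
  funext a
  apply h
  intro i hi
  by_cases hie : i = e
  · subst hie; simp
  · rw [Function.update_of_ne hie, Function.update_of_ne hie]
    rcases Finset.mem_insert.mp hi with h1 | h1
    · exact absurd h1 hie
    · exact hω i h1

omit [MeasurableSingletonClass α] [Countable α] in
lemma abs_avo_le [DecidableEq ι] {F : (ι → α) → ℝ}
    {C : ℝ} (hC : ∀ ω, |F ω| ≤ C) (e : ι) (g : ι → α) : |avo μ e F g| ≤ C := by
  unfold avo
  have := norm_integral_le_of_norm_le_const (μ := μ) (f := fun a => F (Function.update g e a))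
    (C := C) (Filter.Eventually.of_forall (fun a => by simpa using hC _))
  simpa using this

lemma integrable_single {f : α → ℝ} {C : ℝ} (hC : ∀ a, |f a| ≤ C) : Integrable f μ :=
  Integrable.of_bound (measurable_of_countable f).aestronglyMeasurable C
    (Filter.Eventually.of_forall (fun a => by simpa using hC a))

/-- the variance is at most the second moment about any point -/
lemma single_var {f : α → ℝ} {C : ℝ} (hC : ∀ a, |f a| ≤ C) (c : ℝ) :
    ∫ a, f a ^ 2 ∂μ - (∫ a, f a ∂μ) ^ 2 ≤ ∫ a, (f a - c) ^ 2 ∂μ := by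
  have h1 : Integrable f μ := integrable_single μ hC
  have h2 : Integrable (fun a => f a ^ 2) μ := by
    refine integrable_single μ (C := C ^ 2) (fun a => ?_)
    rw [abs_pow]
    exact pow_le_pow_left₀ (abs_nonneg _) (hC a) 2
  have h3 : ∫ a, (f a - c) ^ 2 ∂μ = ∫ a, f a ^ 2 ∂μ - 2 * c * ∫ a, f a ∂μ + c ^ 2 := by
    have : ∀ a, (f a - c) ^ 2 = f a ^ 2 - 2 * c * f a + c ^ 2 := fun a => by ring
    simp_rw [this]
    have e1 : Integrable (fun a => f a ^ 2 - 2 * c * f a) μ := h2.sub (h1.const_mul _)
    rw [integral_add e1 (integrable_const _),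
      integral_sub h2 (h1.const_mul _), integral_const_mul]
    simp
  rw [h3]
  nlinarith [sq_nonneg (∫ a, f a ∂μ - c)]

/-- Jensen for squares -/
lemma single_jensen {f : α → ℝ} {C : ℝ} (hC : ∀ a, |f a| ≤ C) :
    (∫ a, f a ∂μ) ^ 2 ≤ ∫ a, f a ^ 2 ∂μ := by
  have h1 : Integrable f μ := integrable_single μ hC
  have h2 : Integrable (fun a => f a ^ 2) μ := by
    refine integrable_single μ (C := C ^ 2) (fun a => ?_)
    rw [abs_pow]
    exact pow_le_pow_left₀ (abs_nonneg _) (hC a) 2
  set m := ∫ a, f a ∂μ with hm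
  have h3 : ∫ a, (f a - m) ^ 2 ∂μ = ∫ a, f a ^ 2 ∂μ - 2 * m * ∫ a, f a ∂μ + m ^ 2 := by
    have : ∀ a, (f a - m) ^ 2 = f a ^ 2 - 2 * m * f a + m ^ 2 := fun a => by ring
    simp_rw [this]
    have e1 : Integrable (fun a => f a ^ 2 - 2 * m * f a) μ := h2.sub (h1.const_mul _)
    rw [integral_add e1 (integrable_const _),
      integral_sub h2 (h1.const_mul _), integral_const_mul]
    simp
  have h4 : 0 ≤ ∫ a, (f a - m) ^ 2 ∂μ := integral_nonneg (fun a => sq_nonneg _)
  rw [← hm] at h3
  nlinarith

omit [MeasurableSpace α] [MeasurableSingletonClass α] [Countable α] in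
lemma Dep.mono {β : Type*} {Λ Λ' : Finset ι} {F : (ι → α) → β} (h : Dep Λ F) (hΛ : Λ ⊆ Λ') :
    Dep Λ' F := fun ω ω' hω => h ω ω' (fun e he => hω e (hΛ he))

omit [MeasurableSpace α] [MeasurableSingletonClass α] [Countable α] in
lemma Dep.update [DecidableEq ι] {β : Type*} {Λ : Finset ι} {F : (ι → α) → β} (h : Dep Λ F)
    (e : ι) (a : α) : Dep Λ (fun g => F (Function.update g e a)) := by
  intro ω ω' hω
  apply h
  intro i hi
  by_cases hie : i = e
  · subst hie; simp
  · rw [Function.update_of_ne hie, Function.update_of_ne hie]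
    exact hω i hi

/-- Efron-Stein with a reference value -/
theorem efron [DecidableEq ι] {Λ : Finset ι} {F : (ι → α) → ℝ} (h : Dep Λ F)
    {C : ℝ} (hC : ∀ ω, |F ω| ≤ C) (a0 : α) :
    ∫ g, F g ^ 2 ∂(PP ι μ) - (∫ g, F g ∂(PP ι μ)) ^ 2
      ≤ ∑ e ∈ Λ, ∫ g, (F g - F (Function.update g e a0)) ^ 2 ∂(PP ι μ) := by
  induction Λ using Finset.induction_on generalizing F with
  | empty =>
    have hc : ∀ ω, F ω = F (fun _ => a0) := fun ω => h _ _ (by simp)
    simp [hc]
  | insert e Λ he ih =>
    rw [Finset.sum_insert he]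
    set G := avo μ e F with hG
    have hGdep : Dep Λ G := h.avo μ
    have hGC : ∀ ω, |G ω| ≤ C := abs_avo_le μ hC e
    have hEG : ∫ g, G g ∂(PP ι μ) = ∫ g, F g ∂(PP ι μ) := integral_avo μ h hC e
    have hC0 : 0 ≤ C := le_trans (abs_nonneg _) (hC (fun _ => a0))
    -- second moments
    have hF2dep : Dep (insert e Λ) (fun g => F g ^ 2) := fun ω ω' hω => by
      show F ω ^ 2 = F ω' ^ 2
      rw [h ω ω' hω]
    have hF2C : ∀ ω, |F ω ^ 2| ≤ C ^ 2 := fun ω => by
      rw [abs_pow]
      exact pow_le_pow_left₀ (abs_nonneg _) (hC ω) 2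
    have hEF2 : ∫ g, avo μ e (fun g => F g ^ 2) g ∂(PP ι μ) = ∫ g, F g ^ 2 ∂(PP ι μ) :=
      integral_avo μ hF2dep hF2C e
    -- the difference at e
    have hDdep : ∀ i, Dep (insert e Λ) (fun g => (F g - F (Function.update g i a0)) ^ 2) :=
      fun i ω ω' hω => by
        show (F ω - F (Function.update ω i a0)) ^ 2 = (F ω' - F (Function.update ω' i a0)) ^ 2
        have h5 : F (Function.update ω i a0) = F (Function.update ω' i a0) :=
          h.update i a0 ω ω' hω
        rw [h ω ω' hω, h5]
    have hDb : ∀ i ω, |F ω - F (Function.update ω i a0)| ≤ 2 * C := fun i ω => by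
      have h1 := hC ω
      have h2 := hC (Function.update ω i a0)
      rw [abs_le] at h1 h2 ⊢
      constructor <;> linarith [h1.1, h1.2, h2.1, h2.2]
    have hDC : ∀ i ω, |(F ω - F (Function.update ω i a0)) ^ 2| ≤ (2 * C) ^ 2 := fun i ω => by
      rw [abs_pow]
      exact pow_le_pow_left₀ (abs_nonneg _) (hDb i ω) 2
    have hED : ∀ i, ∫ g, avo μ e (fun g => (F g - F (Function.update g i a0)) ^ 2) g ∂(PP ι μ)
        = ∫ g, (F g - F (Function.update g i a0)) ^ 2 ∂(PP ι μ) :=
      fun i => integral_avo μ (hDdep i) (hDC i) e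
    have hG2dep : Dep Λ (fun g => G g ^ 2) := fun ω ω' hω => by
      show G ω ^ 2 = G ω' ^ 2
      rw [hGdep ω ω' hω]
    have hG2C : ∀ ω, |G ω ^ 2| ≤ C ^ 2 := fun ω => by
      rw [abs_pow]
      exact pow_le_pow_left₀ (abs_nonneg _) (hGC ω) 2
    have hAF2int : Integrable (avo μ e (fun g => F g ^ 2)) (PP ι μ) :=
      (hF2dep.avo μ).integrable μ (abs_avo_le μ hF2C e)
    have hG2int : Integrable (fun g => G g ^ 2) (PP ι μ) := hG2dep.integrable μ hG2C
    have hDint : ∀ i, Integrable (avo μ e (fun g => (F g - F (Function.update g i a0)) ^ 2))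
        (PP ι μ) := fun i => ((hDdep i).avo μ).integrable μ (abs_avo_le μ (hDC i) e)
    -- step A
    have hA : ∫ g, F g ^ 2 ∂(PP ι μ) - ∫ g, G g ^ 2 ∂(PP ι μ)
        ≤ ∫ g, (F g - F (Function.update g e a0)) ^ 2 ∂(PP ι μ) := by
      rw [← hEF2, ← hED e, ← integral_sub hAF2int hG2int]
      apply integral_mono (hAF2int.sub hG2int) (hDint e)
      intro g
      have := single_var μ (f := fun a => F (Function.update g e a)) (C := C)
        (fun a => hC _) (F (Function.update g e a0))
      simpa [avo, hG] using this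
    -- step B
    have hB := ih hGdep hGC
    have hC' : ∑ i ∈ Λ, ∫ g, (G g - G (Function.update g i a0)) ^ 2 ∂(PP ι μ)
        ≤ ∑ i ∈ Λ, ∫ g, (F g - F (Function.update g i a0)) ^ 2 ∂(PP ι μ) := by
      apply Finset.sum_le_sum
      intro i hi
      have hie : i ≠ e := fun h' => he (h' ▸ hi)
      rw [← hED i]
      have hdep2 : Dep Λ (fun g => (G g - G (Function.update g i a0)) ^ 2) := fun ω ω' hω => by
        show (G ω - G (Function.update ω i a0)) ^ 2 = (G ω' - G (Function.update ω' i a0)) ^ 2
        have h5 : G (Function.update ω i a0) = G (Function.update ω' i a0) :=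
          hGdep.update i a0 ω ω' hω
        rw [hGdep ω ω' hω, h5]
      have hbd2 : ∀ ω, |(G ω - G (Function.update ω i a0)) ^ 2| ≤ (2 * C) ^ 2 := fun ω => by
        rw [abs_pow]
        apply pow_le_pow_left₀ (abs_nonneg _)
        have h1 := hGC ω
        have h2 := hGC (Function.update ω i a0)
        rw [abs_le] at h1 h2 ⊢
        constructor <;> linarith [h1.1, h1.2, h2.1, h2.2]
      apply integral_mono (hdep2.integrable μ hbd2) (hDint i)
      intro g
      show (G g - G (Function.update g i a0)) ^ 2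
        ≤ ∫ a, (F (Function.update g e a)
          - F (Function.update (Function.update g e a) i a0)) ^ 2 ∂μ
      have h1 : G g - G (Function.update g i a0)
          = ∫ a, (F (Function.update g e a)
            - F (Function.update (Function.update g e a) i a0)) ∂μ := by
        rw [integral_sub (integrable_single μ (C := C) (fun a => hC _))
          (integrable_single μ (C := C) (fun a => hC _))]
        rw [hG]
        unfold avo
        congr 1
        congr 1
        funext a
        rw [Function.update_comm hie]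
      rw [h1]
      exact single_jensen μ (C := 2 * C) (fun a => hDb i _)
    rw [hEG] at hB
    linarith

omit [MeasurableSingletonClass α] [Countable α] in
/-- law of finitely many distinct coordinates -/
lemma law_comp {Λ : Finset ι} (f : ι → ι') (hf : Set.InjOn f Λ) :
    (PP ι' μ).map (fun g (e : Λ) => g (f e)) = Measure.pi (fun _ : Λ => μ) := by
  classical
  symm
  apply Measure.pi_eq
  intro t ht
  have hmeas : Measurable (fun (g : ι' → α) (e : Λ) => g (f e)) :=
    measurable_pi_lambda _ (fun e => measurable_pi_apply _)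
  rw [Measure.map_apply hmeas (MeasurableSet.univ_pi ht)]
  -- an inverse on the image
  let T : ι' → Set α := fun j => if h : ∃ e : Λ, f e = j then t h.choose else Set.univ
  have hT : ∀ e : Λ, T (f e) = t e := by
    intro e
    have h : ∃ e' : Λ, f e' = f e := ⟨e, rfl⟩
    have h2 : h.choose = e := by
      have h3 := h.choose_spec
      exact Subtype.ext (hf h.choose.2 e.2 h3)
    show (if h : ∃ e' : Λ, f e' = f e then t h.choose else Set.univ) = t e
    rw [dif_pos h, h2]
  have hTm : ∀ j, MeasurableSet (T j) := by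
    intro j
    show MeasurableSet (if h : ∃ e : Λ, f e = j then t h.choose else Set.univ)
    split_ifs with h
    · exact ht _
    · exact MeasurableSet.univ
  have hset : (fun (g : ι' → α) (e : Λ) => g (f e)) ⁻¹' (Set.univ.pi t)
      = Set.pi (↑(Λ.image f)) T := by
    ext g
    simp only [Set.mem_preimage, Set.mem_pi, Set.mem_univ, true_implies, Finset.coe_image,
      Set.mem_image, Finset.mem_coe, forall_exists_index, and_imp]
    constructor
    · rintro h j e he rfl
      rw [hT ⟨e, he⟩]
      exact h ⟨e, he⟩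
    · intro h e
      rw [← hT e]
      exact h _ e e.2 rfl
  rw [hset, Measure.infinitePi_pi (μ := fun _ : ι' => μ) (fun j _ => hTm j),
    Finset.prod_image (fun a ha b hb hab => hf ha hb hab), ← Finset.prod_coe_sort Λ]
  apply Finset.prod_congr rfl
  intro e _
  rw [hT e]

/-- law of a relabelled configuration -/
theorem integral_comp_injOn {Λ : Finset ι} {F : (ι → α) → ℝ} (h : Dep Λ F)
    {C : ℝ} (hC : ∀ ω, |F ω| ≤ C) (f : ι → ι') (hf : Set.InjOn f Λ) :
    ∫ g, F (fun e => g (f e)) ∂(PP ι' μ) = ∫ g, F g ∂(PP ι μ) := by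
  obtain ⟨a0⟩ := nonempty_of_prob μ
  have hm1 : Measurable (fun (g : ι' → α) (e : Λ) => g (f e)) :=
    measurable_pi_lambda _ (fun e => measurable_pi_apply _)
  have hm2 : Measurable (fun (g : ι → α) (e : Λ) => g (id (e : ι))) :=
    measurable_pi_lambda _ (fun e => measurable_pi_apply _)
  have hm3 : Measurable (fun u : Λ → α => F (extc Λ a0 u)) := measurable_of_countable _
  have h1 : ∫ g, F (fun e => g (f e)) ∂(PP ι' μ)
      = ∫ u, F (extc Λ a0 u) ∂(Measure.pi (fun _ : Λ => μ)) := by
    rw [← law_comp μ f hf, integral_map hm1.aemeasurable hm3.aestronglyMeasurable]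
    congr 1
    funext g
    exact h.eq_extc a0 _
  have h2 : ∫ g, F g ∂(PP ι μ)
      = ∫ u, F (extc Λ a0 u) ∂(Measure.pi (fun _ : Λ => μ)) := by
    rw [← law_comp μ (id : ι → ι) (Set.injOn_id _),
      integral_map hm2.aemeasurable hm3.aestronglyMeasurable]
    congr 1
    funext g
    exact h.eq_extc a0 _
  rw [h1, h2]

/-- the same for events -/
theorem measure_comp_injOn {Λ : Finset ι} {A : Set (ι → α)} (h : Dep Λ (fun ω => ω ∈ A))
    (f : ι → ι') (hf : Set.InjOn f Λ) :
    (PP ι' μ) {g | (fun e => g (f e)) ∈ A} = (PP ι μ) A := by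
  obtain ⟨a0⟩ := nonempty_of_prob μ
  have hm1 : Measurable (fun (g : ι' → α) (e : Λ) => g (f e)) :=
    measurable_pi_lambda _ (fun e => measurable_pi_apply _)
  have hm2 : Measurable (fun (g : ι → α) (e : Λ) => g (id (e : ι))) :=
    measurable_pi_lambda _ (fun e => measurable_pi_apply _)
  have hm3 : MeasurableSet {u : Λ → α | extc Λ a0 u ∈ A} := Set.Countable.measurableSet
    (Set.to_countable _)
  have h1 : (PP ι' μ) {g | (fun e => g (f e)) ∈ A}
      = (Measure.pi (fun _ : Λ => μ)) {u : Λ → α | extc Λ a0 u ∈ A} := by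
    rw [← law_comp μ f hf, Measure.map_apply hm1 hm3]
    congr 1
    ext g
    exact iff_of_eq (h.eq_extc a0 _)
  have h2 : (PP ι μ) A
      = (Measure.pi (fun _ : Λ => μ)) {u : Λ → α | extc Λ a0 u ∈ A} := by
    rw [← law_comp μ (id : ι → ι) (Set.injOn_id _), Measure.map_apply hm2 hm3]
    congr 1
    ext g
    exact iff_of_eq (h.eq_extc a0 _)
  rw [h1, h2]

/-- independence of functions of disjoint coordinates -/
theorem integral_mul_of_disjoint {Λ Λ' : Finset ι} {F G : (ι → α) → ℝ} (hF : Dep Λ F)
    (hG : Dep Λ' G) (hd : Disjoint Λ Λ') {C : ℝ} (hCF : ∀ ω, |F ω| ≤ C) (hCG : ∀ ω, |G ω| ≤ C) :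
    ∫ g, F g * G g ∂(PP ι μ) = (∫ g, F g ∂(PP ι μ)) * ∫ g, G g ∂(PP ι μ) := by
  classical
  induction Λ using Finset.induction_on generalizing F with
  | empty =>
    obtain ⟨a0⟩ := nonempty_of_prob μ
    have hc : ∀ ω, F ω = F (fun _ => a0) := fun ω => hF _ _ (by simp)
    simp_rw [hc]
    rw [integral_const_mul]
    simp
  | insert e Λ he ih =>
    have he' : e ∉ Λ' := fun h' => (Finset.disjoint_left.mp hd) (Finset.mem_insert_self _ _) h'
    have hd' : Disjoint Λ Λ' := Finset.disjoint_of_subset_left (Finset.subset_insert _ _) hd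
    have h1 : Dep (insert e Λ ∪ Λ') (fun g => F g * G g) := fun ω ω' hω => by
      show F ω * G ω = F ω' * G ω'
      rw [hF ω ω' (fun i hi => hω i (Finset.mem_union_left _ hi)),
        hG ω ω' (fun i hi => hω i (Finset.mem_union_right _ hi))]
    have h2 : ∀ ω, |F ω * G ω| ≤ C * C := fun ω => by
      rw [abs_mul]
      exact mul_le_mul (hCF ω) (hCG ω) (abs_nonneg _) (le_trans (abs_nonneg _) (hCF ω))
    rw [← integral_avo μ h1 h2 e, ← integral_avo μ hF hCF e,
      ← ih (hF.avo μ) hd' (abs_avo_le μ hCF e)]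
    congr 1
    funext g
    show ∫ a, F (Function.update g e a) * G (Function.update g e a) ∂μ
      = (∫ a, F (Function.update g e a) ∂μ) * G g
    rw [← integral_mul_const]
    congr 1
    funext a
    congr 1
    apply hG
    intro i hi
    have hie : i ≠ e := fun h' => he' (h' ▸ hi)
    rw [Function.update_of_ne hie]

end Pool.Agent.H41.QC
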