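import Pool.Agent.H41.QC.Nu
import Pool.Agent.H41.QC.Path
import Pool.Agent.H41.QC.Prod

/-! # QC module Trans: measurability, boundedness and translation invariance -/

open MeasureTheory
open Pool.Agent.H17.IIC

namespace Pool.Agent.H41.QC

variable {d : ℕ}

/-- translation of elements -/
def shE (v : V d) (e : El d) : El d := e.map (· + v)

lemma trans_shE_injective (v : V d) : Function.Injective (shE v : El d → El d) := by
  unfold shE
  exact Sym2.map.injective (add_left_injective v)

lemma trans_S_shift (κ : Kind) (g : El d → ℕ) (N : ℕ) (x v : V d) :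
    S κ g N (x + v) = S κ (fun e => g (shE v e)) N x := by
  unfold S En
  apply Finset.sum_congr rfl
  intro s _
  congr 2
  norm_cast
  apply Finset.sum_congr rfl
  intro t _
  rw [el_add]
  rfl

lemma Lg_shift (κ : Kind) (g : El d → ℕ) (N : ℕ) (v : V d) (m : ℕ) (w : V d) :
    Lg κ g N (box (w + v) m) = Lg κ (fun e => g (shE v e)) N (box w m) := by
  unfold Lg W
  congr 2
  symm
  apply Finset.sum_bij (fun x _ => x + v)
  · intro x hx
    rw [mem_box] at hx ⊢
    intro i
    have := hx i
    simp only [Pi.add_apply]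
    constructor <;> linarith [this.1, this.2]
  · intro x _ y _ h
    exact add_right_cancel h
  · intro y hy
    refine ⟨y - v, ?_, by simp⟩
    rw [mem_box] at hy ⊢
    intro i
    have := hy i
    simp only [Pi.add_apply] at this
    simp only [Pi.sub_apply]
    constructor <;> linarith [this.1, this.2]
  · intro x _
    exact (trans_S_shift κ g N x v).symm

lemma trans_dep_Lg (κ : Kind) (N : ℕ) (B : Finset (V d)) :
    Dep (supp κ N B) (fun g : El d → ℕ => Lg κ g N B) := by
  intro ω ω' h
  exact Lg_congr κ N B h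

lemma Lg_measurable (κ : Kind) (N : ℕ) (B : Finset (V d)) :
    Measurable (fun g : El d → ℕ => Lg κ g N B) :=
  (trans_dep_Lg κ N B).measurable

lemma trans_Q_prob (p : unitInterval) {M : ℕ} (hM : 1 ≤ M) : IsProbabilityMeasure (Q d p M) := by
  have := nu_prob p hM
  unfold Q
  infer_instance

lemma Lg_integrable (κ : Kind) (p : unitInterval) {M : ℕ} (hM : 1 ≤ M) (N : ℕ)
    (B : Finset (V d)) : Integrable (fun g : El d → ℕ => Lg κ g N B) (Q d p M) := by
  have : IsProbabilityMeasure (Q d p M) := trans_Q_prob p hM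
  refine Integrable.of_bound (Lg_measurable κ N B).aestronglyMeasurable
    (Real.log (1 + B.card * (2 * d : ℝ) ^ N)) (Filter.Eventually.of_forall fun g => ?_)
  rw [Real.norm_eq_abs, abs_of_nonneg (Lg_nonneg κ g N B)]
  exact Lg_le κ g N B

lemma Lg_sq_integrable (κ : Kind) (p : unitInterval) {M : ℕ} (hM : 1 ≤ M) (N : ℕ)
    (B : Finset (V d)) (c : ℝ) :
    Integrable (fun g : El d → ℕ => (Lg κ g N B - c) ^ 2) (Q d p M) := by
  have : IsProbabilityMeasure (Q d p M) := trans_Q_prob p hM
  refine Integrable.of_bound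
    (((Lg_measurable κ N B).sub_const c).pow_const 2).aestronglyMeasurable
    ((Real.log (1 + B.card * (2 * d : ℝ) ^ N) + |c|) ^ 2)
    (Filter.Eventually.of_forall fun g => ?_)
  rw [Real.norm_eq_abs, abs_of_nonneg (sq_nonneg _)]
  have h1 := Lg_nonneg κ g N B
  have h2 := Lg_le κ g N B
  apply sq_le_sq'
  · linarith [le_abs_self c, abs_nonneg c]
  · linarith [neg_abs_le c]

/-- the law of the soft environment is translation invariant -/
theorem Q_shift (p : unitInterval) {M : ℕ} (hM : 1 ≤ M) (v : V d) :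
    (Q d p M).map (fun g e => g (shE v e)) = Q d p M := by
  have := nu_prob p hM
  unfold Q
  exact Measure.map_infinitePi_infinitePi_of_inj (P := fun _ : El d => nu p M)
    (trans_shE_injective v)

lemma trans_measurable_shift {α : Type*} [MeasurableSpace α] (v : V d) :
    Measurable (fun (g : El d → α) (e : El d) => g (shE v e)) := by
  rw [measurable_pi_iff]
  intro e
  exact measurable_pi_apply _

theorem Phi_shift (κ : Kind) (p : unitInterval) {M : ℕ} (hM : 1 ≤ M) (N : ℕ) (v : V d) (m : ℕ) :
    Phi κ p M N (box v m) = Phi κ p M N (box (0 : V d) m) := by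
  unfold Phi
  have h1 : ∀ g : El d → ℕ, Lg κ g N (box v m)
      = Lg κ (fun e => g (shE v e)) N (box (0 : V d) m) := by
    intro g
    rw [← Lg_shift, zero_add]
  simp only [h1]
  conv_rhs => rw [← Q_shift p hM v]
  rw [integral_map (trans_measurable_shift v).aemeasurable
    (Lg_measurable κ N _).aestronglyMeasurable]

theorem var_shift (κ : Kind) (p : unitInterval) {M : ℕ} (hM : 1 ≤ M) (N : ℕ) (v : V d) (m : ℕ)
    (c : ℝ) :
    ∫ g, (Lg κ g N (box v m) - c) ^ 2 ∂(Q d p M) = ∫ g, (Lg κ g N (box (0 : V d) m) - c) ^ 2 ∂(Q d p M) := by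
  have h1 : ∀ g : El d → ℕ, Lg κ g N (box v m)
      = Lg κ (fun e => g (shE v e)) N (box (0 : V d) m) := by
    intro g
    rw [← Lg_shift, zero_add]
  simp only [h1]
  conv_rhs => rw [← Q_shift p hM v]
  rw [integral_map (trans_measurable_shift v).aemeasurable
    (((Lg_measurable κ N _).sub_const c).pow_const 2).aestronglyMeasurable]

/-- hard environment: translation invariance -/
theorem prodBern_shift (p : unitInterval) (v : V d) :
    (prodBern (El d) p).map (fun ω e => ω (shE v e)) = prodBern (El d) p := by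
  unfold prodBern
  exact Measure.map_infinitePi_infinitePi_of_inj (P := fun _ : El d => bern p)
    (trans_shE_injective v)

lemma Pn_shift (κ : Kind) (ω : El d → Bool) (N : ℕ) (x v : V d) :
    Pn κ ω N (x + v) = Pn κ (fun e => ω (shE v e)) N x := by
  unfold Pn
  congr 1
  apply Finset.filter_congr
  intro s _
  have h1 : ∀ t, el κ (x + v) s t = shE v (el κ x s t) := fun t => el_add κ x v s t
  have h2 : (s(x + v, x + v) : El d) = shE v s(x, x) := by
    unfold shE
    simp
  rw [h2]
  simp only [h1]

/-- open paths from `B` depend on the elements used and the starting vertices -/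
noncomputable def suppP (κ : Kind) (N : ℕ) (B : Finset (V d)) : Finset (El d) :=
  supp κ N B ∪ B.image (fun x => s(x, x))

lemma Pn_congr (κ : Kind) {ω ω' : El d → Bool} (N : ℕ) {B : Finset (V d)} {x : V d} (hx : x ∈ B)
    (h : ∀ e ∈ suppP κ N B, ω e = ω' e) : Pn κ ω N x = Pn κ ω' N x := by
  unfold Pn
  congr 1
  apply Finset.filter_congr
  intro s hs
  have h1 : ∀ t, ω (el κ x s t) = ω' (el κ x s t) := fun t =>
    h _ (Finset.mem_union_left _ (el_mem_supp κ hx hs t))
  have h2 : ω s(x, x) = ω' s(x, x) :=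
    h _ (Finset.mem_union_right _ (Finset.mem_image_of_mem _ hx))
  rw [h2]
  simp only [h1]

lemma suppP_near (κ : Kind) (N : ℕ) {B : Finset (V d)} {e : El d} (he : e ∈ suppP κ N B) :
    ∃ x ∈ B, ∀ y ∈ e, ∀ i, |y i - x i| ≤ N := by
  unfold suppP at he
  rcases Finset.mem_union.1 he with h | h
  · unfold supp at h
    rw [Finset.mem_biUnion] at h
    obtain ⟨x, hx, h⟩ := h
    rw [Finset.mem_biUnion] at h
    obtain ⟨s, _, h⟩ := h
    rw [Finset.mem_image] at h
    obtain ⟨t, _, rfl⟩ := h
    exact ⟨x, hx, fun y hy i => el_mem_near κ x s t hy i⟩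
  · rw [Finset.mem_image] at h
    obtain ⟨x, hx, rfl⟩ := h
    refine ⟨x, hx, fun y hy i => ?_⟩
    have : y = x := by simpa using hy
    subst this
    simp

lemma Pn_mono (κ : Kind) {ω ω' : El d → Bool} (N : ℕ) (x : V d)
    (h : ∀ e, ω e = true → ω' e = true) : Pn κ ω N x ≤ Pn κ ω' N x := by
  unfold Pn
  apply Finset.card_le_card
  intro s hs
  rw [Finset.mem_filter] at hs ⊢
  exact ⟨hs.1, fun t => h _ (hs.2.1 t), fun hκ => h _ (hs.2.2 hκ)⟩

/-- hard count is at most the soft partition function -/
theorem Pn_le_S (κ : Kind) (g : El d → ℕ) (N : ℕ) (x : V d) :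
    (Pn κ (fun e => decide (g e = 0)) N x : ℝ) ≤ S κ g N x := by
  unfold Pn S
  rw [Finset.card_eq_sum_ones, Nat.cast_sum, Finset.sum_filter]
  apply Finset.sum_le_sum
  intro s _
  split_ifs with hs
  swap
  · exact (Real.exp_pos _).le
  have h1 : En κ g x s = 0 := by
    unfold En
    apply Finset.sum_eq_zero
    intro t _
    exact of_decide_eq_true (hs.1 t)
  rw [h1]
  simp

end Pool.Agent.H41.QC
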