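import Pool.Agent.H41.QC.Coupling
import Pool.Agent.H41.QC.Trans

/-! # QC module Sprinkle: opening the few closed elements (paper 5) -/

open MeasureTheory
open Pool.Agent.H17.IIC

namespace Pool.Agent.H41.QC

variable {d : ℕ}

/-- the elements which have to be opened -/
noncomputable def toOpen {N : ℕ} (κ : Kind) (ω : El d → Bool) (x : V d) (s : Fin N → Step d) :
    Finset (El d) := by
  classical
  exact insert s(x, x) ((Finset.univ.filter (fun t => ω (el κ x s t) = false)).image (el κ x s))

lemma toOpen_card {N : ℕ} (κ : Kind) (ω : El d → Bool) (x : V d) (s : Fin N → Step d) :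
    (toOpen κ ω x s).card ≤ ncl κ ω x s + 1 := by
  classical
  unfold toOpen ncl
  refine (Finset.card_insert_le _ _).trans ?_
  have := Finset.card_image_le (s := Finset.univ.filter (fun t => ω (el κ x s t) = false))
    (f := el κ x s)
  omega

/-- the open paths after sprinkling include the prepared ones -/
lemma sprinkle_count (κ : Kind) (ω σ : El d → Bool) (N : ℕ) (x : V d) (H : ℕ) :
    ∑ s ∈ (saws d N).filter (fun s => ncl κ ω x s ≤ H),
      {σ : El d → Bool | ∀ e ∈ toOpen κ ω x s, σ e = true}.indicator (fun _ => (1 : ℝ)) σ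
      ≤ (Pn κ (fun e => ω e || σ e) N x : ℝ) := by
  classical
  rw [show ∑ s ∈ (saws d N).filter (fun s => ncl κ ω x s ≤ H),
      {σ : El d → Bool | ∀ e ∈ toOpen κ ω x s, σ e = true}.indicator (fun _ => (1 : ℝ)) σ
      = (((saws d N).filter (fun s => ncl κ ω x s ≤ H)).filter
        (fun s => ∀ e ∈ toOpen κ ω x s, σ e = true)).card from ?_]
  · unfold Pn
    norm_cast
    apply Finset.card_le_card
    intro s hs
    rw [Finset.mem_filter, Finset.mem_filter] at hs
    rw [Finset.mem_filter]
    refine ⟨hs.1.1, fun t => ?_, fun _ => ?_⟩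
    · by_cases h : ω (el κ x s t) = false
      · have h1 : el κ x s t ∈ toOpen κ ω x s := by
          unfold toOpen
          apply Finset.mem_insert_of_mem
          apply Finset.mem_image_of_mem
          simpa using h
        simp [hs.2 _ h1]
      · simp only [Bool.not_eq_false] at h
        simp [h]
    · have h1 : s(x, x) ∈ toOpen κ ω x s := by
        unfold toOpen
        exact Finset.mem_insert_self _ _
      simp [hs.2 _ h1]
  · rw [Finset.card_filter]
    push_cast
    apply Finset.sum_congr rfl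
    intro s _
    simp only [Set.indicator_apply, Set.mem_ofPred_eq]

lemma sprinkle_meas (F : Finset (El d)) : MeasurableSet {σ : El d → Bool | ∀ e ∈ F, σ e = true} := by
  have : {σ : El d → Bool | ∀ e ∈ F, σ e = true} = ⋂ e ∈ F, {σ : El d → Bool | σ e = true} := by
    ext σ
    simp
  rw [this]
  apply Finset.measurableSet_biInter
  intro e _
  exact measurableSet_eq_fun (measurable_pi_apply e) measurable_const

/-- for fixed `ω`, after sprinkling with parameter `q` -/
theorem sprinkle_fixed (κ : Kind) (ω : El d → Bool) (q : unitInterval) (N : ℕ)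
    (B : Finset (V d)) (H : ℕ) :
    (q : ℝ) ^ (H + 1) / 2 ≤ (prodBern (El d) q).real
      {σ | (q : ℝ) ^ (H + 1) / 2 * cnt κ ω N B H
        ≤ ∑ x ∈ B, (Pn κ (fun e => ω e || σ e) N x : ℝ)} := by
  classical
  set P := prodBern (El d) q with hP
  have hq0 : (0 : ℝ) ≤ q := q.2.1
  have hq1 : (q : ℝ) ≤ 1 := q.2.2
  set a : ℝ := (q : ℝ) ^ (H + 1) / 2 with ha
  have ha0 : 0 ≤ a := by positivity
  -- the random variable
  set X : (El d → Bool) → ℝ := fun σ => ∑ x ∈ B, ∑ s ∈ (saws d N).filter (fun s => ncl κ ω x s ≤ H),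
      {σ : El d → Bool | ∀ e ∈ toOpen κ ω x s, σ e = true}.indicator (fun _ => (1 : ℝ)) σ with hX
  have mX : Measurable X := by
    apply Finset.measurable_sum
    intro x _
    apply Finset.measurable_sum
    intro s _
    exact measurable_const.indicator (sprinkle_meas _)
  have hX0 : ∀ σ, 0 ≤ X σ := fun σ => Finset.sum_nonneg fun x _ => Finset.sum_nonneg fun s _ =>
    Set.indicator_nonneg (fun _ _ => zero_le_one) _
  have hX1 : ∀ σ, X σ ≤ (cnt κ ω N B H : ℝ) := by
    intro σ
    have : (cnt κ ω N B H : ℝ) = ∑ x ∈ B, ∑ s ∈ (saws d N).filter (fun s => ncl κ ω x s ≤ H), (1 : ℝ) := by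
      unfold cnt
      push_cast
      apply Finset.sum_congr rfl
      intro x _
      simp
    rw [this]
    apply Finset.sum_le_sum
    intro x _
    apply Finset.sum_le_sum
    intro s _
    exact Set.indicator_le_self' (fun _ _ => zero_le_one) _
  have hint : Integrable X P := by
    apply Integrable.of_bound mX.aestronglyMeasurable (cnt κ ω N B H : ℝ)
    filter_upwards with σ
    rw [Real.norm_eq_abs, abs_of_nonneg (hX0 σ)]
    exact hX1 σ
  have hE : (q : ℝ) ^ (H + 1) * cnt κ ω N B H ≤ ∫ σ, X σ ∂P := by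
    rw [hX, integral_finsetSum]
    · have : (q : ℝ) ^ (H + 1) * (cnt κ ω N B H : ℝ) =
          ∑ x ∈ B, ∑ s ∈ (saws d N).filter (fun s => ncl κ ω x s ≤ H), (q : ℝ) ^ (H + 1) := by
        unfold cnt
        push_cast
        rw [Finset.mul_sum]
        apply Finset.sum_congr rfl
        intro x _
        simp [mul_comm]
      rw [this]
      apply Finset.sum_le_sum
      intro x _
      rw [integral_finsetSum]
      · apply Finset.sum_le_sum
        intro s hs
        rw [Finset.mem_filter] at hs
        rw [integral_indicator_const _ (sprinkle_meas _), prob_all_open]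
        simp only [smul_eq_mul, mul_one]
        apply pow_le_pow_of_le_one hq0 hq1
        have := toOpen_card κ ω x s
        omega
      · intro s _
        exact (integrable_const _).indicator (sprinkle_meas _)
    · intro x _
      apply integrable_finsetSum
      intro s _
      exact (integrable_const _).indicator (sprinkle_meas _)
  have mE : MeasurableSet {σ | a * cnt κ ω N B H ≤ X σ} := measurableSet_le measurable_const mX
  have hsub : {σ | a * cnt κ ω N B H ≤ X σ} ⊆ {σ | a * cnt κ ω N B H
        ≤ ∑ x ∈ B, (Pn κ (fun e => ω e || σ e) N x : ℝ)} := by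
    intro σ hσ
    refine le_trans (show a * cnt κ ω N B H ≤ X σ from hσ) ?_
    apply Finset.sum_le_sum
    intro x _
    exact sprinkle_count κ ω σ N x H
  refine le_trans ?_ (measureReal_mono hsub (measure_ne_top _ _))
  -- the second moment free argument
  have hle : ∫ σ, X σ ∂P ≤ ∫ σ, (a * cnt κ ω N B H +
      {σ | a * cnt κ ω N B H ≤ X σ}.indicator (fun _ => (cnt κ ω N B H : ℝ)) σ) ∂P := by
    apply integral_mono hint
    · exact (integrable_const _).add ((integrable_const _).indicator mE)
    · intro σ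
      simp only
      by_cases h : σ ∈ {σ | a * cnt κ ω N B H ≤ X σ}
      · rw [Set.indicator_of_mem h]
        have := hX1 σ
        have : 0 ≤ a * (cnt κ ω N B H : ℝ) := by positivity
        linarith
      · rw [Set.indicator_of_notMem h]
        simp only [Set.mem_ofPred_eq, not_le] at h
        linarith
  rw [integral_add (integrable_const _) ((integrable_const _).indicator mE), integral_const,
    integral_indicator_const _ mE] at hle
  simp only [probReal_univ, smul_eq_mul, one_mul] at hle
  rcases Nat.eq_zero_or_pos (cnt κ ω N B H) with h0 | h0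
  · have : {σ | a * cnt κ ω N B H ≤ X σ} = Set.univ := by
      ext σ
      simp only [h0, Nat.cast_zero, mul_zero, Set.mem_ofPred_eq, Set.mem_univ, iff_true]
      exact hX0 σ
    rw [this, probReal_univ]
    have : (q : ℝ) ^ (H + 1) ≤ 1 := pow_le_one₀ hq0 hq1
    rw [ha]
    linarith
  · have h1 : (0 : ℝ) < cnt κ ω N B H := by exact_mod_cast h0
    have h2 : a * cnt κ ω N B H ≤ P.real {σ | a * cnt κ ω N B H ≤ X σ} * cnt κ ω N B H := by
      have : (q : ℝ) ^ (H + 1) = 2 * a := by rw [ha]; ring
      rw [this] at hE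
      linarith
    exact le_of_mul_le_mul_right h2 h1

lemma Pn_measurable (κ : Kind) (N : ℕ) (x : V d) :
    Measurable (fun ω : El d → Bool => (Pn κ ω N x : ℝ)) := by
  classical
  apply Dep.measurable (Λ := suppP κ N {x})
  intro ω ω' h
  simp only
  rw [Pn_congr κ N (Finset.mem_singleton_self x) h]

lemma cnt_measurable (κ : Kind) (N : ℕ) (B : Finset (V d)) (H : ℕ) :
    Measurable (fun ω : El d → Bool => (cnt κ ω N B H : ℝ)) := by
  classical
  apply Dep.measurable (Λ := supp κ N B)
  intro ω ω' h
  simp only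
  unfold cnt
  congr 1
  apply Finset.sum_congr rfl
  intro x hx
  congr 1
  apply Finset.filter_congr
  intro s hs
  unfold ncl
  have : ∀ t, ω (el κ x s t) = ω' (el κ x s t) := fun t => h _ (el_mem_supp κ hx hs t)
  simp only [this]

theorem sprinkle (κ : Kind) (p₁ q p₂ : unitInterval) (h : (1 - p₂ : ℝ) = (1 - p₁) * (1 - q))
    (N : ℕ) (B : Finset (V d)) (H : ℕ) (K : ℝ) :
    (q : ℝ) ^ (H + 1) / 2 * (prodBern (El d) p₁).real {ω | K ≤ (cnt κ ω N B H : ℝ)}
      ≤ (prodBern (El d) p₂).real
        {ω | (q : ℝ) ^ (H + 1) / 2 * K ≤ ∑ x ∈ B, (Pn κ ω N x : ℝ)} := by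
  set a : ℝ := (q : ℝ) ^ (H + 1) / 2 with ha
  have hq0 : (0 : ℝ) ≤ q := q.2.1
  have ha0 : 0 ≤ a := by positivity
  have mS : Measurable (fun ω : El d → Bool => ∑ x ∈ B, (Pn κ ω N x : ℝ)) :=
    Finset.measurable_sum _ (fun x _ => Pn_measurable κ N x)
  have mD : MeasurableSet {ω : El d → Bool | a * K ≤ ∑ x ∈ B, (Pn κ ω N x : ℝ)} :=
    measurableSet_le measurable_const mS
  have mC : MeasurableSet {ω : El d → Bool | K ≤ (cnt κ ω N B H : ℝ)} :=
    measurableSet_le measurable_const (cnt_measurable κ N B H)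
  have mor : Measurable (fun x : (El d → Bool) × (El d → Bool) => fun e => x.1 e || x.2 e) := by
    apply measurable_pi_lambda
    intro e
    have h1 : Measurable (fun x : (El d → Bool) × (El d → Bool) => (x.1 e, x.2 e)) :=
      ((measurable_pi_apply e).comp measurable_fst).prodMk ((measurable_pi_apply e).comp measurable_snd)
    exact (measurable_of_finite (fun b : Bool × Bool => b.1 || b.2)).comp h1
  rw [← map_or p₁ q p₂ h, Measure.real, Measure.real, Measure.map_apply mor mD,
    Measure.prod_apply (mor mD)]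
  have hfin : ∫⁻ x, (prodBern (El d) q) (Prod.mk x ⁻¹' ((fun x : (El d → Bool) × (El d → Bool) => fun e => x.1 e || x.2 e) ⁻¹'
      {ω : El d → Bool | a * K ≤ ∑ x ∈ B, (Pn κ ω N x : ℝ)})) ∂(prodBern (El d) p₁) ≠ ⊤ := by
    rw [← Measure.prod_apply (mor mD)]
    exact measure_ne_top _ _
  have hA : a * ((prodBern (El d) p₁) {ω : El d → Bool | K ≤ (cnt κ ω N B H : ℝ)}).toReal =
      (ENNReal.ofReal a * (prodBern (El d) p₁) {ω : El d → Bool | K ≤ (cnt κ ω N B H : ℝ)}).toReal := by
    rw [ENNReal.toReal_mul, ENNReal.toReal_ofReal ha0]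
  rw [hA]
  apply ENNReal.toReal_mono hfin
  rw [← lintegral_indicator_const mC]
  apply lintegral_mono
  intro ω
  by_cases hω : ω ∈ {ω : El d → Bool | K ≤ (cnt κ ω N B H : ℝ)}
  · rw [Set.indicator_of_mem hω]
    have h1 := sprinkle_fixed κ ω q N B H
    rw [← ha] at h1
    have h2 : {σ | a * cnt κ ω N B H ≤ ∑ x ∈ B, (Pn κ (fun e => ω e || σ e) N x : ℝ)} ⊆
        (Prod.mk ω ⁻¹' ((fun x : (El d → Bool) × (El d → Bool) => fun e => x.1 e || x.2 e) ⁻¹'
      {ω : El d → Bool | a * K ≤ ∑ x ∈ B, (Pn κ ω N x : ℝ)})) := by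
      intro σ hσ
      simp only [Set.mem_preimage, Set.mem_ofPred_eq] at hσ hω ⊢
      exact (mul_le_mul_of_nonneg_left hω ha0).trans hσ
    have h3 := h1.trans (measureReal_mono h2 (measure_ne_top _ _))
    exact ENNReal.ofReal_le_of_le_toReal h3
  · rw [Set.indicator_of_notMem hω]
    exact zero_le

end Pool.Agent.H41.QC
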