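import Pool.Agent.H41.QC.Heavy
import Pool.Agent.H41.QC.Sprinkle

/-! # QC module PropA1: near-top starts with uniformly positive probability (end of paper 5) -/

open MeasureTheory
open Pool.Agent.H17.IIC

namespace Pool.Agent.H41.QC

/-- a near-top start exists in the box -/
def Near (κ : Kind) {d : ℕ} (ω : El d → Bool) (N : ℕ) (v : V d) (m : ℕ) (c : ℝ) : Prop :=
  ∃ x ∈ box v m, c ≤ (Pn κ ω N x : ℝ)

lemma propA1_growth (d : ℕ) {η c : ℝ} (hη : 0 < η) (hc : 0 < c) :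
    ∃ k₁ : ℕ, ∀ k : ℕ, k₁ ≤ k → (2 ^ k : ℝ) ^ d ≤ c * Real.exp (η * 2 ^ k) := by
  have h1 := Real.tendsto_pow_mul_exp_neg_atTop_nhds_zero d
  have h2 : Filter.Tendsto (fun k : ℕ => η * (2:ℝ) ^ k) Filter.atTop Filter.atTop :=
    (tendsto_pow_atTop_atTop_of_one_lt (by norm_num : (1:ℝ) < 2)).const_mul_atTop hη
  have h3 := h1.comp h2
  have h4 : ∀ᶠ k : ℕ in Filter.atTop,
      (η * (2:ℝ) ^ k) ^ d * Real.exp (-(η * 2 ^ k)) < c * η ^ d :=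
    h3.eventually (gt_mem_nhds (by positivity))
  obtain ⟨k₁, hk₁⟩ := Filter.eventually_atTop.mp h4
  refine ⟨k₁, fun k hk => ?_⟩
  have h5 := hk₁ k hk
  rw [Real.exp_neg, mul_pow] at h5
  have h6 : 0 < Real.exp (η * 2 ^ k) := Real.exp_pos _
  have h7 : 0 < η ^ d := by positivity
  rw [← div_eq_mul_inv, div_lt_iff₀ h6] at h5
  nlinarith

theorem propA1 (κ : Kind) (d : ℕ) (p p₂ : unitInterval) (hp : 0 < (p : ℝ)) (hpp : (p : ℝ) < p₂)
    (hp2 : (p₂ : ℝ) < 1) {η : ℝ} (hη : 0 < η) (hβ : 2 * η ≤ beta κ d p) (j : ℕ) :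
    ∃ c₁ : ℝ, 0 < c₁ ∧ ∃ k₀ : ℕ, ∀ k : ℕ, k₀ ≤ k → j ≤ k →
      c₁ ≤ (prodBern (El d) p₂).real
        {ω | Near κ ω (2 ^ k) 0 (2 ^ (k - j)) (Real.exp ((beta κ d p - 3 * η) * 2 ^ k))} := by
  -- the intermediate parameter and the sprinkling parameter
  obtain ⟨p₁, hp₁⟩ : ∃ p₁ : unitInterval, (p₁ : ℝ) = ((p : ℝ) + p₂) / 2 := by
    refine ⟨⟨((p : ℝ) + p₂) / 2, ?_, ?_⟩, rfl⟩
    · linarith
    · linarith
  have h01 : (0:ℝ) < 1 - p₁ := by rw [hp₁]; linarith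
  have hlt : (p₁ : ℝ) < p₂ := by rw [hp₁]; linarith
  obtain ⟨q, hq⟩ : ∃ q : unitInterval, (q : ℝ) = ((p₂ : ℝ) - p₁) / (1 - p₁) := by
    refine ⟨⟨((p₂ : ℝ) - p₁) / (1 - p₁), ?_, ?_⟩, rfl⟩
    · exact div_nonneg (by linarith) h01.le
    · rw [div_le_one h01]
      linarith
  have hq0 : 0 < (q : ℝ) := by
    rw [hq]
    exact div_pos (by linarith) h01
  have hrel : (1 - p₂ : ℝ) = (1 - p₁) * (1 - q) := by
    rw [hq]
    field_simp
    ring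
  obtain ⟨H, k₀, hH⟩ := heavy κ d p p₁ hp (by rw [hp₁]; linarith) hη hβ j
  obtain ⟨k₁, hk₁⟩ := propA1_growth d (η := η) (c := (q : ℝ) ^ (H + 1) / 2) hη (by positivity)
  refine ⟨(q : ℝ) ^ (H + 1) / 2 * (3 / 4), by positivity, max k₀ k₁, ?_⟩
  intro k hk hjk
  have h1 := hH k ((le_max_left _ _).trans hk) hjk
  have h2 := sprinkle κ p₁ q p₂ hrel (2 ^ k) (box (0 : V d) (2 ^ (k - j))) H
    (Real.exp ((beta κ d p - 2 * η) * 2 ^ k))
  have hq1 : 0 ≤ (q : ℝ) ^ (H + 1) / 2 := by positivity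
  refine (mul_le_mul_of_nonneg_left h1 hq1).trans (h2.trans ?_)
  refine measureReal_mono ?_ (measure_ne_top _ _)
  intro ω hω
  have hω' : (q : ℝ) ^ (H + 1) / 2 * Real.exp ((beta κ d p - 2 * η) * 2 ^ k) ≤
      ∑ x ∈ box (0 : V d) (2 ^ (k - j)), (Pn κ ω (2 ^ k) x : ℝ) := hω
  show Near κ ω (2 ^ k) 0 (2 ^ (k - j)) (Real.exp ((beta κ d p - 3 * η) * 2 ^ k))
  by_contra hcon
  unfold Near at hcon
  push Not at hcon
  have hne : (box (0 : V d) (2 ^ (k - j))).Nonempty := by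
    rw [← Finset.card_pos, card_box]
    positivity
  have h3 : ∑ x ∈ box (0 : V d) (2 ^ (k - j)), (Pn κ ω (2 ^ k) x : ℝ) <
      ∑ _x ∈ box (0 : V d) (2 ^ (k - j)), Real.exp ((beta κ d p - 3 * η) * 2 ^ k) :=
    Finset.sum_lt_sum_of_nonempty hne hcon
  rw [Finset.sum_const, nsmul_eq_mul, card_box] at h3
  have h4 : (((2 ^ (k - j)) ^ d : ℕ) : ℝ) ≤ (2 ^ k : ℝ) ^ d := by
    push_cast
    apply pow_le_pow_left₀ (by positivity)
    exact pow_le_pow_right₀ (by norm_num) (by omega)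
  have h5 := hk₁ k ((le_max_right _ _).trans hk)
  have h6 : Real.exp ((beta κ d p - 2 * η) * 2 ^ k) =
      Real.exp (η * 2 ^ k) * Real.exp ((beta κ d p - 3 * η) * 2 ^ k) := by
    rw [← Real.exp_add]
    congr 1
    ring
  have h7 : 0 < Real.exp ((beta κ d p - 3 * η) * 2 ^ k) := Real.exp_pos _
  rw [h6] at hω'
  have h8 := mul_le_mul_of_nonneg_right (h4.trans h5) h7.le
  have h9 : (q : ℝ) ^ (H + 1) / 2 * (Real.exp (η * 2 ^ k) *
      Real.exp ((beta κ d p - 3 * η) * 2 ^ k)) = (q : ℝ) ^ (H + 1) / 2 * Real.exp (η * 2 ^ k) *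
      Real.exp ((beta κ d p - 3 * η) * 2 ^ k) := by ring
  rw [h9] at hω'
  linarith

end Pool.Agent.H41.QC
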