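import Pool.Agent.H41.QC.KKL
import Pool.Agent.H41.QC.PropA1

/-! # QC module Torus: periodisation (paper 7) -/

open MeasureTheory
open Pool.Agent.H17.IIC

namespace Pool.Agent.H41.QC

/-- elements of the torus of side `L` -/
abbrev ET (d L : ℕ) : Type := Sym2 (Fin d → ZMod L)

/-- reduction modulo `L` -/
def red (d L : ℕ) (x : V d) : Fin d → ZMod L := fun i => (x i : ZMod L)

/-- periodic lift of a torus configuration -/
def lift {d L : ℕ} (ω : ET d L → Bool) : El d → Bool := fun e => ω (e.map (red d L))

/-- the torus event: some vertex of the fundamental box is a near-top start -/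
def DT (κ : Kind) (d L N : ℕ) (c : ℝ) : Set (ET d L → Bool) :=
  {ω | Near κ (lift ω) N (0 : V d) L c}

/-- the part of the torus event seen in a small box -/
def DB (κ : Kind) (d L N : ℕ) (v : V d) (m : ℕ) (c : ℝ) : Set (ET d L → Bool) :=
  {ω | Near κ (lift ω) N v m c}

lemma Near.mono {κ : Kind} {d : ℕ} {ω ω' : El d → Bool} {N : ℕ} {v : V d} {m : ℕ} {c : ℝ}
    (h : ∀ e, ω e = true → ω' e = true) (hN : Near κ ω N v m c) : Near κ ω' N v m c := by
  obtain ⟨x, hx, hc⟩ := hN
  refine ⟨x, hx, hc.trans ?_⟩
  exact_mod_cast Pn_mono κ N x h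

lemma DB_incr (κ : Kind) (d L N : ℕ) (v : V d) (m : ℕ) (c : ℝ) : Incr (DB κ d L N v m c) := by
  intro ω ω' h hω
  exact Near.mono (fun e he => h _ he) hω

lemma DT_incr (κ : Kind) (d L N : ℕ) (c : ℝ) : Incr (DT κ d L N c) := by
  intro ω ω' h hω
  exact Near.mono (fun e he => h _ he) hω

/-- the event depends on finitely many elements -/
lemma near_dep (κ : Kind) {d : ℕ} (N : ℕ) (v : V d) (m : ℕ) (c : ℝ) :
    Dep (suppP κ N (box v m)) (fun ω : El d → Bool => ω ∈ {ω | Near κ ω N v m c}) := by
  intro ω ω' h
  simp only [Set.mem_ofPred_eq, eq_iff_iff]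
  constructor
  · rintro ⟨x, hx, hc⟩
    exact ⟨x, hx, by rwa [← Pn_congr κ N hx h]⟩
  · rintro ⟨x, hx, hc⟩
    exact ⟨x, hx, by rwa [Pn_congr κ N hx h]⟩

lemma near_meas (κ : Kind) {d : ℕ} (N : ℕ) (v : V d) (m : ℕ) (c : ℝ) :
    MeasurableSet {ω : El d → Bool | Near κ ω N v m c} :=
  (near_dep κ N v m c).measurableSet

lemma near_shift (κ : Kind) {d : ℕ} (ω : El d → Bool) (N : ℕ) (v : V d) (m : ℕ) (c : ℝ) :
    Near κ ω N v m c ↔ Near κ (fun e => ω (shE v e)) N (0 : V d) m c := by
  constructor
  · rintro ⟨x, hx, hc⟩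
    refine ⟨x - v, ?_, ?_⟩
    · rw [mem_box] at hx ⊢
      intro i
      have := hx i
      simp only [Pi.zero_apply, Pi.sub_apply]
      constructor <;> linarith
    · rw [← Pn_shift, sub_add_cancel]
      exact hc
  · rintro ⟨x, hx, hc⟩
    refine ⟨x + v, ?_, ?_⟩
    · rw [mem_box] at hx ⊢
      intro i
      have := hx i
      simp only [Pi.zero_apply, Pi.add_apply] at this ⊢
      constructor <;> linarith
    · rw [Pn_shift]
      exact hc

lemma near_prob_shift (κ : Kind) {d : ℕ} (N : ℕ) (v : V d) (m : ℕ) (c : ℝ) (p : unitInterval) :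
    (prodBern (El d) p) {ω | Near κ ω N v m c} =
      (prodBern (El d) p) {ω | Near κ ω N (0 : V d) m c} := by
  have hm : Measurable (fun (ω : El d → Bool) (e : El d) => ω (shE v e)) := by
    apply measurable_pi_lambda
    intro e
    exact measurable_pi_apply _
  conv_rhs => rw [← prodBern_shift p v, Measure.map_apply hm (near_meas κ N 0 m c)]
  congr 1
  ext ω
  exact near_shift κ ω N v m c

lemma red_injOn {d L : ℕ} {v : V d} {n : ℕ} (hn : n < L) {x y : V d}
    (hx : ∀ i, v i ≤ x i ∧ x i ≤ v i + n) (hy : ∀ i, v i ≤ y i ∧ y i ≤ v i + n)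
    (h : red d L x = red d L y) : x = y := by
  funext i
  have h1 := congrFun h i
  unfold red at h1
  rw [ZMod.intCast_eq_intCast_iff_dvd_sub] at h1
  obtain ⟨k, hk⟩ := h1
  have h2 := hx i
  have h3 := hy i
  have hL : (n : ℤ) < L := by exact_mod_cast hn
  have hk0 : k = 0 := by
    rcases lt_trichotomy k 0 with hk1 | hk1 | hk1
    · exfalso
      have : (L : ℤ) * k ≤ L * (-1) := by
        apply mul_le_mul_of_nonneg_left _ (by omega)
        omega
      linarith
    · exact hk1
    · exfalso
      have : (L : ℤ) * 1 ≤ L * k := by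
        apply mul_le_mul_of_nonneg_left _ (by omega)
        omega
      linarith
  rw [hk0, mul_zero] at hk
  linarith

/-- law of the small box event -/
theorem DB_prob (κ : Kind) (d L N : ℕ) (v : V d) (m : ℕ) (c : ℝ) (p : unitInterval)
    (hL : m + 2 * N < L) :
    (prodBern (ET d L) p).real (DB κ d L N v m c)
      = (prodBern (El d) p).real {ω | Near κ ω N (0 : V d) m c} := by
  have hinj : Set.InjOn (fun e : El d => e.map (red d L)) (suppP κ N (box v m)) := by
    intro e he e' he' hee
    have key : ∀ e ∈ suppP κ N (box v m), ∀ y ∈ e, ∀ i,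
        (fun i => v i - N : V d) i ≤ y i ∧ y i ≤ (fun i => v i - N : V d) i + (m + 2 * N : ℕ) := by
      intro e he y hy i
      obtain ⟨x, hx, h⟩ := suppP_near κ N he
      have h1 := h y hy i
      have h2 := (mem_box.1 hx) i
      rw [abs_le] at h1
      push_cast
      constructor <;> linarith
    induction e using Sym2.ind with
    | _ a b =>
      induction e' using Sym2.ind with
      | _ a' b' =>
        have ha := key _ he a (Sym2.mem_mk_left a b)
        have hb := key _ he b (Sym2.mem_mk_right a b)
        have ha' := key _ he' a' (Sym2.mem_mk_left a' b')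
        have hb' := key _ he' b' (Sym2.mem_mk_right a' b')
        simp only [Sym2.map_mk] at hee
        rw [Sym2.eq_iff] at hee ⊢
        rcases hee with ⟨h1, h2⟩ | ⟨h1, h2⟩
        · exact Or.inl ⟨red_injOn hL ha ha' h1, red_injOn hL hb hb' h2⟩
        · exact Or.inr ⟨red_injOn hL ha hb' h1, red_injOn hL hb ha' h2⟩
  have h1 := measure_comp_injOn (bern p) (near_dep κ N v m c)
    (fun e : El d => e.map (red d L)) hinj
  have h2 : (prodBern (ET d L) p) (DB κ d L N v m c) =
      (prodBern (El d) p) {ω | Near κ ω N v m c} := h1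
  rw [Measure.real, Measure.real, h2, near_prob_shift]

/-- translations of the torus elements -/
def tauT {d L : ℕ} (u : Fin d → ZMod L) (e : ET d L) : ET d L := e.map (· + u)

lemma lift_shift {d L : ℕ} (ω : ET d L → Bool) (v : V d) :
    (fun e => lift ω (shE v e)) = lift (fun e => ω (tauT (red d L v) e)) := by
  funext e
  change ω ((e.map (· + v)).map (red d L)) = ω ((e.map (red d L)).map (· + red d L v))
  rw [Sym2.map_map, Sym2.map_map]
  congr 2
  funext x
  funext i
  simp [red]

lemma DT_iff {κ : Kind} {d L N : ℕ} [NeZero L] {c : ℝ} {ω : ET d L → Bool} :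
    ω ∈ DT κ d L N c ↔ ∃ x : V d, c ≤ (Pn κ (lift ω) N x : ℝ) := by
  constructor
  · rintro ⟨x, -, h⟩
    exact ⟨x, h⟩
  · rintro ⟨x, h⟩
    have hL : (0 : ℤ) < L := by exact_mod_cast Nat.pos_of_ne_zero (NeZero.ne L)
    refine ⟨fun i => x i % L, ?_, ?_⟩
    · rw [mem_box]
      intro i
      simp only [Pi.zero_apply, zero_add]
      exact ⟨Int.emod_nonneg _ hL.ne', Int.emod_lt_of_pos _ hL⟩
    · have e1 : x = (fun i => x i % L : V d) + (fun i => x i - x i % L : V d) := by
        funext i
        simp
      have e2 : red d L (fun i => x i - x i % L : V d) = 0 := by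
        funext i
        simp [red]
      have e3 : (fun e => ω (tauT (0 : Fin d → ZMod L) e)) = ω := by
        funext e
        congr 1
        unfold tauT
        simp
      rw [e1, Pn_shift, lift_shift, e2, e3] at h
      exact h

lemma DT_shift (κ : Kind) (d L N : ℕ) [NeZero L] (c : ℝ) (u : Fin d → ZMod L)
    (ω : ET d L → Bool) : (fun e => ω (tauT u e)) ∈ DT κ d L N c ↔ ω ∈ DT κ d L N c := by
  have hu : red d L (fun i => ((u i).val : ℤ)) = u := by
    funext i
    simp [red]
  rw [DT_iff, DT_iff]
  have key : ∀ x : V d, Pn κ (lift (fun e => ω (tauT u e))) N x =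
      Pn κ (lift ω) N (x + (fun i => ((u i).val : ℤ))) := by
    intro x
    rw [Pn_shift, lift_shift, hu]
  constructor
  · rintro ⟨x, h⟩
    rw [key] at h
    exact ⟨_, h⟩
  · rintro ⟨x, h⟩
    refine ⟨x - (fun i => ((u i).val : ℤ)), ?_⟩
    rw [key, sub_add_cancel]
    exact h

lemma tauT_injective {d L : ℕ} (u : Fin d → ZMod L) : Function.Injective (tauT u) :=
  Sym2.map.injective (add_left_injective u)

lemma Inf_shift (κ : Kind) (d L N : ℕ) [NeZero L] (c : ℝ) (p : unitInterval)
    (u : Fin d → ZMod L) (i : ET d L) :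
    Inf p (DT κ d L N c) (tauT u i) = Inf p (DT κ d L N c) i := by
  have hdep : Dep (Finset.univ : Finset (ET d L)) (fun ω : ET d L → Bool =>
      ω ∈ {ω | Function.update ω i true ∈ DT κ d L N c ∧
        Function.update ω i false ∉ DT κ d L N c}) := by
    intro ω ω' h
    have : ω = ω' := funext fun e => h e (Finset.mem_univ e)
    rw [this]
  have h1 := measure_comp_injOn (bern p) hdep (tauT u) (tauT_injective u).injOn
  have hup : ∀ (ω : ET d L → Bool) (b : Bool),
      Function.update (fun e => ω (tauT u e)) i b =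
        fun e => Function.update ω (tauT u i) b (tauT u e) := by
    intro ω b
    funext e
    by_cases he : e = i
    · subst he
      simp
    · rw [Function.update_of_ne he, Function.update_of_ne ((tauT_injective u).ne he)]
  have h2 : {g : ET d L → Bool | (fun e => g (tauT u e)) ∈ {ω : ET d L → Bool |
      Function.update ω i true ∈ DT κ d L N c ∧ Function.update ω i false ∉ DT κ d L N c}} =
      {ω | Function.update ω (tauT u i) true ∈ DT κ d L N c ∧
        Function.update ω (tauT u i) false ∉ DT κ d L N c} := by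
    ext ω
    simp only [Set.mem_ofPred_eq]
    rw [hup, hup, DT_shift, DT_shift]
  rw [h2] at h1
  have h3 : (prodBern (ET d L) p) {ω | Function.update ω (tauT u i) true ∈ DT κ d L N c ∧
        Function.update ω (tauT u i) false ∉ DT κ d L N c} =
      (prodBern (ET d L) p) {ω : ET d L → Bool |
      Function.update ω i true ∈ DT κ d L N c ∧ Function.update ω i false ∉ DT κ d L N c} := h1
  unfold Inf
  rw [Measure.real, Measure.real, h3]

/-- the torus event is invariant, so influences are spread out -/
theorem DT_orbits (κ : Kind) (d L N : ℕ) [NeZero L] (hd : 1 ≤ d) (c : ℝ) (p : unitInterval)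
    (i₀ : ET d L) :
    (L : ℝ) / 2 * Inf p (DT κ d L N c) i₀ ≤ ∑ i, Inf p (DT κ d L N c) i := by
  classical
  set j : Fin d := ⟨0, hd⟩ with hj
  set g : ZMod L → ET d L := fun k => tauT (Pi.single j k) i₀ with hg
  have hF : ∀ i, 0 ≤ Inf p (DT κ d L N c) i := fun i => measureReal_nonneg
  have h1 : ∑ k : ZMod L, Inf p (DT κ d L N c) (g k) = L * Inf p (DT κ d L N c) i₀ := by
    simp only [hg, Inf_shift]
    rw [Finset.sum_const, Finset.card_univ, ZMod.card, nsmul_eq_mul]
  have h2 : ∀ i : ET d L, (Finset.univ.filter (fun k => g k = i)).card ≤ 2 := by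
    intro i
    induction i₀ using Sym2.ind with
    | _ a b =>
      induction i using Sym2.ind with
      | _ a' b' =>
        have hsub : Finset.univ.filter (fun k => g k = s(a', b')) ⊆
            {a' j - a j, b' j - a j} := by
          intro k hk
          have hk := (Finset.mem_filter.1 hk).2
          simp only [hg, tauT, Sym2.map_mk] at hk
          rw [Sym2.eq_iff] at hk
          simp only [Finset.mem_insert, Finset.mem_singleton]
          rcases hk with ⟨h, -⟩ | ⟨h, -⟩
          · left
            have := congrFun h j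
            simp only [Pi.add_apply, Pi.single_eq_same] at this
            rw [← this]
            ring
          · right
            have := congrFun h j
            simp only [Pi.add_apply, Pi.single_eq_same] at this
            rw [← this]
            ring
        exact (Finset.card_le_card hsub).trans Finset.card_le_two
  have h3 : ∑ k : ZMod L, Inf p (DT κ d L N c) (g k) ≤ 2 * ∑ i, Inf p (DT κ d L N c) i := by
    rw [← Finset.sum_fiberwise (s := Finset.univ) (g := g), Finset.mul_sum]
    apply Finset.sum_le_sum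
    intro i _
    have h4 : ∑ k ∈ Finset.univ.filter (fun k => g k = i), Inf p (DT κ d L N c) (g k) =
        (Finset.univ.filter (fun k => g k = i)).card * Inf p (DT κ d L N c) i := by
      rw [Finset.sum_congr rfl (fun k hk => by rw [(Finset.mem_filter.1 hk).2]),
        Finset.sum_const, nsmul_eq_mul]
    rw [h4]
    apply mul_le_mul_of_nonneg_right _ (hF i)
    exact_mod_cast h2 i
  linarith

/-- covering by a grid of boxes -/
theorem DT_cover (κ : Kind) (d N : ℕ) (m r : ℕ) (hm : 1 ≤ m) (c : ℝ) :
    ∃ I : Finset (V d), I.card = r ^ d ∧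
      DT κ d (r * m) N c = ⋃ v ∈ I, DB κ d (r * m) N v m c := by
  classical
  have hinj : Function.Injective (fun (w : V d) (i : Fin d) => (m : ℤ) * w i) := by
    intro w w' h
    funext i
    have h1 := congrFun h i
    simp only at h1
    have hm0 : (m : ℤ) ≠ 0 := by omega
    exact mul_left_cancel₀ hm0 h1
  refine ⟨(box (0 : V d) r).image (fun w i => (m : ℤ) * w i), ?_, ?_⟩
  · rw [Finset.card_image_of_injective _ hinj, card_box]
  · ext ω
    simp only [Set.mem_iUnion]
    constructor
    · rintro ⟨x, hx, hc⟩
      rw [mem_box] at hx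
      have hm0 : (0 : ℤ) < m := by omega
      refine ⟨fun i => (m : ℤ) * (x i / m), ?_, x, ?_, hc⟩
      · rw [Finset.mem_image]
        refine ⟨fun i => x i / m, ?_, rfl⟩
        rw [mem_box]
        intro i
        have h := hx i
        simp only [Pi.zero_apply, zero_add] at h ⊢
        refine ⟨Int.ediv_nonneg h.1 hm0.le, ?_⟩
        rw [Int.ediv_lt_iff_lt_mul hm0]
        have := h.2
        push_cast at this
        exact this
      · rw [mem_box]
        intro i
        have h1 := Int.mul_ediv_add_emod (x i) m
        have h2 := Int.emod_nonneg (x i) hm0.ne'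
        have h3 := Int.emod_lt_of_pos (x i) hm0
        constructor <;> linarith
    · rintro ⟨v, hv, x, hx, hc⟩
      rw [Finset.mem_image] at hv
      obtain ⟨w, hw, rfl⟩ := hv
      refine ⟨x, ?_, hc⟩
      rw [mem_box] at hw hx ⊢
      intro i
      have h1 := hw i
      have h2 := hx i
      simp only [Pi.zero_apply, zero_add] at h1 h2 ⊢
      have hm0 : (0 : ℤ) < m := by omega
      constructor
      · nlinarith
      · push_cast
        nlinarith

end Pool.Agent.H41.QC
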