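import Pool.Agent.H41.QC.Harris
import Pool.Agent.H41.QC.Sharp
import Pool.Agent.H41.QC.Torus

/-! # QC module PropA: near-top starts in every small box (paper 7, Prop A) -/

open MeasureTheory
open Pool.Agent.H17.IIC

namespace Pool.Agent.H41.QC

lemma PropA_meas_coord {ι : Type} (e : ι) : MeasurableSet {ω : ι → Bool | ω e = true} := by
  have h1 : Measurable (fun ω : ι → Bool => ω e) := measurable_pi_apply e
  exact h1 (measurableSet_singleton true)

open Classical in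
lemma PropA_meas_Pn (κ : Kind) {d : ℕ} (N : ℕ) (x : V d) :
    Measurable (fun ω : El d → Bool => (Pn κ ω N x : ℝ)) := by
  have h1 : (fun ω : El d → Bool => (Pn κ ω N x : ℝ)) = fun ω : El d → Bool =>
      ∑ s ∈ saws d N, if ((∀ t, ω (el κ x s t) = true) ∧ (κ = .site → ω s(x, x) = true))
        then (1 : ℝ) else 0 := by
    funext ω
    unfold Pn
    rw [Finset.card_filter]
    push_cast
    rfl
  rw [h1]
  refine Finset.measurable_sum _ (fun s _ => ?_)
  refine Measurable.ite ?_ measurable_const measurable_const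
  have h2 : {ω : El d → Bool | (∀ t, ω (el κ x s t) = true) ∧ (κ = .site → ω s(x, x) = true)} =
      (⋂ t, {ω | ω (el κ x s t) = true}) ∩ {ω | κ = .site → ω s(x, x) = true} := by
    ext ω; simp
  rw [h2]
  refine MeasurableSet.inter (MeasurableSet.iInter (fun t => PropA_meas_coord _)) ?_
  by_cases hk : κ = .site
  · simp only [hk, forall_const]
    exact PropA_meas_coord _
  · have h3 : {ω : El d → Bool | κ = .site → ω s(x, x) = true} = Set.univ := by
      ext ω; simp [hk]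
    rw [h3]
    exact MeasurableSet.univ

lemma PropA_meas_Near (κ : Kind) {d : ℕ} (N : ℕ) (v : V d) (m : ℕ) (c : ℝ) :
    MeasurableSet {ω : El d → Bool | Near κ ω N v m c} := by
  have h1 : {ω : El d → Bool | Near κ ω N v m c} =
      ⋃ x ∈ box v m, {ω : El d → Bool | c ≤ (Pn κ ω N x : ℝ)} := by
    ext ω; simp [Near]
  rw [h1]
  refine Finset.measurableSet_biUnion _ (fun x _ => ?_)
  exact measurableSet_le measurable_const (PropA_meas_Pn κ N x)

lemma PropA_box_mono {d : ℕ} (v : V d) {m m' : ℕ} (h : m ≤ m') : box v m ⊆ box v m' := by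
  intro x hx
  unfold box at hx ⊢
  rw [Fintype.mem_piFinset] at hx ⊢
  intro i
  have := hx i
  rw [Finset.mem_Ico] at this ⊢
  refine ⟨this.1, lt_of_lt_of_le this.2 ?_⟩
  have : (m : ℤ) ≤ m' := by exact_mod_cast h
  linarith

theorem propA (κ : Kind) (d : ℕ) (hd : 1 ≤ d) (p p₃ : unitInterval) (hp : 0 < (p : ℝ))
    (hpp : (p : ℝ) < p₃) (hp3 : (p₃ : ℝ) < 1) {η : ℝ} (hη : 0 < η) (hβ : 2 * η ≤ beta κ d p)
    (j : ℕ) (hj : 1 ≤ j) :
    ∃ c : ℝ, 0 < c ∧ ∃ k₀ : ℕ, ∀ k : ℕ, k₀ ≤ k → j ≤ k →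
      (prodBern (El d) p₃).real
        {ω | ¬ Near κ ω (2 ^ k) (0 : V d) (2 ^ (k - j))
            (Real.exp ((beta κ d p - 3 * η) * 2 ^ k))} ≤ (2 : ℝ) ^ (-c * k) := by
  classical
  -- intermediate parameter
  obtain ⟨p₂, h12, h23⟩ : ∃ p₂ : unitInterval, (p : ℝ) < p₂ ∧ (p₂ : ℝ) < p₃ := by
    refine ⟨⟨((p : ℝ) + p₃) / 2, ?_, ?_⟩, ?_, ?_⟩
    · have := p.2.1; have := p₃.2.1; positivity
    · have := p.2.2; linarith
    · simp only; linarith
    · simp only; linarith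
  obtain ⟨c₁, hc₁, k₁, hA1⟩ := propA1 κ d p p₂ hp h12 (by linarith) hη hβ j
  obtain ⟨c₂, hc₂, L₀, hsh⟩ := sharp p₂ p₃ (by linarith) h23 hp3 hc₁
  set K : ℕ := (2 ^ (j + 2)) ^ d with hK
  have hK0 : 0 < K := by rw [hK]; positivity
  have hKR : (0 : ℝ) < K := by exact_mod_cast hK0
  refine ⟨c₂ / K, by positivity, max k₁ L₀, ?_⟩
  intro k hk hjk
  have hk1 : k₁ ≤ k := le_trans (le_max_left _ _) hk
  have hk2 : L₀ ≤ k := le_trans (le_max_right _ _) hk
  set N : ℕ := 2 ^ k with hN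
  set m : ℕ := 2 ^ (k - j) with hm
  set r : ℕ := 2 ^ (j + 2) with hr
  set c : ℝ := Real.exp ((beta κ d p - 3 * η) * 2 ^ k) with hc
  have hL : r * m = 2 ^ (k + 2) := by
    rw [hr, hm, ← pow_add]; congr 1; omega
  have hm1 : 1 ≤ m := Nat.one_le_two_pow
  haveI : NeZero (r * m) := ⟨by rw [hL]; positivity⟩
  have hsize : m + 2 * N < r * m := by
    rw [hL, hm, hN]
    have h1 : 2 ^ (k - j) ≤ 2 ^ k := Nat.pow_le_pow_right (by norm_num) (by omega)
    have h2 : 2 ^ (k + 2) = 4 * 2 ^ k := by rw [pow_add]; ring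
    have h3 : 0 < 2 ^ k := by positivity
    omega
  set x : ℝ := (prodBern (El d) p₃).real {ω | ¬ Near κ ω N (0 : V d) m c} with hx
  have hx0 : 0 ≤ x := measureReal_nonneg
  have hxc : x = 1 - (prodBern (El d) p₃).real {ω | Near κ ω N (0 : V d) m c} := by
    rw [hx]
    have := probReal_compl_eq_one_sub (μ := prodBern (El d) p₃) (PropA_meas_Near κ N (0 : V d) m c)
    rw [← this]
    rfl
  -- the torus
  have hD : c₁ ≤ (prodBern (ET d (r * m)) p₂).real (DT κ d (r * m) N c) := by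
    have h1 := hA1 k hk1 hjk
    have h2 := DB_prob κ d (r * m) N (0 : V d) m c p₂ hsize
    rw [← h2] at h1
    refine le_trans h1 (measureReal_mono ?_ (measure_ne_top _ _))
    rintro ω ⟨y, hy, hyc⟩
    refine ⟨y, PropA_box_mono _ ?_ hy, hyc⟩
    have : 1 ≤ r := Nat.one_le_two_pow
    nlinarith
  have hLL : L₀ ≤ r * m := by
    rw [hL]
    have h1 : k < 2 ^ k := Nat.lt_two_pow_self
    have h2 : 2 ^ k ≤ 2 ^ (k + 2) := Nat.pow_le_pow_right (by norm_num) (by omega)
    omega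
  have hS := hsh (ET d (r * m)) (DT κ d (r * m) N c) (r * m) hLL (DT_incr κ d (r * m) N c)
    (fun p i₀ => by simpa using DT_orbits κ d (r * m) N hd c p i₀) hD
  obtain ⟨I, hI, hcov⟩ := DT_cover κ d N m r hm1 c
  have hH := harris_compl p₃ I (fun v => DB κ d (r * m) N v m c)
    (fun v _ => DB_incr κ d (r * m) N v m c)
  rw [← hcov] at hH
  have hprod : ∏ v ∈ I, (1 - (prodBern (ET d (r * m)) p₃).real (DB κ d (r * m) N v m c)) = x ^ K := by
    rw [Finset.prod_congr rfl (g := fun _ => x)]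
    · rw [Finset.prod_const, hI]
    · intro v _
      rw [DB_prob κ d (r * m) N v m c p₃ hsize, hxc]
  rw [hprod] at hH
  have hfin : x ^ K ≤ ((r * m : ℕ) : ℝ) ^ (-c₂) := le_trans hH hS
  rw [hL] at hfin
  have h1 : x ≤ (((2 ^ (k + 2) : ℕ) : ℝ) ^ (-c₂)) ^ ((K : ℝ)⁻¹) := by
    have h2 := Real.rpow_le_rpow (by positivity) hfin (show (0 : ℝ) ≤ (K : ℝ)⁻¹ by positivity)
    rwa [Real.pow_rpow_inv_natCast hx0 hK0.ne'] at h2
  refine le_trans h1 ?_
  push_cast
  rw [← Real.rpow_natCast (2 : ℝ) (k + 2), ← Real.rpow_mul (by positivity),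
    ← Real.rpow_mul (by positivity)]
  apply Real.rpow_le_rpow_of_exponent_le (by norm_num)
  push_cast
  have h3 : ((k : ℝ) + 2) * (-c₂ * (K : ℝ)⁻¹) = -(c₂ / K) * k - 2 * (c₂ / K) := by
    field_simp
    ring
  rw [h3]
  have h4 : 0 < c₂ / K := by positivity
  linarith

end Pool.Agent.H41.QC
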