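import Pool.Agent.H41.QC.PnBasic

/-! # QC module Split: transport of near-top starts along open paths (paper 9) -/

namespace Pool.Agent.H41.QC

variable {d : ℕ}

/-- `x` and `y` are joined by an open path of length at most `r` -/
def Joined (κ : Kind) (ω : El d → Bool) (x y : V d) (r : ℝ) : Prop :=
  ∃ w : (Gr κ ω).Walk x y, (w.length : ℝ) ≤ r

/-- open self-avoiding paths as sequences of positions -/
structure SplitOP (κ : Kind) (ω : El d → Bool) (N : ℕ) (P : ℕ → V d) : Prop where
  adj : ∀ t < N, LatAdj (P t) (P (t + 1))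
  inj : ∀ a ≤ N, ∀ b ≤ N, P a = P b → a = b
  bond : κ = .bond → ∀ t < N, ω s(P t, P (t + 1)) = true
  site : κ = .site → ∀ t ≤ N, ω s(P t, P t) = true

lemma Split_latAdj_symm {x y : V d} (h : LatAdj x y) : LatAdj y x := by
  obtain ⟨s, rfl⟩ := h
  refine ⟨(s.1, !s.2), ?_⟩
  unfold stepVec
  rcases s with ⟨i, b⟩
  cases b <;> simp [add_assoc, ← Pi.single_add]

lemma Split_stepVec_inj {s s' : Step d} (h : stepVec s = stepVec s') : s = s' := by
  rcases s with ⟨i, b⟩
  rcases s' with ⟨j, c⟩
  unfold stepVec at h
  simp only at h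
  have hij : i = j := by
    by_contra hne
    have h2 := congrFun h i
    rw [Pi.single_eq_same, Pi.single_eq_of_ne hne] at h2
    cases b <;> simp at h2
  subst hij
  have h2 := congrFun h i
  rw [Pi.single_eq_same, Pi.single_eq_same] at h2
  cases b <;> cases c <;> simp at h2 <;> rfl

lemma Split_ext {N : ℕ} {s s' : Fin N → Step d} (h : ∀ t ≤ N, pos s t = pos s' t) : s = s' := by
  funext t
  apply Split_stepVec_inj
  have h1 := h t t.2.le
  have h2 := h (t + 1) t.2
  rw [pos_succ, pos_succ, h1] at h2
  exact add_left_cancel h2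

lemma Split_of_mem {κ : Kind} {ω : El d → Bool} {N : ℕ} {x : V d} {s : Fin N → Step d}
    (h : s ∈ PnBasic_OS κ ω N x) : SplitOP κ ω N (fun t => x + pos s t) := by
  rw [PnBasic_mem_OS] at h
  obtain ⟨h1, h2, h3⟩ := h
  have hs := mem_saws.1 h1
  refine ⟨fun t ht => ⟨s ⟨t, ht⟩, ?_⟩, fun a ha b hb hab => ?_, fun hκ t ht => ?_, fun hκ t ht => ?_⟩
  · have := pos_succ s ⟨t, ht⟩
    simp only at this
    rw [this, add_assoc]
  · have := @hs ⟨a, by omega⟩ ⟨b, by omega⟩ (add_left_cancel hab)
    simpa using this
  · subst hκ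
    exact h2 ⟨t, ht⟩
  · subst hκ
    rcases Nat.eq_zero_or_pos t with h0 | h0
    · subst h0
      simp only [pos_zero, add_zero]
      exact h3 rfl
    · have h4 := h2 ⟨t - 1, by omega⟩
      have h5 : t - 1 + 1 = t := by omega
      simp only [el, h5] at h4
      exact h4

lemma Split_to_mem {κ : Kind} {ω : El d → Bool} {N : ℕ} {x : V d} {P : ℕ → V d}
    (h : SplitOP κ ω N P) (hx : P 0 = x) :
    ∃ s ∈ PnBasic_OS κ ω N x, ∀ t ≤ N, x + pos s t = P t := by
  classical
  choose st hst using h.adj
  have hpos : ∀ t ≤ N, x + pos (fun t : Fin N => st t t.2) t = P t := by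
    intro t ht
    induction t with
    | zero => rw [pos_zero, add_zero, hx]
    | succ t ih =>
      have h1 := pos_succ (fun t : Fin N => st t t.2) ⟨t, ht⟩
      simp only at h1
      rw [h1, ← add_assoc, ih (by omega), hst t (by omega)]
  refine ⟨fun t => st t t.2, ?_, hpos⟩
  rw [PnBasic_mem_OS]
  refine ⟨mem_saws.2 ?_, fun t => ?_, fun hκ => ?_⟩
  · intro a b hab
    have h1 : P a = P b := by
      rw [← hpos a (by omega), ← hpos b (by omega)]
      exact congrArg (x + ·) hab
    exact Fin.ext (h.inj a (by omega) b (by omega) h1)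
  · cases hk : κ with
    | bond =>
      simp only [el]
      rw [hpos t t.2.le, hpos (t + 1) t.2]
      exact h.bond hk t t.2
    | site =>
      simp only [el]
      rw [hpos (t + 1) t.2]
      exact h.site hk (t + 1) t.2
  · rw [← hx]
    exact h.site hκ 0 (Nat.zero_le _)

lemma Split_sub {κ : Kind} {ω : El d → Bool} {N : ℕ} {P : ℕ → V d} (h : SplitOP κ ω N P) {a n : ℕ}
    (han : a + n ≤ N) : SplitOP κ ω n (fun t => P (a + t)) :=
  ⟨fun t ht => h.adj (a + t) (by omega), fun b hb c hc hbc => by
    have := h.inj (a + b) (by omega) (a + c) (by omega) hbc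
    omega, fun hκ t ht => h.bond hκ (a + t) (by omega), fun hκ t ht => h.site hκ (a + t) (by omega)⟩

lemma Split_rev {κ : Kind} {ω : El d → Bool} {N : ℕ} {P : ℕ → V d} (h : SplitOP κ ω N P) :
    SplitOP κ ω N (fun t => P (N - t)) := by
  refine ⟨fun t ht => ?_, fun b hb c hc hbc => ?_, fun hκ t ht => ?_, fun hκ t ht =>
    h.site hκ (N - t) (by omega)⟩
  · have h1 := h.adj (N - (t + 1)) (by omega)
    have h2 : N - (t + 1) + 1 = N - t := by omega
    rw [h2] at h1
    exact Split_latAdj_symm h1
  · have := h.inj (N - b) (by omega) (N - c) (by omega) hbc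
    omega
  · have h1 := h.bond hκ (N - (t + 1)) (by omega)
    have h2 : N - (t + 1) + 1 = N - t := by omega
    rw [h2, Sym2.eq_swap] at h1
    exact h1

lemma Split_concat {κ : Kind} {ω : El d → Bool} {m n : ℕ} {P Q : ℕ → V d} (hP : SplitOP κ ω m P)
    (hQ : SplitOP κ ω n Q) (h0 : P m = Q 0) (hd : ∀ a < m, ∀ b ≤ n, P a ≠ Q b) :
    SplitOP κ ω (m + n) (fun t => if t ≤ m then P t else Q (t - m)) := by
  have hval : ∀ t, (if t ≤ m then P t else Q (t - m)) = if t < m then P t else Q (t - m) := by
    intro t
    rcases lt_trichotomy t m with h | h | h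
    · rw [if_pos h.le, if_pos h]
    · subst h; simp [h0]
    · rw [if_neg (by omega), if_neg (by omega)]
  refine ⟨fun t ht => ?_, fun a ha b hb hab => ?_, fun hκ t ht => ?_, fun hκ t ht => ?_⟩
  · by_cases h : t < m
    · rw [if_pos h.le, if_pos (by omega : t + 1 ≤ m)]
      exact hP.adj t h
    · rw [hval, if_neg h, hval, if_neg (by omega : ¬ t + 1 < m)]
      have e : t + 1 - m = (t - m) + 1 := by omega
      rw [e]
      exact hQ.adj (t - m) (by omega)
  · simp only [hval] at hab
    by_cases h : a < m
    · by_cases h' : b < m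
      · rw [if_pos h, if_pos h'] at hab
        exact hP.inj a h.le b h'.le hab
      · rw [if_pos h, if_neg h'] at hab
        exact absurd hab (hd a h (b - m) (by omega))
    · by_cases h' : b < m
      · rw [if_neg h, if_pos h'] at hab
        exact absurd hab.symm (hd b h' (a - m) (by omega))
      · rw [if_neg h, if_neg h'] at hab
        have := hQ.inj (a - m) (by omega) (b - m) (by omega) hab
        omega
  · by_cases h : t < m
    · rw [if_pos h.le, if_pos (by omega : t + 1 ≤ m)]
      exact hP.bond hκ t h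
    · rw [hval, if_neg h, hval, if_neg (by omega : ¬ t + 1 < m)]
      have e : t + 1 - m = (t - m) + 1 := by omega
      rw [e]
      exact hQ.bond hκ (t - m) (by omega)
  · by_cases h : t ≤ m
    · rw [if_pos h]
      exact hP.site hκ t h
    · rw [if_neg h]
      exact hQ.site hκ (t - m) (by omega)

set_option linter.unusedVariables false in
/-- the surgery inequality -/
theorem split (κ : Kind) (ω : El d → Bool) (x y : V d) (n : ℕ) (w : (Gr κ ω).Walk x y)
    (hw : w.IsPath) (hn : w.length = n) (N : ℕ) (hN : 1 ≤ N) :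
    Pn κ ω N y ≤ ∑ i ∈ Finset.range (n + 1), ∑ t ∈ Finset.range (N + 1),
      Pn κ ω (i + t) x * Pn κ ω (i + (N - t)) x := by
  classical
  -- the relation between a path from `y` and the pair of paths from `x`
  set rel : ℕ → ℕ → (Fin N → Step d) → Prop := fun i t s =>
    ∃ α ∈ PnBasic_OS κ ω (i + t) x, ∃ β ∈ PnBasic_OS κ ω (i + (N - t)) x,
      (∀ b ≤ t, y + pos s (t - b) = x + pos α (i + b)) ∧
      (∀ b ≤ N - t, y + pos s (t + b) = x + pos β (i + b)) with hrel
  have hex : ∀ s ∈ PnBasic_OS κ ω N y, ∃ i ≤ n, ∃ t ≤ N, rel i t s := by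
    intro s hs
    have hP := Split_of_mem hs
    set P : ℕ → V d := fun t => y + pos s t with hPdef
    have hP0 : P 0 = y := by simp [hPdef, pos_zero]
    have hγn : w.getVert n = y := by rw [← hn]; exact w.getVert_length
    -- the first vertex of the walk on the path
    have hexi : ∃ i, ∃ t ≤ N, P t = w.getVert i := ⟨n, 0, Nat.zero_le _, by rw [hP0, hγn]⟩
    obtain ⟨t, htN, ht⟩ := Nat.find_spec hexi
    have hmin : ∀ a < Nat.find hexi, ∀ b ≤ N, w.getVert a ≠ P b := fun a ha b hb hab =>
      Nat.find_min hexi ha ⟨b, hb, hab.symm⟩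
    have hin : Nat.find hexi ≤ n := Nat.find_min' hexi ⟨0, Nat.zero_le _, by rw [hP0, hγn]⟩
    generalize Nat.find hexi = i at ht hmin hin
    -- the initial part of the walk
    have hadj : ∀ a < i, (Gr κ ω).Adj (w.getVert a) (w.getVert (a + 1)) := fun a ha =>
      w.adj_getVert_succ (by omega)
    have hγ : SplitOP κ ω i (fun a => w.getVert a) := by
      refine ⟨fun a ha => (hadj a ha).1, fun a ha b hb hab => ?_, fun hκ a ha => ?_, fun hκ a ha => ?_⟩
      · exact hw.getVert_injOn (by rw [Set.mem_ofPred_eq]; omega) (by rw [Set.mem_ofPred_eq]; omega) hab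
      · have h1 := (hadj a ha).2
        subst hκ
        exact h1
      · rcases ha.lt_or_eq with h | h
        · have h1 := (hadj a h).2
          subst hκ
          exact h1.1
        · rw [h, ← ht]
          exact hP.site hκ t htN
    have hα := Split_concat hγ (Split_rev (Split_sub hP (a := 0) (n := t) (by omega)))
      (by simp only [Nat.sub_zero, zero_add]; exact ht.symm)
      (fun a ha b hb => by simp only [zero_add]; exact hmin a ha (t - b) (by omega))
    have hβ := Split_concat hγ (Split_sub hP (a := t) (n := N - t) (by omega))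
      (by simp only [add_zero]; exact ht.symm)
      (fun a ha b hb => hmin a ha (t + b) (by omega))
    obtain ⟨α, hα1, hα2⟩ := Split_to_mem hα (x := x) (by simp)
    obtain ⟨β, hβ1, hβ2⟩ := Split_to_mem hβ (x := x) (by simp)
    refine ⟨i, hin, t, htN, α, hα1, β, hβ1, fun b hb => ?_, fun b hb => ?_⟩
    · rw [hα2 (i + b) (by omega)]
      rcases Nat.eq_zero_or_pos b with h0 | h0
      · subst h0
        simp only [Nat.sub_zero, add_zero, le_refl, if_true]
        exact ht
      · rw [if_neg (by omega)]
        simp only [zero_add]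
        have e : i + b - i = b := by omega
        rw [e]
    · rw [hβ2 (i + b) (by omega)]
      rcases Nat.eq_zero_or_pos b with h0 | h0
      · subst h0
        simp only [add_zero, le_refl, if_true]
        exact ht
      · rw [if_neg (by omega)]
        have e : i + b - i = b := by omega
        simp only [e]
        rfl
  -- counting for fixed `i`, `t`
  have hcount : ∀ i t, t ≤ N → ((PnBasic_OS κ ω N y).filter (rel i t)).card ≤
      Pn κ ω (i + t) x * Pn κ ω (i + (N - t)) x := by
    intro i t ht
    rw [← PnBasic_card_OS, ← PnBasic_card_OS, ← Finset.card_product]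
    apply Finset.card_le_card_of_forall_subsingleton (fun s q =>
      (∀ b ≤ t, y + pos s (t - b) = x + pos q.1 (i + b)) ∧
      (∀ b ≤ N - t, y + pos s (t + b) = x + pos q.2 (i + b)))
    · intro s hs
      rw [Finset.mem_filter] at hs
      obtain ⟨α, hα, β, hβ, h1, h2⟩ := hs.2
      exact ⟨(α, β), Finset.mem_product.2 ⟨hα, hβ⟩, h1, h2⟩
    · intro q _ s hs s' hs'
      obtain ⟨-, h1, h2⟩ := hs
      obtain ⟨-, h1', h2'⟩ := hs'
      apply Split_ext
      intro c hc
      apply add_left_cancel (a := y)
      by_cases hct : c ≤ t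
      · have e := (h1 (t - c) (by omega)).trans (h1' (t - c) (by omega)).symm
        have e2 : t - (t - c) = c := by omega
        rwa [e2] at e
      · have e := (h2 (c - t) (by omega)).trans (h2' (c - t) (by omega)).symm
        have e2 : t + (c - t) = c := by omega
        rwa [e2] at e
  calc Pn κ ω N y = (PnBasic_OS κ ω N y).card := (PnBasic_card_OS κ ω N y).symm
    _ ≤ ((Finset.range (n + 1)).biUnion fun i => (Finset.range (N + 1)).biUnion fun t =>
          (PnBasic_OS κ ω N y).filter (rel i t)).card := by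
        apply Finset.card_le_card
        intro s hs
        obtain ⟨i, hi, t, ht, h⟩ := hex s hs
        simp only [Finset.mem_biUnion, Finset.mem_range, Finset.mem_filter]
        exact ⟨i, by omega, t, by omega, hs, h⟩
    _ ≤ ∑ i ∈ Finset.range (n + 1), ((Finset.range (N + 1)).biUnion fun t =>
          (PnBasic_OS κ ω N y).filter (rel i t)).card := Finset.card_biUnion_le
    _ ≤ ∑ i ∈ Finset.range (n + 1), ∑ t ∈ Finset.range (N + 1),
          ((PnBasic_OS κ ω N y).filter (rel i t)).card :=
        Finset.sum_le_sum fun i _ => Finset.card_biUnion_le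
    _ ≤ _ := Finset.sum_le_sum fun i _ => Finset.sum_le_sum fun t ht =>
        hcount i t (by rw [Finset.mem_range] at ht; omega)

end Pool.Agent.H41.QC
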