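import Pool.Agent.H41.QC.FinDefs
import Pool.Agent.H41.QC.Split

/-! # QC module FinCount: path counts in self-contained terms (helper55) -/

open MeasureTheory Filter Topology
open Pool.Agent.H17.IIC

namespace Pool.Agent.H41.QC

theorem fc_nn_iff {d : ℕ} (x y : V d) : NN x y ↔ LatAdj x y := by
  constructor
  · intro h
    unfold NN at h
    have hex : ∃ i, x i - y i ≠ 0 := by
      by_contra hc
      push Not at hc
      rw [Finset.sum_eq_zero (fun i _ => by rw [hc i, abs_zero])] at h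
      exact zero_ne_one h
    obtain ⟨i, hi⟩ := hex
    rw [← Finset.add_sum_erase _ _ (Finset.mem_univ i)] at h
    have h1 : 1 ≤ |x i - y i| := Int.one_le_abs hi
    have h2 : 0 ≤ ∑ j ∈ Finset.univ.erase i, |x j - y j| :=
      Finset.sum_nonneg fun j _ => abs_nonneg _
    have h3 : ∑ j ∈ Finset.univ.erase i, |x j - y j| = 0 := by omega
    have h4 : |x i - y i| = 1 := by omega
    rw [Finset.sum_eq_zero_iff_of_nonneg (fun j _ => abs_nonneg _)] at h3
    have h5 : ∀ j, j ≠ i → y j = x j := by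
      intro j hj
      have := h3 j (Finset.mem_erase.2 ⟨hj, Finset.mem_univ j⟩)
      have := abs_eq_zero.1 this
      omega
    rcases abs_eq (by norm_num : (0 : ℤ) ≤ 1) |>.1 h4 with h6 | h6
    · refine ⟨(i, false), ?_⟩
      funext j
      by_cases hj : j = i
      · subst hj
        simp [stepVec]
        omega
      · simp [stepVec, hj, h5 j hj]
    · refine ⟨(i, true), ?_⟩
      funext j
      by_cases hj : j = i
      · subst hj
        simp [stepVec]
        omega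
      · simp [stepVec, hj, h5 j hj]
  · rintro ⟨⟨i, b⟩, rfl⟩
    unfold NN
    rw [Finset.sum_eq_single i]
    · cases b <;> simp [stepVec]
    · intro j _ hj
      simp [stepVec, hj]
    · intro h
      exact absurd (Finset.mem_univ i) h

/-- a path as a function of all times -/
def fcExt {d N : ℕ} (γ : Fin (N + 1) → V d) (t : ℕ) : V d := γ ⟨min t N, by omega⟩

theorem fc_ext_le {d N : ℕ} (γ : Fin (N + 1) → V d) {t : ℕ} (ht : t ≤ N) :
    fcExt γ t = γ ⟨t, by omega⟩ := by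
  unfold fcExt
  congr 1
  exact Fin.ext (min_eq_left ht)

theorem fc_congr {d N : ℕ} {κ : Kind} {ω : El d → Bool} {P P' : ℕ → V d} (h : SplitOP κ ω N P)
    (hP : ∀ t ≤ N, P t = P' t) : SplitOP κ ω N P' where
  adj t ht := by
    rw [← hP t ht.le, ← hP (t + 1) ht]
    exact h.adj t ht
  inj a ha b hb hab := by
    rw [← hP a ha, ← hP b hb] at hab
    exact h.inj a ha b hb hab
  bond hκ t ht := by
    rw [← hP t ht.le, ← hP (t + 1) ht]
    exact h.bond hκ t ht
  site hκ t ht := by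
    rw [← hP t ht]
    exact h.site hκ t ht

theorem fc_set_eq {d : ℕ} (κ : Kind) (ω : El d → Bool) (N : ℕ) (x : V d) :
    {γ : Fin (N + 1) → V d | γ 0 = x ∧ SplitOP κ ω N (fcExt γ)} =
      (fun (s : Fin N → Step d) (t : Fin (N + 1)) => x + pos s t) '' (PnBasic_OS κ ω N x) := by
  ext γ
  constructor
  · rintro ⟨h0, h⟩
    have hx : fcExt γ 0 = x := by
      rw [fc_ext_le γ (Nat.zero_le N)]
      exact h0
    obtain ⟨s, hs, hst⟩ := Split_to_mem h hx
    refine ⟨s, hs, ?_⟩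
    funext t
    have := hst t (by omega)
    rw [fc_ext_le γ (by omega)] at this
    exact this
  · rintro ⟨s, hs, rfl⟩
    refine ⟨?_, ?_⟩
    · show x + pos s ((0 : Fin (N + 1)) : ℕ) = x
      simp [pos_zero]
    · refine fc_congr (Split_of_mem hs) fun t ht => ?_
      rw [fc_ext_le _ ht]

theorem fc_ncard {d : ℕ} (κ : Kind) (ω : El d → Bool) (N : ℕ) (x : V d) :
    {γ : Fin (N + 1) → V d | γ 0 = x ∧ SplitOP κ ω N (fcExt γ)}.ncard = Pn κ ω N x := by
  rw [fc_set_eq, Set.ncard_image_of_injective, Set.ncard_coe_finset, PnBasic_card_OS]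
  intro s s' h
  refine Split_ext fun t ht => ?_
  have := congrFun h ⟨t, by omega⟩
  exact add_left_cancel this

theorem fc_exists {d : ℕ} (κ : Kind) (ω : El d → Bool) (N : ℕ) (x : V d) :
    (∃ γ : Fin (N + 1) → V d, γ 0 = x ∧ SplitOP κ ω N (fcExt γ)) ↔ 0 < Pn κ ω N x := by
  have h1 : (∃ γ : Fin (N + 1) → V d, γ 0 = x ∧ SplitOP κ ω N (fcExt γ)) ↔
      {γ : Fin (N + 1) → V d | γ 0 = x ∧ SplitOP κ ω N (fcExt γ)}.Nonempty := Iff.rfl
  rw [h1, fc_set_eq, Set.image_nonempty, ← PnBasic_card_OS, Finset.card_pos]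
  simp

theorem fc_bond {d : ℕ} (ω : Sym2 (Fin d → ℤ) → Bool) (N : ℕ) (x : V d)
    (γ : Fin (N + 1) → (Fin d → ℤ)) :
    IsBondPath ω N x γ ↔ γ 0 = x ∧ SplitOP Kind.bond ω N (fcExt γ) := by
  unfold IsBondPath
  constructor
  · rintro ⟨h0, hinj, h⟩
    refine ⟨h0, ⟨fun t ht => ?_, fun a ha b hb hab => ?_, fun _ t ht => ?_, (fun hκ => by cases hκ)⟩⟩
    · rw [fc_ext_le γ ht.le, fc_ext_le γ ht]
      exact (fc_nn_iff _ _).1 (h ⟨t, ht⟩).1
    · rw [fc_ext_le γ ha, fc_ext_le γ hb] at hab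
      simpa using hinj hab
    · rw [fc_ext_le γ ht.le, fc_ext_le γ ht]
      exact (h ⟨t, ht⟩).2
  · rintro ⟨h0, h⟩
    refine ⟨h0, fun a b hab => ?_, fun i => ⟨?_, ?_⟩⟩
    · refine Fin.ext (h.inj a (by omega) b (by omega) ?_)
      rw [fc_ext_le γ (by omega), fc_ext_le γ (by omega)]
      exact hab
    · have := h.adj i i.2
      rw [fc_ext_le γ i.2.le, fc_ext_le γ i.2] at this
      exact (fc_nn_iff _ _).2 this
    · have := h.bond rfl i i.2
      rw [fc_ext_le γ i.2.le, fc_ext_le γ i.2] at this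
      exact this

theorem fc_site {d : ℕ} (ω : Sym2 (Fin d → ℤ) → Bool) (N : ℕ) (x : V d)
    (γ : Fin (N + 1) → (Fin d → ℤ)) :
    IsSitePath (fun x => ω s(x, x)) N x γ ↔ γ 0 = x ∧ SplitOP Kind.site ω N (fcExt γ) := by
  unfold IsSitePath
  constructor
  · rintro ⟨h0, hinj, hop, h⟩
    refine ⟨h0, ⟨fun t ht => ?_, fun a ha b hb hab => ?_, (fun hκ => by cases hκ), fun _ t ht => ?_⟩⟩
    · rw [fc_ext_le γ ht.le, fc_ext_le γ ht]
      exact (fc_nn_iff _ _).1 (h ⟨t, ht⟩)
    · rw [fc_ext_le γ ha, fc_ext_le γ hb] at hab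
      simpa using hinj hab
    · rw [fc_ext_le γ ht]
      exact hop ⟨t, by omega⟩
  · rintro ⟨h0, h⟩
    refine ⟨h0, fun a b hab => ?_, fun i => ?_, fun i => ?_⟩
    · refine Fin.ext (h.inj a (by omega) b (by omega) ?_)
      rw [fc_ext_le γ (by omega), fc_ext_le γ (by omega)]
      exact hab
    · have := h.site rfl i (by omega)
      rw [fc_ext_le γ (by omega)] at this
      exact this
    · have := h.adj i i.2
      rw [fc_ext_le γ i.2.le, fc_ext_le γ i.2] at this
      exact (fc_nn_iff _ _).2 this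

theorem bondZ_eq {d : ℕ} (ω : Sym2 (Fin d → ℤ) → Bool) (N : ℕ) :
    bondZ ω N = Pn Kind.bond ω N (0 : V d) := by
  rw [← fc_ncard]
  unfold bondZ
  congr 1
  ext γ
  exact fc_bond ω N 0 γ

theorem siteZ_eq {d : ℕ} (ω : Sym2 (Fin d → ℤ) → Bool) (N : ℕ) :
    siteZ (fun x => ω s(x, x)) N = Pn Kind.site ω N (0 : V d) := by
  rw [← fc_ncard]
  unfold siteZ
  congr 1
  ext γ
  exact fc_site ω N 0 γ

/-- existence of paths from a general starting point -/
theorem exists_bondPath_iff {d : ℕ} (ω : Sym2 (Fin d → ℤ) → Bool) (N : ℕ) (x : V d) :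
    (∃ γ, IsBondPath ω N x γ) ↔ 0 < Pn Kind.bond ω N x := by
  rw [← fc_exists]
  exact exists_congr fun γ => fc_bond ω N x γ

theorem exists_sitePath_iff {d : ℕ} (ω : Sym2 (Fin d → ℤ) → Bool) (N : ℕ) (x : V d) :
    (∃ γ, IsSitePath (fun x => ω s(x, x)) N x γ) ↔ 0 < Pn Kind.site ω N x := by
  rw [← fc_exists]
  exact exists_congr fun γ => fc_site ω N x γ

end Pool.Agent.H41.QC
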