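import Pool.Agent.H41.QC.FinDefs
import Pool.Agent.H41.QC.Split

/-! # QC module FinJoin: open self-avoiding paths and walks of the open graph -/

open MeasureTheory Filter Topology
open Pool.Agent.H17.IIC

namespace Pool.Agent.H41.QC

/-- nearest neighbours and lattice adjacency -/
lemma finJoin_nn_iff {d : ℕ} (x y : V d) : NN x y ↔ LatAdj x y := by
  constructor
  · intro h
    unfold NN at h
    have hex : ∃ i, |x i - y i| ≠ 0 := by
      by_contra hcon
      push Not at hcon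
      rw [Finset.sum_eq_zero (fun i _ => hcon i)] at h
      omega
    obtain ⟨i, hi⟩ := hex
    rw [← Finset.add_sum_erase Finset.univ (fun i => |x i - y i|) (Finset.mem_univ i)] at h
    have hnn : 0 ≤ ∑ j ∈ Finset.univ.erase i, |x j - y j| :=
      Finset.sum_nonneg (fun j _ => abs_nonneg _)
    have hpos : 0 < |x i - y i| := lt_of_le_of_ne (abs_nonneg _) (Ne.symm hi)
    have h1 : |x i - y i| = 1 := by
      omega
    have h2 : ∑ j ∈ Finset.univ.erase i, |x j - y j| = 0 := by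
      omega
    have h3 : ∀ j, j ≠ i → x j = y j := by
      intro j hj
      have := (Finset.sum_eq_zero_iff_of_nonneg (fun j _ => abs_nonneg _)).1 h2 j
        (Finset.mem_erase.2 ⟨hj, Finset.mem_univ j⟩)
      have h4 := abs_eq_zero.1 this
      omega
    rcases (abs_eq (by norm_num : (0 : ℤ) ≤ 1)).1 h1 with h5 | h5
    · refine ⟨(i, false), ?_⟩
      funext j
      unfold stepVec
      by_cases hj : j = i
      · subst hj
        simp
        omega
      · simp [Pi.single_eq_of_ne hj, h3 j hj]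
    · refine ⟨(i, true), ?_⟩
      funext j
      unfold stepVec
      by_cases hj : j = i
      · subst hj
        simp
        omega
      · simp [Pi.single_eq_of_ne hj, h3 j hj]
  · rintro ⟨s, rfl⟩
    unfold NN
    rw [Finset.sum_eq_single s.1]
    · unfold stepVec
      rcases s with ⟨i, b⟩
      cases b <;> simp
    · intro j _ hj
      unfold stepVec
      simp [Pi.single_eq_of_ne hj]
    · intro h
      exact absurd (Finset.mem_univ _) h

/-- a sequence of adjacent vertices gives a walk -/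
lemma finJoin_walk {d : ℕ} (κ : Kind) (ω : El d → Bool) :
    ∀ (n : ℕ) (γ : Fin (n + 1) → V d), (∀ i : Fin n, (Gr κ ω).Adj (γ i.castSucc) (γ i.succ)) →
      ∃ w : (Gr κ ω).Walk (γ 0) (γ (Fin.last n)), w.length = n := by
  intro n
  induction n with
  | zero =>
    intro γ _
    exact ⟨SimpleGraph.Walk.nil, rfl⟩
  | succ n ih =>
    intro γ h
    obtain ⟨w, hw⟩ := ih (fun i => γ i.succ) (fun i => by
      have := h i.succ
      simpa using this)
    have h0 := h 0
    have e1 : γ (Fin.castSucc (0 : Fin (n + 1))) = γ 0 := by simp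
    have e2 : (fun i : Fin (n + 1) => γ i.succ) (Fin.last n) = γ (Fin.last (n + 1)) := by
      simp
    rw [e1] at h0
    refine ⟨(SimpleGraph.Walk.cons h0 w).copy rfl e2, ?_⟩
    rw [SimpleGraph.Walk.length_copy]
    exact congrArg (· + 1) hw

lemma finJoin_bond_adj {d : ℕ} (ω : El d → Bool) (x y : V d) :
    (Gr Kind.bond ω).Adj x y ↔ NN x y ∧ ω s(x, y) = true := by
  rw [finJoin_nn_iff]
  exact Iff.rfl

lemma finJoin_site_adj {d : ℕ} (ω : El d → Bool) (x y : V d) :
    (Gr Kind.site ω).Adj x y ↔ NN x y ∧ (ω s(x, x) = true ∧ ω s(y, y) = true) := by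
  rw [finJoin_nn_iff]
  exact Iff.rfl

/-- a walk gives an injective sequence of adjacent vertices -/
lemma finJoin_path {d : ℕ} (κ : Kind) (ω : El d → Bool) (x y : V d)
    (w : (Gr κ ω).Walk x y) :
    ∃ (n : ℕ) (γ : Fin (n + 1) → V d), n ≤ w.length ∧ γ 0 = x ∧ Function.Injective γ ∧
      (∀ i : Fin n, (Gr κ ω).Adj (γ i.castSucc) (γ i.succ)) ∧ γ (Fin.last n) = y := by
  classical
  refine ⟨w.bypass.length, fun i => w.bypass.getVert i, w.length_bypass_le_length, by simp, ?_, ?_, ?_⟩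
  · intro a b hab
    have hp := w.bypass_isPath
    have := hp.getVert_injOn (show (a : ℕ) ∈ {i | i ≤ w.bypass.length} from by
      simp only [Set.mem_ofPred_eq]; omega) (show (b : ℕ) ∈ {i | i ≤ w.bypass.length} from by
      simp only [Set.mem_ofPred_eq]; omega) hab
    exact Fin.ext this
  · intro i
    have := w.bypass.adj_getVert_succ i.2
    simpa using this
  · simp

/-- self-avoiding open paths from `x` to `y` and walks in the open graph -/
theorem bond_joined_iff {d : ℕ} (ω : Sym2 (Fin d → ℤ) → Bool) (x y : V d) (r : ℝ) :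
    (∃ (n : ℕ) (γ : Fin (n + 1) → (Fin d → ℤ)), (n : ℝ) ≤ r ∧ IsBondPath ω n x γ ∧
      γ (Fin.last n) = y) ↔ Joined Kind.bond ω x y r := by
  constructor
  · rintro ⟨n, γ, hn, ⟨h0, -, hadj⟩, hl⟩
    obtain ⟨w, hw⟩ := finJoin_walk Kind.bond ω n γ (fun i => (finJoin_bond_adj ω _ _).2 (hadj i))
    subst h0
    subst hl
    exact ⟨w, by rw [hw]; exact hn⟩
  · rintro ⟨w, hw⟩
    obtain ⟨n, γ, hn, h0, hinj, hadj, hl⟩ := finJoin_path Kind.bond ω x y w
    refine ⟨n, γ, le_trans (by exact_mod_cast hn) hw, ⟨h0, hinj, fun i => ?_⟩, hl⟩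
    exact (finJoin_bond_adj ω _ _).1 (hadj i)

theorem site_joined_iff {d : ℕ} (ω : Sym2 (Fin d → ℤ) → Bool) (x y : V d) (r : ℝ)
    (hx : ω s(x, x) = true) :
    (∃ (n : ℕ) (γ : Fin (n + 1) → (Fin d → ℤ)), (n : ℝ) ≤ r ∧
      IsSitePath (fun x => ω s(x, x)) n x γ ∧ γ (Fin.last n) = y) ↔
      Joined Kind.site ω x y r := by
  constructor
  · rintro ⟨n, γ, hn, ⟨h0, -, hop, hadj⟩, hl⟩
    obtain ⟨w, hw⟩ := finJoin_walk Kind.site ω n γ
      (fun i => (finJoin_site_adj ω _ _).2 ⟨hadj i, hop _, hop _⟩)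
    subst h0
    subst hl
    exact ⟨w, by rw [hw]; exact hn⟩
  · rintro ⟨w, hw⟩
    obtain ⟨n, γ, hn, h0, hinj, hadj, hl⟩ := finJoin_path Kind.site ω x y w
    refine ⟨n, γ, le_trans (by exact_mod_cast hn) hw, ⟨h0, hinj, ?_, fun i => ?_⟩, hl⟩
    · intro i
      refine Fin.cases ?_ (fun j => ?_) i
      · show ω s(γ 0, γ 0) = true
        rw [h0]
        exact hx
      · exact ((finJoin_site_adj ω _ _).1 (hadj j)).2.2
    · exact ((finJoin_site_adj ω _ _).1 (hadj i)).1

theorem bondInf_imp {d : ℕ} (ω : Sym2 (Fin d → ℤ) → Bool) (h : BondInf ω) :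
    {y | (Gr Kind.bond ω).Reachable (0 : V d) y}.Infinite := by
  refine Set.Infinite.mono ?_ h
  rintro y ⟨N, γ, hγ, hl⟩
  obtain ⟨w, -⟩ := (bond_joined_iff ω 0 y (N : ℝ)).1 ⟨N, γ, le_refl _, hγ, hl⟩
  exact ⟨w⟩

theorem siteInf_imp {d : ℕ} (ω : Sym2 (Fin d → ℤ) → Bool) (h : SiteInf (fun x => ω s(x, x))) :
    {y | (Gr Kind.site ω).Reachable (0 : V d) y}.Infinite := by
  refine Set.Infinite.mono ?_ h
  rintro y ⟨N, γ, hγ, hl⟩
  have hx : ω s((0 : V d), (0 : V d)) = true := by
    have := hγ.2.2.1 0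
    rwa [hγ.1] at this
  obtain ⟨w, -⟩ := (site_joined_iff ω 0 y (N : ℝ) hx).1 ⟨N, γ, le_refl _, hγ, hl⟩
  exact ⟨w⟩

end Pool.Agent.H41.QC
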