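import Pool.Agent.H41.QC.Defs

/-! # QC module FinLaw: the law of the diagonal -/

open MeasureTheory Filter Topology
open Pool.Agent.H17.IIC

namespace Pool.Agent.H41.QC

lemma diag_inj (d : ℕ) : Function.Injective (fun x : V d => (s(x, x) : El d)) := by
  intro x y h
  have h1 := Sym2.eq_iff.1 h
  rcases h1 with h1 | h1
  · exact h1.1
  · exact h1.1

/-- the diagonal of a Bernoulli configuration on `Sym2` is a Bernoulli configuration -/
theorem diag_law (d : ℕ) (p : unitInterval) :
    (prodBern (El d) p).map (fun ω (x : V d) => ω s(x, x)) = prodBern (V d) p := by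
  classical
  have hm : Measurable (fun (ω : El d → Bool) (x : V d) => ω s(x, x)) := by
    rw [measurable_pi_iff]
    intro x
    exact measurable_pi_apply _
  unfold prodBern
  apply Measure.eq_infinitePi
  intro s t ht
  rw [Measure.map_apply hm (MeasurableSet.pi s.countable_toSet (fun i _ => ht i))]
  have hinj := diag_inj d
  have hset : (fun (ω : El d → Bool) (x : V d) => ω s(x, x)) ⁻¹' (Set.pi (s : Set (V d)) t)
      = Set.pi ((s.map ⟨_, hinj⟩ : Finset (El d)) : Set (El d))
        (fun e => if h : ∃ x : V d, (s(x, x) : El d) = e then t h.choose else Set.univ) := by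
    ext ω
    simp only [Set.mem_preimage, Set.mem_pi, Finset.mem_coe, Finset.mem_map,
      Function.Embedding.coeFn_mk]
    constructor
    · rintro h e ⟨x, hx, rfl⟩
      have hex : ∃ y : V d, (s(y, y) : El d) = s(x, x) := ⟨x, rfl⟩
      rw [dif_pos hex]
      have h2 : hex.choose = x := hinj hex.choose_spec
      rw [h2]
      exact h x hx
    · intro h x hx
      have h1 := h s(x, x) ⟨x, hx, rfl⟩
      have hex : ∃ y : V d, (s(y, y) : El d) = s(x, x) := ⟨x, rfl⟩
      rw [dif_pos hex] at h1
      have h2 : hex.choose = x := hinj hex.choose_spec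
      rwa [h2] at h1
  rw [hset, Measure.infinitePi_pi]
  · rw [Finset.prod_map]
    apply Finset.prod_congr rfl
    intro x hx
    have hex : ∃ y : V d, (s(y, y) : El d) = s(x, x) := ⟨x, rfl⟩
    simp only [Function.Embedding.coeFn_mk]
    rw [dif_pos hex]
    have h2 : hex.choose = x := hinj hex.choose_spec
    rw [h2]
  · intro e _
    split_ifs with h
    · exact ht _
    · exact MeasurableSet.univ

end Pool.Agent.H41.QC
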