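import Pool.Agent.H41.QC.Lower

/-! # QC module Main: monotonicity of `β` and the main theorem (paper 10) -/

open MeasureTheory Filter Topology
open Pool.Agent.H17.IIC

namespace Pool.Agent.H41.QC

theorem beta_mono (κ : Kind) (d : ℕ) {p p' : unitInterval} (hp : 0 < (p : ℝ))
    (hpp : (p : ℝ) < p') (hp1 : (p' : ℝ) < 1) : beta κ d p ≤ beta κ d p' := by
  by_contra hcon
  push Not at hcon
  have hp' : 0 < (p' : ℝ) := hp.trans hpp
  have h0 := beta_nonneg κ d p' hp'
  obtain ⟨η, hη, hη2, hη3⟩ : ∃ η : ℝ, 0 < η ∧ 2 * η ≤ beta κ d p ∧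
      8 * η ≤ beta κ d p - beta κ d p' := by
    refine ⟨(beta κ d p - beta κ d p') / 8, by linarith, by linarith, by linarith⟩
  obtain ⟨c₁, hc₁, k₁, h1⟩ := propA1 κ d p p' hp hpp hp1 hη hη2 0
  obtain ⟨C, hC, k₂, h2⟩ := upper_box κ d p' hp' hη
  have h3 : ∀ k : ℕ, max k₁ k₂ ≤ k → c₁ ≤ C / 2 ^ k := by
    intro k hk
    have h4 := h1 k ((le_max_left _ _).trans hk) (Nat.zero_le _)
    have h5 := h2 k ((le_max_right _ _).trans hk) 0
    refine h4.trans (le_trans ?_ h5)
    apply measureReal_mono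
    · rintro ω ⟨x, hx, hx2⟩
      refine ⟨x, ?_, ?_⟩
      · simpa using hx
      · refine lt_of_lt_of_le ?_ hx2
        rw [Real.exp_lt_exp]
        have : (0 : ℝ) < 2 ^ k := by positivity
        nlinarith
    · exact measure_ne_top _ _
  have h4 : Tendsto (fun k : ℕ => C / (2 : ℝ) ^ k) atTop (𝓝 0) := by
    have h5 : Tendsto (fun k : ℕ => C * (1 / 2 : ℝ) ^ k) atTop (𝓝 (C * 0)) :=
      (tendsto_pow_atTop_nhds_zero_of_lt_one (by norm_num) (by norm_num)).const_mul C
    rw [mul_zero] at h5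
    refine h5.congr fun k => ?_
    rw [one_div, inv_pow]; rfl
  have h6 : c₁ ≤ 0 := by
    refine ge_of_tendsto h4 ?_
    filter_upwards [eventually_ge_atTop (max k₁ k₂)] with k hk using h3 k hk
  linarith

/-- the limsup is at most `β` for every `p` -/
theorem limsup_le (κ : Kind) (d : ℕ) (p : unitInterval) (hp : 0 < (p : ℝ)) :
    ∀ᵐ ω ∂(prodBern (El d) p), ∀ η : ℝ, 0 < η → ∀ᶠ n : ℕ in atTop,
      (Pn κ ω n (0 : V d) : ℝ) ≤ Real.exp ((beta κ d p + η) * n) := by
  filter_upwards [upper_all κ d p hp] with ω hω η hη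
  filter_upwards [hω η hη 1] with n hn
  have h := hn n (by simp) 0 (by intro i; simp)
  refine h.trans (le_of_eq ?_)
  congr 1
  ring

/-- left-continuity points of `β` -/
def LeftCont (κ : Kind) (d : ℕ) (p : unitInterval) : Prop :=
  ∀ η : ℝ, 0 < η → ∃ p' : unitInterval, 0 < (p' : ℝ) ∧ (p' : ℝ) < p ∧ beta κ d p - η < beta κ d p'

theorem countable_exceptional (κ : Kind) (d : ℕ) :
    {x : ℝ | ∃ p : unitInterval, (p : ℝ) = x ∧ 0 < x ∧ x < 1 ∧ ¬ LeftCont κ d p}.Countable := by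
  classical
  have h1 : ∀ x ∈ {x : ℝ | ∃ p : unitInterval, (p : ℝ) = x ∧ 0 < x ∧ x < 1 ∧ ¬ LeftCont κ d p},
      ∃ p : unitInterval, ∃ q : ℚ, (p : ℝ) = x ∧ 0 < x ∧ (q : ℝ) < beta κ d p ∧
        ∀ p' : unitInterval, 0 < (p' : ℝ) → (p' : ℝ) < p → beta κ d p' < q := by
    rintro x ⟨p, hpx, hx0, -, hp⟩
    unfold LeftCont at hp
    push Not at hp
    obtain ⟨η, hη, hp⟩ := hp
    obtain ⟨q, hq1, hq2⟩ := exists_rat_btwn (show beta κ d p - η < beta κ d p by linarith)
    exact ⟨p, q, hpx, hx0, hq2, fun p' h0 h1 => (hp p' h0 h1).trans_lt hq1⟩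
  choose! P q hP using h1
  refine Set.MapsTo.countable_of_injOn (f := q) (t := Set.univ) (fun x _ => Set.mem_univ _) ?_
    (Set.to_countable _)
  intro x hx y hy hxy
  obtain ⟨hx1, hx2, hx3, hx4⟩ := hP x hx
  obtain ⟨hy1, hy2, hy3, hy4⟩ := hP y hy
  rcases lt_trichotomy x y with h | h | h
  · exfalso
    have h1 := hy4 (P x) (by rw [hx1]; exact hx2) (by rw [hx1, hy1]; exact h)
    rw [← hxy] at h1
    linarith
  · exact h
  · exfalso
    have h1 := hx4 (P y) (by rw [hy1]; exact hy2) (by rw [hx1, hy1]; exact h)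
    rw [hxy] at h1
    linarith

private lemma Main_tendsto {a : ℕ → ℝ} {β : ℝ}
    (hup : ∀ η : ℝ, 0 < η → ∀ᶠ n : ℕ in atTop, a n ≤ Real.exp ((β + η) * n))
    (hlow : ∀ η : ℝ, 0 < η → ∀ᶠ n : ℕ in atTop, Real.exp ((β - η) * n) ≤ a n) :
    Tendsto (fun n : ℕ => a n ^ (1 / (n : ℝ))) atTop (𝓝 (Real.exp β)) := by
  have key : ∀ (b : ℝ) (n : ℕ), 1 ≤ n → (Real.exp (b * n)) ^ (1 / (n : ℝ)) = Real.exp b := by
    intro b n hn
    have hn' : (n : ℝ) ≠ 0 := by positivity
    rw [← Real.exp_mul]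
    congr 1
    field_simp
  rw [tendsto_order]
  constructor
  · intro c hc
    have h1 := Real.continuous_exp.continuousAt.eventually (lt_mem_nhds hc)
    rw [Metric.eventually_nhds_iff] at h1
    obtain ⟨δ, hδ, h1⟩ := h1
    have h2 : c < Real.exp (β - δ / 2) := by
      apply h1
      rw [Real.dist_eq]
      rw [abs_lt]; constructor <;> linarith
    filter_upwards [hlow (δ / 2) (by linarith), eventually_ge_atTop 1] with n hn hn1
    refine h2.trans_le ?_
    rw [← key (β - δ / 2) n hn1]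
    exact Real.rpow_le_rpow (Real.exp_pos _).le hn (by positivity)
  · intro c hc
    have h1 := Real.continuous_exp.continuousAt.eventually (gt_mem_nhds hc)
    rw [Metric.eventually_nhds_iff] at h1
    obtain ⟨δ, hδ, h1⟩ := h1
    have h2 : Real.exp (β + δ / 2) < c := by
      apply h1
      rw [Real.dist_eq]
      rw [abs_lt]; constructor <;> linarith
    filter_upwards [hup (δ / 2) (by linarith), hlow 1 one_pos, eventually_ge_atTop 1] with n hn hn0 hn1
    refine lt_of_le_of_lt ?_ h2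
    rw [← key (β + δ / 2) n hn1]
    exact Real.rpow_le_rpow ((Real.exp_pos _).le.trans hn0) hn (by positivity)

theorem main (κ : Kind) (d : ℕ) (hd : 1 ≤ d) (p : unitInterval) (hp : 0 < (p : ℝ))
    (hp1 : (p : ℝ) < 1) (hL : LeftCont κ d p) (hc : Conn κ d p) :
    ∀ᵐ ω ∂(prodBern (El d) p), {y | (Gr κ ω).Reachable 0 y}.Infinite →
      Tendsto (fun n : ℕ => (Pn κ ω n (0 : V d) : ℝ) ^ (1 / (n : ℝ))) atTop
        (𝓝 (Real.exp (beta κ d p))) := by
  have h0 := beta_nonneg κ d p hp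
  rcases h0.eq_or_lt with hz | hpos
  · filter_upwards [limsup_le κ d p hp] with ω hω hinf
    apply Main_tendsto hω
    intro η hη
    refine Eventually.of_forall fun n => ?_
    have h1 : 1 ≤ Pn κ ω n (0 : V d) := Pn_pos_of_infinite κ ω hinf n
    have h2 : (1 : ℝ) ≤ (Pn κ ω n (0 : V d) : ℝ) := by exact_mod_cast h1
    refine le_trans ?_ h2
    rw [← Real.exp_zero, Real.exp_le_exp, ← hz]
    have : (0 : ℝ) ≤ n := Nat.cast_nonneg n
    nlinarith
  · have h1 : ∀ m : ℕ, ∀ᵐ ω ∂(prodBern (El d) p), {y | (Gr κ ω).Reachable 0 y}.Infinite →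
        ∀ᶠ n : ℕ in atTop,
          Real.exp ((beta κ d p - 5 * (beta κ d p / (m + 1))) * n) ≤ (Pn κ ω n (0 : V d) : ℝ) := by
      intro m
      have hm : (0 : ℝ) < m + 1 := by positivity
      have hη : 0 < beta κ d p / (m + 1) := by positivity
      have hη1 : beta κ d p / (m + 1) ≤ beta κ d p := by
        apply div_le_self hpos.le
        have : (0 : ℝ) ≤ m := Nat.cast_nonneg m
        linarith
      obtain ⟨p', hp', hpp', hb⟩ := hL (beta κ d p / (m + 1)) hη
      filter_upwards [lower κ d hd p' p hp' hpp' hp1 (by linarith) hc hη] with ω hω hinf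
      filter_upwards [hω hinf] with n hn
      refine le_trans ?_ hn
      rw [Real.exp_le_exp]
      apply mul_le_mul_of_nonneg_right _ (Nat.cast_nonneg n)
      linarith
    filter_upwards [limsup_le κ d p hp, ae_all_iff.2 h1] with ω hω hω2 hinf
    apply Main_tendsto hω
    intro η hη
    obtain ⟨m, hm⟩ := exists_nat_gt (5 * beta κ d p / η)
    filter_upwards [hω2 m hinf] with n hn
    refine le_trans ?_ hn
    rw [Real.exp_le_exp]
    apply mul_le_mul_of_nonneg_right _ (Nat.cast_nonneg n)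
    have hm' : (0 : ℝ) < m + 1 := by positivity
    have h3 : 5 * (beta κ d p / (m + 1)) ≤ η := by
      rw [← mul_div_assoc, div_le_iff₀ hm']
      rw [div_lt_iff₀ hη] at hm
      nlinarith
    linarith

end Pool.Agent.H41.QC
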