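import Pool.Agent.H41.QC.ConnNear
import Pool.Agent.H41.QC.FinCount
import Pool.Agent.H41.QC.FinJoin
import Pool.Agent.H41.QC.FinLaw
import Pool.Agent.H41.QC.Main

/-! # QC module Final: the final theorem -/

open MeasureTheory Filter Topology
open Pool.Agent.H17.IIC

namespace Pool.Agent.H41.QC

lemma Final_box_iff {d : ℕ} (y : V d) (m : ℕ) :
    y ∈ box (0 : V d) (2 ^ m) ↔ ∀ i, 0 ≤ y i ∧ y i < 2 ^ m := by
  rw [mem_box]
  simp

/-- the pointwise form of the equivalence, bond percolation -/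
lemma Final_bond_pt {d : ℕ} (ω : El d → Bool) (k j : ℕ) (ε : ℝ) :
    (∀ y : Fin d → ℤ, (∀ i, 0 ≤ y i ∧ y i < 2 ^ (k - j)) →
      (∃ γ, IsBondPath ω (2 ^ k) 0 γ) → (∃ γ, IsBondPath ω (2 ^ k) y γ) →
      ∃ (n : ℕ) (γ : Fin (n + 1) → (Fin d → ℤ)), (n : ℝ) ≤ ε * 2 ^ k ∧ IsBondPath ω n 0 γ ∧
        γ (Fin.last n) = y) ↔
    (0 < Pn Kind.bond ω (2 ^ k) (0 : V d) → ∀ y ∈ box (0 : V d) (2 ^ (k - j)),
      0 < Pn Kind.bond ω (2 ^ k) y → Joined Kind.bond ω 0 y (ε * 2 ^ k)) := by
  constructor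
  · intro h h0 y hy hy0
    rw [← bond_joined_iff]
    exact h y ((Final_box_iff y _).1 hy) ((exists_bondPath_iff ω _ _).2 h0)
      ((exists_bondPath_iff ω _ _).2 hy0)
  · intro h y hy h0 hy0
    rw [bond_joined_iff]
    exact h ((exists_bondPath_iff ω _ _).1 h0) y ((Final_box_iff y _).2 hy)
      ((exists_bondPath_iff ω _ _).1 hy0)

/-- the pointwise form of the equivalence, site percolation -/
lemma Final_site_pt {d : ℕ} (ω : El d → Bool) (k j : ℕ) (ε : ℝ) :
    (∀ y : Fin d → ℤ, (∀ i, 0 ≤ y i ∧ y i < 2 ^ (k - j)) →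
      (∃ γ, IsSitePath (fun x => ω s(x, x)) (2 ^ k) 0 γ) →
      (∃ γ, IsSitePath (fun x => ω s(x, x)) (2 ^ k) y γ) →
      ∃ (n : ℕ) (γ : Fin (n + 1) → (Fin d → ℤ)), (n : ℝ) ≤ ε * 2 ^ k ∧
        IsSitePath (fun x => ω s(x, x)) n 0 γ ∧ γ (Fin.last n) = y) ↔
    (0 < Pn Kind.site ω (2 ^ k) (0 : V d) → ∀ y ∈ box (0 : V d) (2 ^ (k - j)),
      0 < Pn Kind.site ω (2 ^ k) y → Joined Kind.site ω 0 y (ε * 2 ^ k)) := by
  have hop : (∃ γ, IsSitePath (fun x => ω s(x, x)) (2 ^ k) (0 : V d) γ) →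
      ω s((0 : V d), (0 : V d)) = true := by
    rintro ⟨γ, h1, -, h2, -⟩
    have := h2 0
    rwa [h1] at this
  constructor
  · intro h h0 y hy hy0
    have h0' := (exists_sitePath_iff ω _ _).2 h0
    rw [← site_joined_iff ω 0 y _ (hop h0')]
    exact h y ((Final_box_iff y _).1 hy) h0' ((exists_sitePath_iff ω _ _).2 hy0)
  · intro h y hy h0 hy0
    rw [site_joined_iff ω 0 y _ (hop h0)]
    exact h ((exists_sitePath_iff ω _ _).1 h0) y ((Final_box_iff y _).2 hy)
      ((exists_sitePath_iff ω _ _).1 hy0)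

theorem bondLCD_iff (d : ℕ) (p : unitInterval) : BondLCD d p ↔ Conn Kind.bond d p := by
  unfold BondLCD Conn
  simp only [Final_bond_pt]

open Classical in
/-- put a site configuration on the diagonal of a configuration on `Sym2` -/
noncomputable def FinalG (d : ℕ) (x : (V d → Bool) × (El d → Bool)) : El d → Bool :=
  fun e => if h : ∃ v : V d, e = s(v, v) then x.1 h.choose else x.2 e

lemma FinalG_diag {d : ℕ} (x : (V d → Bool) × (El d → Bool)) (v : V d) :
    FinalG d x s(v, v) = x.1 v := by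
  unfold FinalG
  have h : ∃ w : V d, s(v, v) = s(w, w) := ⟨v, rfl⟩
  rw [dif_pos h]
  have h1 := h.choose_spec
  rw [Sym2.eq_iff] at h1
  have h2 : h.choose = v := by
    rcases h1 with ⟨h1, -⟩ | ⟨h1, -⟩ <;> exact h1.symm
  rw [h2]

lemma FinalG_off {d : ℕ} (x : (V d → Bool) × (El d → Bool)) {e : El d}
    (he : ¬ ∃ v : V d, e = s(v, v)) : FinalG d x e = x.2 e := by
  unfold FinalG
  rw [dif_neg he]

lemma Final_measurable_G (d : ℕ) : Measurable (FinalG d) := by
  rw [measurable_pi_iff]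
  intro e
  by_cases he : ∃ v : V d, e = s(v, v)
  · obtain ⟨v, rfl⟩ := he
    simp only [FinalG_diag]
    exact (measurable_pi_apply v).comp measurable_fst
  · simp only [FinalG_off _ he]
    exact (measurable_pi_apply e).comp measurable_snd

lemma Final_map_G (d : ℕ) (p : unitInterval) :
    ((prodBern (V d) p).prod (prodBern (El d) p)).map (FinalG d) = prodBern (El d) p := by
  classical
  conv_rhs => rw [prodBern]
  apply Measure.eq_infinitePi
  intro s t ht
  rw [Measure.map_apply (Final_measurable_G d)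
    (MeasurableSet.pi s.countable_toSet (fun i _ => ht i))]
  have hinj : Function.Injective (fun v : V d => (s(v, v) : El d)) := by
    intro v w h
    have h1 : (s(v, v) : El d) = s(w, w) := h
    rw [Sym2.eq_iff] at h1
    rcases h1 with ⟨h1, -⟩ | ⟨h1, -⟩ <;> exact h1
  set s1 : Finset (V d) := s.preimage (fun v : V d => (s(v, v) : El d)) hinj.injOn with hs1
  set s2 : Finset (El d) := s.filter (fun e => ¬ ∃ v : V d, e = s(v, v)) with hs2
  have hmem1 : ∀ v : V d, v ∈ s1 ↔ (s(v, v) : El d) ∈ s := fun v => Finset.mem_preimage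
  have hset : FinalG d ⁻¹' (Set.pi s t)
      = (Set.pi s1 (fun v => t s(v, v))) ×ˢ (Set.pi s2 t) := by
    ext x
    simp only [Set.mem_preimage, Set.mem_pi, Finset.mem_coe, Set.mem_prod]
    constructor
    · intro h
      refine ⟨fun v hv => ?_, fun e he => ?_⟩
      · have := h _ ((hmem1 v).1 hv)
        rwa [FinalG_diag] at this
      · rw [hs2, Finset.mem_filter] at he
        have := h e he.1
        rwa [FinalG_off _ he.2] at this
    · rintro ⟨h1, h2⟩ e he
      by_cases hd : ∃ v : V d, e = s(v, v)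
      · obtain ⟨v, rfl⟩ := hd
        rw [FinalG_diag]
        exact h1 v ((hmem1 v).2 he)
      · rw [FinalG_off _ hd]
        exact h2 e (by rw [hs2, Finset.mem_filter]; exact ⟨he, hd⟩)
  rw [hset, Measure.prod_prod, prodBern, prodBern,
    Measure.infinitePi_pi (μ := fun _ : V d => bern p) (fun i _ => ht _),
    Measure.infinitePi_pi (μ := fun _ : El d => bern p) (fun i _ => ht i)]
  have hprod1 : ∏ v ∈ s1, bern p (t s(v, v))
      = ∏ e ∈ s.filter (fun e => ∃ v : V d, e = s(v, v)), bern p (t e) := by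
    have himg : s.filter (fun e => ∃ v : V d, e = s(v, v))
        = s1.image (fun v : V d => (s(v, v) : El d)) := by
      ext e
      simp only [Finset.mem_filter, Finset.mem_image]
      constructor
      · rintro ⟨he, v, rfl⟩
        exact ⟨v, (hmem1 v).2 he, rfl⟩
      · rintro ⟨v, hv, rfl⟩
        exact ⟨(hmem1 v).1 hv, v, rfl⟩
    rw [himg, Finset.prod_image (fun a _ b _ h => hinj h)]
  rw [hprod1, hs2]
  exact Finset.prod_filter_mul_prod_filter_not s (fun e => ∃ v : V d, e = s(v, v))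
    (fun e => bern p (t e))

/-- transfer of almost sure statements to the diagonal, without measurability -/
lemma Final_transfer (d : ℕ) (p : unitInterval) (Q : (V d → Bool) → Prop)
    (h : ∀ᵐ ω ∂(prodBern (El d) p), Q (fun x => ω s(x, x))) :
    ∀ᵐ ω ∂(prodBern (V d) p), Q ω := by
  rw [ae_iff] at h
  obtain ⟨N, hsub, hN, hN0⟩ := exists_measurable_superset_of_null h
  rw [← Final_map_G d p, Measure.map_apply (Final_measurable_G d) hN,
    Measure.measure_prod_null (Final_measurable_G d hN)] at hN0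
  have hN1 : (prodBern (V d) p).prod (prodBern (El d) p) (FinalG d ⁻¹' N) = 0 := by
    rw [Measure.measure_prod_null (Final_measurable_G d hN)]
    exact hN0
  have hN2 := Measure.measure_ae_null_of_prod_null
    (μ := prodBern (El d) p) (ν := prodBern (V d) p) (s := Prod.swap ⁻¹' (FinalG d ⁻¹' N)) (by
      rw [← Measure.map_apply measurable_swap (Final_measurable_G d hN), Measure.prod_swap]
      exact hN1)
  obtain ⟨b, hb⟩ := hN2.exists
  rw [ae_iff]
  refine measure_mono_null ?_ hb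
  intro a ha
  apply hsub
  have h1 : (fun x : V d => FinalG d (a, b) s(x, x)) = a := by
    funext x
    rw [FinalG_diag]
  change ¬ Q (fun x : V d => FinalG d (a, b) s(x, x))
  rw [h1]
  exact ha

lemma Final_measurable_diag (d : ℕ) :
    Measurable (fun (ω : El d → Bool) (x : V d) => ω s(x, x)) := by
  rw [measurable_pi_iff]
  intro x
  exact measurable_pi_apply _

lemma Final_transfer' (d : ℕ) (p : unitInterval) (Q : (V d → Bool) → Prop)
    (h : ∀ᵐ ω ∂(prodBern (V d) p), Q ω) :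
    ∀ᵐ ω ∂(prodBern (El d) p), Q (fun x => ω s(x, x)) := by
  rw [← diag_law d p] at h
  exact ae_of_ae_map (Final_measurable_diag d).aemeasurable h

lemma Final_transfer_iff (d : ℕ) (p : unitInterval) (Q : (V d → Bool) → Prop) :
    (∀ᵐ ω ∂(prodBern (V d) p), Q ω) ↔
      ∀ᵐ ω ∂(prodBern (El d) p), Q (fun x => ω s(x, x)) :=
  ⟨Final_transfer' d p Q, Final_transfer d p Q⟩

theorem siteLCD_iff (d : ℕ) (p : unitInterval) : SiteLCD d p ↔ Conn Kind.site d p := by
  unfold SiteLCD Conn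
  simp only [Final_transfer_iff, Final_site_pt]

/-- final theorem -/
theorem final :
    (∀ d : ℕ, 2 ≤ d → ∃ E : Set ℝ, E.Countable ∧
      (∀ p : unitInterval, 0 < (p : ℝ) → (p : ℝ) < 1 → (p : ℝ) ∉ E → BondLCD d p →
        ∃ μ : ℝ, 1 ≤ μ ∧ ∀ᵐ ω ∂(prodBern (Sym2 (Fin d → ℤ)) p), BondInf ω →
          Tendsto (fun N : ℕ => (bondZ ω N : ℝ) ^ (1 / (N : ℝ))) atTop (𝓝 μ)) ∧
      (∀ p : unitInterval, 0 < (p : ℝ) → (p : ℝ) < 1 → (p : ℝ) ∉ E → SiteLCD d p →
        ∃ μ : ℝ, 1 ≤ μ ∧ ∀ᵐ ω ∂(prodBern (Fin d → ℤ) p), SiteInf ω →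
          Tendsto (fun N : ℕ => (siteZ ω N : ℝ) ^ (1 / (N : ℝ))) atTop (𝓝 μ))) ∧
    (∀ d : ℕ, 2 ≤ d → ∃ p₁ : ℝ, p₁ < 1 ∧ ∀ p : unitInterval, p₁ < (p : ℝ) → (p : ℝ) < 1 →
      BondLCD d p ∧ SiteLCD d p) := by
  constructor
  · intro d hd
    refine ⟨{x : ℝ | ∃ p : unitInterval, (p : ℝ) = x ∧ 0 < x ∧ x < 1 ∧ ¬ LeftCont .bond d p} ∪
      {x : ℝ | ∃ p : unitInterval, (p : ℝ) = x ∧ 0 < x ∧ x < 1 ∧ ¬ LeftCont .site d p},
      (countable_exceptional .bond d).union (countable_exceptional .site d), ?_, ?_⟩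
    · intro p hp hp1 hpE hL
      have hLC : LeftCont .bond d p := by
        by_contra hcon
        exact hpE (Or.inl ⟨p, rfl, hp, hp1, hcon⟩)
      refine ⟨Real.exp (beta .bond d p), Real.one_le_exp (beta_nonneg .bond d p hp), ?_⟩
      filter_upwards [main .bond d (by omega) p hp hp1 hLC ((bondLCD_iff d p).1 hL)] with ω hω hinf
      simp only [bondZ_eq]
      exact hω (bondInf_imp ω hinf)
    · intro p hp hp1 hpE hL
      have hLC : LeftCont .site d p := by
        by_contra hcon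
        exact hpE (Or.inr ⟨p, rfl, hp, hp1, hcon⟩)
      refine ⟨Real.exp (beta .site d p), Real.one_le_exp (beta_nonneg .site d p hp), ?_⟩
      apply Final_transfer
      filter_upwards [main .site d (by omega) p hp hp1 hLC ((siteLCD_iff d p).1 hL)] with ω hω hinf
      simp only [siteZ_eq]
      exact hω (siteInf_imp ω hinf)
  · intro d hd
    obtain ⟨p1, hp1, h1⟩ := conn_near .bond d hd
    obtain ⟨p2, hp2, h2⟩ := conn_near .site d hd
    refine ⟨max p1 p2, max_lt hp1 hp2, fun p hp hlt => ⟨?_, ?_⟩⟩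
    · exact (bondLCD_iff d p).2 (h1 p ((le_max_left _ _).trans_lt hp) hlt)
    · exact (siteLCD_iff d p).2 (h2 p ((le_max_right _ _).trans_lt hp) hlt)

end Pool.Agent.H41.QC
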