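import Pool.Agent.H41.QC.BoxLim
import Pool.Agent.H41.QC.Final

/-! # QC module Final2: the final theorem, strong form -/

open MeasureTheory Filter Topology
open Pool.Agent.H17.IIC

namespace Pool.Agent.H41.QC

/-- number of open self-avoiding paths of length `N` from `x`, bond percolation -/
noncomputable def bondZx {d : ℕ} (ω : Sym2 (Fin d → ℤ) → Bool) (N : ℕ) (x : Fin d → ℤ) : ℕ :=
  {γ : Fin (N + 1) → (Fin d → ℤ) | IsBondPath ω N x γ}.ncard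

/-- number of open self-avoiding paths of length `N` from `x`, site percolation -/
noncomputable def siteZx {d : ℕ} (ω : (Fin d → ℤ) → Bool) (N : ℕ) (x : Fin d → ℤ) : ℕ :=
  {γ : Fin (N + 1) → (Fin d → ℤ) | IsSitePath ω N x γ}.ncard

theorem bondZx_eq {d : ℕ} (ω : Sym2 (Fin d → ℤ) → Bool) (N : ℕ) (x : V d) :
    bondZx ω N x = Pn Kind.bond ω N x := by
  rw [← fc_ncard]
  unfold bondZx
  congr 1
  ext γ
  exact fc_bond ω N x γ

theorem siteZx_eq {d : ℕ} (ω : Sym2 (Fin d → ℤ) → Bool) (N : ℕ) (x : V d) :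
    siteZx (fun x => ω s(x, x)) N x = Pn Kind.site ω N x := by
  rw [← fc_ncard]
  unfold siteZx
  congr 1
  ext γ
  exact fc_site ω N x γ

lemma fin2_up (κ : Kind) (d : ℕ) (p : unitInterval) (hp : 0 < (p : ℝ)) :
    ∀ᵐ ω ∂(prodBern (El d) p), ∀ c : ℝ, Real.exp (beta κ d p) < c → ∀ K : ℕ,
      ∀ᶠ N : ℕ in atTop, ∀ x : V d, (∀ i, |x i| ≤ K * N) → (Pn κ ω N x : ℝ) ≤ c ^ N := by
  filter_upwards [upper_all κ d p hp] with ω hω
  intro c hc K
  have hc0 : 0 < c := (Real.exp_pos _).trans hc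
  have hη : 0 < Real.log c - beta κ d p := by
    have := (Real.lt_log_iff_exp_lt hc0).mpr hc
    linarith
  filter_upwards [hω _ hη (max K 1)] with N hN x hx
  refine (hN N ?_ x ?_).trans (le_of_eq ?_)
  · have h1 : 1 ≤ max K 1 := le_max_right _ _
    nlinarith [Nat.mul_le_mul_right N h1]
  · intro i
    refine (hx i).trans ?_
    push_cast
    apply mul_le_mul_of_nonneg_right _ (by positivity)
    exact_mod_cast le_max_left _ _
  · rw [← Real.rpow_natCast c N, Real.rpow_def_of_pos hc0]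
    congr 1
    ring

lemma fin2_low (κ : Kind) (d : ℕ) (hd : 1 ≤ d) (p : unitInterval) (hp : 0 < (p : ℝ))
    (hp1 : (p : ℝ) < 1) (hL : LeftCont κ d p) (hpos : 1 < Real.exp (beta κ d p)) :
    ∀ᵐ ω ∂(prodBern (El d) p), ∀ c : ℝ, 0 ≤ c → c < Real.exp (beta κ d p) → ∀ ε : ℝ, 0 < ε →
      ∀ᶠ N : ℕ in atTop, ∃ x : V d, (∀ i, 0 ≤ x i ∧ (x i : ℝ) ≤ ε * N) ∧
        c ^ N ≤ (Pn κ ω N x : ℝ) := by
  have hb : 0 < beta κ d p := by
    rw [← Real.exp_zero] at hpos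
    exact Real.exp_lt_exp.mp hpos
  filter_upwards [near_top κ d hd p hp hp1 hL hb] with ω hω
  intro c hc0 hc ε hε
  have hm0 : 0 < max c 1 := lt_of_lt_of_le one_pos (le_max_right _ _)
  have hm : max c 1 < Real.exp (beta κ d p) := max_lt hc hpos
  have hη : 0 < beta κ d p - Real.log (max c 1) := by
    have := (Real.log_lt_iff_lt_exp hm0).mpr hm
    linarith
  filter_upwards [hω ε hε _ hη] with N hN
  obtain ⟨x, hx, hxP⟩ := hN
  refine ⟨x, hx, le_trans ?_ hxP⟩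
  calc c ^ N ≤ (max c 1) ^ N := pow_le_pow_left₀ hc0 (le_max_left _ _) N
    _ = _ := by
      rw [← Real.rpow_natCast (max c 1) N, Real.rpow_def_of_pos hm0]
      congr 1
      ring

/-- final theorem, strong form -/
theorem final2 (d : ℕ) (hd : 2 ≤ d) :
    ∃ (E : Set ℝ) (μb μs : unitInterval → ℝ), E.Countable ∧
      (∀ p q : unitInterval, 0 < (p : ℝ) → p ≤ q → (q : ℝ) < 1 → μb p ≤ μb q ∧ μs p ≤ μs q) ∧
      -- bond percolation
      (∀ p : unitInterval, 0 < (p : ℝ) → (p : ℝ) < 1 →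
        1 ≤ μb p ∧
        (∀ᵐ ω ∂(prodBern (Sym2 (Fin d → ℤ)) p), ∀ c : ℝ, μb p < c → ∀ K : ℕ, ∀ᶠ N : ℕ in atTop,
          ∀ x : Fin d → ℤ, (∀ i, |x i| ≤ K * N) → (bondZx ω N x : ℝ) ≤ c ^ N) ∧
        ((p : ℝ) ∉ E → 1 < μb p → ∀ᵐ ω ∂(prodBern (Sym2 (Fin d → ℤ)) p),
          ∀ c : ℝ, 0 ≤ c → c < μb p → ∀ ε : ℝ, 0 < ε → ∀ᶠ N : ℕ in atTop,
          ∃ x : Fin d → ℤ, (∀ i, 0 ≤ x i ∧ (x i : ℝ) ≤ ε * N) ∧ c ^ N ≤ (bondZx ω N x : ℝ)) ∧
        ((p : ℝ) ∉ E → BondLCD d p → ∀ᵐ ω ∂(prodBern (Sym2 (Fin d → ℤ)) p), BondInf ω →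
          Tendsto (fun N : ℕ => (bondZx ω N 0 : ℝ) ^ (1 / (N : ℝ))) atTop (𝓝 (μb p)))) ∧
      -- site percolation
      (∀ p : unitInterval, 0 < (p : ℝ) → (p : ℝ) < 1 →
        1 ≤ μs p ∧
        (∀ᵐ ω ∂(prodBern (Fin d → ℤ) p), ∀ c : ℝ, μs p < c → ∀ K : ℕ, ∀ᶠ N : ℕ in atTop,
          ∀ x : Fin d → ℤ, (∀ i, |x i| ≤ K * N) → (siteZx ω N x : ℝ) ≤ c ^ N) ∧
        ((p : ℝ) ∉ E → 1 < μs p → ∀ᵐ ω ∂(prodBern (Fin d → ℤ) p),
          ∀ c : ℝ, 0 ≤ c → c < μs p → ∀ ε : ℝ, 0 < ε → ∀ᶠ N : ℕ in atTop,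
          ∃ x : Fin d → ℤ, (∀ i, 0 ≤ x i ∧ (x i : ℝ) ≤ ε * N) ∧ c ^ N ≤ (siteZx ω N x : ℝ)) ∧
        ((p : ℝ) ∉ E → SiteLCD d p → ∀ᵐ ω ∂(prodBern (Fin d → ℤ) p), SiteInf ω →
          Tendsto (fun N : ℕ => (siteZx ω N 0 : ℝ) ^ (1 / (N : ℝ))) atTop (𝓝 (μs p)))) ∧
      -- the hypothesis on the chemical distance holds near `p = 1`
      (∃ p₁ : ℝ, p₁ < 1 ∧ ∀ p : unitInterval, p₁ < (p : ℝ) → (p : ℝ) < 1 →
        BondLCD d p ∧ SiteLCD d p) := by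
  refine ⟨{x : ℝ | ∃ p : unitInterval, (p : ℝ) = x ∧ 0 < x ∧ x < 1 ∧ ¬ LeftCont .bond d p} ∪
      {x : ℝ | ∃ p : unitInterval, (p : ℝ) = x ∧ 0 < x ∧ x < 1 ∧ ¬ LeftCont .site d p},
      fun p => Real.exp (beta .bond d p), fun p => Real.exp (beta .site d p),
      (countable_exceptional .bond d).union (countable_exceptional .site d), ?_, ?_, ?_, ?_⟩
  · intro p q hp hpq hq
    rcases hpq.eq_or_lt with h | h
    · subst h; exact ⟨le_rfl, le_rfl⟩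
    · exact ⟨Real.exp_le_exp.mpr (beta_mono .bond d hp h hq),
        Real.exp_le_exp.mpr (beta_mono .site d hp h hq)⟩
  · intro p hp hp1
    have hLC : (p : ℝ) ∉ {x : ℝ | ∃ p : unitInterval, (p : ℝ) = x ∧ 0 < x ∧ x < 1 ∧
        ¬ LeftCont .bond d p} ∪ {x : ℝ | ∃ p : unitInterval, (p : ℝ) = x ∧ 0 < x ∧ x < 1 ∧
        ¬ LeftCont .site d p} → LeftCont .bond d p := by
      intro hpE
      by_contra hcon
      exact hpE (Or.inl ⟨p, rfl, hp, hp1, hcon⟩)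
    refine ⟨Real.one_le_exp (beta_nonneg .bond d p hp), ?_, ?_, ?_⟩
    · simp only [bondZx_eq]
      exact fin2_up .bond d p hp
    · intro hpE hμ
      simp only [bondZx_eq]
      exact fin2_low .bond d (by omega) p hp hp1 (hLC hpE) hμ
    · intro hpE hL
      filter_upwards [main .bond d (by omega) p hp hp1 (hLC hpE) ((bondLCD_iff d p).1 hL)]
        with ω hω hinf
      simp only [bondZx_eq]
      exact hω (bondInf_imp ω hinf)
  · intro p hp hp1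
    have hLC : (p : ℝ) ∉ {x : ℝ | ∃ p : unitInterval, (p : ℝ) = x ∧ 0 < x ∧ x < 1 ∧
        ¬ LeftCont .bond d p} ∪ {x : ℝ | ∃ p : unitInterval, (p : ℝ) = x ∧ 0 < x ∧ x < 1 ∧
        ¬ LeftCont .site d p} → LeftCont .site d p := by
      intro hpE
      by_contra hcon
      exact hpE (Or.inr ⟨p, rfl, hp, hp1, hcon⟩)
    refine ⟨Real.one_le_exp (beta_nonneg .site d p hp), ?_, ?_, ?_⟩
    · apply Final_transfer
      simp only [siteZx_eq]
      exact fin2_up .site d p hp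
    · intro hpE hμ
      apply Final_transfer
      simp only [siteZx_eq]
      exact fin2_low .site d (by omega) p hp hp1 (hLC hpE) hμ
    · intro hpE hL
      apply Final_transfer
      filter_upwards [main .site d (by omega) p hp hp1 (hLC hpE) ((siteLCD_iff d p).1 hL)]
        with ω hω hinf
      simp only [siteZx_eq]
      exact hω (siteInf_imp ω hinf)
  · obtain ⟨p1, hp1, h1⟩ := conn_near .bond d hd
    obtain ⟨p2, hp2, h2⟩ := conn_near .site d hd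
    refine ⟨max p1 p2, max_lt hp1 hp2, fun p hp hlt => ⟨?_, ?_⟩⟩
    · exact (bondLCD_iff d p).2 (h1 p ((le_max_left _ _).trans_lt hp) hlt)
    · exact (siteLCD_iff d p).2 (h2 p ((le_max_right _ _).trans_lt hp) hlt)

end Pool.Agent.H41.QC
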