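import Pool.Agent.H41.QC.Rec

/-! # QC module Upper: upper bound at dyadic scales (paper 8.1) -/

open MeasureTheory Filter Topology
open Pool.Agent.H17.IIC

namespace Pool.Agent.H41.QC

lemma Upper_dep {d : ℕ} (κ : Kind) (N : ℕ) (B : Finset (V d)) (c : ℝ) :
    Dep (suppP κ N B) (fun ω : El d → Bool => ω ∈ {ω | ∃ x ∈ B, c < (Pn κ ω N x : ℝ)}) := by
  intro ω ω' h
  simp only [Set.mem_ofPred_eq]
  apply propext
  constructor
  · rintro ⟨x, hx, hc⟩
    exact ⟨x, hx, by rwa [← Pn_congr κ N hx h]⟩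
  · rintro ⟨x, hx, hc⟩
    exact ⟨x, hx, by rwa [Pn_congr κ N hx h]⟩

lemma Upper_meas {d : ℕ} (κ : Kind) (N : ℕ) (B : Finset (V d)) (c : ℝ) :
    MeasurableSet {ω : El d → Bool | ∃ x ∈ B, c < (Pn κ ω N x : ℝ)} :=
  (Upper_dep κ N B c).measurableSet

/-- probability bound for one box -/
theorem upper_box (κ : Kind) (d : ℕ) (p : unitInterval) (hp : 0 < (p : ℝ)) {η : ℝ} (hη : 0 < η) :
    ∃ C : ℝ, 0 < C ∧ ∃ k₀ : ℕ, ∀ k : ℕ, k₀ ≤ k → ∀ v : V d,
      (prodBern (El d) p).real {ω | ∃ x ∈ box v (2 ^ k),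
        Real.exp ((beta κ d p + η) * 2 ^ k) < (Pn κ ω (2 ^ k) x : ℝ)} ≤ C / 2 ^ k := by
  obtain ⟨M, hM, hVM⟩ := exists_Vl_lt κ d p hp (η := η / 4) (by positivity)
  obtain ⟨C₁, hC₁, hvar⟩ := var_box d p hp
  obtain ⟨C₂, hC₂, hV⟩ := Vl_spec κ d p hp
  obtain ⟨htend, -, -⟩ := hV M hM
  have hev := htend.eventually (gt_mem_nhds (show Vl κ d p M < beta κ d p + η / 2 by linarith))
  obtain ⟨k₀, hk₀⟩ := eventually_atTop.mp hev
  have hMr : (1:ℝ) ≤ M := by exact_mod_cast hM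
  refine ⟨C₁ * M * 4 / η ^ 2, by positivity, k₀, ?_⟩
  intro k hk v
  have hprobnu := nu_prob p hM
  have hprobQ : IsProbabilityMeasure (Q d p M) := by unfold Q; infer_instance
  have h2k : (0:ℝ) < 2 ^ k := by positivity
  obtain ⟨c, hc⟩ : ∃ c, c = Phi κ p M (2 ^ k) (box (0 : V d) (2 ^ k)) := ⟨_, rfl⟩
  have hcle : c ≤ (beta κ d p + η / 2) * 2 ^ k := by
    have h1 := (hk₀ k hk).le
    unfold aa at h1
    rw [← hc, div_le_iff₀ h2k] at h1
    exact h1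
  have hT : Measurable (fun (g : El d → ℕ) (e : El d) => decide (g e = 0)) :=
    measurable_pi_lambda _ fun e => (measurable_from_nat (f := fun n : ℕ => decide (n = 0))).comp
      (measurable_pi_apply e)
  have hE := Upper_meas κ (2 ^ k) (box v (2 ^ k)) (Real.exp ((beta κ d p + η) * 2 ^ k))
  have h1 : (prodBern (El d) p).real {ω | ∃ x ∈ box v (2 ^ k),
        Real.exp ((beta κ d p + η) * 2 ^ k) < (Pn κ ω (2 ^ k) x : ℝ)} =
      (Q d p M).real ((fun (g : El d → ℕ) (e : El d) => decide (g e = 0)) ⁻¹'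
        {ω | ∃ x ∈ box v (2 ^ k),
        Real.exp ((beta κ d p + η) * 2 ^ k) < (Pn κ ω (2 ^ k) x : ℝ)}) := by
    rw [← Q_map_zero d p hM, measureReal_def, measureReal_def, Measure.map_apply hT hE]
  rw [h1]
  have hsub : ((fun (g : El d → ℕ) (e : El d) => decide (g e = 0)) ⁻¹'
        {ω | ∃ x ∈ box v (2 ^ k),
        Real.exp ((beta κ d p + η) * 2 ^ k) < (Pn κ ω (2 ^ k) x : ℝ)}) ⊆
      {g | (η / 2 * 2 ^ k) ^ 2 ≤ (Lg κ g (2 ^ k) (box v (2 ^ k)) - c) ^ 2} := by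
    rintro g ⟨x, hx, hlt⟩
    have e1 := Pn_le_S κ g (2 ^ k) x
    have e2 : S κ g (2 ^ k) x ≤ W κ g (2 ^ k) (box v (2 ^ k)) := by
      have e3 := Finset.single_le_sum (f := fun y => S κ g (2 ^ k) y)
        (fun y _ => S_nonneg κ g (2 ^ k) y) hx
      unfold W
      linarith
    have e3 : (beta κ d p + η) * 2 ^ k < Lg κ g (2 ^ k) (box v (2 ^ k)) := by
      unfold Lg
      rw [Real.lt_log_iff_exp_lt (by linarith [one_le_W κ g (2 ^ k) (box v (2 ^ k))])]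
      linarith
    have e4 : η / 2 * 2 ^ k ≤ Lg κ g (2 ^ k) (box v (2 ^ k)) - c := by
      have e5 : (beta κ d p + η) * 2 ^ k - (beta κ d p + η / 2) * 2 ^ k = η / 2 * 2 ^ k := by ring
      linarith
    exact pow_le_pow_left₀ (by positivity) e4 2
  have h2 : (Q d p M).real ((fun (g : El d → ℕ) (e : El d) => decide (g e = 0)) ⁻¹'
        {ω | ∃ x ∈ box v (2 ^ k),
        Real.exp ((beta κ d p + η) * 2 ^ k) < (Pn κ ω (2 ^ k) x : ℝ)}) ≤
      (Q d p M).real {g | (η / 2 * 2 ^ k) ^ 2 ≤ (Lg κ g (2 ^ k) (box v (2 ^ k)) - c) ^ 2} :=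
    measureReal_mono hsub
  have h3 := mul_meas_ge_le_integral_of_nonneg (μ := Q d p M)
    (f := fun g => (Lg κ g (2 ^ k) (box v (2 ^ k)) - c) ^ 2)
    (Eventually.of_forall fun g => sq_nonneg _)
    (Lg_sq_integrable κ p hM (2 ^ k) (box v (2 ^ k)) c) ((η / 2 * 2 ^ k) ^ 2)
  rw [var_shift κ p hM, hc] at h3
  rw [← hc] at h3
  have h4 := hvar κ M (2 ^ k) (box (0 : V d) (2 ^ k)) hM Nat.one_le_two_pow (by
    rw [card_box]; push_cast; exact le_rfl)
  rw [← hc] at h4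
  push_cast at h4
  have h5 : (η / 2 * 2 ^ k) ^ 2 *
      (Q d p M).real {g | (η / 2 * 2 ^ k) ^ 2 ≤ (Lg κ g (2 ^ k) (box v (2 ^ k)) - c) ^ 2} ≤
      C₁ * M * 2 ^ k := h3.trans h4
  have h6 : (0:ℝ) < (η / 2 * 2 ^ k) ^ 2 := by positivity
  refine h2.trans ?_
  rw [mul_comm, ← le_div_iff₀ h6] at h5
  refine h5.trans (le_of_eq ?_)
  field_simp
  ring

theorem upper_dyadic (κ : Kind) (d : ℕ) (p : unitInterval) (hp : 0 < (p : ℝ)) {η : ℝ}
    (hη : 0 < η) (K : ℕ) :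
    ∀ᵐ ω ∂(prodBern (El d) p), ∀ᶠ k : ℕ in atTop, ∀ x : V d, (∀ i, |x i| ≤ K * 2 ^ k) →
      (Pn κ ω (2 ^ k) x : ℝ) ≤ Real.exp ((beta κ d p + η) * 2 ^ k) := by
  obtain ⟨C, hC, k₀, hbox⟩ := upper_box κ d p hp hη
  obtain ⟨s, hs⟩ : ∃ s : ℕ → Set (El d → Bool), ∀ k, s k = {ω | k₀ ≤ k ∧ ∃ x : V d,
      (∀ i, |x i| ≤ K * 2 ^ k) ∧ Real.exp ((beta κ d p + η) * 2 ^ k) < (Pn κ ω (2 ^ k) x : ℝ)} :=
    ⟨_, fun _ => rfl⟩
  have hbound : ∀ k, (prodBern (El d) p) (s k) ≤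
      ENNReal.ofReal (((2 * K + 1 : ℕ) : ℝ) ^ d * C * (1 / 2) ^ k) := by
    intro k
    rw [hs]
    by_cases hk : k₀ ≤ k
    · obtain ⟨I, hIc, hI⟩ := box_cover (fun _ : Fin d => -((K * 2 ^ k : ℕ) : ℤ)) (2 ^ k) (2 * K + 1)
      have hsub : {ω : El d → Bool | k₀ ≤ k ∧ ∃ x : V d,
          (∀ i, |x i| ≤ K * 2 ^ k) ∧ Real.exp ((beta κ d p + η) * 2 ^ k) <
            (Pn κ ω (2 ^ k) x : ℝ)} ⊆
          ⋃ v ∈ I, {ω | ∃ x ∈ box v (2 ^ k),
            Real.exp ((beta κ d p + η) * 2 ^ k) < (Pn κ ω (2 ^ k) x : ℝ)} := by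
        rintro ω ⟨_, x, hx, hlt⟩
        have hxb : x ∈ box (fun _ : Fin d => -((K * 2 ^ k : ℕ) : ℤ)) ((2 * K + 1) * 2 ^ k) := by
          rw [mem_box]
          intro i
          have h1 := abs_le.mp (hx i)
          have h2 : (0:ℤ) < 2 ^ k := by positivity
          push_cast
          constructor
          · linarith [h1.1]
          · nlinarith [h1.2]
        have h3 := hI hxb
        rw [Finset.mem_biUnion] at h3
        obtain ⟨v, hv, hxv⟩ := h3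
        rw [Set.mem_iUnion₂]
        exact ⟨v, hv, x, hxv, hlt⟩
      refine (measure_mono hsub).trans ((measure_biUnion_finset_le I _).trans ?_)
      have hle : ∀ v ∈ I, (prodBern (El d) p) {ω | ∃ x ∈ box v (2 ^ k),
            Real.exp ((beta κ d p + η) * 2 ^ k) < (Pn κ ω (2 ^ k) x : ℝ)} ≤
          ENNReal.ofReal (C * (1 / 2) ^ k) := by
        intro v _
        have h1 := hbox k hk v
        rw [ENNReal.le_ofReal_iff_toReal_le (measure_ne_top _ _) (by positivity),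
          ← measureReal_def]
        refine h1.trans (le_of_eq ?_)
        rw [one_div, inv_pow]; rfl
      refine (Finset.sum_le_sum hle).trans ?_
      rw [Finset.sum_const, hIc, nsmul_eq_mul, mul_assoc,
        ENNReal.ofReal_mul (p := ((2 * K + 1 : ℕ) : ℝ) ^ d) (by positivity),
        ENNReal.ofReal_pow (by positivity), ENNReal.ofReal_natCast]
      push_cast
      exact le_rfl
    · have h0 : {ω : El d → Bool | k₀ ≤ k ∧ ∃ x : V d,
          (∀ i, |x i| ≤ K * 2 ^ k) ∧ Real.exp ((beta κ d p + η) * 2 ^ k) <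
            (Pn κ ω (2 ^ k) x : ℝ)} = ∅ := by
        ext ω
        simp only [Set.mem_ofPred_eq, Set.mem_empty_iff_false, iff_false]
        rintro ⟨h, _⟩
        exact hk h
      rw [h0, measure_empty]
      exact zero_le
  have hsum : ∑' k, (prodBern (El d) p) (s k) ≠ ⊤ := by
    have h1 : Summable (fun k : ℕ => ((2 * K + 1 : ℕ) : ℝ) ^ d * C * (1 / 2 : ℝ) ^ k) :=
      (summable_geometric_of_lt_one (by norm_num) (by norm_num)).mul_left _
    have h2 := ENNReal.ofReal_tsum_of_nonneg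
      (f := fun k : ℕ => ((2 * K + 1 : ℕ) : ℝ) ^ d * C * (1 / 2 : ℝ) ^ k)
      (fun k => by positivity) h1
    refine ne_top_of_le_ne_top ?_ (ENNReal.tsum_le_tsum hbound)
    rw [← h2]
    exact ENNReal.ofReal_ne_top
  filter_upwards [ae_eventually_notMem hsum] with ω hω
  filter_upwards [hω, eventually_ge_atTop k₀] with k hk hk' x hx
  by_contra hcon
  push Not at hcon
  apply hk
  rw [hs]
  exact ⟨hk', x, hx, hcon⟩

end Pool.Agent.H41.QC
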