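import Pool.Agent.H41.QC.PnBasic
import Pool.Agent.H41.QC.Upper

/-! # QC module UpperAll: upper bound at all scales (paper 8.2) -/

open MeasureTheory Filter Topology
open Pool.Agent.H17.IIC

namespace Pool.Agent.H41.QC

/-- iteration of the submultiplicativity -/
lemma UpperAll_iter (κ : Kind) {d : ℕ} (ω : El d → Bool) {L R : ℕ} {A : ℝ} (hA : 0 ≤ A)
    (h : ∀ y : V d, (∀ i, |y i| ≤ R) → (Pn κ ω L y : ℝ) ≤ A) (r : ℕ) (x : V d) {X : ℕ}
    (hx : ∀ i, |x i| ≤ X) : ∀ q : ℕ, r + q * L + X ≤ R →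
      (Pn κ ω (r + q * L) x : ℝ) ≤ Pn κ ω r x * A ^ q := by
  intro q
  induction q with
  | zero => intro _; simp
  | succ q ih =>
    intro hq
    have hle : q * L ≤ (q + 1) * L := Nat.mul_le_mul_right _ (Nat.le_succ q)
    have h1 := ih (by omega)
    have h2 := Pn_add_le κ ω (r + q * L) L x hA (by
      intro y hy
      apply h
      intro i
      have h3 := hy i
      have h4 := hx i
      have h5 : |y i| ≤ |y i - x i| + |x i| := by
        have := abs_add_le (y i - x i) (x i)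
        simpa using this
      have h6 : ((r + q * L : ℕ) : ℤ) + (X : ℤ) ≤ (R : ℤ) := by
        have : r + q * L + X ≤ R := by omega
        exact_mod_cast this
      linarith)
    have e : r + (q + 1) * L = r + q * L + L := by ring
    rw [e]
    calc (Pn κ ω (r + q * L + L) x : ℝ) ≤ Pn κ ω (r + q * L) x * A := h2
      _ ≤ (Pn κ ω r x * A ^ q) * A := mul_le_mul_of_nonneg_right h1 hA
      _ = Pn κ ω r x * A ^ (q + 1) := by ring

/-- deterministic part -/
theorem upper_all_det (κ : Kind) {d : ℕ} (ω : El d → Bool) {b : ℝ} (hb : 0 ≤ b)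
    (h : ∀ η : ℝ, 0 < η → ∀ K : ℕ, ∀ᶠ k : ℕ in atTop, ∀ x : V d, (∀ i, |x i| ≤ K * 2 ^ k) →
      (Pn κ ω (2 ^ k) x : ℝ) ≤ Real.exp ((b + η) * 2 ^ k)) {η : ℝ} (hη : 0 < η) (K : ℕ) :
    ∀ᶠ N : ℕ in atTop, ∀ m : ℕ, m ≤ K * N → ∀ x : V d, (∀ i, |x i| ≤ K * N) →
      (Pn κ ω m x : ℝ) ≤ Real.exp (b * m + η * N) := by
  -- choice of the scale: `N ≤ D 2^k`, `2^k * D' ≤ N`
  obtain ⟨J, hJ⟩ : ∃ J : ℕ, 2 * (2 * d : ℝ) ≤ η * 2 ^ J := by
    obtain ⟨J, hJ⟩ := pow_unbounded_of_one_lt (2 * (2 * d : ℝ) / η) (by norm_num : (1 : ℝ) < 2)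
    exact ⟨J, by rw [div_lt_iff₀ hη] at hJ; linarith⟩
  set η' : ℝ := η / (2 * (K + 1)) with hη'
  have hη'0 : 0 < η' := by positivity
  have hev := h η' hη'0 (2 * K * 2 ^ (J + 1))
  rw [eventually_atTop] at hev
  obtain ⟨k₀, hk₀⟩ := hev
  rw [eventually_atTop]
  refine ⟨2 ^ (J + k₀ + 1), ?_⟩
  intro N hN m hm x hx
  -- the scale `k`
  have hN0 : N ≠ 0 := by
    have : 0 < 2 ^ (J + k₀ + 1) := by positivity
    omega
  set l := Nat.log 2 N with hl
  have hl1 : 2 ^ l ≤ N := Nat.pow_log_le_self 2 hN0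
  have hl2 : N < 2 ^ (l + 1) := Nat.lt_pow_succ_log_self (by norm_num) N
  have hl3 : J + k₀ + 1 ≤ l := by
    rw [hl]
    exact Nat.le_log_of_pow_le (by norm_num) hN
  obtain ⟨k, hk⟩ : ∃ k, l = k + J := ⟨l - J, by omega⟩
  have hkk : k₀ ≤ k := by omega
  have hkN : 2 ^ k * 2 ^ J ≤ N := by rw [← pow_add, ← hk]; exact hl1
  have hkN2 : N ≤ 2 ^ k * 2 ^ (J + 1) := by
    rw [← pow_add, show k + (J + 1) = l + 1 by omega]; exact hl2.le
  have hL := hk₀ k hkk
  set q := m / 2 ^ k with hq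
  set r := m % 2 ^ k with hr
  have hm' : m = r + q * 2 ^ k := by
    rw [hr, hq, mul_comm]
    exact (Nat.mod_add_div m (2 ^ k)).symm
  have hrlt : r < 2 ^ k := Nat.mod_lt _ (by positivity)
  have hKN : m + K * N ≤ 2 * K * 2 ^ (J + 1) * 2 ^ k := by
    calc m + K * N ≤ K * N + K * N := by omega
      _ = 2 * K * N := by ring
      _ ≤ 2 * K * (2 ^ k * 2 ^ (J + 1)) := Nat.mul_le_mul_left _ hkN2
      _ = 2 * K * 2 ^ (J + 1) * 2 ^ k := by ring
  have hit := UpperAll_iter κ ω (L := 2 ^ k) (R := 2 * K * 2 ^ (J + 1) * 2 ^ k)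
    (A := Real.exp ((b + η') * 2 ^ k)) (Real.exp_pos _).le
    (fun y hy => hL y (by
      intro i
      have := hy i
      push_cast at this ⊢
      exact this)) r x (X := K * N) (by
      intro i
      have := hx i
      push_cast
      exact this) q (by
      rw [← hm']; exact hKN)
  rw [← hm'] at hit
  have hPr : (Pn κ ω r x : ℝ) ≤ Real.exp (2 * d * r) := by
    calc (Pn κ ω r x : ℝ) ≤ (2 * d : ℝ) ^ r := Pn_le_pow κ ω r x
      _ ≤ (Real.exp (2 * d)) ^ r := by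
          apply pow_le_pow_left₀ (by positivity)
          linarith [Real.add_one_le_exp (2 * d : ℝ)]
      _ = Real.exp (2 * d * r) := by rw [← Real.exp_nat_mul]; ring_nf
  have hAq : Real.exp ((b + η') * 2 ^ k) ^ q = Real.exp ((b + η') * (q * 2 ^ k : ℕ)) := by
    rw [← Real.exp_nat_mul]
    push_cast
    ring_nf
  have hqm : ((q * 2 ^ k : ℕ) : ℝ) ≤ m := by
    exact_mod_cast (by omega : q * 2 ^ k ≤ m)
  have hmN : (m : ℝ) ≤ K * N := by exact_mod_cast hm
  have hrk : (r : ℝ) ≤ 2 ^ k := by exact_mod_cast hrlt.le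
  have hkNr : (2 : ℝ) ^ k * 2 ^ J ≤ N := by exact_mod_cast hkN
  calc (Pn κ ω m x : ℝ) ≤ Pn κ ω r x * Real.exp ((b + η') * 2 ^ k) ^ q := hit
    _ ≤ Real.exp (2 * d * r) * Real.exp ((b + η') * (q * 2 ^ k : ℕ)) := by
        rw [hAq]
        exact mul_le_mul_of_nonneg_right hPr (Real.exp_pos _).le
    _ = Real.exp (2 * d * r + (b + η') * (q * 2 ^ k : ℕ)) := by rw [Real.exp_add]
    _ ≤ Real.exp (b * m + η * N) := by
        apply Real.exp_le_exp.2
        have h1 : (b + η') * ((q * 2 ^ k : ℕ) : ℝ) ≤ (b + η') * m :=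
          mul_le_mul_of_nonneg_left hqm (by linarith)
        have h2 : η' * m ≤ η / 2 * N := by
          calc η' * m ≤ η' * (K * N) := mul_le_mul_of_nonneg_left hmN hη'0.le
            _ ≤ η' * ((K + 1) * N) := by
                apply mul_le_mul_of_nonneg_left _ hη'0.le
                have : (0 : ℝ) ≤ N := Nat.cast_nonneg _
                nlinarith
            _ = η / 2 * N := by
                rw [hη']; field_simp
        have h3 : (2 * d * r : ℝ) ≤ η / 2 * N := by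
          calc (2 * d * r : ℝ) ≤ 2 * d * 2 ^ k := by
                apply mul_le_mul_of_nonneg_left hrk (by positivity)
            _ ≤ η * 2 ^ J / 2 * 2 ^ k := by
                apply mul_le_mul_of_nonneg_right _ (by positivity)
                linarith
            _ = η / 2 * (2 ^ k * 2 ^ J) := by ring
            _ ≤ η / 2 * N := mul_le_mul_of_nonneg_left hkNr (by positivity)
        nlinarith

theorem upper_all (κ : Kind) (d : ℕ) (p : unitInterval) (hp : 0 < (p : ℝ)) :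
    ∀ᵐ ω ∂(prodBern (El d) p), ∀ η : ℝ, 0 < η → ∀ K : ℕ, ∀ᶠ N : ℕ in atTop, ∀ m : ℕ, m ≤ K * N →
      ∀ x : V d, (∀ i, |x i| ≤ K * N) →
      (Pn κ ω m x : ℝ) ≤ Real.exp (beta κ d p * m + η * N) := by
  have h1 : ∀ᵐ ω ∂(prodBern (El d) p), ∀ j K : ℕ, ∀ᶠ k : ℕ in atTop, ∀ x : V d,
      (∀ i, |x i| ≤ K * 2 ^ k) →
      (Pn κ ω (2 ^ k) x : ℝ) ≤ Real.exp ((beta κ d p + 1 / ((j : ℝ) + 1)) * 2 ^ k) := by
    rw [ae_all_iff]
    intro j
    rw [ae_all_iff]
    intro K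
    exact upper_dyadic κ d p hp (by positivity) K
  filter_upwards [h1] with ω hω
  intro η hη K
  apply upper_all_det κ ω (beta_nonneg κ d p hp) _ hη K
  intro η' hη' K'
  obtain ⟨j, hj⟩ := exists_nat_one_div_lt hη'
  filter_upwards [hω j K'] with k hk x hx
  refine (hk x hx).trans (Real.exp_le_exp.2 ?_)
  apply mul_le_mul_of_nonneg_right _ (by positivity)
  linarith

end Pool.Agent.H41.QC
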