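import Pool.Agent.H41.QC.PropA
import Pool.Agent.H41.QC.Split
import Pool.Agent.H41.QC.UpperAll

/-! # QC module Lower: the lower bound (paper 10) -/

open MeasureTheory Filter Topology
open Pool.Agent.H17.IIC

namespace Pool.Agent.H41.QC

/-- linear chemical distance at all large dyadic scales -/
def Conn (κ : Kind) (d : ℕ) (p : unitInterval) : Prop :=
  ∀ ε : ℝ, 0 < ε → ∃ j : ℕ, 1 ≤ j ∧ ∀ᵐ ω ∂(prodBern (El d) p), ∀ᶠ k : ℕ in atTop,
    0 < Pn κ ω (2 ^ k) (0 : V d) → ∀ y ∈ box (0 : V d) (2 ^ (k - j)), 0 < Pn κ ω (2 ^ k) y →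
      Joined κ ω 0 y (ε * 2 ^ k)

/-- product of two long path counts -/
lemma lower_pair (κ : Kind) {d : ℕ} (ω : El d → Bool) {b₁ η : ℝ} {N n a c : ℕ}
    (hup : ∀ m : ℕ, m ≤ 2 * N → ∀ x : V d, (∀ i, |x i| ≤ ((2 : ℕ) : ℤ) * N) →
      (Pn κ ω m x : ℝ) ≤ Real.exp (b₁ * m + η * N))
    (hn : n ≤ a) (ha : a ≤ 2 * N) (hc : c ≤ 2 * N) (hnN : n ≤ 2 * N) :
    (Pn κ ω a (0 : V d) : ℝ) * Pn κ ω c (0 : V d)
      ≤ Pn κ ω n (0 : V d) * Real.exp (b₁ * ((a : ℝ) + c - n) + 2 * η * N) := by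
  have h1 : (Pn κ ω c (0 : V d) : ℝ) ≤ Real.exp (b₁ * c + η * N) :=
    hup c hc 0 (by intro i; simp)
  have h2 : (Pn κ ω a (0 : V d) : ℝ) ≤ Pn κ ω n (0 : V d) * Real.exp (b₁ * ((a - n : ℕ) : ℝ) + η * N) := by
    have h := Pn_add_le κ ω n (a - n) (0 : V d) (A := Real.exp (b₁ * ((a - n : ℕ) : ℝ) + η * N))
      (Real.exp_pos _).le (fun y hy => hup (a - n) (by omega) y (fun i => by
        have h3 := hy i
        simp only [Pi.zero_apply, sub_zero] at h3
        push_cast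
        omega))
    rwa [Nat.add_sub_cancel' hn] at h
  have h3 : Real.exp (b₁ * ((a : ℝ) + c - n) + 2 * η * N)
      = Real.exp (b₁ * ((a - n : ℕ) : ℝ) + η * N) * Real.exp (b₁ * c + η * N) := by
    rw [← Real.exp_add]
    congr 1
    rw [Nat.cast_sub hn]
    ring
  rw [h3, ← mul_assoc]
  exact mul_le_mul h2 h1 (Nat.cast_nonneg _) (by positivity)

/-- deterministic part of the lower bound -/
theorem lower_det (κ : Kind) {d : ℕ} (ω : El d → Bool) {b₀ b₁ η ε : ℝ} (hb₁ : 0 ≤ b₁)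
    (hη : 0 < η) (hε : 0 < ε) (hε1 : ε ≤ 1)
    (hup : ∀ η' : ℝ, 0 < η' → ∀ K : ℕ, ∀ᶠ N : ℕ in atTop, ∀ m : ℕ, m ≤ K * N →
      ∀ x : V d, (∀ i, |x i| ≤ K * N) → (Pn κ ω m x : ℝ) ≤ Real.exp (b₁ * m + η' * N))
    (hnear : ∀ᶠ k : ℕ in atTop, ∃ y : V d, Real.exp ((b₀ - 3 * η) * 2 ^ k) ≤ (Pn κ ω (2 ^ k) y : ℝ)
      ∧ Joined κ ω 0 y (ε * 2 ^ k)) :
    ∀ᶠ n : ℕ in atTop,
      Real.exp ((b₁ - 4 * (b₁ - b₀) - 40 * η - 16 * ε * b₁) * n) ≤ (Pn κ ω n (0 : V d) : ℝ) := by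
  obtain ⟨N₁, hN₁⟩ := eventually_atTop.mp (hup η hη 2)
  obtain ⟨k₁, hk₁⟩ := eventually_atTop.mp hnear
  -- polynomial factor
  have hpoly : ∀ᶠ N : ℕ in atTop, ((N : ℝ) + 1) ^ 2 ≤ Real.exp (η * N) := by
    have h1 : Tendsto (fun x : ℝ => Real.exp (η * x) / (x + 0) ^ 3) atTop atTop := by
      have h2 := tendsto_exp_mul_div_rpow_atTop 3 η hη
      refine h2.congr' ?_
      filter_upwards [eventually_gt_atTop (0 : ℝ)] with x hx
      rw [add_zero]
      congr 1
      exact_mod_cast Real.rpow_natCast x 3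
    have h3 := (h1.comp tendsto_natCast_atTop_atTop).eventually_ge_atTop 1
    filter_upwards [h3, eventually_ge_atTop 4] with N hN hN4
    simp only [Function.comp, add_zero] at hN
    have hN' : (4 : ℝ) ≤ N := by exact_mod_cast hN4
    rw [le_div_iff₀ (by positivity)] at hN
    nlinarith [sq_nonneg ((N : ℝ) - 4), mul_nonneg (mul_nonneg (by positivity : (0:ℝ) ≤ N) (by positivity : (0:ℝ) ≤ N)) (sub_nonneg.mpr hN')]
  obtain ⟨N₂, hN₂⟩ := eventually_atTop.mp hpoly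
  filter_upwards [eventually_ge_atTop (max (max N₁ N₂) (2 ^ k₁)), eventually_ge_atTop 1] with n hn hn1
  set k := Nat.log 2 n + 2 with hk
  have hlog1 : 2 ^ Nat.log 2 n ≤ n := Nat.pow_log_le_self 2 (by omega)
  have hlog2 : n < 2 ^ (Nat.log 2 n + 1) := Nat.lt_pow_succ_log_self (by norm_num) n
  set N := 2 ^ k with hN
  have hN4 : N ≤ 4 * n := by rw [hN, hk, pow_add]; omega
  have hN2 : 2 * n < N := by
    rw [hN, hk, show Nat.log 2 n + 2 = (Nat.log 2 n + 1) + 1 by ring, pow_succ]; omega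
  have hNk : (2 : ℝ) ^ k = (N : ℝ) := by rw [hN]; push_cast; ring
  have hk1 : k₁ ≤ k := by
    have h1 : k₁ ≤ Nat.log 2 n := Nat.le_log_of_pow_le (by norm_num) ((le_max_right _ _).trans hn)
    omega
  obtain ⟨y, hy, w, hw⟩ := hk₁ k hk1
  rw [hNk] at hy hw
  classical
  have hup' := hN₁ N (by
    have := (le_max_left _ _).trans ((le_max_left _ _).trans hn)
    omega)
  have hpol := hN₂ N (by
    have := (le_max_right _ _).trans ((le_max_left _ _).trans hn)
    omega)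
  -- the path
  set w' := w.bypass with hw'
  have hwl : (w'.length : ℝ) ≤ ε * N := by
    refine le_trans ?_ hw
    exact_mod_cast SimpleGraph.Walk.length_bypass_le_length w
  have hwN : w'.length ≤ N := by
    have : (w'.length : ℝ) ≤ N := hwl.trans (by nlinarith [(Nat.cast_nonneg N : (0 : ℝ) ≤ N)])
    exact_mod_cast this
  have hsplit := split κ ω (0 : V d) y w'.length w' (SimpleGraph.Walk.bypass_isPath w) rfl N
    (by omega)
  have hterm : ∀ i ∈ Finset.range (w'.length + 1), ∀ t ∈ Finset.range (N + 1),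
      (Pn κ ω (i + t) (0 : V d) : ℝ) * Pn κ ω (i + (N - t)) (0 : V d)
        ≤ Pn κ ω n (0 : V d) * Real.exp (b₁ * ((1 + 2 * ε) * N - n) + 2 * η * N) := by
    intro i hi t ht
    rw [Finset.mem_range] at hi ht
    have hiε : (i : ℝ) ≤ ε * N := le_trans (by exact_mod_cast (by omega : i ≤ w'.length)) hwl
    have hmon : Real.exp (b₁ * ((i + t : ℕ) + ((i + (N - t) : ℕ) : ℝ) - n) + 2 * η * N)
        ≤ Real.exp (b₁ * ((1 + 2 * ε) * N - n) + 2 * η * N) := by
      apply Real.exp_le_exp.mpr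
      have h1 : ((i + t : ℕ) : ℝ) + ((i + (N - t) : ℕ) : ℝ) = 2 * i + N := by
        push_cast [Nat.cast_sub (show t ≤ N by omega)]
        ring
      rw [h1]
      have h2 : b₁ * (2 * (i : ℝ) + N - n) ≤ b₁ * ((1 + 2 * ε) * N - n) := by
        apply mul_le_mul_of_nonneg_left _ hb₁
        linarith
      linarith
    rcases le_total n (i + t) with h | h
    · refine (lower_pair κ ω hup' h (by omega) (by omega) (by omega)).trans ?_
      exact mul_le_mul_of_nonneg_left hmon (Nat.cast_nonneg _)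
    · have h' : n ≤ i + (N - t) := by omega
      rw [mul_comm]
      refine (lower_pair κ ω hup' h' (by omega) (by omega) (by omega)).trans ?_
      refine mul_le_mul_of_nonneg_left ?_ (Nat.cast_nonneg _)
      rw [add_comm (((i + (N - t) : ℕ) : ℝ))]
      exact hmon
  have hterm2 : ∀ i ∈ Finset.range (w'.length + 1), ∀ t ∈ Finset.range (N + 1),
      (Pn κ ω (i + t) (0 : V d) : ℝ) * Pn κ ω (i + (N - t)) (0 : V d)
        ≤ Real.exp (b₁ * ((1 + 2 * ε) * N) + 2 * η * N) := by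
    intro i hi t ht
    rw [Finset.mem_range] at hi ht
    have hiε : (i : ℝ) ≤ ε * N := le_trans (by exact_mod_cast (by omega : i ≤ w'.length)) hwl
    have h1 := hup' (i + t) (by omega) 0 (by intro i; simp)
    have h2 := hup' (i + (N - t)) (by omega) 0 (by intro i; simp)
    refine (mul_le_mul h1 h2 (Nat.cast_nonneg _) (Real.exp_pos _).le).trans ?_
    rw [← Real.exp_add]
    apply Real.exp_le_exp.mpr
    have h3 : b₁ * (2 * (i : ℝ) + N) ≤ b₁ * ((1 + 2 * ε) * N) := by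
      apply mul_le_mul_of_nonneg_left _ hb₁
      linarith
    push_cast [Nat.cast_sub (show t ≤ N by omega)]
    linarith
  have hcardbd : ∀ B : ℝ, 0 ≤ B → (∀ i ∈ Finset.range (w'.length + 1), ∀ t ∈ Finset.range (N + 1),
      (Pn κ ω (i + t) (0 : V d) : ℝ) * Pn κ ω (i + (N - t)) (0 : V d) ≤ B) →
      (Pn κ ω N y : ℝ) ≤ Real.exp (η * N) * B := by
    intro B hB hBt
    have h1 : (Pn κ ω N y : ℝ) ≤ ∑ i ∈ Finset.range (w'.length + 1), ∑ t ∈ Finset.range (N + 1),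
        (Pn κ ω (i + t) (0 : V d) : ℝ) * Pn κ ω (i + (N - t)) (0 : V d) := by
      exact_mod_cast hsplit
    refine h1.trans ((Finset.sum_le_sum fun i hi => Finset.sum_le_sum fun t ht =>
      hBt i hi t ht).trans ?_)
    simp only [Finset.sum_const, Finset.card_range, nsmul_eq_mul]
    push_cast
    have h2 : ((w'.length : ℝ) + 1) * (((N : ℝ) + 1) * B) ≤ ((N : ℝ) + 1) ^ 2 * B := by
      have h3 : (w'.length : ℝ) ≤ N := by exact_mod_cast hwN
      have h4 : 0 ≤ ((N : ℝ) + 1) * B := by positivity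
      nlinarith
    exact h2.trans (mul_le_mul_of_nonneg_right hpol hB)
  have hA := hy.trans (hcardbd _ (by positivity) hterm)
  have hB := hy.trans (hcardbd _ (by positivity) hterm2)
  have hNpos : (0 : ℝ) < N := by exact_mod_cast (by omega : 0 < N)
  -- sign of the loss
  have hs : 0 ≤ b₁ - b₀ + 6 * η + 2 * ε * b₁ := by
    rw [← Real.exp_add, Real.exp_le_exp] at hB
    by_contra hcon
    push Not at hcon
    nlinarith
  have hNn : (N : ℝ) ≤ 4 * n := by exact_mod_cast hN4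
  -- divide
  have hfin : Real.exp (b₁ * n - (b₁ - b₀ + 6 * η + 2 * ε * b₁) * N) ≤ (Pn κ ω n (0 : V d) : ℝ) := by
    have h1 : Real.exp (b₁ * n - (b₁ - b₀ + 6 * η + 2 * ε * b₁) * N)
        = Real.exp ((b₀ - 3 * η) * N)
          * Real.exp (-(η * N + (b₁ * ((1 + 2 * ε) * N - n) + 2 * η * N))) := by
      rw [← Real.exp_add]
      congr 1
      ring
    rw [h1]
    refine (mul_le_mul_of_nonneg_right hA (Real.exp_pos _).le).trans ?_
    rw [Real.exp_neg, Real.exp_add (η * N)]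
    have h2 : 0 < Real.exp (η * N) := Real.exp_pos _
    have h3 : 0 < Real.exp (b₁ * ((1 + 2 * ε) * N - n) + 2 * η * N) := Real.exp_pos _
    apply le_of_eq
    field_simp
  refine le_trans (Real.exp_le_exp.mpr ?_) hfin
  have h1 : (b₁ - b₀ + 6 * η + 2 * ε * b₁) * N ≤ (b₁ - b₀ + 6 * η + 2 * ε * b₁) * (4 * n) :=
    mul_le_mul_of_nonneg_left hNn hs
  have h2 : 0 ≤ η * n := by positivity
  have h3 : 0 ≤ ε * b₁ * n := by positivity
  nlinarith

theorem lower (κ : Kind) (d : ℕ) (hd : 1 ≤ d) (p p' : unitInterval) (hp : 0 < (p : ℝ))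
    (hpp : (p : ℝ) < p') (hp1 : (p' : ℝ) < 1) (hβ : 0 < beta κ d p) (hc : Conn κ d p') {η : ℝ}
    (hη : 0 < η) :
    ∀ᵐ ω ∂(prodBern (El d) p'), {y | (Gr κ ω).Reachable 0 y}.Infinite →
      ∀ᶠ n : ℕ in atTop,
        Real.exp ((beta κ d p' - 4 * (beta κ d p' - beta κ d p) - η) * n)
          ≤ (Pn κ ω n (0 : V d) : ℝ) := by
  set b₀ := beta κ d p with hb₀
  set b₁ := beta κ d p' with hb₁
  have hb₁n : 0 ≤ b₁ := beta_nonneg κ d p' (hp.trans hpp)
  set η₀ : ℝ := min (η / 80) (b₀ / 2) with hη₀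
  have hη₀pos : 0 < η₀ := lt_min (by positivity) (by positivity)
  have hη₀1 : 40 * η₀ ≤ η / 2 := by
    have := min_le_left (η / 80) (b₀ / 2)
    linarith
  have hη₀2 : 2 * η₀ ≤ b₀ := by
    have := min_le_right (η / 80) (b₀ / 2)
    linarith
  set ε : ℝ := min 1 (η / (32 * (b₁ + 1))) with hε
  have hεpos : 0 < ε := lt_min one_pos (by positivity)
  have hε1 : ε ≤ 1 := min_le_left _ _
  have hε2 : 16 * ε * b₁ ≤ η / 2 := by
    have h1 : ε ≤ η / (32 * (b₁ + 1)) := min_le_right _ _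
    have h2 : ε * (32 * (b₁ + 1)) ≤ η := by
      rwa [le_div_iff₀ (by positivity)] at h1
    nlinarith
  obtain ⟨j, hj, hconn⟩ := hc ε hεpos
  obtain ⟨c, hcpos, k₀, hA⟩ := propA κ d hd p p' hp hpp hp1 hη₀pos hη₀2 j hj
  -- Borel-Cantelli
  have hBC : ∀ᵐ ω ∂(prodBern (El d) p'), ∀ᶠ k : ℕ in atTop,
      Near κ ω (2 ^ k) (0 : V d) (2 ^ (k - j)) (Real.exp ((b₀ - 3 * η₀) * 2 ^ k)) := by
    set s : ℕ → Set (El d → Bool) := fun k =>
      {ω | ¬ Near κ ω (2 ^ (k + (k₀ + j))) (0 : V d) (2 ^ (k + (k₀ + j) - j))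
            (Real.exp ((b₀ - 3 * η₀) * 2 ^ (k + (k₀ + j))))} with hs
    have hsum : ∑' k, (prodBern (El d) p') (s k) ≠ ⊤ := by
      have hr : (2 : ℝ) ^ (-c) < 1 := Real.rpow_lt_one_of_one_lt_of_neg (by norm_num) (by linarith)
      have hr0 : (0 : ℝ) < (2 : ℝ) ^ (-c) := Real.rpow_pos_of_pos (by norm_num) _
      have hle : ∀ k, (prodBern (El d) p') (s k) ≤ ENNReal.ofReal (((2 : ℝ) ^ (-c)) ^ k) := by
        intro k
        have h1 := hA (k + (k₀ + j)) (by omega) (by omega)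
        rw [← ENNReal.ofReal_toReal (measure_ne_top (prodBern (El d) p') (s k))]
        apply ENNReal.ofReal_le_ofReal
        refine le_trans h1 ?_
        rw [← Real.rpow_natCast, ← Real.rpow_mul (by norm_num)]
        apply Real.rpow_le_rpow_of_exponent_le (by norm_num)
        push_cast
        nlinarith [mul_nonneg hcpos.le (by positivity : (0 : ℝ) ≤ (k₀ : ℝ) + j)]
      refine ne_of_lt (lt_of_le_of_lt (ENNReal.tsum_le_tsum hle) ?_)
      have hsm : Summable fun k : ℕ => ((2 : ℝ) ^ (-c)) ^ k :=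
        summable_geometric_of_lt_one hr0.le hr
      rw [← ENNReal.ofReal_tsum_of_nonneg (fun k => by positivity) hsm]
      exact ENNReal.ofReal_lt_top
    filter_upwards [ae_eventually_notMem hsum] with ω hω
    rw [eventually_atTop] at hω ⊢
    obtain ⟨K, hK⟩ := hω
    refine ⟨K + (k₀ + j), fun k hk => ?_⟩
    have h1 := hK (k - (k₀ + j)) (by omega)
    simp only [hs, Set.mem_ofPred_eq, not_not] at h1
    rw [Nat.sub_add_cancel (by omega)] at h1
    exact h1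
  filter_upwards [hconn, hBC, upper_all κ d p' (hp.trans hpp)] with ω h1 h2 h3 hinf
  have hdet := lower_det κ ω (b₀ := b₀) (b₁ := b₁) (η := η₀) (ε := ε) hb₁n hη₀pos hεpos hε1 h3
    (by
      filter_upwards [h1, h2] with k hk1 hk2
      obtain ⟨y, hyb, hy⟩ := hk2
      have hypos : 0 < Pn κ ω (2 ^ k) y := by
        have : (0 : ℝ) < Pn κ ω (2 ^ k) y := (Real.exp_pos _).trans_le hy
        exact_mod_cast this
      exact ⟨y, hy, hk1 (Pn_pos_of_infinite κ ω hinf _) y hyb hypos⟩)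
  filter_upwards [hdet] with n hn
  refine le_trans (Real.exp_le_exp.mpr ?_) hn
  have h4 : (0 : ℝ) ≤ n := Nat.cast_nonneg n
  apply mul_le_mul_of_nonneg_right _ h4
  linarith

end Pool.Agent.H41.QC
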