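import Pool.Agent.H41.QC.Boundary
import Pool.Agent.H41.QC.Split

/-! # QC module Bad: bad vertices and their clusters (paper 11) -/

namespace Pool.Agent.H41.QC

variable {d : ℕ}

/-- bad vertices -/
def Bad (κ : Kind) (ω : El d → Bool) (x : V d) : Prop :=
  match κ with
  | .bond => ∃ s : Step d, ω s(x, x + stepVec s) = false
  | .site => ω s(x, x) = false

/-- bad vertices at `ℓ∞` distance at most `5` -/
def BG (κ : Kind) (ω : El d → Bool) : SimpleGraph (V d) where
  Adj x y := x ≠ y ∧ Cl 5 x y ∧ Bad κ ω x ∧ Bad κ ω y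
  symm := by
    constructor
    rintro x y ⟨h1, h2, h3, h4⟩
    exact ⟨h1.symm, fun i => by rw [abs_sub_comm]; exact h2 i, h4, h3⟩
  loopless := ⟨fun x h => h.1 rfl⟩

/-- cluster of a bad vertex -/
def clus (κ : Kind) (ω : El d → Bool) (b : V d) : Set (V d) := {y | (BG κ ω).Reachable b y}

/-- fattened set -/
def fat (C : Set (V d)) : Set (V d) := {x | ∃ c ∈ C, Cl 2 x c}

/-- component of `z` in the complement of `A` -/
def outer (A : Set (V d)) (z : V d) : Set (V d) :=
  {x | ∃ w : (Lat d).Walk x z, ∀ u ∈ w.support, u ∉ A}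

lemma bad_gr_adj (κ : Kind) (ω : El d → Bool) {x y : V d} (h : LatAdj x y) (hx : ¬ Bad κ ω x)
    (hy : ¬ Bad κ ω y) : (Gr κ ω).Adj x y := by
  refine ⟨h, ?_⟩
  cases κ
  · obtain ⟨s, rfl⟩ := h
    show ω s(x, x + stepVec s) = true
    by_contra hcon
    exact hx ⟨s, by simpa using hcon⟩
  · show ω s(x, x) = true ∧ ω s(y, y) = true
    constructor
    · by_contra hcon
      exact hx (show ω s(x, x) = false by simpa using hcon)
    · by_contra hcon
      exact hy (show ω s(y, y) = false by simpa using hcon)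

lemma bad_joined_mono {κ : Kind} {ω : El d → Bool} {x y : V d} {r r' : ℝ} (h : Joined κ ω x y r)
    (hr : r ≤ r') : Joined κ ω x y r' := by
  obtain ⟨w, hw⟩ := h
  exact ⟨w, hw.trans hr⟩

/-- a lattice walk through good vertices is open -/
theorem joined_of_good (κ : Kind) (ω : El d → Bool) {x y : V d} (w : (Lat d).Walk x y)
    (h : ∀ z ∈ w.support, ¬ Bad κ ω z) : Joined κ ω x y w.length := by
  induction w with
  | nil => exact ⟨SimpleGraph.Walk.nil, by simp⟩
  | cons hh p ih =>
    rename_i a b c'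
    have ha := h a (by rw [SimpleGraph.Walk.support_cons]; exact List.mem_cons_self)
    have hb := h b (by
      rw [SimpleGraph.Walk.support_cons]
      exact List.mem_cons_of_mem _ (SimpleGraph.Walk.start_mem_support p))
    obtain ⟨w', hw'⟩ := ih (fun z hz => h z (by
      rw [SimpleGraph.Walk.support_cons]; exact List.mem_cons_of_mem _ hz))
    refine ⟨SimpleGraph.Walk.cons (bad_gr_adj κ ω hh ha hb) w', ?_⟩
    rw [SimpleGraph.Walk.length_cons, SimpleGraph.Walk.length_cons]
    push_cast
    linarith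

lemma bad_self_clus (κ : Kind) (ω : El d → Bool) (b : V d) : b ∈ clus κ ω b :=
  SimpleGraph.Reachable.refl b

lemma bad_fat_sub (C : Set (V d)) {c : V d} (hc : c ∈ C) : c ∈ fat C :=
  ⟨c, hc, bd_Cl_refl _ _⟩

lemma bad_clus_bad {κ : Kind} {ω : El d → Bool} {b y : V d} (hb : Bad κ ω b)
    (hy : y ∈ clus κ ω b) : Bad κ ω y := by
  have h1 : (BG κ ω).Reachable b y := hy
  rw [SimpleGraph.reachable_iff_reflTransGen] at h1
  induction h1 with
  | refl => exact hb
  | tail _ h2 _ => exact h2.2.2.2

/-- bad vertices close to a cluster belong to it -/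
lemma bad_clus_close {κ : Kind} {ω : El d → Bool} {b y z : V d} (hb : Bad κ ω b)
    (hy : y ∈ clus κ ω b) (hz : Bad κ ω z) (h : Cl 5 y z) : z ∈ clus κ ω b := by
  by_cases hyz : y = z
  · rw [← hyz]; exact hy
  · have h1 : (BG κ ω).Adj y z := ⟨hyz, h, bad_clus_bad hb hy, hz⟩
    exact SimpleGraph.Reachable.trans hy h1.reachable

lemma bad_clus_eq {κ : Kind} {ω : El d → Bool} {b y : V d} (hy : y ∈ clus κ ω b) :
    clus κ ω y = clus κ ω b := by
  ext t
  constructor
  · intro ht
    exact SimpleGraph.Reachable.trans hy ht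
  · intro ht
    exact SimpleGraph.Reachable.trans (SimpleGraph.Reachable.symm hy) ht

/-- the fattened cluster is `*`-connected -/
lemma fat_clus_sconnected (κ : Kind) (ω : El d → Bool) (b : V d) :
    SCnd (fat (clus κ ω b)) := by
  set C := clus κ ω b with hC
  set R : V d → V d → Prop := fun p q => p ∈ fat C ∧ q ∈ fat C ∧ Cl 1 p q with hR
  have hsymm : Std.Symm R := ⟨fun p q h => ⟨h.2.1, h.1, bd_Cl_symm h.2.2⟩⟩
  have hRs : ∀ {p q : V d}, Relation.ReflTransGen R p q → Relation.ReflTransGen R q p := by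
    intro p q h
    exact (Relation.ReflTransGen.stdSymm (r := R)).symm _ _ h
  -- inside a cube
  have h1 : ∀ c ∈ C, ∀ x : V d, Cl 2 x c → Relation.ReflTransGen R x c := by
    intro c hc x hx
    set m : V d := fun i => c i + max (-1) (min 1 (x i - c i)) with hm
    have e1 : Cl 1 x m := by
      intro i
      have := hx i
      simp only [hm]
      rw [abs_le] at this ⊢
      push_cast at this ⊢
      omega
    have e2 : Cl 1 m c := by
      intro i
      have := hx i
      simp only [hm]
      rw [abs_le] at this ⊢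
      push_cast at this ⊢
      omega
    have f1 : x ∈ fat C := ⟨c, hc, hx⟩
    have f2 : m ∈ fat C := ⟨c, hc, bd_Cl_mono (by norm_num) e2⟩
    have f3 : c ∈ fat C := bad_fat_sub C hc
    exact (Relation.ReflTransGen.single ⟨f1, f2, e1⟩).tail ⟨f2, f3, e2⟩
  -- between close vertices
  have h2 : ∀ c ∈ C, ∀ c' ∈ C, Cl 5 c c' → Relation.ReflTransGen R c c' := by
    intro c hc c' hc' h
    set p : V d := fun i => c i + max (-2) (min 2 (c' i - c i)) with hp
    set q : V d := fun i => c i + max (-3) (min 3 (c' i - c i)) with hq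
    have e1 : Cl 2 p c := by
      intro i
      simp only [hp]
      rw [abs_le]
      push_cast
      omega
    have e2 : Cl 1 p q := by
      intro i
      simp only [hp, hq]
      rw [abs_le]
      push_cast
      omega
    have e3 : Cl 2 q c' := by
      intro i
      have := h i
      simp only [hq]
      rw [abs_le] at this ⊢
      push_cast at this ⊢
      omega
    exact ((hRs (h1 c hc p e1)).tail ⟨⟨c, hc, e1⟩, ⟨c', hc', e3⟩, e2⟩).trans (h1 c' hc' q e3)
  have h3 : ∀ c ∈ C, Relation.ReflTransGen R b c := by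
    intro c hc
    have h4 : (BG κ ω).Reachable b c := hc
    rw [SimpleGraph.reachable_iff_reflTransGen] at h4
    induction h4 with
    | refl => exact Relation.ReflTransGen.refl
    | tail h5 h6 ih =>
      rename_i y z
      have hy : y ∈ C := by
        show (BG κ ω).Reachable b y
        rw [SimpleGraph.reachable_iff_reflTransGen]
        exact h5
      exact (ih hy).trans (h2 y hy z hc h6.2.1)
  rintro x ⟨c, hc, hx⟩ y ⟨c', hc', hy⟩
  exact ((h1 c hc x hx).trans (hRs (h3 c hc))).trans ((h3 c' hc').trans (hRs (h1 c' hc' y hy)))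

/-- a lattice walk between two vertices of the fattened cluster, within distance one of it -/
lemma fat_clus_walk (κ : Kind) (ω : El d → Bool) (b : V d) :
    ∀ x ∈ fat (clus κ ω b), ∀ y ∈ fat (clus κ ω b), ∃ w : (Lat d).Walk x y,
      ∀ z ∈ w.support, ∃ t ∈ fat (clus κ ω b), Cl 1 z t := by
  intro x hx y hy
  have h1 := fat_clus_sconnected κ ω b x hx y hy
  clear hy
  induction h1 with
  | refl => exact ⟨SimpleGraph.Walk.nil, fun z hz => by
      rw [SimpleGraph.Walk.support_nil, List.mem_singleton] at hz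
      exact ⟨x, hx, by rw [hz]; exact bd_Cl_refl _ _⟩⟩
  | tail _ h3 ih =>
    rename_i p q _
    obtain ⟨w, hw⟩ := ih
    obtain ⟨w', hw'⟩ := bd_cube_walk h3.2.2
    refine ⟨w.append w', fun z hz => ?_⟩
    rw [SimpleGraph.Walk.mem_support_append_iff] at hz
    rcases hz with hz | hz
    · exact hw z hz
    · refine ⟨p, h3.1, fun i => ?_⟩
      have h4 := h3.2.2 i
      rcases hw' z hz i with h5 | h5
      · rw [h5]; simp
      · rw [h5, abs_sub_comm]; exact h4

lemma bad_outer_not_mem {A : Set (V d)} {z x : V d} (h : x ∈ outer A z) : x ∉ A := by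
  obtain ⟨w, hw⟩ := h
  exact hw x (SimpleGraph.Walk.start_mem_support w)

lemma outer_connected (A : Set (V d)) (z : V d) : Cnd (outer A z) := by
  classical
  -- all vertices of a walk to `z` outside `A` are outer
  have h0 : ∀ {x : V d} (w : (Lat d).Walk x z), (∀ u ∈ w.support, u ∉ A) →
      ∀ u ∈ w.support, u ∈ outer A z := by
    intro x w hw u hu
    exact ⟨w.dropUntil u hu, fun t ht => hw t (w.support_dropUntil_subset_support hu ht)⟩
  rintro x ⟨w, hw⟩ y ⟨w', hw'⟩
  refine ⟨w.append w'.reverse, fun u hu => ?_⟩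
  rw [SimpleGraph.Walk.mem_support_append_iff] at hu
  rcases hu with hu | hu
  · exact h0 w hw u hu
  · rw [SimpleGraph.Walk.support_reverse, List.mem_reverse] at hu
    exact h0 w' hw' u hu

lemma outer_closed (A : Set (V d)) (z : V d) :
    ∀ x ∈ outer A z, ∀ y, LatAdj x y → y ∉ A → y ∈ outer A z := by
  rintro x ⟨w, hw⟩ y hxy hy
  refine ⟨SimpleGraph.Walk.cons (bd_lat_adj.mpr (bd_symm hxy)) w, fun u hu => ?_⟩
  rw [SimpleGraph.Walk.support_cons, List.mem_cons] at hu
  rcases hu with rfl | hu
  · exact hy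
  · exact hw u hu

/-- different clusters are far apart -/
lemma clus_far (κ : Kind) (ω : El d → Bool) {b b' : V d} (hb : Bad κ ω b) (hb' : Bad κ ω b')
    (h : clus κ ω b ≠ clus κ ω b') {x y : V d} (hx : x ∈ fat (clus κ ω b))
    (hy : y ∈ fat (clus κ ω b')) : ¬ Cl 1 x y := by
  intro hxy
  obtain ⟨c, hc, hxc⟩ := hx
  obtain ⟨c', hc', hyc⟩ := hy
  apply h
  have h1 : Cl 5 c c' := by
    have h2 := bd_Cl_trans (bd_Cl_trans (bd_Cl_symm hxc) hxy) hyc
    exact h2
  have h3 := bad_clus_close hb hc (bad_clus_bad hb' hc') h1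
  rw [← bad_clus_eq h3, bad_clus_eq hc']

/-- near a boundary edge everything is good -/
lemma good_near_boundary (κ : Kind) (ω : El d → Bool) {b : V d} (hb : Bad κ ω b) {u v z : V d}
    (hu : u ∈ fat (clus κ ω b)) (hv : v ∉ fat (clus κ ω b)) (huv : LatAdj u v) (hz : Cl 1 z u) :
    ¬ Bad κ ω z := by
  intro hzb
  obtain ⟨c, hc, huc⟩ := hu
  have h1 : Cl 5 c z := by
    have h2 := bd_Cl_trans (bd_Cl_symm huc) (bd_Cl_symm hz)
    exact bd_Cl_mono (by norm_num) h2
  have h3 := bad_clus_close hb hc hzb h1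
  apply hv
  refine ⟨z, h3, ?_⟩
  have h4 := bd_Cl_trans (bd_adj_cl (bd_symm huv)) (bd_Cl_symm hz)
  exact h4

/-- any two outer boundary vertices of a cluster are joined by an open path of controlled length,
through vertices near the cluster -/
theorem around (κ : Kind) (ω : El d → Bool) {b z : V d} (hb : Bad κ ω b)
    (hfin : (clus κ ω b).Finite) {u v u' v' : V d}
    (hu : u ∈ fat (clus κ ω b)) (hv : v ∈ outer (fat (clus κ ω b)) z) (huv : LatAdj u v)
    (hu' : u' ∈ fat (clus κ ω b)) (hv' : v' ∈ outer (fat (clus κ ω b)) z) (huv' : LatAdj u' v') :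
    Joined κ ω v v' (7 ^ d * ((clus κ ω b).ncard : ℝ)) := by
  classical
  set C := clus κ ω b with hC
  obtain ⟨w, hw⟩ := boundary_connected (fat C) (outer (fat C) z) (fat_clus_sconnected κ ω b)
    (outer_connected _ z) (Set.disjoint_left.mpr fun t ht ht' => bad_outer_not_mem ht' ht)
    (outer_closed _ z) hu hv huv hu' hv' huv'
  set p := w.bypass with hp
  have hpp : p.IsPath := w.bypass_isPath
  have hsub : ∀ t ∈ p.support, t ∈ w.support := fun t ht => w.support_bypass_subset_support ht
  have hgood : ∀ t ∈ p.support, ¬ Bad κ ω t := by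
    intro t ht
    obtain ⟨a, ha, o, ho, hao, hta⟩ := hw t (hsub t ht)
    exact good_near_boundary κ ω hb ha (bad_outer_not_mem ho) hao hta
  refine bad_joined_mono (joined_of_good κ ω p hgood) ?_
  set U : Finset (V d) := hfin.toFinset.biUnion
    (fun c => Fintype.piFinset (fun i => Finset.Icc (c i - 3) (c i + 3))) with hU
  have h1 : p.support.toFinset ⊆ U := by
    intro t ht
    rw [List.mem_toFinset] at ht
    obtain ⟨a, ha, o, ho, hao, hta⟩ := hw t (hsub t ht)
    obtain ⟨c, hc, hac⟩ := ha
    rw [hU, Finset.mem_biUnion]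
    refine ⟨c, hfin.mem_toFinset.mpr hc, ?_⟩
    rw [Fintype.mem_piFinset]
    intro i
    have h2 := bd_Cl_trans hta hac i
    rw [abs_le] at h2
    rw [Finset.mem_Icc]
    push_cast at h2
    omega
  have h2 : U.card ≤ (clus κ ω b).ncard * 7 ^ d := by
    rw [hU]
    refine Finset.card_biUnion_le.trans ?_
    have h3 : ∀ c ∈ hfin.toFinset,
        (Fintype.piFinset (fun i => Finset.Icc (c i - 3) (c i + 3))).card = 7 ^ d := by
      intro c _
      rw [Fintype.card_piFinset]
      have h4 : ∀ i : Fin d, (Finset.Icc (c i - 3) (c i + 3)).card = 7 := by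
        intro i
        rw [Int.card_Icc]
        have : c i + 3 + 1 - (c i - 3) = 7 := by ring
        rw [this]; rfl
      rw [Finset.prod_congr rfl (fun i _ => h4 i), Finset.prod_const, Finset.card_univ,
        Fintype.card_fin]
    rw [Finset.sum_congr rfl h3, Finset.sum_const, smul_eq_mul,
      Set.ncard_eq_toFinset_card _ hfin]
  have h3 : p.length + 1 ≤ (clus κ ω b).ncard * 7 ^ d := by
    rw [← SimpleGraph.Walk.length_support, ← List.toFinset_card_of_nodup hpp.support_nodup]
    exact (Finset.card_le_card h1).trans h2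
  have h4 : ((p.length + 1 : ℕ) : ℝ) ≤ (((clus κ ω b).ncard * 7 ^ d : ℕ) : ℝ) := by
    exact_mod_cast h3
  push_cast at h4
  rw [mul_comm] at h4
  linarith

end Pool.Agent.H41.QC
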