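import Pool.Agent.H41.QC.Fourier

/-! # QC module Bonami: biased Bonami lemma (paper 6.1) -/

open MeasureTheory
open Pool.Agent.H17.IIC

set_option linter.unusedSectionVars false

namespace Pool.Agent.H41.QC

variable {ι : Type} [Fintype ι] [DecidableEq ι]

/-- a polynomial in the variables of `U` -/
noncomputable def poly (p : unitInterval) (U : Finset ι) (c : Finset ι → ℝ) (ω : ι → Bool) : ℝ :=
  ∑ S ∈ U.powerset, c S * chi p S ω

lemma poly_update (p : unitInterval) (i : ι) (U : Finset ι) (h : i ∉ U) (c : Finset ι → ℝ)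
    (ω : ι → Bool) (b : Bool) : poly p U c (Function.update ω i b) = poly p U c ω := by
  refine Finset.sum_congr rfl fun S hS => ?_
  rw [chi_update p S i (fun hi => h (Finset.mem_powerset.1 hS hi))]

lemma poly_insert (p : unitInterval) (i : ι) (U : Finset ι) (h : i ∉ U) (c : Finset ι → ℝ)
    (ω : ι → Bool) :
    poly p (insert i U) c ω
      = poly p U c ω + ph p (ω i) * poly p U (fun S => c (insert i S)) ω := by
  rw [poly, Finset.sum_powerset_insert h, poly, poly, Finset.mul_sum]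
  congr 1
  refine Finset.sum_congr rfl fun S hS => ?_
  have hi : i ∉ S := fun hi => h (Finset.mem_powerset.1 hS hi)
  rw [chi, Finset.prod_insert hi, chi]
  ring

/-- the squares of the values of the normalised coordinate are bounded -/
lemma ph_sq_le {a b : ℝ} (ha : 0 < a) (hb : b < 1) (p : unitInterval) (h0 : a ≤ (p : ℝ))
    (h1 : (p : ℝ) ≤ b) (x : Bool) : ph p x ^ 2 ≤ 1 / (a * (1 - b)) := by
  have hp0 : 0 < (p : ℝ) := ha.trans_le h0
  have hp1 : (p : ℝ) < 1 := h1.trans_lt hb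
  have h := ph_pq_pos p hp0 hp1
  have hab : a * (1 - b) ≤ (p : ℝ) * (1 - (p : ℝ)) :=
    mul_le_mul h0 (by linarith) (by linarith) hp0.le
  have hab0 : 0 < a * (1 - b) := mul_pos ha (by linarith)
  unfold ph
  rw [div_pow, Real.sq_sqrt h.le]
  have hnum : ((if x then 1 else 0) - (p : ℝ)) ^ 2 ≤ 1 := by
    cases x
    · simp only [Bool.false_eq_true, if_false]
      nlinarith
    · simp only [if_true]
      nlinarith
  exact div_le_div₀ zero_le_one hnum hab0 hab

/-- the two point inequality -/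
lemma two_point4 {p q x y K A B : ℝ} (hp : 0 ≤ p) (hq : 0 ≤ q) (hpq : p + q = 1)
    (hm : p * x + q * y = 0) (hv : p * x ^ 2 + q * y ^ 2 = 1) (hx : x ^ 2 ≤ K) (hy : y ^ 2 ≤ K) :
    p * (A + x * B) ^ 4 + q * (A + y * B) ^ 4
      ≤ A ^ 4 + 8 * (A ^ 2 * B ^ 2) + 3 * K * B ^ 4 := by
  set s3 := p * x ^ 3 + q * y ^ 3 with hs3
  set s4 := p * x ^ 4 + q * y ^ 4 with hs4
  have e : p * (A + x * B) ^ 4 + q * (A + y * B) ^ 4
      = A ^ 4 + 6 * (A ^ 2 * B ^ 2) + 4 * s3 * (A * B ^ 3) + s4 * B ^ 4 := by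
    have : p * (A + x * B) ^ 4 + q * (A + y * B) ^ 4
        = (p + q) * A ^ 4 + 4 * (p * x + q * y) * (A ^ 3 * B)
          + 6 * (p * x ^ 2 + q * y ^ 2) * (A ^ 2 * B ^ 2) + 4 * s3 * (A * B ^ 3) + s4 * B ^ 4 := by
      rw [hs3, hs4]; ring
    rw [this, hpq, hm, hv]; ring
  have h34 : s3 ^ 2 ≤ s4 := by
    have h1 : s3 ^ 2 + p * q * (x ^ 2 * y ^ 2 * (x - y) ^ 2)
        = (p * x ^ 2 + q * y ^ 2) * s4 := by
      rw [hs3, hs4]; ring
    have h2 : 0 ≤ p * q * (x ^ 2 * y ^ 2 * (x - y) ^ 2) := by positivity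
    rw [hv, one_mul] at h1
    linarith
  have h4 : s4 ≤ K := by
    have h1 : p * x ^ 4 ≤ p * x ^ 2 * K := by
      have : x ^ 4 = x ^ 2 * x ^ 2 := by ring
      rw [this, ← mul_assoc]
      exact mul_le_mul_of_nonneg_left hx (by positivity)
    have h2 : q * y ^ 4 ≤ q * y ^ 2 * K := by
      have : y ^ 4 = y ^ 2 * y ^ 2 := by ring
      rw [this, ← mul_assoc]
      exact mul_le_mul_of_nonneg_left hy (by positivity)
    calc s4 ≤ p * x ^ 2 * K + q * y ^ 2 * K := add_le_add h1 h2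
      _ = (p * x ^ 2 + q * y ^ 2) * K := by ring
      _ = K := by rw [hv, one_mul]
  have h5 : 4 * s3 * (A * B ^ 3) ≤ 2 * (A ^ 2 * B ^ 2) + 2 * s3 ^ 2 * B ^ 4 := by
    nlinarith [sq_nonneg (A * B - s3 * B ^ 2)]
  have hB : 0 ≤ B ^ 4 := by positivity
  rw [e]
  have h6 : 2 * s3 ^ 2 * B ^ 4 ≤ 2 * K * B ^ 4 := by
    apply mul_le_mul_of_nonneg_right _ hB
    linarith
  have h7 : s4 * B ^ 4 ≤ K * B ^ 4 := mul_le_mul_of_nonneg_right h4 hB
  linarith

/-- **Biased Bonami lemma**, polynomial form. -/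
lemma bonami_poly {a b : ℝ} (ha : 0 < a) (hb : b < 1) (p : unitInterval) (h0 : a ≤ (p : ℝ))
    (h1 : (p : ℝ) ≤ b) (U : Finset ι) : ∀ (k : ℕ) (c : Finset ι → ℝ),
    (∀ S ∈ U.powerset, k < S.card → c S = 0) →
    Ex p (fun ω => poly p U c ω ^ 4)
      ≤ ((4 + 3 / (a * (1 - b))) ^ 2) ^ k * Ex p (fun ω => poly p U c ω ^ 2) ^ 2 := by
  have hp0 : 0 < (p : ℝ) := ha.trans_le h0
  have hp1 : (p : ℝ) < 1 := h1.trans_lt hb
  have hab0 : 0 < a * (1 - b) := mul_pos ha (by linarith)
  set D : ℝ := 4 + 3 / (a * (1 - b)) with hD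
  have hK0 : 0 ≤ 3 / (a * (1 - b)) := by positivity
  have hD4 : 4 ≤ D := by linarith
  induction U using Finset.induction_on with
  | empty =>
    intro k c _
    have e1 : ∀ ω : ι → Bool, poly p ∅ c ω = c ∅ := by intro ω; simp [poly, chi]
    simp_rw [e1]
    rw [Ex_const, Ex_const]
    have : (1 : ℝ) ≤ (D ^ 2) ^ k := one_le_pow₀ (by nlinarith)
    nlinarith [sq_nonneg (c ∅ ^ 2)]
  | insert i U hi ih =>
    intro k c hc
    set A := poly p U c with hA
    set B := poly p U (fun S => c (insert i S)) with hB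
    have hAB : ∀ ω, poly p (insert i U) c ω = A ω + ph p (ω i) * B ω := poly_insert p i U hi c
    have hAu : ∀ ω b, A (Function.update ω i b) = A ω := poly_update p i U hi _
    have hBu : ∀ ω b, B (Function.update ω i b) = B ω := poly_update p i U hi _
    have hm := ph_mean p hp0 hp1
    have hv := ph_var p hp0 hp1
    have e2 : Ex p (fun ω => poly p (insert i U) c ω ^ 2)
        = Ex p (fun ω => A ω ^ 2) + Ex p (fun ω => B ω ^ 2) := by
      rw [Ex_resample p i, ← Ex_add]
      congr 1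
      funext ω
      simp only [hAB, hAu, hBu, Function.update_self]
      calc (p : ℝ) * (A ω + ph p true * B ω) ^ 2 + (1 - (p : ℝ)) * (A ω + ph p false * B ω) ^ 2
          = A ω ^ 2 + 2 * ((p : ℝ) * ph p true + (1 - (p : ℝ)) * ph p false) * (A ω * B ω)
            + ((p : ℝ) * ph p true ^ 2 + (1 - (p : ℝ)) * ph p false ^ 2) * B ω ^ 2 := by ring
        _ = _ := by rw [hm, hv]; ring
    have e4 : Ex p (fun ω => poly p (insert i U) c ω ^ 4)
        ≤ Ex p (fun ω => A ω ^ 4) + 8 * Ex p (fun ω => A ω ^ 2 * B ω ^ 2)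
          + 3 * (1 / (a * (1 - b))) * Ex p (fun ω => B ω ^ 4) := by
      rw [Ex_resample p i, ← Ex_const_mul, ← Ex_const_mul, ← Ex_add, ← Ex_add]
      refine Ex_mono p fun ω => ?_
      simp only [hAB, hAu, hBu, Function.update_self]
      exact two_point4 hp0.le (by linarith) (by ring) hm hv (ph_sq_le ha hb p h0 h1 true)
        (ph_sq_le ha hb p h0 h1 false)
    have hA4 : Ex p (fun ω => A ω ^ 4) ≤ (D ^ 2) ^ k * Ex p (fun ω => A ω ^ 2) ^ 2 := by
      refine ih k c fun S hS hk => hc S ?_ hk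
      exact Finset.mem_powerset.2 ((Finset.mem_powerset.1 hS).trans (Finset.subset_insert _ _))
    have hcs : Ex p (fun ω => A ω ^ 2 * B ω ^ 2) ^ 2
        ≤ Ex p (fun ω => A ω ^ 4) * Ex p (fun ω => B ω ^ 4) := by
      have := Ex_cs p (fun ω => A ω ^ 2) (fun ω => B ω ^ 2)
      simpa only [← pow_mul] using this
    set α := Ex p (fun ω => A ω ^ 2) with hα
    set β := Ex p (fun ω => B ω ^ 2) with hβ
    have hα0 : 0 ≤ α := Ex_nonneg p fun ω => sq_nonneg _
    have hβ0 : 0 ≤ β := Ex_nonneg p fun ω => sq_nonneg _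
    rw [e2]
    refine e4.trans ?_
    rcases Nat.eq_zero_or_pos k with hk | hk
    · subst hk
      have hb0 : ∀ ω, B ω = 0 := by
        intro ω
        rw [hB, poly]
        refine Finset.sum_eq_zero fun S hS => ?_
        rw [hc (insert i S), zero_mul]
        · exact Finset.mem_powerset.2 (Finset.insert_subset_insert i (Finset.mem_powerset.1 hS))
        · exact Finset.card_pos.2 ⟨i, Finset.mem_insert_self _ _⟩
      have z1 : Ex p (fun ω => B ω ^ 4) = 0 := by
        simp only [hb0]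
        simpa using Ex_const (ι := ι) p 0
      have z2 : Ex p (fun ω => A ω ^ 2 * B ω ^ 2) = 0 := by
        simp only [hb0]
        simpa using Ex_const (ι := ι) p 0
      rw [z1, z2]
      simp only [pow_zero, one_mul, mul_zero, add_zero] at hA4 ⊢
      nlinarith
    · obtain ⟨l, rfl⟩ : ∃ l, k = l + 1 := ⟨k - 1, by omega⟩
      have hB4 : Ex p (fun ω => B ω ^ 4) ≤ (D ^ 2) ^ l * β ^ 2 := by
        refine ih l _ fun S hS hl => hc _ ?_ ?_
        · exact Finset.mem_powerset.2 (Finset.insert_subset_insert i (Finset.mem_powerset.1 hS))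
        · rw [Finset.card_insert_of_notMem (fun h => hi (Finset.mem_powerset.1 hS h))]
          omega
      set P := (D ^ 2) ^ l with hP
      have hP0 : 0 < P := by positivity
      have hmix : Ex p (fun ω => A ω ^ 2 * B ω ^ 2) ≤ D * P * (α * β) := by
        refine abs_le_of_sq_le_sq' ?_ (by positivity) |>.2
        refine hcs.trans ?_
        calc Ex p (fun ω => A ω ^ 4) * Ex p (fun ω => B ω ^ 4)
            ≤ ((D ^ 2) ^ (l + 1) * α ^ 2) * (P * β ^ 2) :=
              mul_le_mul hA4 hB4 (Ex_nonneg p fun ω => by positivity) (by positivity)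
          _ = (D * P * (α * β)) ^ 2 := by rw [pow_succ, ← hP]; ring
      have hpk : (D ^ 2) ^ (l + 1) = D ^ 2 * P := by rw [pow_succ, ← hP]; ring
      rw [hpk] at hA4 ⊢
      have h3K : 3 * (1 / (a * (1 - b))) ≤ D ^ 2 := by
        have e : 3 * (1 / (a * (1 - b))) = 3 / (a * (1 - b)) := by ring
        rw [e]
        nlinarith
      have hB4' : 3 * (1 / (a * (1 - b))) * Ex p (fun ω => B ω ^ 4) ≤ D ^ 2 * (P * β ^ 2) :=
        mul_le_mul h3K hB4 (Ex_nonneg p fun ω => by positivity) (by positivity)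
      have hmix' : 8 * Ex p (fun ω => A ω ^ 2 * B ω ^ 2) ≤ 2 * D ^ 2 * P * (α * β) := by
        have hc1 : 8 * (D * P * (α * β)) ≤ 2 * D ^ 2 * P * (α * β) := by
          have hPab : 0 ≤ D * P * (α * β) := by positivity
          have : 2 * D ^ 2 * P * (α * β) = (2 * D) * (D * P * (α * β)) := by ring
          rw [this]
          exact mul_le_mul_of_nonneg_right (by linarith) hPab
        linarith
      have efin : D ^ 2 * P * (α + β) ^ 2
          = D ^ 2 * P * α ^ 2 + 2 * D ^ 2 * P * (α * β) + D ^ 2 * (P * β ^ 2) := by ring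
      rw [efin]
      linarith

/-- degree at most `k` polynomials satisfy `E f^4 ≤ C^k (E f^2)^2`, with `C` uniform for `p` in a
compact subinterval of `(0,1)` -/
theorem bonami {a b : ℝ} (ha : 0 < a) (hb : b < 1) :
    ∃ C : ℝ, 1 ≤ C ∧ ∀ (p : unitInterval), a ≤ (p : ℝ) → (p : ℝ) ≤ b →
      ∀ (ι : Type) [Fintype ι] [DecidableEq ι] (k : ℕ) (c : Finset ι → ℝ)
        (_ : ∀ S, k < S.card → c S = 0),
        Ex p (fun ω : ι → Bool => (∑ S : Finset ι, c S * chi p S ω) ^ 4)
          ≤ C ^ k * (Ex p (fun ω : ι → Bool => (∑ S : Finset ι, c S * chi p S ω) ^ 2)) ^ 2 := by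
  by_cases hab : a ≤ b
  · refine ⟨(4 + 3 / (a * (1 - b))) ^ 2, ?_, ?_⟩
    · have hab0 : 0 < a * (1 - b) := mul_pos ha (by linarith)
      have hK0 : 0 ≤ 3 / (a * (1 - b)) := by positivity
      nlinarith
    · intro p h0 h1 ι _ _ k c hc
      have h := bonami_poly ha hb p h0 h1 (Finset.univ : Finset ι) k c (fun S _ hS => hc S hS)
      simpa only [poly, Finset.powerset_univ] using h
  · refine ⟨1, le_refl 1, ?_⟩
    intro p h0 h1
    exact absurd (h0.trans h1) hab

end Pool.Agent.H41.QC
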