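import Pool.Agent.H41.QC.Poincare

/-! # QC module Boundary: connectivity of boundaries (paper 11.2) -/

namespace Pool.Agent.H41.QC

variable {d : ℕ}

/-- the lattice graph -/
def Lat (d : ℕ) : SimpleGraph (V d) where
  Adj x y := LatAdj x y
  symm := by
    constructor
    rintro x y ⟨s, rfl⟩
    refine ⟨(s.1, !s.2), ?_⟩
    unfold stepVec
    rcases s with ⟨i, b⟩
    cases b <;> simp [add_assoc, ← Pi.single_add]
  loopless := by
    constructor
    rintro x ⟨s, hs⟩
    have h1 : stepVec s = 0 := by simpa using hs.symm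
    have h2 := congrFun h1 s.1
    unfold stepVec at h2
    rcases s with ⟨i, b⟩
    cases b <;> simp at h2

/-- `ℓ∞` closeness -/
def Cl (r : ℕ) (x y : V d) : Prop := ∀ i, |x i - y i| ≤ r

/-- any two vertices of `A` are joined by a lattice walk inside `A` -/
def Cnd (A : Set (V d)) : Prop :=
  ∀ x ∈ A, ∀ y ∈ A, ∃ w : (Lat d).Walk x y, ∀ z ∈ w.support, z ∈ A

/-- any two vertices of `A` are joined by a `*`-path (steps of `ℓ∞` size at most one) inside `A` -/
def SCnd (A : Set (V d)) : Prop :=
  ∀ x ∈ A, ∀ y ∈ A, Relation.ReflTransGen (fun p q => p ∈ A ∧ q ∈ A ∧ Cl 1 p q) x y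

lemma bd_lat_adj {x y : V d} : (Lat d).Adj x y ↔ LatAdj x y := Iff.rfl

lemma bd_symm {x y : V d} (h : LatAdj x y) : LatAdj y x := (Lat d).symm.symm _ _ h

lemma bd_latAdj_iff {x y : V d} : LatAdj x y ↔
    ∃ i, y = x + Pi.single i 1 ∨ x = y + Pi.single i 1 := by
  constructor
  · rintro ⟨⟨i, b⟩, rfl⟩
    refine ⟨i, ?_⟩
    unfold stepVec
    cases b
    · right
      simp [add_assoc, ← Pi.single_add]
    · left
      simp
  · rintro ⟨i, h | h⟩
    · exact ⟨(i, true), by rw [h]; simp [stepVec]⟩
    · refine bd_symm ⟨(i, true), by rw [h]; simp [stepVec]⟩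

lemma bd_latAdj_single (x : V d) (i : Fin d) : LatAdj x (x + Pi.single i 1) :=
  bd_latAdj_iff.mpr ⟨i, Or.inl rfl⟩

/-- the vertices near the boundary edges -/
def bd_near (A O : Set (V d)) : Set (V d) := {z | ∃ a ∈ A, ∃ b ∈ O, LatAdj a b ∧ Cl 1 z a}

/-- reachable from `v` inside a set -/
def bd_RIn (N : Set (V d)) (v : V d) : Set (V d) := {x | ∃ w : (Lat d).Walk v x, ∀ z ∈ w.support, z ∈ N}

lemma bd_RIn_step {N : Set (V d)} {v x y : V d} (hx : x ∈ bd_RIn N v) (h : LatAdj x y) (hy : y ∈ N) :
    y ∈ bd_RIn N v := by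
  obtain ⟨w, hw⟩ := hx
  refine ⟨w.concat (bd_lat_adj.mpr h), ?_⟩
  intro z hz
  rw [SimpleGraph.Walk.support_concat] at hz
  simp only [List.mem_append, List.mem_singleton] at hz
  rcases hz with hz | rfl
  · exact hw z hz
  · exact hy

lemma bd_Cl_refl (r : ℕ) (x : V d) : Cl r x x := fun i => by simp

lemma bd_Cl_symm {r : ℕ} {x y : V d} (h : Cl r x y) : Cl r y x := fun i => by
  rw [abs_sub_comm]; exact h i

lemma bd_Cl_mono {r r' : ℕ} (hr : r ≤ r') {x y : V d} (h : Cl r x y) : Cl r' x y := fun i =>
  (h i).trans (by exact_mod_cast hr)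

lemma bd_Cl_trans {r r' : ℕ} {x y z : V d} (h : Cl r x y) (h' : Cl r' y z) : Cl (r + r') x z := fun i => by
  have h1 := h i
  have h2 := h' i
  have h3 := abs_sub_le (x i) (y i) (z i)
  push_cast
  linarith

lemma bd_single_cases (i j : Fin d) : (Pi.single i (1:ℤ) : V d) j = 0 ∨
    (Pi.single i (1:ℤ) : V d) j = 1 := by
  by_cases h : j = i
  · subst h; right; simp
  · left; rw [Pi.single_eq_of_ne h]

lemma bd_adj_cl {x y : V d} (h : LatAdj x y) : Cl 1 x y := by
  obtain ⟨i, h | h⟩ := bd_latAdj_iff.mp h
  · intro j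
    rw [h, Pi.add_apply]
    rcases bd_single_cases i j with h1 | h1 <;> rw [h1] <;> simp
  · intro j
    rw [h, Pi.add_apply]
    rcases bd_single_cases i j with h1 | h1 <;> rw [h1] <;> simp

/-- a lattice walk inside a unit cube -/
lemma bd_cube_walk {p q : V d} (h : Cl 1 p q) :
    ∃ w : (Lat d).Walk p q, ∀ z ∈ w.support, ∀ i, z i = p i ∨ z i = q i := by
  classical
  have key : ∀ T : Finset (Fin d), ∀ r : V d, (∀ i, r i = if i ∈ T then q i else p i) →
      ∃ w : (Lat d).Walk p r, ∀ z ∈ w.support, ∀ i, z i = p i ∨ z i = q i := by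
    intro T
    induction T using Finset.induction_on with
    | empty =>
      intro r hr
      have hpr : r = p := by
        funext i
        rw [hr i, if_neg (Finset.notMem_empty i)]
      subst hpr
      exact ⟨SimpleGraph.Walk.nil, fun z hz i => by
        rw [SimpleGraph.Walk.support_nil, List.mem_singleton] at hz
        rw [hz]; exact Or.inl rfl⟩
    | insert j T hj ih =>
      intro r hr
      obtain ⟨w, hw⟩ := ih (fun i => if i ∈ T then q i else p i) (fun i => rfl)
      have hrK : ∀ i, r i = p i ∨ r i = q i := by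
        intro i
        rw [hr i]
        split_ifs
        · exact Or.inr rfl
        · exact Or.inl rfl
      by_cases hpq : q j = p j
      · have hrr : r = fun i => if i ∈ T then q i else p i := by
          funext i
          rw [hr i]
          by_cases hi : i = j
          · rw [hi, if_pos (Finset.mem_insert_self _ _), if_neg hj, hpq]
          · simp only [Finset.mem_insert, hi, false_or]
        rw [hrr]
        exact ⟨w, hw⟩
      · have h1 := h j
        have hadj : LatAdj (fun i => if i ∈ T then q i else p i) r := by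
          rw [bd_latAdj_iff]
          refine ⟨j, ?_⟩
          rw [abs_le] at h1
          push_cast at h1
          have h2 : q j = p j + 1 ∨ p j = q j + 1 := by omega
          rcases h2 with h2 | h2
          · left
            funext i
            rw [hr i, Pi.add_apply]
            by_cases hi : i = j
            · rw [hi, if_pos (Finset.mem_insert_self _ _), if_neg hj, Pi.single_eq_same, h2]
            · rw [Pi.single_eq_of_ne hi]
              simp only [Finset.mem_insert, hi, false_or, add_zero]
          · right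
            funext i
            rw [Pi.add_apply, hr i]
            by_cases hi : i = j
            · rw [hi, if_pos (Finset.mem_insert_self _ _), if_neg hj, Pi.single_eq_same, h2]
            · rw [Pi.single_eq_of_ne hi]
              simp only [Finset.mem_insert, hi, false_or, add_zero]
        refine ⟨w.concat (bd_lat_adj.mpr hadj), ?_⟩
        intro z hz
        rw [SimpleGraph.Walk.support_concat] at hz
        simp only [List.mem_append, List.mem_singleton] at hz
        rcases hz with hz | rfl
        · exact hw z hz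
        · exact hrK
  exact key Finset.univ q (fun i => by rw [if_pos (Finset.mem_univ i)])

/-- a function which is constant along edges is constant along walks -/
lemma bd_const {β : Type*} (B : Set (V d)) (h : V d → β)
    (hB : ∀ x ∈ B, ∀ y ∈ B, LatAdj x y → h x = h y) {x y : V d} (w : (Lat d).Walk x y) :
    (∀ z ∈ w.support, z ∈ B) → h x = h y := by
  induction w with
  | nil => intro _; rfl
  | cons hh p ih =>
    intro hs
    rename_i a b c'
    have h1 : h b = h c' := ih (fun z hz => hs z (by
      rw [SimpleGraph.Walk.support_cons]; exact List.mem_cons_of_mem _ hz))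
    have ha : a ∈ B := hs a (by rw [SimpleGraph.Walk.support_cons]; exact List.mem_cons_self)
    have hb : b ∈ B := hs b (by
      rw [SimpleGraph.Walk.support_cons]
      exact List.mem_cons_of_mem _ (SimpleGraph.Walk.start_mem_support p))
    rw [hB a ha b hb hh, h1]

/-- the endpoints of the boundary edges between a `*`-connected set `A` and a component `O` of its
complement are joined near the boundary -/
theorem boundary_connected (A O : Set (V d)) (hA : SCnd A) (hO : Cnd O) (hAO : Disjoint A O)
    (hcl : ∀ x ∈ O, ∀ y, LatAdj x y → y ∉ A → y ∈ O) {u v u' v' : V d} (hu : u ∈ A) (hv : v ∈ O)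
    (huv : LatAdj u v) (hu' : u' ∈ A) (hv' : v' ∈ O) (huv' : LatAdj u' v') :
    ∃ w : (Lat d).Walk v v', ∀ z ∈ w.support, ∃ a ∈ A, ∃ b ∈ O, LatAdj a b ∧ Cl 1 z a := by
  classical
  set N := bd_near A O with hN
  set R := bd_RIn N v with hR
  have hvN : v ∈ N := ⟨u, hu, v, hv, huv, bd_adj_cl (bd_symm huv)⟩
  have hvR : v ∈ R := ⟨SimpleGraph.Walk.nil, by
    intro z hz
    rw [SimpleGraph.Walk.support_nil, List.mem_singleton] at hz
    rw [hz]; exact hvN⟩
  suffices hv'R : v' ∈ R from hv'R
  have hstep : ∀ {x y : V d}, x ∈ R → LatAdj x y → y ∈ N → y ∈ R := fun h1 h2 h3 => bd_RIn_step h1 h2 h3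
  -- boundary edges
  have hbd : ∀ {x y : V d}, LatAdj x y → ¬ (x ∈ O ↔ y ∈ O) →
      ∃ a ∈ A, ∃ b ∈ O, LatAdj a b ∧ ((x = a ∧ y = b) ∨ (x = b ∧ y = a)) := by
    intro x y hxy hne
    by_cases hx : x ∈ O
    · have hy : y ∉ O := fun hy => hne ⟨fun _ => hy, fun _ => hx⟩
      have hyA : y ∈ A := by
        by_contra hyA
        exact hy (hcl x hx y hxy hyA)
      exact ⟨y, hyA, x, hx, (bd_symm hxy), Or.inr ⟨rfl, rfl⟩⟩
    · have hy : y ∈ O := by
        by_contra hy
        exact hne ⟨fun h => absurd h hx, fun h => absurd h hy⟩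
      have hxA : x ∈ A := by
        by_contra hxA
        exact hx (hcl y hy x (bd_symm hxy) hxA)
      exact ⟨x, hxA, y, hy, hxy, Or.inl ⟨rfl, rfl⟩⟩
  have hbdN : ∀ {x y z : V d}, LatAdj x y → ¬ (x ∈ O ↔ y ∈ O) → Cl 1 z x → Cl 1 z y → z ∈ N := by
    intro x y z hxy hne h1 h2
    obtain ⟨a, ha, b, hb, hab, ⟨rfl, rfl⟩ | ⟨rfl, rfl⟩⟩ := hbd hxy hne
    · exact ⟨x, ha, y, hb, hab, h1⟩
    · exact ⟨y, ha, x, hb, hab, h2⟩
  have hbdR : ∀ {x y : V d}, LatAdj x y → ¬ (x ∈ O ↔ y ∈ O) → (x ∈ R ↔ y ∈ R) := by
    intro x y hxy hne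
    constructor
    · intro hx
      exact hstep hx hxy (hbdN hxy hne (bd_adj_cl (bd_symm hxy)) (bd_Cl_refl _ _))
    · intro hy
      exact hstep hy (bd_symm hxy) (hbdN hxy hne (bd_Cl_refl _ _) (bd_adj_cl hxy))
  -- the cochain
  set g : V d → ZMod 2 := fun x => if x ∈ O then 1 else 0 with hg
  set c : V d → Fin d → ZMod 2 := fun x i => if x ∈ R then g x + g (x + Pi.single i 1) else 0 with hc
  have h2 : ∀ t : ZMod 2, t + t = 0 := fun t => CharTwo.add_self_eq_zero t
  have hgeq : ∀ {x y : V d}, (x ∈ O ↔ y ∈ O) → g x + g y = 0 := by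
    intro x y h
    have : g x = g y := by
      simp only [hg]
      by_cases hx : x ∈ O
      · rw [if_pos hx, if_pos (h.mp hx)]
      · rw [if_neg hx, if_neg (fun hy => hx (h.mpr hy))]
    rw [this]; exact h2 _
  have hgne : ∀ {x y : V d}, ¬ (x ∈ O ↔ y ∈ O) → g x + g y = 1 := by
    intro x y h
    simp only [hg]
    by_cases hx : x ∈ O
    · have hy : y ∉ O := fun hy => h ⟨fun _ => hy, fun _ => hx⟩
      rw [if_pos hx, if_neg hy, add_zero]
    · have hy : y ∈ O := by
        by_contra hy
        exact h ⟨fun h => absurd h hx, fun h => absurd h hy⟩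
      rw [if_neg hx, if_pos hy, zero_add]
  have hclosed : ∀ x i j, c x i + c (x + Pi.single i 1) j = c x j + c (x + Pi.single j 1) i := by
    intro x i j
    rcases eq_or_ne i j with rfl | hij
    · rfl
    have hswap : x + Pi.single j 1 + Pi.single i 1 = x + Pi.single i 1 + Pi.single j (1:ℤ) := by
      exact add_right_comm _ _ _
    -- the four vertices are pairwise close
    have hval : ∀ k, (Pi.single i (1:ℤ) : V d) k + (Pi.single j (1:ℤ) : V d) k = 0 ∨
        (Pi.single i (1:ℤ) : V d) k + (Pi.single j (1:ℤ) : V d) k = 1 := by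
      intro k
      by_cases hk : k = i
      · rw [hk, Pi.single_eq_of_ne hij]
        simp
      · rw [Pi.single_eq_of_ne hk, zero_add]
        exact bd_single_cases j k
    have hcorn : ∀ y ∈ ({x, x + Pi.single i 1, x + Pi.single j 1,
        x + Pi.single i 1 + Pi.single j 1} : Set (V d)), ∀ k, x k ≤ y k ∧ y k ≤ x k + 1 := by
      intro y hy k
      simp only [Set.mem_insert_iff, Set.mem_singleton_iff] at hy
      rcases hy with rfl | rfl | rfl | rfl
      · omega
      · rw [Pi.add_apply]
        rcases bd_single_cases i k with h | h <;> rw [h] <;> omega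
      · rw [Pi.add_apply]
        rcases bd_single_cases j k with h | h <;> rw [h] <;> omega
      · rw [Pi.add_apply, Pi.add_apply]
        rcases hval k with h | h <;> omega
    have hclose : ∀ y ∈ ({x, x + Pi.single i 1, x + Pi.single j 1,
        x + Pi.single i 1 + Pi.single j 1} : Set (V d)), ∀ z ∈ ({x, x + Pi.single i 1,
        x + Pi.single j 1, x + Pi.single i 1 + Pi.single j 1} : Set (V d)), Cl 1 y z := by
      intro y hy z hz k
      have h1 := hcorn y hy k
      have h3 := hcorn z hz k
      rw [abs_le]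
      push_cast
      omega
    by_cases hall : x ∈ R ∧ x + Pi.single i 1 ∈ R ∧ x + Pi.single j 1 ∈ R
    · obtain ⟨r1, r2, r3⟩ := hall
      simp only [hc, if_pos r1, if_pos r2, if_pos r3]
      rw [hswap]
      have e1 : g x + g (x + Pi.single i 1) + (g (x + Pi.single i 1) +
          g (x + Pi.single i 1 + Pi.single j 1)) = g x + g (x + Pi.single i 1 + Pi.single j 1) +
          (g (x + Pi.single i 1) + g (x + Pi.single i 1)) := by ring
      have e2 : g x + g (x + Pi.single j 1) + (g (x + Pi.single j 1) +
          g (x + Pi.single i 1 + Pi.single j 1)) = g x + g (x + Pi.single i 1 + Pi.single j 1) +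
          (g (x + Pi.single j 1) + g (x + Pi.single j 1)) := by ring
      rw [e1, e2, h2, h2]
    · -- no boundary edge of the square touches `R`
      have hz : ∀ y z : V d, y ∈ ({x, x + Pi.single i 1, x + Pi.single j 1,
          x + Pi.single i 1 + Pi.single j 1} : Set (V d)) → z ∈ ({x, x + Pi.single i 1,
          x + Pi.single j 1, x + Pi.single i 1 + Pi.single j 1} : Set (V d)) → LatAdj y z →
          (if y ∈ R then g y + g z else 0) = 0 := by
        intro y z hy hz hyz
        split_ifs with hyR
        · by_contra hne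
          have hnot : ¬ (y ∈ O ↔ z ∈ O) := fun h => hne (hgeq h)
          have hN4 : ∀ t ∈ ({x, x + Pi.single i 1, x + Pi.single j 1,
              x + Pi.single i 1 + Pi.single j 1} : Set (V d)), t ∈ N := fun t ht =>
            hbdN hyz hnot (hclose t ht y hy) (hclose t ht z hz)
          have n1 : x ∈ N := hN4 x (by simp)
          have n2 : x + Pi.single i 1 ∈ N := hN4 _ (by simp)
          have n3 : x + Pi.single j 1 ∈ N := hN4 _ (by simp)
          have n4 : x + Pi.single i 1 + Pi.single j 1 ∈ N := hN4 _ (by simp)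
          have a1 := bd_latAdj_single x i
          have a2 := bd_latAdj_single x j
          have a3 := bd_latAdj_single (x + Pi.single i 1) j
          have a4 := bd_latAdj_single (x + Pi.single j 1) i
          rw [hswap] at a4
          apply hall
          simp only [Set.mem_insert_iff, Set.mem_singleton_iff] at hy
          rcases hy with rfl | rfl | rfl | rfl
          · exact ⟨hyR, hstep hyR a1 n2, hstep hyR a2 n3⟩
          · have r1 := hstep hyR (bd_symm a1) n1
            exact ⟨r1, hyR, hstep r1 a2 n3⟩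
          · have r1 := hstep hyR (bd_symm a2) n1
            exact ⟨r1, hstep r1 a1 n2, hyR⟩
          · have r2 := hstep hyR (bd_symm a3) n2
            have r3 := hstep hyR (bd_symm a4) n3
            exact ⟨hstep r2 (bd_symm a1) n1, r2, r3⟩
        · rfl
      have e1 : c x i = 0 := hz _ _ (by simp) (by simp) (bd_latAdj_single x i)
      have e2 : c (x + Pi.single i 1) j = 0 := hz _ _ (by simp) (by simp) (bd_latAdj_single _ j)
      have e3 : c x j = 0 := hz _ _ (by simp) (by simp) (bd_latAdj_single x j)
      have e4 : c (x + Pi.single j 1) i = 0 := by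
        refine hz _ _ (by simp) ?_ (bd_latAdj_single _ i)
        rw [hswap]; simp
      rw [e1, e2, e3, e4]
  obtain ⟨f, hf⟩ := poincare c hclosed
  -- the potential along an edge
  have hedge : ∀ {x y : V d}, LatAdj x y → f x + f y = if x ∈ R then g x + g y else 0 := by
    intro x y hxy
    obtain ⟨i, rfl | rfl⟩ := bd_latAdj_iff.mp hxy
    · rw [hf x i, ← add_assoc, h2, zero_add]
    · rw [hf y i, add_comm (f y) (c y i), add_assoc, h2, add_zero]
      simp only [hc]
      by_cases hne : (y + Pi.single i 1 ∈ O ↔ y ∈ O)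
      · have e1 := hgeq hne
        rw [add_comm (g y), e1]
        simp
      · have e2 := hbdR hxy hne
        rw [add_comm (g y)]
        by_cases hy : y ∈ R
        · rw [if_pos hy, if_pos (e2.mpr hy)]
        · rw [if_neg hy, if_neg (fun h => hy (e2.mp h))]
  have hnO : ∀ x ∈ A, x ∉ O := fun x hx hx' => (Set.disjoint_left.mp hAO) hx hx'
  have hstar : ∀ x y : V d, x ∈ A → y ∈ A → Cl 1 x y → f x = f y := by
    intro x y hx hy hxy
    obtain ⟨w, hw⟩ := bd_cube_walk hxy
    set B : Set (V d) := {z | z ∈ w.support} with hB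
    have hBc : ∀ z ∈ B, ∀ z' ∈ B, Cl 1 z z' := by
      intro z hz z' hz' i
      have h1 := hxy i
      rw [abs_le] at h1 ⊢
      rcases hw z hz i with e | e <;> rcases hw z' hz' i with e' | e' <;> rw [e, e'] <;>
        push_cast at h1 ⊢ <;> omega
    have hxB : x ∈ B := SimpleGraph.Walk.start_mem_support w
    have hyB : y ∈ B := SimpleGraph.Walk.end_mem_support w
    by_cases hex : ∃ s ∈ B, ∃ t ∈ B, LatAdj s t ∧ s ∈ R ∧ ¬ (s ∈ O ↔ t ∈ O)
    · obtain ⟨s, hs, t, ht, hst, hsR, hne⟩ := hex
      have hBN : ∀ z ∈ B, z ∈ N := fun z hz => hbdN hst hne (hBc z hz s hs) (hBc z hz t ht)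
      have hR1 : ∀ z ∈ B, ∀ z' ∈ B, LatAdj z z' → (z ∈ R) = (z' ∈ R) := by
        intro z hz z' hz' hzz
        exact propext ⟨fun h => hstep h hzz (hBN z' hz'),
          fun h => hstep h (bd_symm hzz) (hBN z hz)⟩
      have hR2 : ∀ z ∈ B, (x ∈ R) = (z ∈ R) := by
        intro z hz
        have h3 := bd_const B (fun z => z ∈ R) hR1 (w.takeUntil z hz)
          (fun t ht => w.support_takeUntil_subset_support hz ht)
        exact h3
      have hR3 : ∀ z ∈ B, z ∈ R := fun z hz => (hR2 z hz).mp ((hR2 s hs).mpr hsR)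
      have h3 := bd_const B (fun z => f z + g z) (fun z hz z' hz' hzz => by
        have h4 := hedge hzz
        rw [if_pos (hR3 z hz)] at h4
        have h5 : (f z + g z) + (f z' + g z') = 0 := by
          have : (f z + g z) + (f z' + g z') = (f z + f z') + (g z + g z') := by ring
          rw [this, h4, h2]
        exact CharTwo.add_eq_zero.mp h5) w (fun z hz => hz)
      have h4 : g x = 0 := if_neg (hnO x hx)
      have h5 : g y = 0 := if_neg (hnO y hy)
      simp only [h4, h5, add_zero] at h3
      exact h3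
    · refine bd_const B f (fun z hz z' hz' hzz => ?_) w (fun z hz => hz)
      have h4 := hedge hzz
      have h5 : f z + f z' = 0 := by
        rw [h4]
        split_ifs with hzR
        · apply hgeq
          by_contra hne
          exact hex ⟨z, hz, z', hz', hzz, hzR, hne⟩
        · rfl
      exact CharTwo.add_eq_zero.mp h5
  have hfA : f u = f u' := by
    have h3 : ∀ t, Relation.ReflTransGen (fun p q => p ∈ A ∧ q ∈ A ∧ Cl 1 p q) u t →
        f u = f t := by
      intro t ht
      induction ht with
      | refl => rfl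
      | tail _ hbc ih => exact ih.trans (hstar _ _ hbc.1 hbc.2.1 hbc.2.2)
    exact h3 u' (hA u hu u' hu')
  have hfO : f v = f v' := by
    obtain ⟨w, hw⟩ := hO v hv v' hv'
    refine bd_const O f (fun x hx y hy hxy => ?_) w hw
    have h4 := hedge hxy
    rw [hgeq (⟨fun _ => hy, fun _ => hx⟩)] at h4
    have h5 : f x + f y = 0 := by rw [h4]; simp
    exact CharTwo.add_eq_zero.mp h5
  have hne1 : ¬ (v ∈ O ↔ u ∈ O) := fun h => hnO u hu (h.mp hv)
  have hne2 : ¬ (v' ∈ O ↔ u' ∈ O) := fun h => hnO u' hu' (h.mp hv')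
  have e1 := hedge (bd_symm huv)
  rw [if_pos hvR, hgne hne1] at e1
  have e2 := hedge (bd_symm huv')
  rw [← hfA, ← hfO, e1] at e2
  by_contra hcon
  rw [if_neg hcon] at e2
  exact one_ne_zero e2

end Pool.Agent.H41.QC
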