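import Pool.Agent.H41.QC.Main

/-! # QC module BoxLim: near-top starts in small boxes at left-continuity points, without any
hypothesis on the chemical distance -/

open MeasureTheory Filter Topology
open Pool.Agent.H17.IIC

namespace Pool.Agent.H41.QC

theorem near_ae (κ : Kind) (d : ℕ) (hd : 1 ≤ d) (p p' : unitInterval) (hp : 0 < (p : ℝ))
    (hpp : (p : ℝ) < p') (hp1 : (p' : ℝ) < 1) {η₀ : ℝ} (hη₀pos : 0 < η₀)
    (hη₀2 : 2 * η₀ ≤ beta κ d p) (j : ℕ) (hj : 1 ≤ j) :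
    ∀ᵐ ω ∂(prodBern (El d) p'), ∀ᶠ k : ℕ in atTop,
      Near κ ω (2 ^ k) (0 : V d) (2 ^ (k - j)) (Real.exp ((beta κ d p - 3 * η₀) * 2 ^ k)) := by
  set b₀ := beta κ d p with hb₀
  obtain ⟨c, hcpos, k₀, hA⟩ := propA κ d hd p p' hp hpp hp1 hη₀pos hη₀2 j hj
  set s : ℕ → Set (El d → Bool) := fun k =>
    {ω | ¬ Near κ ω (2 ^ (k + (k₀ + j))) (0 : V d) (2 ^ (k + (k₀ + j) - j))
          (Real.exp ((b₀ - 3 * η₀) * 2 ^ (k + (k₀ + j))))} with hs
  have hsum : ∑' k, (prodBern (El d) p') (s k) ≠ ⊤ := by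
    have hr : (2 : ℝ) ^ (-c) < 1 := Real.rpow_lt_one_of_one_lt_of_neg (by norm_num) (by linarith)
    have hr0 : (0 : ℝ) < (2 : ℝ) ^ (-c) := Real.rpow_pos_of_pos (by norm_num) _
    have hle : ∀ k, (prodBern (El d) p') (s k) ≤ ENNReal.ofReal (((2 : ℝ) ^ (-c)) ^ k) := by
      intro k
      have h1 := hA (k + (k₀ + j)) (by omega) (by omega)
      rw [← ENNReal.ofReal_toReal (measure_ne_top (prodBern (El d) p') (s k))]
      apply ENNReal.ofReal_le_ofReal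
      refine le_trans h1 ?_
      rw [← Real.rpow_natCast, ← Real.rpow_mul (by norm_num)]
      apply Real.rpow_le_rpow_of_exponent_le (by norm_num)
      push_cast
      nlinarith [mul_nonneg hcpos.le (by positivity : (0 : ℝ) ≤ (k₀ : ℝ) + j)]
    refine ne_of_lt (lt_of_le_of_lt (ENNReal.tsum_le_tsum hle) ?_)
    have hsm : Summable fun k : ℕ => ((2 : ℝ) ^ (-c)) ^ k :=
      summable_geometric_of_lt_one hr0.le hr
    rw [← ENNReal.ofReal_tsum_of_nonneg (fun k => by positivity) hsm]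
    exact ENNReal.ofReal_lt_top
  filter_upwards [ae_eventually_notMem hsum] with ω hω
  rw [eventually_atTop] at hω ⊢
  obtain ⟨K, hK⟩ := hω
  refine ⟨K + (k₀ + j), fun k hk => ?_⟩
  have h1 := hK (k - (k₀ + j)) (by omega)
  simp only [hs, Set.mem_ofPred_eq, not_not] at h1
  rw [Nat.sub_add_cancel (by omega)] at h1
  exact h1

/-- deterministic passage from dyadic lengths to all lengths -/
theorem near_det (κ : Kind) {d : ℕ} (ω : El d → Bool) {b₀ b₁ η ε : ℝ} (hb : b₀ ≤ b₁)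
    (hb₁ : 0 ≤ b₁) (hη : 0 < η) {j : ℕ} (hj : 2 / 2 ^ j ≤ ε)
    (hup : ∀ η' : ℝ, 0 < η' → ∀ K : ℕ, ∀ᶠ N : ℕ in atTop, ∀ m : ℕ, m ≤ K * N →
      ∀ x : V d, (∀ i, |x i| ≤ K * N) → (Pn κ ω m x : ℝ) ≤ Real.exp (b₁ * m + η' * N))
    (hnear : ∀ᶠ k : ℕ in atTop,
      Near κ ω (2 ^ k) (0 : V d) (2 ^ (k - j)) (Real.exp ((b₀ - 3 * η) * 2 ^ k))) :
    ∀ᶠ N : ℕ in atTop, ∃ x : V d, (∀ i, 0 ≤ x i ∧ (x i : ℝ) ≤ ε * N) ∧
      Real.exp ((b₁ - 2 * (b₁ - b₀) - 7 * η) * N) ≤ (Pn κ ω N x : ℝ) := by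
  obtain ⟨k₁, hk₁⟩ := eventually_atTop.mp hnear
  filter_upwards [hup η hη 4, eventually_ge_atTop (2 ^ (k₁ + j + 1))] with N hN hNk
  have hN1 : 1 < N := lt_of_lt_of_le (Nat.one_lt_two_pow (by omega)) hNk
  set k := Nat.clog 2 N with hk
  have hNle : N ≤ 2 ^ k := Nat.le_pow_clog (by norm_num) N
  have hlt : 2 ^ k < 2 * N := by
    have h1 : 2 ^ (Nat.clog 2 N).pred < N := Nat.pow_pred_clog_lt_self (by norm_num) hN1
    have h2 : 0 < Nat.clog 2 N := Nat.clog_pos (by norm_num) hN1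
    have h3 : 2 ^ k = 2 * 2 ^ (Nat.clog 2 N).pred := by
      rw [hk, ← Nat.pow_succ', Nat.succ_pred_eq_of_pos h2]
    omega
  have hkk : k₁ + j + 1 ≤ k := by
    have : 2 ^ (k₁ + j + 1) ≤ 2 ^ k := hNk.trans hNle
    exact (Nat.pow_le_pow_iff_right (by norm_num)).mp this
  obtain ⟨x, hx, hxP⟩ := hk₁ k (by omega)
  rw [mem_box] at hx
  have hNr : ((2 : ℝ) ^ k) ≤ 2 * N := by exact_mod_cast hlt.le
  have hNr' : (N : ℝ) ≤ 2 ^ k := by exact_mod_cast hNle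
  have hxb : ∀ i, 0 ≤ x i ∧ x i < (2 : ℤ) ^ (k - j) := by
    intro i
    have := hx i
    simp only [Pi.zero_apply, zero_add] at this
    push_cast at this
    exact this
  refine ⟨x, fun i => ⟨(hxb i).1, ?_⟩, ?_⟩
  · have h1 : (x i : ℝ) ≤ 2 ^ (k - j) := by exact_mod_cast (hxb i).2.le
    have h2 : (2 : ℝ) ^ (k - j) = 2 ^ k / 2 ^ j := by
      rw [eq_div_iff (by positivity), ← pow_add]
      congr 1
      omega
    calc (x i : ℝ) ≤ 2 ^ k / 2 ^ j := by rw [← h2]; exact h1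
      _ ≤ 2 * N / 2 ^ j := by gcongr
      _ = 2 / 2 ^ j * N := by ring
      _ ≤ ε * N := by gcongr
  · have hxN : ∀ i, |x i| ≤ (2 : ℤ) * N := by
      intro i
      have h1 := hxb i
      have h2 : (2 : ℤ) ^ (k - j) ≤ 2 ^ k := pow_le_pow_right₀ (by norm_num) (by omega)
      have h3 : (2 : ℤ) ^ k ≤ 2 * N := by exact_mod_cast hlt.le
      rw [abs_of_nonneg h1.1]
      linarith [h1.2]
    have h := Pn_add_le κ ω N (2 ^ k - N) x
      (A := Real.exp (b₁ * ((2 ^ k - N : ℕ) : ℝ) + η * N)) (Real.exp_pos _).le (fun y hy => by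
        refine hN (2 ^ k - N) (by omega) y (fun i => ?_)
        have h3 := hy i
        have h4 := hxN i
        rw [abs_le] at h3 h4 ⊢
        push_cast
        constructor <;> linarith [h3.1, h3.2, h4.1, h4.2])
    rw [Nat.add_sub_cancel' hNle] at h
    have h5 : (((2 ^ k - N : ℕ) : ℕ) : ℝ) = 2 ^ k - N := by
      rw [Nat.cast_sub hNle]; push_cast; ring
    rw [h5] at h
    have h6 := hxP.trans h
    have h7 : Real.exp ((b₀ - 3 * η) * 2 ^ k) =
        Real.exp ((b₀ - 3 * η) * 2 ^ k - (b₁ * (2 ^ k - N) + η * N)) *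
          Real.exp (b₁ * (2 ^ k - N) + η * N) := by
      rw [← Real.exp_add]
      congr 1
      ring
    rw [h7] at h6
    have h8 := le_of_mul_le_mul_right h6 (Real.exp_pos _)
    refine le_trans (Real.exp_le_exp.mpr ?_) h8
    nlinarith [mul_le_mul_of_nonneg_left hNr (sub_nonneg.mpr hb),
      mul_le_mul_of_nonneg_left hNr hη.le]

theorem near_top (κ : Kind) (d : ℕ) (hd : 1 ≤ d) (p : unitInterval) (hp : 0 < (p : ℝ))
    (hp1 : (p : ℝ) < 1) (hL : LeftCont κ d p) (hpos : 0 < beta κ d p) :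
    ∀ᵐ ω ∂(prodBern (El d) p), ∀ ε : ℝ, 0 < ε → ∀ η : ℝ, 0 < η → ∀ᶠ N : ℕ in atTop,
      ∃ x : V d, (∀ i, 0 ≤ x i ∧ (x i : ℝ) ≤ ε * N) ∧
        Real.exp ((beta κ d p - η) * N) ≤ (Pn κ ω N x : ℝ) := by
  have h1 : ∀ m j : ℕ, ∀ᵐ ω ∂(prodBern (El d) p), ∀ᶠ N : ℕ in atTop,
      ∃ x : V d, (∀ i, 0 ≤ x i ∧ (x i : ℝ) ≤ 2 / 2 ^ (j + 1) * N) ∧
        Real.exp ((beta κ d p - 10 * (beta κ d p / (4 * (m + 1)))) * N) ≤ (Pn κ ω N x : ℝ) := by
    intro m j
    set η : ℝ := beta κ d p / (4 * (m + 1)) with hη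
    have hη0 : 0 < η := by positivity
    have hη1 : 4 * η ≤ beta κ d p := by
      rw [hη]
      have : (0 : ℝ) ≤ m := Nat.cast_nonneg m
      have h2 : 4 * (beta κ d p / (4 * (m + 1))) = beta κ d p / (m + 1) := by field_simp
      rw [h2]
      exact div_le_self hpos.le (by linarith)
    obtain ⟨p', hp', hpp', hb⟩ := hL η hη0
    have hmono := beta_mono κ d hp' hpp' hp1
    filter_upwards [near_ae κ d hd p' p hp' hpp' hp1 hη0 (by linarith) (j + 1) (by omega),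
      upper_all κ d p hp] with ω hω hω2
    have := near_det κ ω hmono (beta_nonneg κ d p hp) hη0 (j := j + 1) le_rfl hω2 hω
    filter_upwards [this] with N hN
    obtain ⟨x, hx, hxP⟩ := hN
    refine ⟨x, hx, le_trans (Real.exp_le_exp.mpr ?_) hxP⟩
    apply mul_le_mul_of_nonneg_right _ (Nat.cast_nonneg N)
    linarith
  filter_upwards [ae_all_iff.2 fun m => ae_all_iff.2 (h1 m)] with ω hω
  intro ε hε η hη
  obtain ⟨m, hm⟩ := exists_nat_gt (10 * beta κ d p / (4 * η))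
  obtain ⟨j, hj⟩ := pow_unbounded_of_one_lt (1 / ε) (by norm_num : (1 : ℝ) < 2)
  filter_upwards [hω m j] with N hN
  obtain ⟨x, hx, hxP⟩ := hN
  refine ⟨x, fun i => ⟨(hx i).1, (hx i).2.trans ?_⟩, le_trans (Real.exp_le_exp.mpr ?_) hxP⟩
  · apply mul_le_mul_of_nonneg_right _ (Nat.cast_nonneg N)
    rw [pow_succ, div_le_iff₀ (by positivity)]
    rw [div_lt_iff₀ hε] at hj
    linarith
  · apply mul_le_mul_of_nonneg_right _ (Nat.cast_nonneg N)
    have hm' : (0 : ℝ) < m + 1 := by positivity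
    have h3 : 10 * (beta κ d p / (4 * (m + 1))) ≤ η := by
      rw [← mul_div_assoc, div_le_iff₀ (by positivity)]
      rw [div_lt_iff₀ (by positivity)] at hm
      nlinarith
    linarith

end Pool.Agent.H41.QC
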