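import Pool.Agent.H41.QC.Boundary

/-! # QC module Cover: counting connected sets by covering walks (paper 11.4) -/

namespace Pool.Agent.H41.QC

variable {d : ℕ}

/-- the graph of `ℓ∞` distance at most 5 -/
def G5 (d : ℕ) : SimpleGraph (V d) where
  Adj x y := x ≠ y ∧ Cl 5 x y
  symm := by
    constructor
    rintro x y ⟨h1, h2⟩
    exact ⟨h1.symm, fun i => by rw [abs_sub_comm]; exact h2 i⟩
  loopless := ⟨fun x h => h.1 rfl⟩

/-- connected in the sense of `G5` -/
def Cn5 (T : Set (V d)) : Prop :=
  ∀ x ∈ T, ∀ y ∈ T, ∃ w : (G5 d).Walk x y, ∀ z ∈ w.support, z ∈ T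

/-- positions of a walk with steps of size at most 5 -/
def pos5 {n : ℕ} (x : V d) (s : Fin n → (Fin d → Fin 11)) (t : ℕ) : V d :=
  x + ∑ u : Fin n, if (u : ℕ) < t then (fun i => ((s u i : ℕ) : ℤ) - 5) else 0

/-- a boundary edge of a proper subset of a connected set -/
theorem Cover_exit (T : Set (V d)) (hT : Cn5 T) (F : Set (V d)) {x u : V d} (hxF : x ∈ F)
    (hxT : x ∈ T) (huT : u ∈ T) (huF : u ∉ F) :
    ∃ p q, p ∈ F ∧ q ∉ F ∧ q ∈ T ∧ (G5 d).Adj p q := by
  obtain ⟨w, hw⟩ := hT x hxT u huT
  obtain ⟨e, he, h1, h2⟩ := w.exists_boundary_dart F hxF huF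
  exact ⟨e.fst, e.snd, h1, h2, hw _ (w.dart_snd_mem_support_of_mem_darts he), e.adj⟩

/-- closed covering walks of subsets of growing size -/
theorem Cover_walk (T : Finset (V d)) (hT : Cn5 (T : Set (V d))) {x : V d} (hx : x ∈ T)
    (k : ℕ) (hk : k + 1 ≤ T.card) :
    ∃ (F : Finset (V d)) (w : (G5 d).Walk x x), F ⊆ T ∧ F.card = k + 1 ∧ w.length ≤ 2 * k ∧
      ∀ z, z ∈ w.support ↔ z ∈ F := by
  classical
  induction k with
  | zero =>
    refine ⟨{x}, SimpleGraph.Walk.nil, by simpa using hx, by simp, by simp, ?_⟩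
    intro z
    simp
  | succ k ih =>
    obtain ⟨F, w, hFT, hFc, hwl, hws⟩ := ih (by omega)
    have hxF : x ∈ F := (hws x).1 w.start_mem_support
    obtain ⟨u, huT, huF⟩ : ∃ u ∈ T, u ∉ F := by
      by_contra hcon
      push Not at hcon
      have := Finset.card_le_card (show T ⊆ F from hcon)
      omega
    obtain ⟨p, q, hpF, hqF, hqT, hpq⟩ := Cover_exit (T : Set (V d)) hT (F : Set (V d))
      (x := x) (u := u) (by exact_mod_cast hxF) (by exact_mod_cast hx) (by exact_mod_cast huT)
      (by exact_mod_cast huF)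
    have hpF' : p ∈ F := by exact_mod_cast hpF
    have hqF' : q ∉ F := by exact_mod_cast hqF
    have hps : p ∈ w.support := (hws p).2 hpF'
    refine ⟨insert q F, (w.takeUntil p hps).append
      (SimpleGraph.Walk.cons hpq (SimpleGraph.Walk.cons hpq.symm (w.dropUntil p hps))), ?_, ?_, ?_,
      ?_⟩
    · intro z hz
      rw [Finset.mem_insert] at hz
      rcases hz with rfl | hz
      · exact_mod_cast hqT
      · exact hFT hz
    · rw [Finset.card_insert_of_notMem hqF', hFc]
    · have h1 : (w.takeUntil p hps).length + (w.dropUntil p hps).length = w.length := by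
        rw [← SimpleGraph.Walk.length_append, w.take_spec hps]
      rw [SimpleGraph.Walk.length_append, SimpleGraph.Walk.length_cons,
        SimpleGraph.Walk.length_cons]
      omega
    · intro z
      rw [SimpleGraph.Walk.mem_support_append_iff, SimpleGraph.Walk.support_cons,
        SimpleGraph.Walk.support_cons, List.mem_cons, List.mem_cons, Finset.mem_insert, ← hws z]
      have h2 : z ∈ w.support ↔ z ∈ (w.takeUntil p hps).support ∨
          z ∈ (w.dropUntil p hps).support := by
        rw [← SimpleGraph.Walk.mem_support_append_iff, w.take_spec hps]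
      rw [h2]
      constructor
      · rintro (h | h | h | h)
        · exact Or.inr (Or.inl h)
        · rw [h]
          exact Or.inr (Or.inl (SimpleGraph.Walk.end_mem_support _))
        · exact Or.inl h
        · exact Or.inr (Or.inr h)
      · rintro (h | h | h)
        · exact Or.inr (Or.inr (Or.inl h))
        · exact Or.inl h
        · exact Or.inr (Or.inr (Or.inr h))

/-- every finite connected set is covered by a short walk -/
theorem cover (T : Finset (V d)) (hT : Cn5 (T : Set (V d))) {x : V d} (hx : x ∈ T) {n : ℕ}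
    (hn : 2 * T.card ≤ n) :
    ∃ s : Fin n → (Fin d → Fin 11), (Finset.range (n + 1)).image (pos5 x s) = T := by
  classical
  have hTc : 0 < T.card := Finset.card_pos.2 ⟨x, hx⟩
  obtain ⟨F, w, hFT, hFc, hwl, hws⟩ := Cover_walk T hT hx (T.card - 1) (by omega)
  have hFT' : F = T := Finset.eq_of_subset_of_card_le hFT (by omega)
  subst hFT'
  have hln : w.length ≤ n := by omega
  -- the increments
  have hstep : ∀ t : ℕ, ∀ i, |w.getVert (t + 1) i - w.getVert t i| ≤ 5 := by
    intro t i
    by_cases ht : t < w.length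
    · have := (w.adj_getVert_succ ht).2 i
      rw [abs_sub_comm]
      exact this
    · rw [w.getVert_of_length_le (by omega : w.length ≤ t + 1),
        w.getVert_of_length_le (by omega : w.length ≤ t)]
      simp
  set s : Fin n → (Fin d → Fin 11) := fun u i =>
    ⟨(w.getVert ((u : ℕ) + 1) i - w.getVert (u : ℕ) i + 5).toNat, by
      have := abs_le.1 (hstep u i)
      omega⟩ with hs
  have hs' : ∀ u : Fin n, (fun i => ((s u i : ℕ) : ℤ) - 5) =
      w.getVert ((u : ℕ) + 1) - w.getVert (u : ℕ) := by
    intro u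
    funext i
    have := abs_le.1 (hstep u i)
    simp only [hs, Pi.sub_apply]
    rw [Int.toNat_of_nonneg (by omega)]
    ring
  have hpos : ∀ t : ℕ, t ≤ n → pos5 x s t = w.getVert t := by
    intro t
    induction t with
    | zero =>
      intro _
      simp [pos5]
    | succ t ih =>
      intro ht
      have h1 := ih (by omega)
      have h2 : pos5 x s (t + 1) = pos5 x s t +
          (w.getVert (t + 1) - w.getVert t) := by
        unfold pos5
        rw [add_assoc]
        congr 1
        have h3 : ∀ u : Fin n, (if (u : ℕ) < t + 1 then (fun i => ((s u i : ℕ) : ℤ) - 5) else 0 :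
            V d) = (if (u : ℕ) < t then (fun i => ((s u i : ℕ) : ℤ) - 5) else 0) +
            (if u = ⟨t, by omega⟩ then w.getVert (t + 1) - w.getVert t else 0) := by
          intro u
          by_cases hu : u = ⟨t, by omega⟩
          · subst hu
            rw [if_pos (by simp), if_neg (by simp), if_pos rfl, hs', zero_add]
          · have hu' : (u : ℕ) ≠ t := fun h => hu (Fin.ext h)
            rw [if_neg hu, add_zero]
            by_cases h4 : (u : ℕ) < t
            · rw [if_pos h4, if_pos (by omega)]
            · rw [if_neg h4, if_neg (by omega)]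
        rw [Finset.sum_congr rfl (fun u _ => h3 u), Finset.sum_add_distrib]
        congr 1
        simp
      rw [h2, h1]
      abel
  refine ⟨s, ?_⟩
  ext z
  rw [Finset.mem_image, ← hws z, SimpleGraph.Walk.mem_support_iff_exists_getVert]
  constructor
  · rintro ⟨t, ht, rfl⟩
    rw [Finset.mem_range] at ht
    rw [hpos t (by omega)]
    by_cases h : t ≤ w.length
    · exact ⟨t, rfl, h⟩
    · exact ⟨w.length, by rw [w.getVert_of_length_le (by omega : w.length ≤ t),
        w.getVert_length], le_rfl⟩
  · rintro ⟨t, ht, htl⟩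
    exact ⟨t, Finset.mem_range.2 (by omega), by rw [hpos t (by omega), ht]⟩

/-- growing a connected set one vertex at a time -/
theorem grow (T₀ : Finset (V d)) (hT₀ : Cn5 (T₀ : Set (V d))) (hne : T₀.Nonempty) (U : Set (V d))
    (hU : Cn5 ((T₀ : Set (V d)) ∪ U)) (m : ℕ)
    (hm : ∀ F : Finset (V d), (F : Set (V d)) ⊆ U → Disjoint F T₀ → F.card < m →
      ∃ u ∈ U, u ∉ T₀ ∧ u ∉ F) :
    ∃ F : Finset (V d), (F : Set (V d)) ⊆ U ∧ Disjoint F T₀ ∧ F.card = m ∧
      Cn5 ((T₀ : Set (V d)) ∪ F) := by
  classical
  suffices H : ∀ k ≤ m, ∃ F : Finset (V d), (F : Set (V d)) ⊆ U ∧ Disjoint F T₀ ∧ F.card = k ∧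
      Cn5 ((T₀ : Set (V d)) ∪ F) from H m le_rfl
  intro k
  induction k with
  | zero =>
    intro _
    exact ⟨∅, by simp, by simp, by simp, by simpa using hT₀⟩
  | succ k ih =>
    intro hk
    obtain ⟨F, hFU, hFd, hFc, hF⟩ := ih (by omega)
    obtain ⟨u, huU, huT, huF⟩ := hm F hFU hFd (by omega)
    obtain ⟨x, hx⟩ := hne
    obtain ⟨p, q, hp, hq, hqU, hpq⟩ := Cover_exit ((T₀ : Set (V d)) ∪ U) hU
      ((T₀ : Set (V d)) ∪ F) (x := x) (u := u) (Or.inl (by exact_mod_cast hx))
      (Or.inl (by exact_mod_cast hx)) (Or.inr huU) (by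
        rintro (h | h)
        · exact huT (by exact_mod_cast h)
        · exact huF (by exact_mod_cast h))
    have hqT : q ∉ T₀ := fun h => hq (Or.inl (by exact_mod_cast h))
    have hqF : q ∉ F := fun h => hq (Or.inr (by exact_mod_cast h))
    have hqU' : q ∈ U := by
      rcases hqU with h | h
      · exact absurd (by exact_mod_cast h) hqT
      · exact h
    refine ⟨insert q F, ?_, ?_, ?_, ?_⟩
    · intro z hz
      rw [Finset.coe_insert, Set.mem_insert_iff] at hz
      rcases hz with rfl | hz
      · exact hqU'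
      · exact hFU hz
    · rw [Finset.disjoint_insert_left]
      exact ⟨hqT, hFd⟩
    · rw [Finset.card_insert_of_notMem hqF, hFc]
    · have hS : ((T₀ : Set (V d)) ∪ ((insert q F : Finset (V d)) : Set (V d))) =
          insert q ((T₀ : Set (V d)) ∪ F) := by
        rw [Finset.coe_insert, Set.union_insert]
      rw [hS]
      -- connect everything to `p`
      have key : ∀ z ∈ insert q ((T₀ : Set (V d)) ∪ F), ∃ w : (G5 d).Walk p z,
          ∀ y ∈ w.support, y ∈ insert q ((T₀ : Set (V d)) ∪ F) := by
        intro z hz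
        rcases hz with rfl | hz
        · refine ⟨SimpleGraph.Walk.cons hpq SimpleGraph.Walk.nil, ?_⟩
          intro y hy
          rw [SimpleGraph.Walk.support_cons, List.mem_cons, SimpleGraph.Walk.support_nil,
            List.mem_singleton] at hy
          rcases hy with rfl | rfl
          · exact Or.inr hp
          · exact Or.inl rfl
        · obtain ⟨w, hw⟩ := hF p hp z hz
          exact ⟨w, fun y hy => Or.inr (hw y hy)⟩
      intro a ha b hb
      obtain ⟨w1, hw1⟩ := key a ha
      obtain ⟨w2, hw2⟩ := key b hb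
      refine ⟨w1.reverse.append w2, ?_⟩
      intro y hy
      rw [SimpleGraph.Walk.mem_support_append_iff, SimpleGraph.Walk.support_reverse,
        List.mem_reverse] at hy
      rcases hy with hy | hy
      · exact hw1 y hy
      · exact hw2 y hy

end Pool.Agent.H41.QC
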