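import Pool.Agent.H41.QC.Bad
import Pool.Agent.H41.QC.Cover

/-! # QC module ProbBad: probability estimates (paper 11.4) -/

open MeasureTheory
open Pool.Agent.H17.IIC

namespace Pool.Agent.H41.QC

variable {d : ℕ}

lemma ProbBad_closed {ι : Type*} (p : unitInterval) (E : Finset ι) :
    (prodBern ι p).real {ω | ∀ e ∈ E, ω e = false} = (1 - (p : ℝ)) ^ E.card := by
  have h1 : {ω : ι → Bool | ∀ e ∈ E, ω e = false} = Set.pi (E : Set ι) (fun _ => {false}) := by
    ext ω; simp [Set.mem_pi]
  have h2 : bern p {false} = ENNReal.ofReal (1 - (p : ℝ)) := by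
    simp [bern]
  rw [h1, measureReal_def, prodBern, Measure.infinitePi_pi (μ := fun _ : ι => bern p)
    (fun i _ => MeasurableSet.singleton _), Finset.prod_congr rfl (fun i _ => h2),
    Finset.prod_const, ENNReal.toReal_pow, ENNReal.toReal_ofReal (by linarith [p.2.2])]

lemma ProbBad_edges {F : Finset (V d)} (s : F → Step d) :
    F.card ≤ 2 * (Finset.univ.image (fun x : F => s((x : V d), (x : V d) + stepVec (s x)))).card := by
  classical
  have h := Finset.card_le_mul_card_image (f := fun x : F => s((x : V d), (x : V d) + stepVec (s x)))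
    Finset.univ 2 (by
      intro a _
      induction a using Sym2.ind with
      | _ u v =>
        have hsub : (Finset.univ.filter (fun x : F =>
            s((x : V d), (x : V d) + stepVec (s x)) = s(u, v))).image (fun x : F => (x : V d))
            ⊆ {u, v} := by
          intro y hy
          rw [Finset.mem_image] at hy
          obtain ⟨x, hx, rfl⟩ := hy
          rw [Finset.mem_filter] at hx
          have h1 : (x : V d) ∈ s(u, v) := by
            rw [← hx.2]; exact Sym2.mem_mk_left _ _
          rw [Sym2.mem_iff] at h1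
          simpa using h1
        have h2 := Finset.card_le_card hsub
        rw [Finset.card_image_of_injective _ Subtype.val_injective] at h2
        exact h2.trans Finset.card_le_two)
  simpa using h

theorem prob_all_bad (hd : 1 ≤ d) (κ : Kind) (p : unitInterval) (F : Finset (V d)) :
    (prodBern (El d) p).real {ω | ∀ x ∈ F, Bad κ ω x}
      ≤ (2 * d * Real.sqrt (1 - (p : ℝ))) ^ F.card := by
  classical
  have hp0 : 0 ≤ 1 - (p : ℝ) := by linarith [p.2.2]
  have hp1 : 1 - (p : ℝ) ≤ 1 := by linarith [p.2.1]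
  set r := Real.sqrt (1 - (p : ℝ)) with hr
  have hr0 : 0 ≤ r := Real.sqrt_nonneg _
  have hr1 : r ≤ 1 := by rw [hr]; exact Real.sqrt_le_one.2 hp1
  have hrr : 1 - (p : ℝ) = r ^ 2 := by rw [hr, Real.sq_sqrt hp0]
  have hd1 : (1 : ℝ) ≤ d := by exact_mod_cast hd
  cases κ with
  | site =>
    have h1 : {ω : El d → Bool | ∀ x ∈ F, Bad Kind.site ω x}
        = {ω | ∀ e ∈ F.image (fun x => s(x, x)), ω e = false} := by
      ext ω
      simp [Bad]
    rw [h1, ProbBad_closed, Finset.card_image_of_injective]
    · apply pow_le_pow_left₀ hp0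
      rw [hrr]
      nlinarith
    · intro x y h
      simpa using h
  | bond =>
    have hsub : {ω : El d → Bool | ∀ x ∈ F, Bad Kind.bond ω x}
        ⊆ ⋃ s : F → Step d, {ω | ∀ e ∈ Finset.univ.image
            (fun x : F => s((x : V d), (x : V d) + stepVec (s x))), ω e = false} := by
      intro ω hω
      simp only [Set.mem_ofPred_eq, Bad] at hω
      have hne : Nonempty (Step d) := ⟨(⟨0, hd⟩, true)⟩
      choose! s hs using hω
      rw [Set.mem_iUnion]
      refine ⟨fun x => s x, ?_⟩
      intro e he
      rw [Finset.mem_image] at he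
      obtain ⟨x, -, rfl⟩ := he
      exact hs x x.2
    refine (measureReal_mono hsub).trans ((measureReal_iUnion_fintype_le _).trans ?_)
    calc ∑ s : F → Step d, (prodBern (El d) p).real {ω | ∀ e ∈ Finset.univ.image
            (fun x : F => s((x : V d), (x : V d) + stepVec (s x))), ω e = false}
        ≤ ∑ _s : F → Step d, r ^ F.card := by
          apply Finset.sum_le_sum
          intro s _
          rw [ProbBad_closed, hrr, ← pow_mul]
          exact pow_le_pow_of_le_one hr0 hr1 (ProbBad_edges s)
      _ = (2 * d * r) ^ F.card := by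
          rw [Finset.sum_const, Finset.card_univ, Fintype.card_fun]
          simp only [Fintype.card_coe, Fintype.card_prod, Fintype.card_fin, Fintype.card_bool,
            nsmul_eq_mul]
          push_cast
          rw [← mul_pow]
          ring

/-- union bound: some set of `m` bad vertices outside `T₀` is connected to `T₀` -/
theorem prob_grow (hd : 1 ≤ d) (κ : Kind) (p : unitInterval) (T₀ : Finset (V d))
    (hT₀ : T₀.Nonempty) (m : ℕ) :
    (prodBern (El d) p).real {ω | ∃ F : Finset (V d), (∀ x ∈ F, Bad κ ω x) ∧ Disjoint F T₀ ∧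
        F.card = m ∧ Cn5 ((T₀ : Set (V d)) ∪ F)}
      ≤ (11 ^ d : ℝ) ^ (2 * (T₀.card + m)) * (2 * d * Real.sqrt (1 - (p : ℝ))) ^ m := by
  classical
  obtain ⟨x₀, hx₀⟩ := hT₀
  set n := 2 * (T₀.card + m) with hn
  set I : Finset (Fin n → (Fin d → Fin 11)) := Finset.univ.filter
    (fun s => ((Finset.range (n + 1)).image (pos5 x₀ s) \ T₀).card = m) with hI
  have hsub : {ω : El d → Bool | ∃ F : Finset (V d), (∀ x ∈ F, Bad κ ω x) ∧ Disjoint F T₀ ∧
        F.card = m ∧ Cn5 ((T₀ : Set (V d)) ∪ F)}
      ⊆ ⋃ s ∈ I, {ω | ∀ x ∈ (Finset.range (n + 1)).image (pos5 x₀ s) \ T₀, Bad κ ω x} := by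
    rintro ω ⟨F, hbad, hdis, hcard, hcn⟩
    have hT : Cn5 (((T₀ ∪ F : Finset (V d))) : Set (V d)) := by
      rw [Finset.coe_union]; exact hcn
    have hcT : (T₀ ∪ F).card = T₀.card + m := by
      rw [Finset.card_union_of_disjoint hdis.symm, hcard]
    obtain ⟨s, hs⟩ := cover (T₀ ∪ F) hT (Finset.mem_union_left F hx₀) (n := n)
      (by rw [hcT])
    have hF : (Finset.range (n + 1)).image (pos5 x₀ s) \ T₀ = F := by
      rw [hs, Finset.union_sdiff_left]
      exact Finset.sdiff_eq_self_of_disjoint hdis
    rw [Set.mem_iUnion₂]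
    refine ⟨s, ?_, ?_⟩
    · rw [hI, Finset.mem_filter]
      exact ⟨Finset.mem_univ _, by rw [hF, hcard]⟩
    · rw [Set.mem_ofPred_eq, hF]
      exact hbad
  have hnn : 0 ≤ (2 * d * Real.sqrt (1 - (p : ℝ))) ^ m := by positivity
  refine (measureReal_mono hsub (measure_ne_top _ _)).trans
    ((measureReal_biUnion_finset_le _ _).trans ?_)
  calc ∑ s ∈ I, (prodBern (El d) p).real
        {ω | ∀ x ∈ (Finset.range (n + 1)).image (pos5 x₀ s) \ T₀, Bad κ ω x}
      ≤ ∑ _s ∈ I, (2 * d * Real.sqrt (1 - (p : ℝ))) ^ m := by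
        apply Finset.sum_le_sum
        intro s hs
        rw [hI, Finset.mem_filter] at hs
        have h := prob_all_bad hd κ p ((Finset.range (n + 1)).image (pos5 x₀ s) \ T₀)
        rwa [hs.2] at h
    _ = (I.card : ℝ) * (2 * d * Real.sqrt (1 - (p : ℝ))) ^ m := by
        rw [Finset.sum_const, nsmul_eq_mul]
    _ ≤ (11 ^ d : ℝ) ^ n * (2 * d * Real.sqrt (1 - (p : ℝ))) ^ m := by
        apply mul_le_mul_of_nonneg_right _ hnn
        have h1 : I.card ≤ (11 ^ d) ^ n := by
          calc I.card ≤ (Finset.univ : Finset (Fin n → (Fin d → Fin 11))).card :=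
                Finset.card_le_card (Finset.filter_subset _ _)
            _ = (11 ^ d) ^ n := by
                rw [Finset.card_univ, Fintype.card_fun, Fintype.card_fun]
                simp
        exact_mod_cast h1

end Pool.Agent.H41.QC
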