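import Pool.Agent.H41.QC.Exit
import Pool.Agent.H41.QC.Lower
import Pool.Agent.H41.QC.ProbBad

/-! # QC module ConnNear: `Conn` holds for `p` near one (paper 11.6) -/

open MeasureTheory Filter Topology
open Pool.Agent.H17.IIC

namespace Pool.Agent.H41.QC

/-! ### Tools -/

lemma ConnNear_BC {Ω : Type*} [MeasurableSpace Ω] (μ : Measure Ω) [IsProbabilityMeasure μ]
    (E : ℕ → Set Ω) {C r : ℝ} (hC : 0 ≤ C) (hr0 : 0 ≤ r) (hr1 : r < 1)
    (hE : ∀ k, μ.real (E k) ≤ C * r ^ k) : ∀ᵐ ω ∂μ, ∀ᶠ k : ℕ in atTop, ω ∉ E k := by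
  apply ae_eventually_notMem
  have h1 : ∀ k, μ (E k) ≤ ENNReal.ofReal (C * r ^ k) := by
    intro k
    rw [← ENNReal.ofReal_toReal (measure_ne_top μ (E k))]
    exact ENNReal.ofReal_le_ofReal (hE k)
  have h2 : Summable (fun k : ℕ => C * r ^ k) :=
    (summable_geometric_of_lt_one hr0 hr1).mul_left C
  refine ne_top_of_le_ne_top ?_ (ENNReal.tsum_le_tsum h1)
  rw [← ENNReal.ofReal_tsum_of_nonneg (fun k => by positivity) h2]
  exact ENNReal.ofReal_ne_top

lemma ConnNear_poly (C : ℝ) (n : ℕ) {ε : ℝ} (hε : 0 < ε) :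
    ∀ᶠ k : ℕ in atTop, C * ((k : ℝ) + 1) ^ n ≤ ε * 2 ^ k := by
  have h1 := tendsto_pow_const_div_const_pow_of_one_lt n (r := (2 : ℝ)) (by norm_num)
  have h2 : Tendsto (fun k : ℕ => ((k + 1 : ℕ) : ℝ) ^ n / 2 ^ (k + 1)) atTop (𝓝 0) :=
    h1.comp (tendsto_add_atTop_nat 1)
  have h3 : Tendsto (fun k : ℕ => 2 * C * (((k + 1 : ℕ) : ℝ) ^ n / 2 ^ (k + 1))) atTop (𝓝 0) := by
    simpa using h2.const_mul (2 * C)
  filter_upwards [h3.eventually_le_const hε] with k hk
  have h4 : (0 : ℝ) < 2 ^ k := by positivity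
  have h5 : 2 * C * (((k + 1 : ℕ) : ℝ) ^ n / 2 ^ (k + 1)) * 2 ^ k = C * ((k : ℝ) + 1) ^ n := by
    rw [pow_succ]
    push_cast
    field_simp
  rw [← h5]
  exact mul_le_mul_of_nonneg_right hk h4.le

/-- the threshold -/
noncomputable def ConnNear_p0 (d : ℕ) : ℝ := 1 - (1 / (4 * d * ((11 : ℝ) ^ d) ^ 4)) ^ 2

lemma ConnNear_p0_lt (d : ℕ) (hd : 1 ≤ d) : ConnNear_p0 d < 1 := by
  unfold ConnNear_p0
  have hd' : (0 : ℝ) < d := by exact_mod_cast hd
  have : 0 < (1 / (4 * d * ((11 : ℝ) ^ d) ^ 4)) ^ 2 := by positivity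
  linarith

lemma ConnNear_beta (d : ℕ) (hd : 1 ≤ d) {p : unitInterval} (hp : ConnNear_p0 d < (p : ℝ)) :
    2 * d * Real.sqrt (1 - (p : ℝ)) ≤ 1 / (2 * ((11 : ℝ) ^ d) ^ 4) := by
  have hd' : (0 : ℝ) < d := by exact_mod_cast hd
  set δ : ℝ := 1 / (4 * d * ((11 : ℝ) ^ d) ^ 4) with hδ
  have hδ0 : 0 < δ := by positivity
  have h1 : 1 - (p : ℝ) ≤ δ ^ 2 := by
    unfold ConnNear_p0 at hp
    linarith
  have h2 : Real.sqrt (1 - (p : ℝ)) ≤ δ := by
    rw [← Real.sqrt_sq hδ0.le]
    exact Real.sqrt_le_sqrt h1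
  calc 2 * d * Real.sqrt (1 - (p : ℝ)) ≤ 2 * d * δ := by gcongr
    _ = 1 / (2 * ((11 : ℝ) ^ d) ^ 4) := by rw [hδ]; field_simp; norm_num

/-- the numerical bound for `prob_grow` -/
lemma ConnNear_num (d : ℕ) {β : ℝ} (hβ0 : 0 ≤ β) (hβ : β ≤ 1 / (2 * ((11 : ℝ) ^ d) ^ 4)) (c m : ℕ)
    (e : ℕ) (h : 2 * (c + m) ≤ 4 * m + e) :
    ((11 : ℝ) ^ d) ^ (2 * (c + m)) * β ^ m ≤ ((11 : ℝ) ^ d) ^ e * (1 / 2) ^ m := by
  have hK : (1 : ℝ) ≤ (11 : ℝ) ^ d := one_le_pow₀ (by norm_num)
  have hK0 : (0 : ℝ) < (11 : ℝ) ^ d := by positivity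
  calc ((11 : ℝ) ^ d) ^ (2 * (c + m)) * β ^ m
      ≤ ((11 : ℝ) ^ d) ^ (4 * m + e) * (1 / (2 * ((11 : ℝ) ^ d) ^ 4)) ^ m := by
        gcongr

    _ = ((11 : ℝ) ^ d) ^ e * (1 / 2) ^ m := by
        rw [pow_add, pow_mul, one_div, mul_inv, mul_pow, inv_pow (((11 : ℝ) ^ d) ^ 4)]
        have : (((11 : ℝ) ^ d) ^ 4) ^ m ≠ 0 := by positivity
        field_simp

variable {d : ℕ}

lemma ConnNear_clus_walk (κ : Kind) (ω : El d → Bool) {b x y : V d} (hx : x ∈ clus κ ω b)
    (hy : y ∈ clus κ ω b) : ∃ w : (G5 d).Walk x y, ∀ z ∈ w.support, z ∈ clus κ ω b := by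
  have hxy : (BG κ ω).Reachable x y := (SimpleGraph.Reachable.symm hx).trans hy
  obtain ⟨w⟩ := hxy
  have hle : BG κ ω ≤ G5 d := fun a b h => ⟨h.1, h.2.1⟩
  refine ⟨w.mapLe hle, ?_⟩
  intro z hz
  rw [SimpleGraph.Walk.support_mapLe_eq_support] at hz
  classical
  exact SimpleGraph.Reachable.trans hx (w.takeUntil z hz).reachable

lemma ConnNear_lat_le : Lat d ≤ G5 d := by
  rintro a b h
  refine ⟨(Lat d).ne_of_adj h, ?_⟩
  obtain ⟨s, rfl⟩ := h
  intro i
  have h1 := path_abs_stepVec_le s i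
  have h2 : a i - (a + stepVec s) i = - stepVec s i := by
    simp only [Pi.add_apply]; ring
  rw [h2, abs_neg]
  push_cast
  linarith

/-- all bad clusters meeting a large cube are small -/
theorem small_clusters (κ : Kind) (d : ℕ) (hd : 1 ≤ d) :
    ∃ p₀ : ℝ, p₀ < 1 ∧ ∀ p : unitInterval, p₀ < (p : ℝ) → ∃ A : ℕ,
      ∀ᵐ ω ∂(prodBern (El d) p), ∀ᶠ k : ℕ in atTop, ∀ b : V d, Bad κ ω b →
        (∀ i, |b i| ≤ 4 * 2 ^ k) → (clus κ ω b).Finite ∧ (clus κ ω b).ncard < A * (k + 1) := by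
  refine ⟨ConnNear_p0 d, ConnNear_p0_lt d hd, fun p hp => ⟨d + 2, ?_⟩⟩
  classical
  set cube : ℕ → Finset (V d) := fun k =>
    Fintype.piFinset fun _ => Finset.Icc (-(4 * 2 ^ k : ℤ)) (4 * 2 ^ k) with hcube
  have hcubec : ∀ k, ((cube k).card : ℝ) ≤ 9 ^ d * (2 ^ d) ^ k := by
    intro k
    have h1 : (cube k).card ≤ (9 * 2 ^ k) ^ d := by
      rw [hcube]
      simp only
      rw [Fintype.card_piFinset]
      refine le_trans (Finset.prod_le_pow_card _ _ (9 * 2 ^ k) ?_) ?_
      · intro i _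
        rw [Int.card_Icc]
        have : (4 * 2 ^ k : ℤ) + 1 - -(4 * 2 ^ k) ≤ ((9 * 2 ^ k : ℕ) : ℤ) := by
          push_cast
          have : (1 : ℤ) ≤ 2 ^ k := one_le_pow₀ (by norm_num)
          linarith
        exact Int.toNat_le.2 this
      · simp
    have h2 : ((cube k).card : ℝ) ≤ ((9 * 2 ^ k : ℕ) : ℝ) ^ d := by exact_mod_cast h1
    refine h2.trans (le_of_eq ?_)
    push_cast
    rw [mul_pow, ← pow_mul, ← pow_mul, mul_comm k d]
  set m : ℕ → ℕ := fun k => (d + 2) * (k + 1) - 1 with hm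
  set E : ℕ → Set (El d → Bool) := fun k => ⋃ b ∈ cube k,
    {ω | ∃ F : Finset (V d), (∀ x ∈ F, Bad κ ω x) ∧ Disjoint F ({b} : Finset (V d)) ∧
        F.card = m k ∧ Cn5 (((({b} : Finset (V d)) : Set (V d))) ∪ F)} with hE
  have hβ := ConnNear_beta d hd hp
  have hβ0 : 0 ≤ 2 * d * Real.sqrt (1 - (p : ℝ)) := by positivity
  have hEk : ∀ k, (prodBern (El d) p).real (E k) ≤ (9 ^ d * ((11 : ℝ) ^ d) ^ 2) * (1 / 2) ^ k := by
    intro k
    have h1 : (prodBern (El d) p).real (E k) ≤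
        ∑ _b ∈ cube k, ((11 : ℝ) ^ d) ^ 2 * (1 / 2) ^ (m k) := by
      refine (measureReal_biUnion_finset_le _ _).trans (Finset.sum_le_sum fun b _ => ?_)
      refine (prob_grow hd κ p {b} (Finset.singleton_nonempty b) (m k)).trans ?_
      rw [Finset.card_singleton]
      exact ConnNear_num d hβ0 hβ 1 (m k) 2 (by omega)
    rw [Finset.sum_const, nsmul_eq_mul] at h1
    have hmk : (d + 1) * k + k + 0 ≤ m k := by
      simp only [hm]
      have : (d + 2) * (k + 1) = (d + 1) * k + k + (d + 2) := by ring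
      omega
    have h2 : ((1 : ℝ) / 2) ^ (m k) ≤ (1 / 2) ^ ((d + 1) * k) :=
      pow_le_pow_of_le_one (by norm_num) (by norm_num) (by omega)
    calc (prodBern (El d) p).real (E k)
        ≤ ((cube k).card : ℝ) * (((11 : ℝ) ^ d) ^ 2 * (1 / 2) ^ (m k)) := h1
      _ ≤ (9 ^ d * (2 ^ d) ^ k) * (((11 : ℝ) ^ d) ^ 2 * (1 / 2) ^ ((d + 1) * k)) := by
          gcongr
          exact hcubec k
      _ = (9 ^ d * ((11 : ℝ) ^ d) ^ 2) * (((2 : ℝ) ^ d) ^ k * (1 / 2) ^ ((d + 1) * k)) := by ring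
      _ = _ := by
          congr 1
          have e1 : ((1 : ℝ) / 2) ^ ((d + 1) * k) = (1 / 2) ^ (d * k) * (1 / 2) ^ k := by
            rw [← pow_add]; congr 1; ring
          rw [e1, ← pow_mul, ← mul_assoc, ← mul_pow]
          norm_num
  have hBC := ConnNear_BC (prodBern (El d) p) E (by positivity) (by norm_num) (by norm_num) hEk
  filter_upwards [hBC] with ω hω
  filter_upwards [hω] with k hk b hb hbk
  by_contra hcon
  apply hk
  have hbc : b ∈ cube k := by
    rw [hcube]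
    simp only
    rw [Fintype.mem_piFinset]
    intro i
    rw [Finset.mem_Icc]
    exact abs_le.1 (hbk i)
  have hmk : m k + 1 = (d + 2) * (k + 1) := by
    simp only [hm]
    have : 1 ≤ (d + 2) * (k + 1) := Nat.one_le_iff_ne_zero.2 (by positivity)
    omega
  have hself : b ∈ clus κ ω b := Exit_self_mem κ ω b
  have hun : (((({b} : Finset (V d)) : Set (V d))) ∪ clus κ ω b) = clus κ ω b := by
    rw [Finset.coe_singleton, Set.singleton_union, Set.insert_eq_of_mem hself]
  obtain ⟨F, hF1, hF2, hF3, hF4⟩ := grow ({b} : Finset (V d)) (by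
      intro x hx y hy
      rw [Finset.coe_singleton, Set.mem_singleton_iff] at hx hy
      subst hx
      subst hy
      refine ⟨SimpleGraph.Walk.nil, ?_⟩
      intro z hz
      simpa using hz) (Finset.singleton_nonempty b) (clus κ ω b) (by
      rw [hun]
      intro x hx y hy
      exact ConnNear_clus_walk κ ω hx hy) (m k) (by
      intro F hF hdF hcF
      by_contra hno
      push Not at hno
      apply hcon
      have hsub : clus κ ω b ⊆ ((insert b F : Finset (V d)) : Set (V d)) := by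
        intro u hu
        rw [Finset.coe_insert, Set.mem_insert_iff]
        by_cases hub : u = b
        · exact Or.inl hub
        · right
          exact hno u hu (by rw [Finset.mem_singleton]; exact hub)
      have hfin : (clus κ ω b).Finite := (Finset.finite_toSet _).subset hsub
      refine ⟨hfin, ?_⟩
      have h1 := Set.ncard_le_ncard hsub (Finset.finite_toSet _)
      rw [Set.ncard_coe_finset] at h1
      have h2 := Finset.card_insert_le b F
      omega)
  rw [hE]
  simp only [Set.mem_iUnion, Set.mem_setOf_eq]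
  exact ⟨b, hbc, F, fun x hx => Detour_bad_of_clus κ ω hb (hF1 hx), hF2, hF3, hF4⟩

/-- the straight set between `0` and `y`, enlarged by the segment `[0, m e_0]` -/
theorem line_hits (κ : Kind) (d : ℕ) (hd : 1 ≤ d) :
    ∃ p₀ : ℝ, p₀ < 1 ∧ ∀ p : unitInterval, p₀ < (p : ℝ) → ∀ j : ℕ,
      ∀ᵐ ω ∂(prodBern (El d) p), ∀ᶠ k : ℕ in atTop, ∀ y ∈ box (0 : V d) (2 ^ (k - j)),
        ∃ w : (Lat d).Walk 0 y, w.length ≤ 4 * d * 2 ^ (k - j) ∧
          (∀ u ∈ w.support, ∀ i, |u i| ≤ 2 ^ (k - j)) ∧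
          (hitset κ ω {u | u ∈ w.support}).Finite ∧
          (hitset κ ω {u | u ∈ w.support}).ncard ≤ 16 * d * 2 ^ (k - j) := by
  refine ⟨ConnNear_p0 d, ConnNear_p0_lt d hd, fun p hp j => ?_⟩
  classical
  -- straight walks
  choose wk hwk1 hwk2 using fun y : V d => exists_walk (0 : V d) y
  have hmem : ∀ (n : ℕ) (y : V d), y ∈ box (0 : V d) n → ∀ i, 0 ≤ y i ∧ y i < n := by
    intro n y hy i
    rw [box, Fintype.mem_piFinset] at hy
    have := Finset.mem_Ico.1 (hy i)
    simpa using this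
  have hlen : ∀ (n : ℕ) (y : V d), y ∈ box (0 : V d) n → (wk y).length ≤ d * n := by
    intro n y hy
    have h1 := hwk1 y
    have h2 : ∑ i, |y i - (0 : V d) i| ≤ ∑ _i : Fin d, (n : ℤ) := by
      apply Finset.sum_le_sum
      intro i _
      have := hmem n y hy i
      rw [Pi.zero_apply, sub_zero, abs_of_nonneg this.1]
      exact this.2.le
    rw [Finset.sum_const, Finset.card_univ, Fintype.card_fin, nsmul_eq_mul] at h2
    have h3 : ((wk y).length : ℤ) ≤ ((d * n : ℕ) : ℤ) := by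
      rw [h1]; push_cast; exact h2
    exact_mod_cast h3
  set T : V d → Finset (V d) := fun y => (wk y).support.toFinset with hT
  have hTc : ∀ (n : ℕ) (y : V d), y ∈ box (0 : V d) n → (T y).card ≤ d * n + 1 := by
    intro n y hy
    refine (List.toFinset_card_le _).trans ?_
    rw [SimpleGraph.Walk.length_support]
    have := hlen n y hy
    omega
  have hTne : ∀ y, (T y).Nonempty := fun y =>
    ⟨0, List.mem_toFinset.2 (wk y).start_mem_support⟩
  set E : ℕ → Set (El d → Bool) := fun k => ⋃ y ∈ box (0 : V d) (2 ^ (k - j)),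
    {ω | ∃ F : Finset (V d), (∀ x ∈ F, Bad κ ω x) ∧ Disjoint F (T y) ∧
        F.card = 12 * d * 2 ^ (k - j) ∧ Cn5 ((T y : Set (V d)) ∪ F)} with hE
  have hβ := ConnNear_beta d hd hp
  have hβ0 : 0 ≤ 2 * d * Real.sqrt (1 - (p : ℝ)) := by positivity
  have hEk : ∀ k, (prodBern (El d) p).real (E k) ≤ 2 ^ j * (1 / 2) ^ k := by
    intro k
    set n := 2 ^ (k - j) with hn
    have hn1 : 1 ≤ n := Nat.one_le_two_pow
    have hdn : 1 ≤ d * n := Nat.one_le_iff_ne_zero.2 (by positivity)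
    have h1 : (prodBern (El d) p).real (E k) ≤
        ∑ _y ∈ box (0 : V d) n, ((11 : ℝ) ^ d) ^ 0 * (1 / 2) ^ (12 * d * n) := by
      refine (measureReal_biUnion_finset_le _ _).trans (Finset.sum_le_sum fun y hy => ?_)
      refine (prob_grow hd κ p (T y) (hTne y) (12 * d * n)).trans ?_
      have hc := hTc n y hy
      refine ConnNear_num d hβ0 hβ (T y).card (12 * d * n) 0 ?_
      have e1 : 12 * d * n = 12 * (d * n) := by ring
      omega
    have hbc : (box (0 : V d) n).card = n ^ d := by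
      rw [box, Fintype.card_piFinset]
      simp
    rw [Finset.sum_const, nsmul_eq_mul, hbc, pow_zero, one_mul] at h1
    have h2 : ((n ^ d : ℕ) : ℝ) ≤ 2 ^ (d * n) := by
      have : n ^ d ≤ 2 ^ (d * n) := by
        rw [mul_comm d n, pow_mul]
        exact Nat.pow_le_pow_left (Nat.lt_two_pow_self).le d
      exact_mod_cast this
    have hkn : k ≤ n + j := by
      have h3 : k - j < n := Nat.lt_two_pow_self
      omega
    calc (prodBern (El d) p).real (E k) ≤ ((n ^ d : ℕ) : ℝ) * (1 / 2) ^ (12 * d * n) := h1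
      _ ≤ 2 ^ (d * n) * (1 / 2) ^ (12 * d * n) := by gcongr
      _ = (1 / 2) ^ (11 * (d * n)) := by
          have e1 : 12 * d * n = d * n + 11 * (d * n) := by ring
          rw [e1, pow_add, ← mul_assoc, ← mul_pow]
          norm_num
      _ ≤ (1 / 2) ^ n := by
          apply pow_le_pow_of_le_one (by norm_num) (by norm_num)
          have : n ≤ d * n := Nat.le_mul_of_pos_left n (by omega)
          omega
      _ ≤ 2 ^ j * (1 / 2) ^ k := by
          have h4 : ((1 : ℝ) / 2) ^ (n + j) ≤ (1 / 2) ^ k :=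
            pow_le_pow_of_le_one (by norm_num) (by norm_num) hkn
          calc ((1 : ℝ) / 2) ^ n = 2 ^ j * (1 / 2) ^ (n + j) := by
                rw [pow_add, mul_comm (((1 : ℝ) / 2) ^ n), ← mul_assoc, ← mul_pow]
                norm_num
            _ ≤ 2 ^ j * (1 / 2) ^ k := by gcongr
  have hBC := ConnNear_BC (prodBern (El d) p) E (by positivity) (by norm_num) (by norm_num) hEk
  filter_upwards [hBC] with ω hω
  filter_upwards [hω] with k hk y hy
  set n := 2 ^ (k - j) with hn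
  have hn1 : 1 ≤ n := Nat.one_le_two_pow
  have hdn : 1 ≤ d * n := Nat.one_le_iff_ne_zero.2 (by positivity)
  refine ⟨wk y, ?_, ?_, ?_⟩
  · have := hlen n y hy
    have e1 : 4 * d * n = 4 * (d * n) := by ring
    omega
  · intro u hu i
    have h1 := hwk2 y u hu i
    have h2 := hmem n y hy i
    rw [Pi.zero_apply, min_eq_left h2.1, max_eq_right h2.1] at h1
    rw [abs_of_nonneg h1.1]
    have h3 : (n : ℤ) = 2 ^ (k - j) := by rw [hn]; push_cast; rfl
    rw [← h3]
    exact h1.2.trans h2.2.le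
  · by_contra hcon
    apply hk
    set H := hitset κ ω {u | u ∈ (wk y).support} with hH
    have hTmem : ∀ u, u ∈ T y ↔ u ∈ (wk y).support := fun u => List.mem_toFinset
    have hTcn : Cn5 ((T y : Set (V d))) := by
      intro a ha b hb
      have ha' := (hTmem a).1 ha
      have hb' := (hTmem b).1 hb
      refine ⟨(((wk y).takeUntil a ha').reverse.append ((wk y).takeUntil b hb')).mapLe
        ConnNear_lat_le, ?_⟩
      intro z hz
      rw [SimpleGraph.Walk.support_mapLe_eq_support, SimpleGraph.Walk.mem_support_append_iff,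
        SimpleGraph.Walk.support_reverse, List.mem_reverse] at hz
      apply (hTmem z).2
      rcases hz with hz | hz
      · exact SimpleGraph.Walk.support_takeUntil_subset _ ha' hz
      · exact SimpleGraph.Walk.support_takeUntil_subset _ hb' hz
    -- every point is joined to `T y`
    have htoT : ∀ a ∈ (T y : Set (V d)) ∪ H, ∃ u ∈ (T y : Set (V d)), ∃ w : (G5 d).Walk a u,
        ∀ z ∈ w.support, z ∈ (T y : Set (V d)) ∪ H := by
      rintro a (ha | ha)
      · refine ⟨a, ha, SimpleGraph.Walk.nil, ?_⟩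
        intro z hz
        rw [SimpleGraph.Walk.support_nil, List.mem_singleton] at hz
        rw [hz]; exact Or.inl ha
      · obtain ⟨hbad, u, hu, c, hc, hcl⟩ := ha
        have hCH : clus κ ω a ⊆ H := Detour_clus_subset κ ω hbad hu ⟨c, hc, hcl⟩
        obtain ⟨w, hw⟩ := ConnNear_clus_walk κ ω (Exit_self_mem κ ω a) hc
        have huT : u ∈ (T y : Set (V d)) := (hTmem u).2 hu
        refine ⟨u, huT, ?_⟩
        by_cases hcu : c = u
        · subst hcu
          exact ⟨w, fun z hz => Or.inr (hCH (hw z hz))⟩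
        · have hadj : (G5 d).Adj c u := by
            refine ⟨hcu, fun i => ?_⟩
            have h1 := hcl i
            rw [abs_sub_comm] at h1
            refine h1.trans ?_
            norm_num
          refine ⟨w.concat hadj, ?_⟩
          intro z hz
          rw [SimpleGraph.Walk.support_concat, List.mem_append, List.mem_singleton] at hz
          rcases hz with hz | hz
          · exact Or.inr (hCH (hw z hz))
          · rw [hz]; exact Or.inl huT
    have hUcn : Cn5 ((T y : Set (V d)) ∪ H) := by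
      intro a ha b hb
      obtain ⟨u, hu, w1, hw1⟩ := htoT a ha
      obtain ⟨v, hv, w2, hw2⟩ := htoT b hb
      obtain ⟨w3, hw3⟩ := hTcn u hu v hv
      refine ⟨w1.append (w3.append w2.reverse), ?_⟩
      intro z hz
      rw [SimpleGraph.Walk.mem_support_append_iff, SimpleGraph.Walk.mem_support_append_iff,
        SimpleGraph.Walk.support_reverse, List.mem_reverse] at hz
      rcases hz with hz | hz | hz
      · exact hw1 z hz
      · exact Or.inl (hw3 z hz)
      · exact hw2 z hz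
    obtain ⟨F, hF1, hF2, hF3, hF4⟩ := grow (T y) hTcn (hTne y) H hUcn (12 * d * n) (by
      intro F hF hdF hcF
      by_contra hno
      push Not at hno
      apply hcon
      have hsub : H ⊆ ((T y ∪ F : Finset (V d)) : Set (V d)) := by
        intro u hu
        rw [Finset.coe_union]
        by_cases hub : u ∈ T y
        · exact Or.inl hub
        · exact Or.inr (hno u hu hub)
      have hfin : H.Finite := (Finset.finite_toSet _).subset hsub
      refine ⟨hfin, ?_⟩
      have h1 := Set.ncard_le_ncard hsub (Finset.finite_toSet _)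
      rw [Set.ncard_coe_finset] at h1
      have h2 := Finset.card_union_le (T y) F
      have h3 := hTc n y hy
      have e1 : 12 * d * n = 12 * (d * n) := by ring
      have e2 : 16 * d * n = 16 * (d * n) := by ring
      omega)
    rw [hE]
    simp only [Set.mem_iUnion, Set.mem_setOf_eq]
    exact ⟨y, hy, F, fun x hx => (hF1 hx).1, hF2, hF3, hF4⟩

/-- open walks stay close to their start -/
lemma ConnNear_walk_near (κ : Kind) (ω : El d → Bool) {x y : V d} (w : (Gr κ ω).Walk x y) :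
    ∀ u ∈ w.support, ∀ i, |u i - x i| ≤ w.length := by
  induction w with
  | nil =>
    intro u hu i
    rw [SimpleGraph.Walk.support_nil, List.mem_singleton] at hu
    rw [hu]; simp
  | @cons a b c h p ih =>
    intro u hu i
    rw [SimpleGraph.Walk.support_cons, List.mem_cons] at hu
    rw [SimpleGraph.Walk.length_cons]
    push_cast
    rcases hu with hu | hu
    · rw [hu, sub_self, abs_zero]; positivity
    · have h1 := ih u hu i
      obtain ⟨⟨s, hs⟩, -⟩ := h
      have h2 := path_abs_stepVec_le s i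
      have h3 : b i - a i = stepVec s i := by rw [hs]; simp
      have h4 : |u i - a i| ≤ |u i - b i| + |b i - a i| := abs_sub_le _ _ _
      rw [h3] at h4
      linarith

lemma ConnNear_gr_le (κ : Kind) (ω : El d → Bool) : Gr κ ω ≤ Lat d := fun _ _ h => h.1

/-- deterministic part -/
lemma ConnNear_det (hd : 2 ≤ d) (κ : Kind) (ω : El d → Bool) {N r m : ℕ}
    (hr : (5 * r + 10) ^ d < N) (hm : m ≤ N)
    (hsm : ∀ b, Bad κ ω b → (∀ i, |b i| ≤ 4 * N) →
      (clus κ ω b).Finite ∧ (clus κ ω b).ncard < r) {y : V d} (hy : ∀ i, |y i| ≤ m)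
    (w : (Lat d).Walk 0 y) (hw1 : w.length ≤ 4 * d * m) (hw2 : ∀ u ∈ w.support, ∀ i, |u i| ≤ m)
    (hw3 : (hitset κ ω {u | u ∈ w.support}).Finite)
    (hw4 : (hitset κ ω {u | u ∈ w.support}).ncard ≤ 16 * d * m)
    (hP0 : 0 < Pn κ ω N (0 : V d)) (hPy : 0 < Pn κ ω N y) :
    Joined κ ω 0 y (4 * (5 * r + 10 : ℝ) ^ d + 4 * d * m +
      (7 ^ d + 2) * (16 * d * m + 2 * ((5 * r + 10 : ℝ) ^ d + 1) * r)) := by
  classical
  set L : ℕ := (5 * r + 10) ^ d with hL
  have hLr : ((5 * r + 10 : ℝ) ^ d) = (L : ℝ) := by rw [hL]; push_cast; rfl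
  have hmZ : (m : ℤ) ≤ N := by exact_mod_cast hm
  have hLN : (L : ℤ) < N := by exact_mod_cast hr
  obtain ⟨x', hJ0, hx'⟩ := exit hd κ ω hr hsm (x := 0) (by intro i; simp) hP0
  obtain ⟨y', hJy, hy'⟩ := exit hd κ ω hr hsm (x := y) (fun i => (hy i).trans hmZ) hPy
  rw [hLr] at hJ0 hJy ⊢
  obtain ⟨w0, hw0⟩ := hJ0
  obtain ⟨wy, hwy⟩ := hJy
  have hw0' : w0.length ≤ L := by exact_mod_cast hw0
  have hwy' : wy.length ≤ L := by exact_mod_cast hwy
  -- the lattice walk
  set ℓ : (Lat d).Walk x' y' := (w0.mapLe (ConnNear_gr_le κ ω)).reverse.append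
    (w.append (wy.mapLe (ConnNear_gr_le κ ω))) with hℓ
  have hℓsup : ∀ u, u ∈ ℓ.support ↔ u ∈ w0.support ∨ u ∈ w.support ∨ u ∈ wy.support := by
    intro u
    rw [hℓ, SimpleGraph.Walk.mem_support_append_iff, SimpleGraph.Walk.mem_support_append_iff,
      SimpleGraph.Walk.support_reverse, List.mem_reverse,
      SimpleGraph.Walk.support_mapLe_eq_support, SimpleGraph.Walk.support_mapLe_eq_support]
  have hℓlen : ℓ.length ≤ 2 * L + 4 * d * m := by
    rw [hℓ, SimpleGraph.Walk.length_append, SimpleGraph.Walk.length_append,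
      SimpleGraph.Walk.length_reverse, SimpleGraph.Walk.length_map, SimpleGraph.Walk.length_map]
    omega
  have hnear : ∀ u ∈ ℓ.support, ∀ i, |u i| ≤ 2 * (N : ℤ) := by
    intro u hu i
    rcases (hℓsup u).1 hu with h | h | h
    · have h1 := ConnNear_walk_near κ ω w0 u h i
      rw [Pi.zero_apply, sub_zero] at h1
      have h2 : (w0.length : ℤ) ≤ L := by exact_mod_cast hw0'
      have h3 : (0 : ℤ) ≤ N := by positivity
      linarith
    · have h1 := hw2 u h i
      have h3 : (0 : ℤ) ≤ N := by positivity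
      linarith
    · have h1 := ConnNear_walk_near κ ω wy u h i
      have h2 : (wy.length : ℤ) ≤ L := by exact_mod_cast hwy'
      have h3 : |u i| ≤ |u i - y i| + |y i| := by
        have := abs_add_le (u i - y i) (y i)
        rwa [sub_add_cancel] at this
      have h4 := hy i
      linarith
  have h2N : (2 : ℤ) ≤ N := by
    have h1 : 10 ^ 1 ≤ L := by
      rw [hL]
      calc 10 ^ 1 ≤ 10 ^ d := Nat.pow_le_pow_right (by norm_num) (by omega)
        _ ≤ (5 * r + 10) ^ d := Nat.pow_le_pow_left (by omega) d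
    have h2 : (10 : ℤ) ≤ L := by exact_mod_cast h1
    linarith
  -- clusters hit by the walk have a representative in the cube
  have hrep : ∀ b, Bad κ ω b → ∀ u ∈ ℓ.support, u ∈ fat (clus κ ω b) → ∃ c, Bad κ ω c ∧
      (∀ i, |c i| ≤ 4 * (N : ℤ)) ∧ clus κ ω c = clus κ ω b := by
    intro b hb u hu hf
    obtain ⟨c, hc, hcl⟩ := hf
    refine ⟨c, Detour_bad_of_clus κ ω hb hc, ?_, Detour_clus_eq κ ω hc⟩
    intro i
    have h1 := hnear u hu i
    have h2 : |u i - c i| ≤ 2 := by exact_mod_cast hcl i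
    have h3 : |c i| ≤ |u i - c i| + |u i| := by
      have := abs_add_le (c i - u i) (u i)
      rw [sub_add_cancel, abs_sub_comm (c i)] at this
      exact this
    linarith
  have hone : ∀ u ∈ ℓ.support, (hitset κ ω {u}).Finite ∧ (hitset κ ω {u}).ncard ≤ r := by
    intro u hu
    rcases Set.eq_empty_or_nonempty (hitset κ ω {u}) with h | ⟨b, hb⟩
    · rw [h]; simp
    · obtain ⟨hbad, u', hu', hf⟩ := hb
      rw [Set.mem_singleton_iff] at hu'
      subst hu'
      obtain ⟨c, hc, hcN, hcc⟩ := hrep b hbad u' hu hf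
      obtain ⟨h1, h2⟩ := hsm c hc hcN
      rw [hcc] at h1 h2
      have hsub : hitset κ ω {u'} ⊆ clus κ ω b := by
        rintro t ⟨htb, u'', hu'', htf⟩
        rw [Set.mem_singleton_iff] at hu''
        subst hu''
        by_contra hnot
        have hne : clus κ ω t ≠ clus κ ω b := by
          intro heq
          apply hnot
          rw [← heq]
          exact Exit_self_mem κ ω t
        exact clus_far κ ω htb hbad hne htf hf (Detour_cl_refl 1 _)
      exact ⟨h1.subset hsub, (Set.ncard_le_ncard hsub h1).trans h2.le⟩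
  -- the total hit set
  set P : Finset (V d) := w0.support.toFinset ∪ wy.support.toFinset with hPdef
  have hPsup : ∀ u ∈ P, u ∈ ℓ.support := by
    intro u hu
    rw [hPdef, Finset.mem_union, List.mem_toFinset, List.mem_toFinset] at hu
    exact (hℓsup u).2 (hu.elim (fun h => Or.inl h) (fun h => Or.inr (Or.inr h)))
  have hPc : P.card ≤ 2 * (L + 1) := by
    refine (Finset.card_union_le _ _).trans ?_
    have h1 := List.toFinset_card_le w0.support
    have h2 := List.toFinset_card_le wy.support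
    rw [SimpleGraph.Walk.length_support] at h1 h2
    omega
  have hsubH : hitset κ ω {u | u ∈ ℓ.support} ⊆
      hitset κ ω {u | u ∈ w.support} ∪ ⋃ u ∈ P, hitset κ ω {u} := by
    rintro b ⟨hb, u, hu, hf⟩
    rcases (hℓsup u).1 hu with h | h | h
    · right
      rw [Set.mem_iUnion₂]
      exact ⟨u, by rw [hPdef, Finset.mem_union, List.mem_toFinset]; exact Or.inl h,
        hb, u, rfl, hf⟩
    · left
      exact ⟨hb, u, h, hf⟩
    · right
      rw [Set.mem_iUnion₂]
      exact ⟨u, by rw [hPdef, Finset.mem_union, List.mem_toFinset, List.mem_toFinset]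
                   exact Or.inr h, hb, u, rfl, hf⟩
  have hUfin : (⋃ u ∈ P, hitset κ ω {u}).Finite :=
    Set.Finite.biUnion (Finset.finite_toSet P) (fun u hu => (hone u (hPsup u hu)).1)
  have hUcard : (⋃ u ∈ P, hitset κ ω {u}).ncard ≤ P.card * r := by
    clear_value P
    have hall : ∀ Q : Finset (V d), Q ⊆ P → (⋃ u ∈ Q, hitset κ ω {u}).ncard ≤ Q.card * r := by
      intro Q
      induction Q using Finset.induction_on with
      | empty => intro _; simp
      | @insert a Q ha ih =>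
        intro hQ
        have hQ' : Q ⊆ P := (Finset.subset_insert a Q).trans hQ
        rw [Finset.set_biUnion_insert, Finset.card_insert_of_notMem ha]
        refine (Set.ncard_union_le _ _).trans ?_
        have h1 := (hone a (hPsup a (hQ (Finset.mem_insert_self a Q)))).2
        have h2 := ih hQ'
        calc _ ≤ r + Q.card * r := add_le_add h1 h2
          _ = (Q.card + 1) * r := by ring
    exact hall P (Finset.Subset.refl P)
  have hfinH : (hitset κ ω {u | u ∈ ℓ.support}).Finite := (hw3.union hUfin).subset hsubH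
  have hcardH : (hitset κ ω {u | u ∈ ℓ.support}).ncard ≤ 16 * d * m + 2 * (L + 1) * r := by
    refine (Set.ncard_le_ncard hsubH (hw3.union hUfin)).trans ?_
    refine (Set.ncard_union_le _ _).trans ?_
    refine add_le_add hw4 (hUcard.trans ?_)
    exact Nat.mul_le_mul_right r hPc
  have hdet := detour κ ω (farPt d N) ℓ hfinH (by
    rintro b ⟨hb, u, hu, hf⟩
    obtain ⟨c, hc, hcN, hcc⟩ := hrep b hb u hu hf
    rw [← hcc]
    exact hx' c hc hcN) (by
    rintro b ⟨hb, u, hu, hf⟩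
    obtain ⟨c, hc, hcN, hcc⟩ := hrep b hb u hu hf
    rw [← hcc]
    exact hy' c hc hcN)
  have hJ1 : Joined κ ω 0 x' (L : ℝ) := ⟨w0, hw0⟩
  have hJ2 : Joined κ ω y' y (L : ℝ) := Detour_joined_symm ⟨wy, hwy⟩
  refine Detour_joined_mono (Detour_joined_trans (Detour_joined_trans hJ1 hdet) hJ2) ?_
  have hcR : ((hitset κ ω {u | u ∈ ℓ.support}).ncard : ℝ) ≤
      16 * d * m + 2 * ((L : ℝ) + 1) * r := by exact_mod_cast hcardH
  have hlR : (ℓ.length : ℝ) ≤ 2 * L + 4 * d * m := by exact_mod_cast hℓlen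
  have h7 : (0 : ℝ) ≤ 7 ^ d + 2 := by positivity
  have h8 := mul_le_mul_of_nonneg_left hcR h7
  have e : (L : ℝ) + ((ℓ.length : ℝ) + 7 ^ d * ((hitset κ ω {u | u ∈ ℓ.support}).ncard : ℝ)
      + 2 * ((hitset κ ω {u | u ∈ ℓ.support}).ncard : ℝ)) + L =
      2 * L + ℓ.length + (7 ^ d + 2) * ((hitset κ ω {u | u ∈ ℓ.support}).ncard : ℝ) := by ring
  rw [e]
  linarith

theorem conn_near (κ : Kind) (d : ℕ) (hd : 2 ≤ d) :
    ∃ p₀ : ℝ, p₀ < 1 ∧ ∀ p : unitInterval, p₀ < (p : ℝ) → (p : ℝ) < 1 → Conn κ d p := by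
  obtain ⟨p1, hp1, h1⟩ := small_clusters κ d (by omega)
  obtain ⟨p2, hp2, h2⟩ := line_hits κ d (by omega)
  refine ⟨max p1 p2, max_lt hp1 hp2, fun p hp _ => ?_⟩
  obtain ⟨A, hA⟩ := h1 p ((le_max_left _ _).trans_lt hp)
  have hB := h2 p ((le_max_right _ _).trans_lt hp)
  intro ε hε
  -- choice of `j`
  set Cm : ℝ := 4 * d + (7 ^ d + 2) * (16 * d) with hCm
  obtain ⟨j0, hj0⟩ := pow_unbounded_of_one_lt (2 * Cm / ε) (one_lt_two (α := ℝ))
  refine ⟨j0 + 1, by omega, ?_⟩
  filter_upwards [hA, hB (j0 + 1)] with ω hωA hωB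
  -- polynomial bounds
  set K : ℝ := 5 * A + 10 with hK
  have hpoly1 := ConnNear_poly (K ^ d) d (ε := 1 / 2) (by norm_num)
  have hpoly2 := ConnNear_poly (4 * K ^ d + (7 ^ d + 2) * (2 * (K ^ d + 1) * A)) (d + 1)
    (ε := ε / 2) (by positivity)
  filter_upwards [hωA, hωB, hpoly1, hpoly2, eventually_ge_atTop (j0 + 1)] with k hkA hkB hk1 hk2 hkj
    hP0 y hy hPy
  obtain ⟨w, hw1, hw2, hw3, hw4⟩ := hkB y hy
  set r := A * (k + 1) with hr
  set m := 2 ^ (k - (j0 + 1)) with hm
  have hk0 : (0 : ℝ) ≤ k := by positivity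
  have hA0 : (0 : ℝ) ≤ A := by positivity
  have hK0 : (0 : ℝ) ≤ K := by rw [hK]; positivity
  have hrK : (5 * (r : ℝ) + 10) ≤ K * (k + 1) := by
    rw [hr, hK]; push_cast
    linarith only [hk0]
  have hLK : (5 * (r : ℝ) + 10) ^ d ≤ K ^ d * ((k : ℝ) + 1) ^ d := by
    rw [← mul_pow]
    exact pow_le_pow_left₀ (by positivity) hrK d
  have hrN : (5 * r + 10) ^ d < 2 ^ k := by
    have h3 : ((5 * (r : ℝ) + 10) ^ d) < 2 ^ k := by
      have h4 : (0 : ℝ) < 2 ^ k := by positivity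
      linarith
    exact_mod_cast h3
  have hmN : m ≤ 2 ^ k := Nat.pow_le_pow_right (by norm_num) (by omega)
  have hym : ∀ i, |y i| ≤ (m : ℤ) := by
    intro i
    rw [box, Fintype.mem_piFinset] at hy
    have := Finset.mem_Ico.1 (hy i)
    rw [Pi.zero_apply, zero_add] at this
    rw [abs_of_nonneg this.1]
    have h3 := this.2.le
    rw [hm]
    exact h3
  have hdet := ConnNear_det hd κ ω (N := 2 ^ k) (r := r) (m := m) hrN hmN
    (by
      intro b hb hbN
      exact hkA b hb (by intro i; have := hbN i; push_cast at this; exact this))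
    hym w hw1 (by
      intro u hu i
      have := hw2 u hu i
      rw [hm]; push_cast; exact this) hw3 hw4 hP0 hPy
  refine Detour_joined_mono hdet ?_
  -- numerical estimate
  have hmR : ((m : ℕ) : ℝ) * 2 ^ (j0 + 1) = 2 ^ k := by
    rw [hm]; push_cast
    rw [← pow_add]
    congr 1
    omega
  have hCm0 : 0 ≤ Cm := by rw [hCm]; positivity
  have hpart1 : Cm * (m : ℝ) ≤ ε / 2 * 2 ^ k := by
    have h5 : 2 * Cm ≤ ε * 2 ^ j0 := by
      rw [div_lt_iff₀ hε] at hj0
      linarith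
    have hm0 : (0 : ℝ) ≤ (m : ℝ) := by positivity
    rw [← hmR, pow_succ]
    have h6 : (0 : ℝ) ≤ m * ε * 2 ^ j0 := by positivity
    linarith only [mul_le_mul_of_nonneg_left h5 hm0, h6]
  have hk1' : (1 : ℝ) ≤ (k : ℝ) + 1 := by linarith
  have hX : (0 : ℝ) ≤ ((k : ℝ) + 1) ^ d := by positivity
  have hX1 : (1 : ℝ) ≤ ((k : ℝ) + 1) ^ d := one_le_pow₀ hk1'
  have hpart2 : 4 * (5 * (r : ℝ) + 10) ^ d + (7 ^ d + 2) * (2 * ((5 * (r : ℝ) + 10) ^ d + 1) * r)
      ≤ ε / 2 * 2 ^ k := by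
    refine le_trans ?_ hk2
    have h6 : (5 * (r : ℝ) + 10) ^ d ≤ K ^ d * ((k : ℝ) + 1) ^ (d + 1) := by
      refine hLK.trans ?_
      have : ((k : ℝ) + 1) ^ d ≤ ((k : ℝ) + 1) ^ (d + 1) := pow_le_pow_right₀ hk1' (by omega)
      gcongr
    have h7 : 2 * ((5 * (r : ℝ) + 10) ^ d + 1) * r ≤
        2 * (K ^ d + 1) * A * ((k : ℝ) + 1) ^ (d + 1) := by
      have h8 : (5 * (r : ℝ) + 10) ^ d + 1 ≤ (K ^ d + 1) * ((k : ℝ) + 1) ^ d := by
        rw [add_mul, one_mul]
        exact add_le_add hLK hX1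
      have h9 : (r : ℝ) = A * ((k : ℝ) + 1) := by rw [hr]; push_cast; ring
      have h10 : (0 : ℝ) ≤ r := by positivity
      calc 2 * ((5 * (r : ℝ) + 10) ^ d + 1) * r
          ≤ 2 * ((K ^ d + 1) * ((k : ℝ) + 1) ^ d) * r := by gcongr
        _ = 2 * (K ^ d + 1) * A * ((k : ℝ) + 1) ^ (d + 1) := by rw [h9, pow_succ]; ring
    have h11 : (0 : ℝ) ≤ 7 ^ d + 2 := by positivity
    have h12 := mul_le_mul_of_nonneg_left h7 h11
    have h13 : (4 * K ^ d + (7 ^ d + 2) * (2 * (K ^ d + 1) * A)) * ((k : ℝ) + 1) ^ (d + 1) =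
        4 * (K ^ d * ((k : ℝ) + 1) ^ (d + 1)) +
          (7 ^ d + 2) * (2 * (K ^ d + 1) * A * ((k : ℝ) + 1) ^ (d + 1)) := by ring
    rw [h13]
    exact add_le_add (mul_le_mul_of_nonneg_left h6 (by norm_num)) h12
  have e : 4 * (5 * (r : ℝ) + 10) ^ d + 4 * d * m +
      (7 ^ d + 2) * (16 * d * m + 2 * ((5 * (r : ℝ) + 10) ^ d + 1) * r) =
      Cm * m + (4 * (5 * (r : ℝ) + 10) ^ d +
        (7 ^ d + 2) * (2 * ((5 * (r : ℝ) + 10) ^ d + 1) * r)) := by
    rw [hCm]; ring
  rw [e]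
  linarith

end Pool.Agent.H41.QC
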