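import Pool.Agent.H17.IIC.Resample

/-! # QC module Coupling: increasing coupling of Bernoulli measures (paper 5) -/

open MeasureTheory
open Pool.Agent.H17.IIC
open scoped ENNReal

namespace Pool.Agent.H41.QC

variable {ι : Type*}

/-- increasing event -/
def Incr (A : Set (ι → Bool)) : Prop :=
  ∀ ω ω' : ι → Bool, (∀ e, ω e = true → ω' e = true) → ω ∈ A → ω' ∈ A

open Classical in
lemma coupling_bern_apply (p : unitInterval) (t : Set Bool) :
    bern p t = ENNReal.ofReal (p : ℝ) * (if true ∈ t then 1 else 0)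
      + ENNReal.ofReal (1 - (p : ℝ)) * (if false ∈ t then 1 else 0) := by
  unfold bern
  simp only [Measure.coe_add, Measure.coe_smul, Pi.add_apply, Pi.smul_apply, smul_eq_mul,
    Measure.dirac_apply, Set.indicator_apply, Pi.one_apply]

lemma coupling_measurable_or :
    Measurable (fun (x : (ι → Bool) × (ι → Bool)) (e : ι) => x.1 e || x.2 e) := by
  rw [measurable_pi_iff]
  intro i
  have h1 : Measurable (fun b : Bool × Bool => b.1 || b.2) := Measurable.of_discrete
  have h2 : Measurable (fun x : (ι → Bool) × (ι → Bool) => (x.1 i, x.2 i)) := by fun_prop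
  exact h1.comp h2

/-- sprinkling -/
theorem map_or (p₁ q p₂ : unitInterval) (h : (1 - p₂ : ℝ) = (1 - p₁) * (1 - q)) :
    ((prodBern ι p₁).prod (prodBern ι q)).map (fun x e => x.1 e || x.2 e) = prodBern ι p₂ := by
  conv_rhs => rw [prodBern]
  apply Measure.eq_infinitePi
  intro s t ht
  have hpi : MeasurableSet (Set.pi (s : Set ι) t) :=
    MeasurableSet.pi s.countable_toSet (fun i _ => ht i)
  rw [Measure.map_apply coupling_measurable_or hpi,
    Measure.prod_apply (coupling_measurable_or hpi)]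
  have hsec : ∀ ω : ι → Bool, (prodBern ι q) (Prod.mk ω ⁻¹'
      ((fun (x : (ι → Bool) × (ι → Bool)) (e : ι) => x.1 e || x.2 e) ⁻¹' (Set.pi (s : Set ι) t)))
      = ∏ i ∈ s, bern q {b | (ω i || b) ∈ t i} := by
    intro ω
    have : (Prod.mk ω ⁻¹'
      ((fun (x : (ι → Bool) × (ι → Bool)) (e : ι) => x.1 e || x.2 e) ⁻¹' (Set.pi (s : Set ι) t)))
      = Set.pi (s : Set ι) (fun i => {b | (ω i || b) ∈ t i}) := by
      ext σ
      simp
    rw [this, prodBern, Measure.infinitePi_pi (μ := fun _ : ι => bern q)]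
    intro i _
    exact MeasurableSet.of_discrete
  rw [lintegral_congr hsec]
  have hX : ProbabilityTheory.iIndepFun
      (fun i (ω : ι → Bool) => bern q {b | (ω i || b) ∈ t i}) (prodBern ι p₁) := by
    unfold prodBern
    exact ProbabilityTheory.iIndepFun_infinitePi
      (X := fun i (a : Bool) => bern q {b | (a || b) ∈ t i}) (fun i => measurable_from_top)
  rw [ProbabilityTheory.lintegral_prod_eq_prod_lintegral_of_indepFun s
    (fun i (ω : ι → Bool) => bern q {b | (ω i || b) ∈ t i}) hX ?_]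
  swap
  · intro i
    have h1 : Measurable (fun a : Bool => bern q {b | (a || b) ∈ t i}) := measurable_from_top
    exact h1.comp (measurable_pi_apply i)
  apply Finset.prod_congr rfl
  intro i _
  have h2 : ∫⁻ ω, bern q {b | (ω i || b) ∈ t i} ∂(prodBern ι p₁)
      = ∫⁻ a, bern q {b | (a || b) ∈ t i} ∂(bern p₁) := by
    unfold prodBern
    exact (measurePreserving_eval_infinitePi (fun _ : ι => bern p₁) i).lintegral_comp
      (f := fun a : Bool => bern q {b | (a || b) ∈ t i}) measurable_from_top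
  rw [h2, lintegral_bern]
  classical
  rw [coupling_bern_apply, coupling_bern_apply, coupling_bern_apply p₂]
  have h1 := p₁.2
  have h3 := q.2
  have e1 : ENNReal.ofReal (p₂ : ℝ) = ENNReal.ofReal (p₁ : ℝ)
      + ENNReal.ofReal (1 - (p₁ : ℝ)) * ENNReal.ofReal (q : ℝ) := by
    rw [← ENNReal.ofReal_mul (by linarith [h1.2]), ← ENNReal.ofReal_add h1.1
      (mul_nonneg (by linarith [h1.2]) h3.1)]
    congr 1
    linarith
  have e2 : ENNReal.ofReal (1 - (p₂ : ℝ)) =
      ENNReal.ofReal (1 - (p₁ : ℝ)) * ENNReal.ofReal (1 - (q : ℝ)) := by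
    rw [← ENNReal.ofReal_mul (by linarith [h1.2]), h]
  have e3 : ENNReal.ofReal (q : ℝ) + ENNReal.ofReal (1 - (q : ℝ)) = 1 := by
    rw [← ENNReal.ofReal_add h3.1 (by linarith [h3.2])]
    simp
  rw [e1, e2]
  simp only [Bool.true_or, Bool.false_or, Set.mem_ofPred_eq]
  by_cases ht1 : true ∈ t i <;> by_cases ht0 : false ∈ t i <;> simp only [ht1, ht0, if_true,
    if_false, mul_one, mul_zero, add_zero, zero_add]
  · rw [e3, mul_one, add_assoc, ← mul_add, e3, mul_one]
  · rw [e3, mul_one]

/-- probabilities of increasing events are nondecreasing in `p` -/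
theorem mono_p {A : Set (ι → Bool)} (hA : Incr A) (hm : MeasurableSet A) {p₁ p₂ : unitInterval}
    (h : (p₁ : ℝ) ≤ p₂) : (prodBern ι p₁) A ≤ (prodBern ι p₂) A := by
  have h1 := p₁.2
  have h2 := p₂.2
  rcases eq_or_lt_of_le h1.2 with h0 | h0
  · have : p₁ = p₂ := Subtype.ext (le_antisymm h (by rw [h0]; exact h2.2))
    rw [this]
  have hpos : 0 < 1 - (p₁ : ℝ) := by linarith
  let q : unitInterval := ⟨((p₂ : ℝ) - p₁) / (1 - p₁), by
    constructor
    · apply div_nonneg <;> linarith
    · rw [div_le_one hpos]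
      linarith [h2.2]⟩
  have hq : (1 - p₂ : ℝ) = (1 - p₁) * (1 - q) := by
    change (1 - p₂ : ℝ) = (1 - p₁) * (1 - ((p₂ : ℝ) - p₁) / (1 - p₁))
    field_simp
    ring
  rw [← map_or p₁ q p₂ hq, Measure.map_apply coupling_measurable_or hm]
  have h3 : (prodBern ι p₁) A = ((prodBern ι p₁).prod (prodBern ι q)) (A ×ˢ Set.univ) := by
    rw [Measure.prod_prod, measure_univ, mul_one]
  rw [h3]
  apply measure_mono
  rintro ⟨x, y⟩ ⟨hx, -⟩
  exact hA x _ (fun e he => by simp [he]) hx

/-- probability that all elements of a finite set are open -/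
theorem prob_all_open (q : unitInterval) (F : Finset ι) :
    (prodBern ι q).real {σ | ∀ e ∈ F, σ e = true} = (q : ℝ) ^ F.card := by
  have : {σ : ι → Bool | ∀ e ∈ F, σ e = true} = Set.pi (F : Set ι) (fun _ => {true}) := by
    ext σ
    simp
  rw [this, Measure.real, prodBern, Measure.infinitePi_pi (μ := fun _ : ι => bern q)]
  · rw [Finset.prod_const, coupling_bern_apply]
    simp [ENNReal.toReal_ofReal q.2.1]
  · intro i _
    exact MeasurableSet.of_discrete

end Pool.Agent.H41.QC
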