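import Pool.Agent.H41.QC.Boundary

/-! # QC module CubeCompl: the complement of a cube is connected for `d ≥ 2` -/

namespace Pool.Agent.H41.QC

/-- straight walks -/
theorem exists_walk {d : ℕ} (x y : V d) :
    ∃ w : (Lat d).Walk x y, (w.length : ℤ) = ∑ i, |y i - x i| ∧
      ∀ u ∈ w.support, ∀ i, min (x i) (y i) ≤ u i ∧ u i ≤ max (x i) (y i) := by
  classical
  suffices H : ∀ n : ℕ, ∀ x : V d, (∑ i, |y i - x i| : ℤ) = n →
      ∃ w : (Lat d).Walk x y, (w.length : ℤ) = ∑ i, |y i - x i| ∧
        ∀ u ∈ w.support, ∀ i, min (x i) (y i) ≤ u i ∧ u i ≤ max (x i) (y i) by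
    refine H (∑ i, |y i - x i| : ℤ).toNat x ?_
    rw [Int.toNat_of_nonneg (Finset.sum_nonneg (fun i _ => abs_nonneg _))]
  intro n
  induction n with
  | zero =>
    intro x hx
    have h0 : ∀ i, |y i - x i| = 0 := by
      have := (Finset.sum_eq_zero_iff_of_nonneg
        (fun i (_ : i ∈ Finset.univ) => abs_nonneg (y i - x i))).1 (by simpa using hx)
      intro i
      exact this i (Finset.mem_univ i)
    have hxy : x = y := by
      funext i
      have := abs_eq_zero.1 (h0 i)
      omega
    subst hxy
    refine ⟨SimpleGraph.Walk.nil, by simp, ?_⟩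
    intro u hu i
    simp only [SimpleGraph.Walk.support_nil, List.mem_singleton] at hu
    subst hu
    simp
  | succ n ih =>
    intro x hx
    have hex : ∃ i, y i ≠ x i := by
      by_contra hcon
      push Not at hcon
      have : (∑ i, |y i - x i| : ℤ) = 0 := Finset.sum_eq_zero (fun i _ => by simp [hcon i])
      rw [this] at hx
      push_cast at hx
      omega
    obtain ⟨i, hi⟩ := hex
    -- the sign of the step
    set b : Bool := decide (x i < y i) with hb
    set x' : V d := x + stepVec (i, b) with hx'
    have hx'j : ∀ j, j ≠ i → x' j = x j := by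
      intro j hj
      rw [hx']
      simp [stepVec, Pi.single_eq_of_ne hj]
    have hx'i : x' i = x i + (if b then 1 else -1) := by
      rw [hx']
      simp [stepVec]
    have hstep : |y i - x' i| + 1 = |y i - x i| ∧ min (x i) (y i) ≤ x' i ∧
        x' i ≤ max (x i) (y i) := by
      rw [hx'i]
      by_cases hlt : x i < y i
      · have hb' : b = true := by simp [hb, hlt]
        rw [hb']
        simp only [if_true]
        rw [abs_of_pos (by omega : 0 < y i - x i), abs_of_nonneg (by omega : 0 ≤ y i - (x i + 1))]
        refine ⟨by ring, ?_, ?_⟩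
        · exact (min_le_left _ _).trans (by omega)
        · exact le_trans (by omega) (le_max_right _ _)
      · have hgt : y i < x i := by omega
        have hb' : b = false := by simp [hb, hlt]
        rw [hb']
        simp only [Bool.false_eq_true, if_false]
        rw [abs_of_neg (by omega : y i - x i < 0), abs_of_nonpos (by omega : y i - (x i + -1) ≤ 0)]
        refine ⟨by ring, ?_, ?_⟩
        · exact (min_le_right _ _).trans (by omega)
        · exact le_trans (by omega) (le_max_left _ _)
    have hsum : (∑ j, |y j - x' j| : ℤ) + 1 = ∑ j, |y j - x j| := by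
      rw [← Finset.add_sum_erase Finset.univ (fun j => |y j - x' j|) (Finset.mem_univ i),
        ← Finset.add_sum_erase Finset.univ (fun j => |y j - x j|) (Finset.mem_univ i)]
      have : ∑ j ∈ Finset.univ.erase i, |y j - x' j| = ∑ j ∈ Finset.univ.erase i, |y j - x j| :=
        Finset.sum_congr rfl (fun j hj => by rw [hx'j j (Finset.ne_of_mem_erase hj)])
      rw [this]
      linarith [hstep.1]
    obtain ⟨w, hw1, hw2⟩ := ih x' (by
      have : (∑ j, |y j - x' j| : ℤ) + 1 = n + 1 := by rw [hsum, hx]; push_cast; ring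
      linarith)
    have hadj : (Lat d).Adj x x' := ⟨(i, b), hx'⟩
    refine ⟨SimpleGraph.Walk.cons hadj w, ?_, ?_⟩
    · rw [SimpleGraph.Walk.length_cons]
      push_cast
      rw [hw1, hsum]
    · intro u hu j
      rw [SimpleGraph.Walk.support_cons, List.mem_cons] at hu
      rcases hu with rfl | hu
      · exact ⟨min_le_left _ _, le_max_left _ _⟩
      · obtain ⟨h1, h2⟩ := hw2 u hu j
        by_cases hj : j = i
        · subst hj
          refine ⟨le_trans (le_min hstep.2.1 (min_le_right _ _)) h1,
            h2.trans (max_le hstep.2.2 (le_max_right _ _))⟩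
        · rw [hx'j j hj] at h1 h2
          exact ⟨h1, h2⟩

theorem CubeCompl_to_far {d : ℕ} (hd : 2 ≤ d) (a b z : V d) (hz : ∀ i, b i < z i) {x : V d}
    (hx : ∃ i, x i < a i ∨ b i < x i) :
    ∃ w : (Lat d).Walk x z, ∀ u ∈ w.support, ∃ i, u i < a i ∨ b i < u i := by
  classical
  obtain ⟨i, hi | hi⟩ := hx
  · -- choose another coordinate
    obtain ⟨j, hj⟩ : ∃ j : Fin d, j ≠ i := by
      by_contra hcon
      push Not at hcon
      have h1 : (⟨0, by omega⟩ : Fin d) = i := hcon _
      have h2 : (⟨1, by omega⟩ : Fin d) = i := hcon _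
      have := h1.trans h2.symm
      simp at this
    set x' : V d := Function.update x j (z j) with hx'
    have hx'j : x' j = z j := by simp [hx']
    have hx'i : x' i = x i := by simp [hx', Function.update_of_ne hj.symm]
    obtain ⟨w1, -, hw1⟩ := exists_walk x x'
    obtain ⟨w2, -, hw2⟩ := exists_walk x' z
    refine ⟨w1.append w2, ?_⟩
    intro u hu
    rw [SimpleGraph.Walk.mem_support_append_iff] at hu
    rcases hu with hu | hu
    · refine ⟨i, Or.inl ?_⟩
      have := (hw1 u hu i).2
      rw [hx'i, max_self] at this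
      omega
    · refine ⟨j, Or.inr ?_⟩
      have := (hw2 u hu j).1
      rw [hx'j, min_self] at this
      have := hz j
      omega
  · obtain ⟨w, -, hw⟩ := exists_walk x z
    refine ⟨w, fun u hu => ⟨i, Or.inr ?_⟩⟩
    have h1 := (hw u hu i).1
    have h2 := hz i
    rcases min_choice (x i) (z i) with h | h <;> omega

theorem cube_compl {d : ℕ} (hd : 2 ≤ d) (a b : V d) {x y : V d}
    (hx : ∃ i, x i < a i ∨ b i < x i) (hy : ∃ i, y i < a i ∨ b i < y i) :
    ∃ w : (Lat d).Walk x y, ∀ u ∈ w.support, ∃ i, u i < a i ∨ b i < u i := by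
  obtain ⟨w1, hw1⟩ := CubeCompl_to_far hd a b (fun i => b i + 1) (fun i => by omega) hx
  obtain ⟨w2, hw2⟩ := CubeCompl_to_far hd a b (fun i => b i + 1) (fun i => by omega) hy
  refine ⟨w1.append w2.reverse, ?_⟩
  intro u hu
  rw [SimpleGraph.Walk.mem_support_append_iff, SimpleGraph.Walk.support_reverse,
    List.mem_reverse] at hu
  rcases hu with hu | hu
  · exact hw1 u hu
  · exact hw2 u hu

end Pool.Agent.H41.QC
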