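import Mathlib
import Pool.Agent.H17.IIC.Resample

/-!
# Quenched connective constant: definitions

Self-avoiding walks on `ℤ^d` are encoded by step sequences. Percolation elements live in
`Sym2 (Fin d → ℤ)`: the edge `s(x, y)` for bond percolation, the vertex `s(x, x)` for site
percolation.
-/

open MeasureTheory Filter Topology
open scoped ENNReal BigOperators

namespace Pool.Agent.H41.QC

open Pool.Agent.H17.IIC

/-- bond or site percolation -/
inductive Kind
  | bond
  | site
  deriving DecidableEq

/-- vertices of the lattice -/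
abbrev V (d : ℕ) : Type := Fin d → ℤ

/-- percolation elements -/
abbrev El (d : ℕ) : Type := Sym2 (V d)

/-- a step: a direction and a sign -/
abbrev Step (d : ℕ) : Type := Fin d × Bool

/-- the vector of a step -/
def stepVec {d : ℕ} (s : Step d) : V d := Pi.single s.1 (if s.2 then 1 else -1)

/-- displacement after the first `t` steps -/
def pos {d N : ℕ} (s : Fin N → Step d) (t : ℕ) : V d :=
  ∑ u : Fin N, if (u : ℕ) < t then stepVec (s u) else 0

/-- self-avoiding step sequences -/
def IsSAW {d N : ℕ} (s : Fin N → Step d) : Prop :=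
  Function.Injective (fun t : Fin (N + 1) => pos s (t : ℕ))

open Classical in
/-- the finite set of self-avoiding step sequences of length `N` -/
noncomputable def saws (d N : ℕ) : Finset (Fin N → Step d) :=
  Finset.univ.filter IsSAW

/-- the element used by step `t` of the path started at `x` with steps `s` -/
def el {d N : ℕ} (κ : Kind) (x : V d) (s : Fin N → Step d) (t : Fin N) : El d :=
  match κ with
  | .bond => s(x + pos s (t : ℕ), x + pos s ((t : ℕ) + 1))
  | .site => s(x + pos s ((t : ℕ) + 1), x + pos s ((t : ℕ) + 1))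

/-- energy of a path in the environment `g` -/
def En {d N : ℕ} (κ : Kind) (g : El d → ℕ) (x : V d) (s : Fin N → Step d) : ℕ :=
  ∑ t, g (el κ x s t)

/-- soft partition function of paths of length `N` started at `x` -/
noncomputable def S {d : ℕ} (κ : Kind) (g : El d → ℕ) (N : ℕ) (x : V d) : ℝ :=
  ∑ s ∈ saws d N, Real.exp (-(En κ g x s : ℝ))

/-- soft partition function with starting point in `B`, plus the null state -/
noncomputable def W {d : ℕ} (κ : Kind) (g : El d → ℕ) (N : ℕ) (B : Finset (V d)) : ℝ :=
  1 + ∑ x ∈ B, S κ g N x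

/-- the logarithm of the soft partition function -/
noncomputable def Lg {d : ℕ} (κ : Kind) (g : El d → ℕ) (N : ℕ) (B : Finset (V d)) : ℝ :=
  Real.log (W κ g N B)

/-- Gibbs average of a function of the path (the null state contributes `0`) -/
noncomputable def avg {d : ℕ} (κ : Kind) (g : El d → ℕ) (N : ℕ) (B : Finset (V d))
    (F : V d → (Fin N → Step d) → ℝ) : ℝ :=
  (∑ x ∈ B, ∑ s ∈ saws d N, Real.exp (-(En κ g x s : ℝ)) * F x s) / W κ g N B

/-- the box `v + [0, m)^d` -/
noncomputable def box {d : ℕ} (v : V d) (m : ℕ) : Finset (V d) :=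
  Fintype.piFinset (fun i => Finset.Ico (v i) (v i + m))

/-- weights of the single element law: `0` with probability `p`, otherwise geometric of mean
about `M`, truncated at `M` -/
noncomputable def nuW (p : ℝ) (M k : ℕ) : ℝ :=
  if k = 0 then p
  else if k < M then (1 - p) / M * (1 - 1 / (M : ℝ)) ^ (k - 1)
  else if k = M then (1 - p) * (1 - 1 / (M : ℝ)) ^ (M - 1)
  else 0

/-- single element law -/
noncomputable def nu (p : unitInterval) (M : ℕ) : Measure ℕ :=
  ∑ k ∈ Finset.range (M + 1), ENNReal.ofReal (nuW p M k) • Measure.dirac k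

/-- law of the soft environment -/
noncomputable def Q (d : ℕ) (p : unitInterval) (M : ℕ) : Measure (El d → ℕ) :=
  Measure.infinitePi (fun _ : El d => nu p M)

/-- mean log partition function -/
noncomputable def Phi {d : ℕ} (κ : Kind) (p : unitInterval) (M N : ℕ) (B : Finset (V d)) : ℝ :=
  ∫ g, Lg κ g N B ∂(Q d p M)

/-- normalised mean at the dyadic scale `2^k` -/
noncomputable def aa (κ : Kind) (d : ℕ) (p : unitInterval) (M k : ℕ) : ℝ :=
  Phi κ p M (2 ^ k) (box (0 : V d) (2 ^ k)) / 2 ^ k

/-- soft growth rate -/
noncomputable def Vl (κ : Kind) (d : ℕ) (p : unitInterval) (M : ℕ) : ℝ :=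
  liminf (fun k => aa κ d p M k) atTop

/-- the growth rate `β_p` -/
noncomputable def beta (κ : Kind) (d : ℕ) (p : unitInterval) : ℝ :=
  ⨅ M : ℕ, Vl κ d p (M + 1)

/-- number of closed elements used (with time multiplicity, which is one for a SAW) -/
noncomputable def ncl {d N : ℕ} (κ : Kind) (ω : El d → Bool) (x : V d) (s : Fin N → Step d) : ℕ :=
  (Finset.univ.filter (fun t => ω (el κ x s t) = false)).card

/-- number of pairs (start in `B`, SAW of length `N`) using at most `H` closed elements -/
noncomputable def cnt {d : ℕ} (κ : Kind) (ω : El d → Bool) (N : ℕ) (B : Finset (V d)) (H : ℕ) : ℕ :=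
  ∑ x ∈ B, ((saws d N).filter (fun s => ncl κ ω x s ≤ H)).card

open Classical in
/-- number of open self-avoiding paths of length `N` from `x` -/
noncomputable def Pn {d : ℕ} (κ : Kind) (ω : El d → Bool) (N : ℕ) (x : V d) : ℕ :=
  ((saws d N).filter
    (fun s => (∀ t, ω (el κ x s t) = true) ∧ (κ = .site → ω s(x, x) = true))).card

/-- nearest neighbour adjacency of the lattice -/
def LatAdj {d : ℕ} (x y : V d) : Prop := ∃ s : Step d, y = x + stepVec s

/-- the open graph -/
def Gr {d : ℕ} (κ : Kind) (ω : El d → Bool) : SimpleGraph (V d) where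
  Adj x y := LatAdj x y ∧
    match κ with
    | .bond => ω s(x, y) = true
    | .site => ω s(x, x) = true ∧ ω s(y, y) = true
  symm := by
    constructor
    rintro x y ⟨⟨s, rfl⟩, h⟩
    refine ⟨⟨(s.1, !s.2), ?_⟩, ?_⟩
    · unfold stepVec
      rcases s with ⟨i, b⟩
      cases b <;> simp [add_assoc, ← Pi.single_add]
    · cases κ
      · simpa [Sym2.eq_swap] using h
      · exact ⟨h.2, h.1⟩
  loopless := by
    constructor
    rintro x ⟨⟨s, hs⟩, -⟩
    have h1 : stepVec s = 0 := by simpa using hs.symm
    have h2 := congrFun h1 s.1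
    unfold stepVec at h2
    rcases s with ⟨i, b⟩
    cases b <;> simp at h2

end Pool.Agent.H41.QC
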