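import Pool.Agent.H41.QC.Bad

/-! # QC module Detour: open detours around bad clusters (paper 11.3) -/

namespace Pool.Agent.H41.QC

variable {d : ℕ}

/-- bad vertices whose cluster is hit by a finite set of vertices -/
def hitset (κ : Kind) (ω : El d → Bool) (T : Set (V d)) : Set (V d) :=
  {y | Bad κ ω y ∧ ∃ u ∈ T, u ∈ fat (clus κ ω y)}

lemma Detour_hitset_mono (κ : Kind) (ω : El d → Bool) {T T' : Set (V d)} (h : T ⊆ T') :
    hitset κ ω T ⊆ hitset κ ω T' := by
  rintro y ⟨h1, u, hu, h2⟩
  exact ⟨h1, u, h hu, h2⟩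

lemma Detour_cl_refl (r : ℕ) (x : V d) : Cl r x x := by
  intro i; simp

lemma Detour_mem_fat_self (κ : Kind) (ω : El d → Bool) (b : V d) : b ∈ fat (clus κ ω b) :=
  ⟨b, SimpleGraph.Reachable.refl b, Detour_cl_refl 2 b⟩

lemma Detour_outer_notMem {A : Set (V d)} {z x : V d} (h : x ∈ outer A z) : x ∉ A := by
  obtain ⟨w, hw⟩ := h
  exact hw x w.start_mem_support

lemma Detour_outer_walk {A : Set (V d)} {z x y : V d} (h : x ∈ outer A z) (w : (Lat d).Walk y x)
    (hw : ∀ u ∈ w.support, u ∉ A) : y ∈ outer A z := by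
  obtain ⟨w', hw'⟩ := h
  refine ⟨w.append w', ?_⟩
  intro u hu
  rw [SimpleGraph.Walk.mem_support_append_iff] at hu
  rcases hu with hu | hu
  · exact hw u hu
  · exact hw' u hu

lemma Detour_outer_walk' {A : Set (V d)} {z x y : V d} (h : x ∈ outer A z) (w : (Lat d).Walk x y)
    (hw : ∀ u ∈ w.support, u ∉ A) : y ∈ outer A z := by
  apply Detour_outer_walk h w.reverse
  intro u hu
  rw [SimpleGraph.Walk.support_reverse, List.mem_reverse] at hu
  exact hw u hu

lemma Detour_bad_of_clus (κ : Kind) (ω : El d → Bool) {b y : V d} (hb : Bad κ ω b)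
    (hy : y ∈ clus κ ω b) : Bad κ ω y := by
  obtain ⟨w⟩ := hy
  cases hrev : w.reverse with
  | nil => exact hb
  | cons h p => exact h.2.2.1

lemma Detour_clus_eq (κ : Kind) (ω : El d → Bool) {b y : V d} (hy : y ∈ clus κ ω b) :
    clus κ ω y = clus κ ω b := by
  ext t
  exact ⟨fun h => SimpleGraph.Reachable.trans hy h,
    fun h => SimpleGraph.Reachable.trans (SimpleGraph.Reachable.symm hy) h⟩

lemma Detour_clus_subset (κ : Kind) (ω : El d → Bool) {T : Set (V d)} {b u : V d}
    (hb : Bad κ ω b) (hu : u ∈ T) (hf : u ∈ fat (clus κ ω b)) : clus κ ω b ⊆ hitset κ ω T := by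
  intro y hy
  refine ⟨Detour_bad_of_clus κ ω hb hy, u, hu, ?_⟩
  rw [Detour_clus_eq κ ω hy]; exact hf

lemma Detour_joined_mono {κ : Kind} {ω : El d → Bool} {x y : V d} {r r' : ℝ}
    (h : Joined κ ω x y r) (hr : r ≤ r') : Joined κ ω x y r' := by
  obtain ⟨w, hw⟩ := h
  exact ⟨w, hw.trans hr⟩

lemma Detour_joined_trans {κ : Kind} {ω : El d → Bool} {x y z : V d} {r r' : ℝ}
    (h : Joined κ ω x y r) (h' : Joined κ ω y z r') : Joined κ ω x z (r + r') := by
  obtain ⟨w, hw⟩ := h
  obtain ⟨w', hw'⟩ := h'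
  refine ⟨w.append w', ?_⟩
  rw [SimpleGraph.Walk.length_append]
  push_cast
  linarith

lemma Detour_joined_symm {κ : Kind} {ω : El d → Bool} {x y : V d} {r : ℝ}
    (h : Joined κ ω x y r) : Joined κ ω y x r := by
  obtain ⟨w, hw⟩ := h
  exact ⟨w.reverse, by rwa [SimpleGraph.Walk.length_reverse]⟩

/-- last exit decomposition -/
lemma Detour_last_exit (F : Set (V d)) {x y : V d} (ℓ : (Lat d).Walk x y)
    (h : ∃ w ∈ ℓ.support, w ∈ F) (hy : y ∉ F) :
    ∃ u v : V d, u ∈ F ∧ LatAdj u v ∧ ∃ q : (Lat d).Walk v y, (∀ t ∈ q.support, t ∉ F) ∧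
      (∀ t ∈ q.support, t ∈ ℓ.support) ∧ q.length < ℓ.length ∧ u ∈ ℓ.support := by
  induction ℓ with
  | nil =>
    obtain ⟨w, hw, hF⟩ := h
    rw [SimpleGraph.Walk.support_nil, List.mem_singleton] at hw
    exact absurd (hw ▸ hF) hy
  | @cons a b c hab p ih =>
    by_cases h1 : ∃ w ∈ p.support, w ∈ F
    · obtain ⟨u, v, hu, huv, q, hq1, hq2, hq3, hq4⟩ := ih h1 hy
      refine ⟨u, v, hu, huv, q, hq1, ?_, ?_, ?_⟩
      · intro t ht
        rw [SimpleGraph.Walk.support_cons]
        exact List.mem_cons_of_mem _ (hq2 t ht)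
      · rw [SimpleGraph.Walk.length_cons]; omega
      · rw [SimpleGraph.Walk.support_cons]
        exact List.mem_cons_of_mem _ hq4
    · obtain ⟨w, hw, hF⟩ := h
      rw [SimpleGraph.Walk.support_cons, List.mem_cons] at hw
      have hw1 : w = a := by
        rcases hw with hw | hw
        · exact hw
        · exact absurd ⟨w, hw, hF⟩ h1
      subst hw1
      push Not at h1
      refine ⟨w, b, hF, hab, p, h1, ?_, ?_, ?_⟩
      · intro t ht
        rw [SimpleGraph.Walk.support_cons]
        exact List.mem_cons_of_mem _ ht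
      · rw [SimpleGraph.Walk.length_cons]; omega
      · rw [SimpleGraph.Walk.support_cons]; exact List.mem_cons_self

lemma Detour_main (κ : Kind) (ω : El d → Bool) (z : V d) (n : ℕ) : ∀ {x y : V d}
    (ℓ : (Lat d).Walk x y), ℓ.length ≤ n →
    (hitset κ ω {u | u ∈ ℓ.support}).Finite →
    (∀ b ∈ hitset κ ω {u | u ∈ ℓ.support}, x ∈ outer (fat (clus κ ω b)) z) →
    (∀ b ∈ hitset κ ω {u | u ∈ ℓ.support}, y ∈ outer (fat (clus κ ω b)) z) →
    Joined κ ω x y (ℓ.length + 7 ^ d * ((hitset κ ω {u | u ∈ ℓ.support}).ncard : ℝ)) := by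
  induction n with
  | zero =>
    intro x y ℓ hℓ hfin hx hy
    cases ℓ with
    | nil =>
      refine ⟨SimpleGraph.Walk.nil, ?_⟩
      simp only [SimpleGraph.Walk.length_nil, Nat.cast_zero, zero_add]
      positivity
    | cons h p => rw [SimpleGraph.Walk.length_cons] at hℓ; omega
  | succ n ih =>
    intro x y ℓ hℓ hfin hx hy
    cases ℓ with
    | nil =>
      refine ⟨SimpleGraph.Walk.nil, ?_⟩
      simp only [SimpleGraph.Walk.length_nil, Nat.cast_zero, zero_add]
      positivity
    | @cons _ x1 _ h p =>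
      have hsup : ∀ t ∈ p.support, t ∈ (SimpleGraph.Walk.cons h p).support := by
        intro t ht
        rw [SimpleGraph.Walk.support_cons]
        exact List.mem_cons_of_mem _ ht
      have hxs : x ∈ (SimpleGraph.Walk.cons h p).support := SimpleGraph.Walk.start_mem_support _
      have hx1s : x1 ∈ (SimpleGraph.Walk.cons h p).support := hsup x1 p.start_mem_support
      have hpl : p.length ≤ n := by
        rw [SimpleGraph.Walk.length_cons] at hℓ; omega
      by_cases hcase : ∃ b, Bad κ ω b ∧ x1 ∈ fat (clus κ ω b)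
      · obtain ⟨b, hb, hx1⟩ := hcase
        set H := hitset κ ω {u | u ∈ (SimpleGraph.Walk.cons h p).support} with hH
        have hbH : b ∈ H := ⟨hb, x1, hx1s, hx1⟩
        have hCH : clus κ ω b ⊆ H := Detour_clus_subset κ ω hb hx1s hx1
        have hyF : y ∉ fat (clus κ ω b) := Detour_outer_notMem (hy b hbH)
        obtain ⟨u, v, huF, huv, q, hq1, hq2, hq3, hq4⟩ :=
          Detour_last_exit (fat (clus κ ω b)) p ⟨x1, p.start_mem_support, hx1⟩ hyF
        have hvO : v ∈ outer (fat (clus κ ω b)) z := Detour_outer_walk (hy b hbH) q hq1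
        have hxO : x ∈ outer (fat (clus κ ω b)) z := hx b hbH
        have h1x : LatAdj x1 x := SimpleGraph.Adj.symm h
        have hJ1 : Joined κ ω x v (7 ^ d * ((clus κ ω b).ncard : ℝ)) :=
          around κ ω hb (hfin.subset hCH) hx1 hxO h1x huF hvO huv
        have hqs : ({t | t ∈ q.support} : Set (V d)) ⊆
            {u | u ∈ (SimpleGraph.Walk.cons h p).support} := fun t ht => hsup t (hq2 t ht)
        have hsub := Detour_hitset_mono κ ω hqs
        have hne : ∀ b' ∈ hitset κ ω {t | t ∈ q.support}, clus κ ω b ≠ clus κ ω b' := by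
          rintro b' ⟨hb', t, ht, htf⟩ heq
          rw [← heq] at htf
          exact hq1 t ht htf
        have hx' : ∀ b' ∈ hitset κ ω {t | t ∈ q.support}, v ∈ outer (fat (clus κ ω b')) z := by
          intro b' hb'
          obtain ⟨w, hw⟩ := boundary_connected (fat (clus κ ω b)) (outer (fat (clus κ ω b)) z)
            (fat_clus_sconnected κ ω b) (outer_connected _ z)
            (Set.disjoint_left.2 fun t ht ht' => Detour_outer_notMem ht' ht)
            (outer_closed _ z) hx1 hxO h1x huF hvO huv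
          refine Detour_outer_walk' (hx b' (hsub hb')) w ?_
          intro t ht htf
          obtain ⟨a, ha, -, -, -, hcl⟩ := hw t ht
          exact clus_far κ ω hb'.1 hb (Ne.symm (hne b' hb')) htf ha hcl
        have hJ2 := ih q (by omega) (hfin.subset hsub) hx' (fun b' hb' => hy b' (hsub hb'))
        refine Detour_joined_mono (Detour_joined_trans hJ1 hJ2) ?_
        have hdisj : Disjoint (clus κ ω b) (hitset κ ω {t | t ∈ q.support}) := by
          rw [Set.disjoint_left]
          intro t ht ht'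
          exact hne t ht' (Detour_clus_eq κ ω ht).symm
        have hcard : (clus κ ω b).ncard + (hitset κ ω {t | t ∈ q.support}).ncard ≤ H.ncard := by
          rw [← Set.ncard_union_eq hdisj (hfin.subset hCH) (hfin.subset hsub)]
          exact Set.ncard_le_ncard (Set.union_subset hCH hsub) hfin
        have hcard' : ((clus κ ω b).ncard : ℝ) + ((hitset κ ω {t | t ∈ q.support}).ncard : ℝ) ≤
            (H.ncard : ℝ) := by exact_mod_cast hcard
        have hlen : (q.length : ℝ) ≤ ((SimpleGraph.Walk.cons h p).length : ℝ) := by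
          rw [SimpleGraph.Walk.length_cons]
          exact_mod_cast (by omega : q.length ≤ p.length + 1)
        have h7 : (0 : ℝ) ≤ 7 ^ d := by positivity
        nlinarith [mul_le_mul_of_nonneg_left hcard' h7]
      · push Not at hcase
        have hgx1 : ¬ Bad κ ω x1 := fun hb => hcase x1 hb (Detour_mem_fat_self κ ω x1)
        have hgx : ¬ Bad κ ω x := fun hb =>
          Detour_outer_notMem (hx x ⟨hb, x, hxs, Detour_mem_fat_self κ ω x⟩)
            (Detour_mem_fat_self κ ω x)
        have hJ1 : Joined κ ω x x1 1 := by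
          have := joined_of_good κ ω (SimpleGraph.Walk.cons h SimpleGraph.Walk.nil) (by
            intro t ht
            rw [SimpleGraph.Walk.support_cons, SimpleGraph.Walk.support_nil, List.mem_cons,
              List.mem_singleton] at ht
            rcases ht with rfl | rfl
            · exact hgx
            · exact hgx1)
          refine Detour_joined_mono this ?_
          simp
        have hqs : ({t | t ∈ p.support} : Set (V d)) ⊆
            {u | u ∈ (SimpleGraph.Walk.cons h p).support} := fun t ht => hsup t ht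
        have hsub := Detour_hitset_mono κ ω hqs
        have hJ2 := ih p hpl (hfin.subset hsub)
          (fun b hb => outer_closed _ z x (hx b (hsub hb)) x1 h (hcase b hb.1))
          (fun b hb => hy b (hsub hb))
        refine Detour_joined_mono (Detour_joined_trans hJ1 hJ2) ?_
        have hcard : ((hitset κ ω {t | t ∈ p.support}).ncard : ℝ) ≤
            ((hitset κ ω {u | u ∈ (SimpleGraph.Walk.cons h p).support}).ncard : ℝ) := by
          exact_mod_cast Set.ncard_le_ncard hsub hfin
        have h7 : (0 : ℝ) ≤ 7 ^ d := by positivity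
        rw [SimpleGraph.Walk.length_cons]
        push_cast
        nlinarith [mul_le_mul_of_nonneg_left hcard h7]

theorem detour (κ : Kind) (ω : El d → Bool) (z : V d) {x y : V d} (ℓ : (Lat d).Walk x y)
    (hfin : (hitset κ ω {u | u ∈ ℓ.support}).Finite)
    (hx : ∀ b ∈ hitset κ ω {u | u ∈ ℓ.support}, x ∈ outer (fat (clus κ ω b)) z)
    (hy : ∀ b ∈ hitset κ ω {u | u ∈ ℓ.support}, y ∈ outer (fat (clus κ ω b)) z) :
    Joined κ ω x y (ℓ.length + 7 ^ d * ((hitset κ ω {u | u ∈ ℓ.support}).ncard : ℝ)
      + 2 * (hitset κ ω {u | u ∈ ℓ.support}).ncard) := by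
  refine Detour_joined_mono (Detour_main κ ω z ℓ.length ℓ le_rfl hfin hx hy) ?_
  have : (0 : ℝ) ≤ 2 * ((hitset κ ω {u | u ∈ ℓ.support}).ncard : ℝ) := by positivity
  linarith

end Pool.Agent.H41.QC
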