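import Pool.Agent.H41.QC.Path

/-! # QC module Doubling (paper 3.1) -/

namespace Pool.Agent.H41.QC

variable {d : ℕ}

lemma Doubling_En_append (κ : Kind) (g : El d → ℕ) (x : V d) {M N : ℕ} (a : Fin M → Step d)
    (b : Fin N → Step d) :
    En κ g x (Fin.append a b) = En κ g x a + En κ g (x + pos a M) b := by
  unfold En
  rw [Fin.sum_univ_add]
  congr 1
  · refine Finset.sum_congr rfl fun t _ => ?_
    rw [el_append_left]
  · refine Finset.sum_congr rfl fun t _ => ?_
    rw [el_append_right]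

theorem Lg_doubling (κ : Kind) (g : El d → ℕ) (N : ℕ) :
    Lg κ g (N + N) (box (0 : V d) (2 * N))
      ≤ Lg κ g N (box 0 (2 * N)) + Lg κ g N (box (fun _ => -(N : ℤ)) (4 * N)) := by
  have hW1 := one_le_W κ g N (box (0 : V d) (2 * N))
  have hW2 := one_le_W κ g N (box (fun _ => -(N : ℤ)) (4 * N) : Finset (V d))
  have hW0 := one_le_W κ g (N + N) (box (0 : V d) (2 * N))
  unfold Lg
  rw [← Real.log_mul (by linarith) (by linarith)]
  apply Real.log_le_log (by linarith)
  have hS : ∀ x ∈ box (0 : V d) (2 * N), S κ g (N + N) x ≤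
      S κ g N x * ∑ y ∈ box (fun _ => -(N : ℤ)) (4 * N), S κ g N y := by
    intro x hx
    unfold S
    refine (sum_saws_append_le _ fun s => (Real.exp_pos _).le).trans ?_
    rw [Finset.sum_mul]
    refine Finset.sum_le_sum fun a _ => ?_
    have h1 : ∑ b ∈ saws d N, Real.exp (-(En κ g x (Fin.append a b) : ℝ)) =
        Real.exp (-(En κ g x a : ℝ)) * S κ g N (x + pos a N) := by
      unfold S
      rw [Finset.mul_sum]
      refine Finset.sum_congr rfl fun b _ => ?_
      rw [Doubling_En_append, ← Real.exp_add]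
      congr 1
      push_cast
      ring
    rw [h1]
    refine mul_le_mul_of_nonneg_left ?_ (Real.exp_pos _).le
    refine Finset.single_le_sum (f := fun y => S κ g N y) (fun y _ => S_nonneg κ g N y) ?_
    rw [mem_box] at hx ⊢
    intro i
    have h2 := hx i
    have h3 := abs_le.mp (abs_pos_le a N i)
    simp only [Pi.zero_apply, Pi.add_apply] at h2 ⊢
    push_cast at h2 ⊢
    constructor <;> omega
  have hsum : ∑ x ∈ box (0 : V d) (2 * N), S κ g (N + N) x ≤
      (∑ x ∈ box (0 : V d) (2 * N), S κ g N x) *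
        ∑ y ∈ box (fun _ => -(N : ℤ)) (4 * N), S κ g N y := by
    rw [Finset.sum_mul]
    exact Finset.sum_le_sum hS
  have h1 : 0 ≤ ∑ x ∈ box (0 : V d) (2 * N), S κ g N x :=
    Finset.sum_nonneg fun x _ => S_nonneg κ g N x
  have h2 : 0 ≤ ∑ y ∈ (box (fun _ => -(N : ℤ)) (4 * N) : Finset (V d)), S κ g N y :=
    Finset.sum_nonneg fun x _ => S_nonneg κ g N x
  unfold W
  nlinarith

end Pool.Agent.H41.QC
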