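import Pool.Agent.H41.QC.CubeCompl
import Pool.Agent.H41.QC.Detour

/-! # QC module Exit: leaving the hull of a bad cluster (paper 11.5) -/

namespace Pool.Agent.H41.QC

variable {d : ℕ}

/-- far away reference point -/
def farPt (d N : ℕ) : V d := fun _ => 8 * (N : ℤ)

lemma Exit_walk_diff (κ : Kind) (ω : El d → Bool) {x y : V d} (w : (BG κ ω).Walk x y) (i : Fin d) :
    |x i - y i| ≤ 5 * (w.length : ℤ) := by
  induction w with
  | nil => simp
  | @cons a b c h p ih =>
    rw [SimpleGraph.Walk.length_cons]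
    push_cast
    have h1 : |a i - b i| ≤ 5 := by exact_mod_cast h.2.1 i
    have h2 : |a i - c i| ≤ |a i - b i| + |b i - c i| := abs_sub_le _ _ _
    linarith

lemma Exit_clus_diff (κ : Kind) (ω : El d → Bool) {b c : V d} (hfin : (clus κ ω b).Finite)
    (hc : c ∈ clus κ ω b) (i : Fin d) : |b i - c i| ≤ 5 * ((clus κ ω b).ncard : ℤ) - 5 := by
  classical
  obtain ⟨w⟩ := hc
  have hp := w.bypass_isPath
  have h1 := Exit_walk_diff κ ω w.bypass i
  have hsub : ∀ t ∈ w.bypass.support, t ∈ clus κ ω b := by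
    intro t ht
    exact (w.bypass.takeUntil t ht).reachable
  have hnd : w.bypass.support.Nodup := hp.support_nodup
  have hcard : w.bypass.support.toFinset.card = w.bypass.length + 1 := by
    rw [List.toFinset_card_of_nodup hnd, SimpleGraph.Walk.length_support]
  have h2 : w.bypass.length + 1 ≤ (clus κ ω b).ncard := by
    rw [← hcard, Set.ncard_eq_toFinset_card _ hfin]
    apply Finset.card_le_card
    intro t ht
    rw [List.mem_toFinset] at ht
    exact hfin.mem_toFinset.2 (hsub t ht)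
  have h3 : ((w.bypass.length : ℤ)) + 1 ≤ ((clus κ ω b).ncard : ℤ) := by exact_mod_cast h2
  linarith

lemma Exit_self_mem (κ : Kind) (ω : El d → Bool) (b : V d) : b ∈ clus κ ω b :=
  SimpleGraph.Reachable.refl b

/-- the hull (complement of the outer component) of a small set is small -/
theorem hull_card (hd : 2 ≤ d) (κ : Kind) (ω : El d → Bool) {N r : ℕ} (hr : 5 * r + 10 ≤ N)
    {b : V d} (hb : Bad κ ω b) (hbN : ∀ i, |b i| ≤ 4 * N)
    (hfin : (clus κ ω b).Finite) (hs : (clus κ ω b).ncard < r) :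
    ((outer (fat (clus κ ω b)) (farPt d N))ᶜ).Finite ∧
      ((outer (fat (clus κ ω b)) (farPt d N))ᶜ).ncard ≤ (5 * r + 10) ^ d := by
  classical
  have _ := hb
  -- bounding box
  set Cf := hfin.toFinset with hCf
  have hne : Cf.Nonempty := ⟨b, hfin.mem_toFinset.2 (Exit_self_mem κ ω b)⟩
  set lo : V d := fun i => Cf.inf' hne (fun c => c i) with hlo
  set hi : V d := fun i => Cf.sup' hne (fun c => c i) with hhi
  have hlo_le : ∀ c ∈ clus κ ω b, ∀ i, lo i ≤ c i := fun c hc i =>
    Finset.inf'_le (fun c : V d => c i) (hfin.mem_toFinset.2 hc)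
  have hle_hi : ∀ c ∈ clus κ ω b, ∀ i, c i ≤ hi i := fun c hc i =>
    Finset.le_sup' (fun c : V d => c i) (hfin.mem_toFinset.2 hc)
  have hdiam : ∀ i, hi i - lo i ≤ 5 * ((clus κ ω b).ncard : ℤ) - 5 := by
    intro i
    obtain ⟨c1, hc1, he1⟩ := Finset.exists_mem_eq_inf' hne (fun c : V d => c i)
    obtain ⟨c2, hc2, he2⟩ := Finset.exists_mem_eq_sup' hne (fun c : V d => c i)
    have hm1 := hfin.mem_toFinset.1 hc1
    have hm2 := hfin.mem_toFinset.1 hc2
    have he1' : lo i = c1 i := he1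
    have he2' : hi i = c2 i := he2
    have hceq : clus κ ω c1 = clus κ ω b := Detour_clus_eq κ ω hm1
    have hm2' : c2 ∈ clus κ ω c1 := by rw [hceq]; exact hm2
    have h := Exit_clus_diff κ ω (b := c1) (c := c2) (by rw [hceq]; exact hfin) hm2' i
    rw [hceq] at h
    rw [he1', he2']
    have h' := neg_abs_le (c1 i - c2 i)
    linarith
  have hcr : ((clus κ ω b).ncard : ℤ) + 1 ≤ r := by exact_mod_cast hs
  have hrN : 5 * (r : ℤ) + 10 ≤ N := by exact_mod_cast hr
  have hhiN : ∀ i, hi i ≤ 5 * N := by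
    intro i
    have h1 := hdiam i
    have h2 := hlo_le b (Exit_self_mem κ ω b) i
    have h3 := le_trans (le_abs_self (b i)) (hbN i)
    linarith
  have hbox : ((outer (fat (clus κ ω b)) (farPt d N))ᶜ) ⊆
      ((Fintype.piFinset fun i => Finset.Icc (lo i - 2) (hi i + 2) : Finset (V d)) : Set (V d)) := by
    intro x hx
    by_contra hcon
    apply hx
    have hx' : ∃ i, x i < (fun i => lo i - 2) i ∨ (fun i => hi i + 2) i < x i := by
      rw [Finset.mem_coe, Fintype.mem_piFinset] at hcon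
      push Not at hcon
      obtain ⟨i, hi'⟩ := hcon
      refine ⟨i, ?_⟩
      rw [Finset.mem_Icc] at hi'
      by_contra h2
      push Not at h2
      exact hi' ⟨h2.1, h2.2⟩
    have hi0 : (⟨0, by omega⟩ : Fin d) = ⟨0, by omega⟩ := rfl
    have hfar : ∃ i, farPt d N i < (fun i => lo i - 2) i ∨ (fun i => hi i + 2) i < farPt d N i := by
      refine ⟨⟨0, by omega⟩, Or.inr ?_⟩
      have := hhiN ⟨0, by omega⟩
      show hi _ + 2 < 8 * (N : ℤ)
      have hN : (10 : ℤ) ≤ N := by
        have : (0 : ℤ) ≤ r := by positivity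
        linarith
      linarith
    obtain ⟨w, hw⟩ := cube_compl hd (fun i => lo i - 2) (fun i => hi i + 2) hx' hfar
    refine ⟨w, ?_⟩
    rintro u hu ⟨c, hc, hcl⟩
    obtain ⟨i, hi'⟩ := hw u hu
    have h1 := hlo_le c hc i
    have h2 := hle_hi c hc i
    have h3 : |u i - c i| ≤ 2 := by exact_mod_cast hcl i
    rw [abs_le] at h3
    rcases hi' with h | h
    · linarith
    · linarith
  refine ⟨(Finset.finite_toSet _).subset hbox, ?_⟩
  refine le_trans (Set.ncard_le_ncard hbox (Finset.finite_toSet _)) ?_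
  rw [Set.ncard_coe_finset, Fintype.card_piFinset]
  refine le_trans (Finset.prod_le_pow_card _ _ (5 * r + 10) ?_) ?_
  · intro i _
    rw [Int.card_Icc]
    have := hdiam i
    have h2 : hi i + 2 + 1 - (lo i - 2) ≤ ((5 * r + 10 : ℕ) : ℤ) := by
      push_cast
      linarith
    exact Int.toNat_le.2 h2
  · simp

/-- the initial segments of an open self-avoiding path are open walks -/
lemma Exit_walk (κ : Kind) (ω : El d → Bool) {N : ℕ} (x : V d) (s : Fin N → Step d)
    (h1 : ∀ t, ω (el κ x s t) = true) (h2 : κ = .site → ω s(x, x) = true) (t : ℕ) (ht : t ≤ N) :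
    ∃ w : (Gr κ ω).Walk x (x + pos s t), w.length = t := by
  induction t with
  | zero =>
    rw [pos_zero, add_zero]
    exact ⟨SimpleGraph.Walk.nil, rfl⟩
  | succ t ih =>
    obtain ⟨w, hw⟩ := ih (by omega)
    have htN : t < N := by omega
    have hsucc : pos s (t + 1) = pos s t + stepVec (s ⟨t, htN⟩) := pos_succ s ⟨t, htN⟩
    have hadj : (Gr κ ω).Adj (x + pos s t) (x + pos s (t + 1)) := by
      refine ⟨⟨s ⟨t, htN⟩, by rw [hsucc, add_assoc]⟩, ?_⟩
      have h3 := h1 ⟨t, htN⟩
      cases κ with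
      | bond => exact h3
      | site =>
        refine ⟨?_, h3⟩
        rcases Nat.eq_zero_or_pos t with h0 | h0
        · subst h0
          rw [pos_zero, add_zero]
          exact h2 rfl
        · have h4 := h1 ⟨t - 1, by omega⟩
          have e : ((⟨t - 1, by omega⟩ : Fin N) : ℕ) + 1 = t := by
            show t - 1 + 1 = t
            omega
          simp only [el] at h4
          rw [e] at h4
          exact h4
    refine ⟨w.concat hadj, ?_⟩
    rw [SimpleGraph.Walk.length_concat, hw]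

/-- hulls are nested -/
lemma Exit_nested (κ : Kind) (ω : El d → Bool) {b b' z u x' : V d} (hb : Bad κ ω b)
    (hb' : Bad κ ω b') (hne : clus κ ω b ≠ clus κ ω b') (hu : u ∈ fat (clus κ ω b))
    (hux : LatAdj u x') (hcl : Cl 1 x' u) (hx' : x' ∉ outer (fat (clus κ ω b')) z) :
    outer (fat (clus κ ω b')) z ⊆ outer (fat (clus κ ω b)) z := by
  have hx'f : x' ∉ fat (clus κ ω b') := fun h => clus_far κ ω hb' hb (Ne.symm hne) h hu hcl
  have huO : u ∉ outer (fat (clus κ ω b')) z := fun h => hx' (outer_closed _ z u h x' hux hx'f)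
  have hdis : ∀ t ∈ fat (clus κ ω b), t ∉ outer (fat (clus κ ω b')) z := by
    intro t ht htO
    obtain ⟨w, hw⟩ := fat_clus_walk κ ω b u hu t ht
    refine huO (Detour_outer_walk htO w fun q hq => ?_)
    obtain ⟨t', ht', hcl'⟩ := hw q hq
    exact fun hqf => clus_far κ ω hb' hb (Ne.symm hne) hqf ht' hcl'
  intro y hy
  obtain ⟨w, hw⟩ := hy
  refine ⟨w, ?_⟩
  intro q hq hqf
  apply hdis q hqf
  classical
  refine ⟨w.dropUntil q hq, ?_⟩
  intro t ht
  exact hw t (w.support_dropUntil_subset hq ht)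

theorem exit (hd : 2 ≤ d) (κ : Kind) (ω : El d → Bool) {N r : ℕ} (hr : (5 * r + 10) ^ d < N)
    (hsm : ∀ b, Bad κ ω b → (∀ i, |b i| ≤ 4 * N) →
      (clus κ ω b).Finite ∧ (clus κ ω b).ncard < r)
    {x : V d} (hx : ∀ i, |x i| ≤ N) (hP : 0 < Pn κ ω N x) :
    ∃ x' : V d, Joined κ ω x x' ((5 * r + 10 : ℝ) ^ d) ∧
      ∀ b, Bad κ ω b → (∀ i, |b i| ≤ 4 * N) →
        x' ∈ outer (fat (clus κ ω b)) (farPt d N) := by
  classical
  have _ := hx
  have hr1 : 5 * r + 10 ≤ N := by
    have h1 : (5 * r + 10) ^ 1 ≤ (5 * r + 10) ^ d := Nat.pow_le_pow_right (by omega) (by omega)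
    rw [pow_one] at h1
    omega
  by_cases hall : ∀ b, Bad κ ω b → (∀ i, |b i| ≤ 4 * N) →
        x ∈ outer (fat (clus κ ω b)) (farPt d N)
  · refine ⟨x, ⟨SimpleGraph.Walk.nil, ?_⟩, hall⟩
    simp only [SimpleGraph.Walk.length_nil, Nat.cast_zero]
    positivity
  -- the maximal hull containing `x`
  push Not at hall
  obtain ⟨b0, hb0, hb0N, hxb0⟩ := hall
  set cube : Finset (V d) := Fintype.piFinset fun _ => Finset.Icc (-(4 * N : ℤ)) (4 * N) with hcube
  set T : Finset (V d) := cube.filter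
    (fun b => Bad κ ω b ∧ x ∉ outer (fat (clus κ ω b)) (farPt d N)) with hT
  have hmemT : ∀ b, b ∈ T ↔ (∀ i, |b i| ≤ 4 * N) ∧ Bad κ ω b ∧
      x ∉ outer (fat (clus κ ω b)) (farPt d N) := by
    intro b
    rw [hT, Finset.mem_filter, hcube, Fintype.mem_piFinset]
    simp only [Finset.mem_Icc, abs_le]
  obtain ⟨b, hbT, hmax⟩ := Finset.exists_max_image T
    (fun b => ((outer (fat (clus κ ω b)) (farPt d N))ᶜ).ncard)
    ⟨b0, (hmemT b0).2 ⟨hb0N, hb0, hxb0⟩⟩
  obtain ⟨hbN, hb, hxb⟩ := (hmemT b).1 hbT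
  obtain ⟨hcfin, hccard⟩ := hsm b hb hbN
  obtain ⟨hhfin, hhcard⟩ := hull_card hd κ ω hr1 hb hbN hcfin hccard
  set O := outer (fat (clus κ ω b)) (farPt d N) with hO
  -- the open path
  obtain ⟨s, hs⟩ := Finset.card_pos.1 hP
  rw [Finset.mem_filter] at hs
  obtain ⟨hsaw, hop, hst⟩ := hs
  have hinj : IsSAW s := mem_saws.1 hsaw
  -- the path leaves the hull
  have hleave : ∃ t, t ≤ N ∧ x + pos s t ∈ O := by
    by_contra hcon
    push Not at hcon
    have h1 : (((Finset.univ : Finset (Fin (N + 1))).image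
        (fun t : Fin (N + 1) => x + pos s (t : ℕ)) : Finset (V d)) : Set (V d)) ⊆ Oᶜ := by
      intro y hy
      rw [Finset.coe_image] at hy
      obtain ⟨t, -, rfl⟩ := hy
      exact hcon t (by omega)
    have h2 := Set.ncard_le_ncard h1 hhfin
    rw [Set.ncard_coe_finset, Finset.card_image_of_injective, Finset.card_univ, Fintype.card_fin]
      at h2
    · omega
    · intro t t' htt
      exact hinj (add_left_cancel htt)
  set t0 := Nat.find hleave with ht0
  obtain ⟨ht0N, ht0O⟩ := Nat.find_spec hleave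
  have hmin : ∀ t, t < t0 → x + pos s t ∉ O := by
    intro t ht hO'
    exact Nat.find_min hleave ht ⟨by omega, hO'⟩
  have ht0pos : 0 < t0 := by
    rcases Nat.eq_zero_or_pos t0 with h | h
    · exfalso
      apply hxb
      have : x + pos s t0 ∈ O := ht0O
      rwa [h, pos_zero, add_zero] at this
    · exact h
  have ht0le : t0 ≤ (5 * r + 10) ^ d := by
    have h1 : (((Finset.range t0).image (fun t => x + pos s t) : Finset (V d)) : Set (V d))
        ⊆ Oᶜ := by
      intro y hy
      rw [Finset.coe_image] at hy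
      obtain ⟨t, ht, rfl⟩ := hy
      exact hmin t (Finset.mem_range.1 ht)
    have h2 := Set.ncard_le_ncard h1 hhfin
    rw [Set.ncard_coe_finset, Finset.card_image_of_injOn, Finset.card_range] at h2
    · omega
    · intro t ht t' ht' htt
      rw [Finset.coe_range, Set.mem_Iio] at ht ht'
      have h3 := @hinj ⟨t, by omega⟩ ⟨t', by omega⟩ (add_left_cancel htt)
      exact congrArg Fin.val h3
  obtain ⟨w, hw⟩ := Exit_walk κ ω x s hop hst t0 ht0N
  refine ⟨x + pos s t0, ⟨w, ?_⟩, ?_⟩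
  · rw [hw]; exact_mod_cast ht0le
  -- the exit point is exterior
  intro b' hb' hb'N
  by_contra hx'
  set t1 := t0 - 1 with ht1
  have ht1N : t1 < N := by omega
  have ht1s : t1 + 1 = t0 := by omega
  set u := x + pos s t1 with hu
  have huO : u ∉ O := hmin t1 (by omega)
  have hsucc : pos s (t1 + 1) = pos s t1 + stepVec (s ⟨t1, ht1N⟩) := pos_succ s ⟨t1, ht1N⟩
  have hux : LatAdj u (x + pos s t0) := by
    refine ⟨s ⟨t1, ht1N⟩, ?_⟩
    rw [← ht1s, hsucc, hu, add_assoc]
  have huf : u ∈ fat (clus κ ω b) := by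
    by_contra h
    exact huO (outer_closed _ _ _ ht0O u (SimpleGraph.Adj.symm (G := Lat d) hux) h)
  have hcl : Cl 1 (x + pos s t0) u := by
    intro i
    rw [← ht1s, hsucc, hu]
    have h := path_abs_stepVec_le (s ⟨t1, ht1N⟩) i
    simp only [Pi.add_apply]
    have e : x i + (pos s t1 i + stepVec (s ⟨t1, ht1N⟩) i) - (x i + pos s t1 i)
        = stepVec (s ⟨t1, ht1N⟩) i := by ring
    rw [e]
    exact_mod_cast h
  have hne : clus κ ω b ≠ clus κ ω b' := by
    intro heq
    apply hx'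
    rw [← heq]
    exact ht0O
  have hnest := Exit_nested κ ω hb hb' hne huf hux hcl hx'
  have hxb' : x ∉ outer (fat (clus κ ω b')) (farPt d N) := fun h => hxb (hnest h)
  have hle := hmax b' ((hmemT b').2 ⟨hb'N, hb', hxb'⟩)
  obtain ⟨hcfin', hccard'⟩ := hsm b' hb' hb'N
  obtain ⟨hhfin', -⟩ := hull_card hd κ ω hr1 hb' hb'N hcfin' hccard'
  have hss : (outer (fat (clus κ ω b)) (farPt d N))ᶜ ⊂ (outer (fat (clus κ ω b')) (farPt d N))ᶜ := by
    refine ⟨Set.compl_subset_compl.2 hnest, ?_⟩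
    intro h
    exact h hx' ht0O
  have hlt := Set.ncard_lt_ncard hss hhfin'
  exact absurd hlt (not_lt.2 hle)

end Pool.Agent.H41.QC
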