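import Pool.Agent.H17.IIC.Resample

/-!
# QC module FinDefs: self-contained definitions of the final theorem

Paths are injective maps `Fin (N+1) → ℤ^d` with nearest neighbour steps.
-/

open MeasureTheory Filter Topology
open Pool.Agent.H17.IIC

namespace Pool.Agent.H41.QC

/-- nearest neighbours of `ℤ^d` -/
def NN {d : ℕ} (x y : Fin d → ℤ) : Prop := ∑ i, |x i - y i| = 1

/-- `γ` is an open self-avoiding path of length `N` from `x`, bond percolation: the `N` edges are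
open -/
def IsBondPath {d : ℕ} (ω : Sym2 (Fin d → ℤ) → Bool) (N : ℕ) (x : Fin d → ℤ)
    (γ : Fin (N + 1) → (Fin d → ℤ)) : Prop :=
  γ 0 = x ∧ Function.Injective γ ∧
    ∀ i : Fin N, NN (γ i.castSucc) (γ i.succ) ∧ ω s(γ i.castSucc, γ i.succ) = true

/-- `γ` is an open self-avoiding path of length `N` from `x`, site percolation: the `N + 1`
vertices are open -/
def IsSitePath {d : ℕ} (ω : (Fin d → ℤ) → Bool) (N : ℕ) (x : Fin d → ℤ)
    (γ : Fin (N + 1) → (Fin d → ℤ)) : Prop :=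
  γ 0 = x ∧ Function.Injective γ ∧ (∀ i, ω (γ i) = true) ∧
    ∀ i : Fin N, NN (γ i.castSucc) (γ i.succ)

/-- number of open self-avoiding paths of length `N` from the origin -/
noncomputable def bondZ {d : ℕ} (ω : Sym2 (Fin d → ℤ) → Bool) (N : ℕ) : ℕ :=
  {γ : Fin (N + 1) → (Fin d → ℤ) | IsBondPath ω N 0 γ}.ncard

noncomputable def siteZ {d : ℕ} (ω : (Fin d → ℤ) → Bool) (N : ℕ) : ℕ :=
  {γ : Fin (N + 1) → (Fin d → ℤ) | IsSitePath ω N 0 γ}.ncard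

/-- the open cluster of the origin is infinite -/
def BondInf {d : ℕ} (ω : Sym2 (Fin d → ℤ) → Bool) : Prop :=
  {y : Fin d → ℤ | ∃ (N : ℕ) (γ : Fin (N + 1) → (Fin d → ℤ)), IsBondPath ω N 0 γ ∧
    γ (Fin.last N) = y}.Infinite

def SiteInf {d : ℕ} (ω : (Fin d → ℤ) → Bool) : Prop :=
  {y : Fin d → ℤ | ∃ (N : ℕ) (γ : Fin (N + 1) → (Fin d → ℤ)), IsSitePath ω N 0 γ ∧
    γ (Fin.last N) = y}.Infinite

/-- Linear chemical distance at large dyadic scales (a consequence of Antal-Pisztora for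
`p > p_c`): for every `ε > 0` there is `j` such that almost surely, for all large `k`, if the
origin and `y ∈ [0, 2^(k-j))^d` are both starting points of open self-avoiding paths of length
`2^k`, then they are joined by an open path of length at most `ε 2^k`. -/
def BondLCD (d : ℕ) (p : unitInterval) : Prop :=
  ∀ ε : ℝ, 0 < ε → ∃ j : ℕ, 1 ≤ j ∧ ∀ᵐ ω ∂(prodBern (Sym2 (Fin d → ℤ)) p), ∀ᶠ k : ℕ in atTop,
    ∀ y : Fin d → ℤ, (∀ i, 0 ≤ y i ∧ y i < 2 ^ (k - j)) →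
      (∃ γ, IsBondPath ω (2 ^ k) 0 γ) → (∃ γ, IsBondPath ω (2 ^ k) y γ) →
      ∃ (n : ℕ) (γ : Fin (n + 1) → (Fin d → ℤ)), (n : ℝ) ≤ ε * 2 ^ k ∧ IsBondPath ω n 0 γ ∧
        γ (Fin.last n) = y

def SiteLCD (d : ℕ) (p : unitInterval) : Prop :=
  ∀ ε : ℝ, 0 < ε → ∃ j : ℕ, 1 ≤ j ∧ ∀ᵐ ω ∂(prodBern (Fin d → ℤ) p), ∀ᶠ k : ℕ in atTop,
    ∀ y : Fin d → ℤ, (∀ i, 0 ≤ y i ∧ y i < 2 ^ (k - j)) →
      (∃ γ, IsSitePath ω (2 ^ k) 0 γ) → (∃ γ, IsSitePath ω (2 ^ k) y γ) →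
      ∃ (n : ℕ) (γ : Fin (n + 1) → (Fin d → ℤ)), (n : ℝ) ≤ ε * 2 ^ k ∧ IsSitePath ω n 0 γ ∧
        γ (Fin.last n) = y

end Pool.Agent.H41.QC
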