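import Pool.Agent.H17.IIC.Resample

/-! # QC module Fourier: biased Fourier analysis on `ι → Bool`, `ι` finite (paper 6.1) -/

open MeasureTheory
open Pool.Agent.H17.IIC

set_option linter.unusedSectionVars false

namespace Pool.Agent.H41.QC

variable {ι : Type} [Fintype ι] [DecidableEq ι]

/-- normalised coordinate -/
noncomputable def ph (p : unitInterval) (b : Bool) : ℝ :=
  ((if b then 1 else 0) - (p : ℝ)) / Real.sqrt ((p : ℝ) * (1 - (p : ℝ)))

/-- characters -/
noncomputable def chi (p : unitInterval) (S : Finset ι) (ω : ι → Bool) : ℝ :=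
  ∏ i ∈ S, ph p (ω i)

/-- expectation -/
noncomputable def Ex (p : unitInterval) (f : (ι → Bool) → ℝ) : ℝ := ∫ ω, f ω ∂(prodBern ι p)

/-- Fourier coefficient -/
noncomputable def fc (p : unitInterval) (f : (ι → Bool) → ℝ) (S : Finset ι) : ℝ :=
  Ex p (fun ω => f ω * chi p S ω)

/-- point masses of the one coordinate law -/
noncomputable def bw (p : unitInterval) (b : Bool) : ℝ := if b then (p : ℝ) else 1 - (p : ℝ)

lemma bern_real_singleton (p : unitInterval) (b : Bool) : (bern p).real {b} = bw p b := by
  unfold bern bw Measure.real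
  rw [Measure.add_apply, Measure.smul_apply, Measure.smul_apply, Measure.dirac_apply,
    Measure.dirac_apply]
  cases b
  · simp [ENNReal.toReal_ofReal (show (0 : ℝ) ≤ 1 - (p : ℝ) by linarith [p.2.2])]
  · simp [ENNReal.toReal_ofReal p.2.1]

lemma prodBern_real_singleton (p : unitInterval) (ω : ι → Bool) :
    (prodBern ι p).real {ω} = ∏ i, bw p (ω i) := by
  have h1 : ({ω} : Set (ι → Bool)) = Set.pi ((Finset.univ : Finset ι) : Set ι) (fun i => {ω i}) := by
    ext x
    simp [Set.mem_pi, funext_iff]
  unfold Measure.real prodBern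
  rw [h1, Measure.infinitePi_pi (μ := fun _ : ι => bern p) (fun i _ => MeasurableSet.singleton _),
    ENNReal.toReal_prod]
  refine Finset.prod_congr rfl fun i _ => ?_
  exact bern_real_singleton p (ω i)

/-- the expectation is a finite sum -/
lemma Ex_eq_sum (p : unitInterval) (f : (ι → Bool) → ℝ) :
    Ex p f = ∑ ω, (∏ i, bw p (ω i)) * f ω := by
  unfold Ex
  rw [integral_fintype .of_finite]
  refine Finset.sum_congr rfl fun ω _ => ?_
  rw [prodBern_real_singleton, smul_eq_mul]

lemma bw_nonneg (p : unitInterval) (b : Bool) : 0 ≤ bw p b := by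
  unfold bw
  cases b
  · simpa using p.2.2
  · simpa using p.2.1

lemma Ex_add (p : unitInterval) (f g : (ι → Bool) → ℝ) :
    Ex p (fun ω => f ω + g ω) = Ex p f + Ex p g := by
  simp only [Ex_eq_sum, mul_add, Finset.sum_add_distrib]

lemma Ex_sub (p : unitInterval) (f g : (ι → Bool) → ℝ) :
    Ex p (fun ω => f ω - g ω) = Ex p f - Ex p g := by
  simp only [Ex_eq_sum, mul_sub, Finset.sum_sub_distrib]

lemma Ex_const_mul (p : unitInterval) (c : ℝ) (f : (ι → Bool) → ℝ) :
    Ex p (fun ω => c * f ω) = c * Ex p f := by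
  simp only [Ex_eq_sum, Finset.mul_sum]
  refine Finset.sum_congr rfl fun ω _ => ?_
  ring

lemma Ex_sum {κ : Type*} (p : unitInterval) (s : Finset κ) (f : κ → (ι → Bool) → ℝ) :
    Ex p (fun ω => ∑ k ∈ s, f k ω) = ∑ k ∈ s, Ex p (f k) := by
  simp only [Ex_eq_sum, Finset.mul_sum]
  rw [Finset.sum_comm]

lemma Ex_mono (p : unitInterval) {f g : (ι → Bool) → ℝ} (h : ∀ ω, f ω ≤ g ω) :
    Ex p f ≤ Ex p g := by
  simp only [Ex_eq_sum]
  refine Finset.sum_le_sum fun ω _ => ?_
  exact mul_le_mul_of_nonneg_left (h ω) (Finset.prod_nonneg fun i _ => bw_nonneg p _)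

lemma Ex_nonneg (p : unitInterval) {f : (ι → Bool) → ℝ} (h : ∀ ω, 0 ≤ f ω) : 0 ≤ Ex p f := by
  rw [Ex_eq_sum]
  exact Finset.sum_nonneg fun ω _ => mul_nonneg (Finset.prod_nonneg fun i _ => bw_nonneg p _) (h ω)

lemma Ex_const (p : unitInterval) (c : ℝ) : Ex p (fun _ : ι → Bool => c) = c := by
  unfold Ex
  simp

/-- Cauchy-Schwarz -/
lemma Ex_cs (p : unitInterval) (f g : (ι → Bool) → ℝ) :
    Ex p (fun ω => f ω * g ω) ^ 2 ≤ Ex p (fun ω => f ω ^ 2) * Ex p (fun ω => g ω ^ 2) := by
  simp only [Ex_eq_sum]
  have hw : ∀ ω : ι → Bool, 0 ≤ ∏ i, bw p (ω i) := fun ω => Finset.prod_nonneg fun i _ => bw_nonneg p _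
  have h := Finset.sum_mul_sq_le_sq_mul_sq (Finset.univ : Finset (ι → Bool))
    (fun ω => Real.sqrt (∏ i, bw p (ω i)) * f ω) (fun ω => Real.sqrt (∏ i, bw p (ω i)) * g ω)
  have e1 : ∀ ω : ι → Bool, Real.sqrt (∏ i, bw p (ω i)) * f ω * (Real.sqrt (∏ i, bw p (ω i)) * g ω)
      = (∏ i, bw p (ω i)) * (f ω * g ω) := by
    intro ω
    have := Real.mul_self_sqrt (hw ω)
    calc _ = (Real.sqrt (∏ i, bw p (ω i)) * Real.sqrt (∏ i, bw p (ω i))) * (f ω * g ω) := by ring
      _ = _ := by rw [this]
  have e2 : ∀ (F : (ι → Bool) → ℝ) (ω : ι → Bool), (Real.sqrt (∏ i, bw p (ω i)) * F ω) ^ 2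
      = (∏ i, bw p (ω i)) * F ω ^ 2 := by
    intro F ω
    rw [mul_pow, Real.sq_sqrt (hw ω)]
  simp only [e1, e2] at h
  exact h

/-- the expectation of a product of one coordinate functions -/
lemma Ex_prod (p : unitInterval) (g : ι → Bool → ℝ) :
    Ex p (fun ω => ∏ i, g i (ω i)) = ∏ i, ((p : ℝ) * g i true + (1 - (p : ℝ)) * g i false) := by
  rw [Ex_eq_sum]
  have h1 : ∀ i : ι, ((p : ℝ) * g i true + (1 - (p : ℝ)) * g i false) = ∑ b : Bool, bw p b * g i b := by
    intro i
    simp [bw]
  simp_rw [h1]
  rw [Finset.prod_univ_sum, Fintype.piFinset_univ]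
  refine Finset.sum_congr rfl fun ω _ => ?_
  rw [← Finset.prod_mul_distrib]

/-- resampling a coordinate -/
lemma Ex_resample (p : unitInterval) (i : ι) (F : (ι → Bool) → ℝ) :
    Ex p F = Ex p (fun ω => (p : ℝ) * F (Function.update ω i true)
      + (1 - (p : ℝ)) * F (Function.update ω i false)) := by
  classical
  have hcard : ∀ (G : (ι → Bool) → ℝ), Ex p G
      = ∑ ω, (if ω i = true then (∏ j, bw p (ω j)) * G ω else 0)
        + ∑ ω, (if ω i = false then (∏ j, bw p (ω j)) * G ω else 0) := by
    intro G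
    rw [Ex_eq_sum, ← Finset.sum_add_distrib]
    refine Finset.sum_congr rfl fun ω _ => ?_
    cases h : ω i <;> simp
  -- flipping the coordinate `i`
  have hflip : ∀ (G : (ι → Bool) → ℝ) (b : Bool),
      ∑ ω : ι → Bool, (if ω i = b then G ω else 0)
        = ∑ ω : ι → Bool, (if ω i = !b then G (Function.update ω i b) else 0) := by
    intro G b
    refine Finset.sum_bij' (fun ω _ => Function.update ω i (!(ω i)))
      (fun ω _ => Function.update ω i (!(ω i))) (by simp) (by simp) ?_ ?_ ?_
    · intro ω _
      funext j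
      by_cases hj : j = i
      · subst hj; simp
      · simp [hj]
    · intro ω _
      funext j
      by_cases hj : j = i
      · subst hj; simp
      · simp [hj]
    · intro ω _
      simp only [Function.update_self, Function.update_idem]
      by_cases h : ω i = b
      · subst h
        simp
      · have h' : ω i = !b := by
          cases hb : b <;> cases hw : ω i <;> simp_all
        have h'' : ¬ (!(ω i)) = !b := by
          rw [h']; cases b <;> simp
        rw [if_neg h, if_neg h'']
  have hprod : ∀ (ω : ι → Bool) (b : Bool), (∏ j, bw p (Function.update ω i b j))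
      = bw p b * ∏ j ∈ Finset.univ.erase i, bw p (ω j) := by
    intro ω b
    rw [← Finset.mul_prod_erase Finset.univ _ (Finset.mem_univ i)]
    rw [Function.update_self]
    congr 1
    refine Finset.prod_congr rfl fun j hj => ?_
    rw [Function.update_of_ne (Finset.ne_of_mem_erase hj)]
  have hprod' : ∀ (ω : ι → Bool), (∏ j, bw p (ω j))
      = bw p (ω i) * ∏ j ∈ Finset.univ.erase i, bw p (ω j) := by
    intro ω
    rw [← Finset.mul_prod_erase Finset.univ _ (Finset.mem_univ i)]
  set R : (ι → Bool) → ℝ := fun ω => ∏ j ∈ Finset.univ.erase i, bw p (ω j) with hR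
  have hbt : bw p true = (p : ℝ) := by simp [bw]
  have hbf : bw p false = 1 - (p : ℝ) := by simp [bw]
  have A : ∀ (G : (ι → Bool) → ℝ), Ex p G
      = ∑ ω, R ω * ((p : ℝ) * G (Function.update ω i true)
        + (1 - (p : ℝ)) * G (Function.update ω i false)) / 2 := by
    intro G
    have ht : ∑ ω : ι → Bool, (if ω i = true then (∏ j, bw p (ω j)) * G ω else 0)
        = ∑ ω, R ω * (p : ℝ) * G (Function.update ω i true) / 2 := by
      have h1 : ∑ ω : ι → Bool, (if ω i = true then (∏ j, bw p (ω j)) * G ω else 0)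
          = ∑ ω : ι → Bool, (if ω i = true then R ω * (p : ℝ) * G (Function.update ω i true) else 0) := by
        refine Finset.sum_congr rfl fun ω _ => ?_
        by_cases h : ω i = true
        · have hu : Function.update ω i true = ω := by rw [← h, Function.update_eq_self]
          rw [if_pos h, if_pos h, hu, hprod', h, hbt]; ring
        · rw [if_neg h, if_neg h]
      have h2 := hflip (fun ω => (∏ j, bw p (ω j)) * G ω) true
      have h3 : ∑ ω : ι → Bool, (if ω i = (!true) then (∏ j, bw p (Function.update ω i true j))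
            * G (Function.update ω i true) else 0)
          = ∑ ω : ι → Bool, (if ω i = false then R ω * (p : ℝ) * G (Function.update ω i true) else 0) := by
        refine Finset.sum_congr rfl fun ω _ => ?_
        rw [hprod, hbt]
        simp only [Bool.not_true]
        by_cases h : ω i = false
        · rw [if_pos h, if_pos h]; ring
        · rw [if_neg h, if_neg h]
      have h4 : ∑ ω : ι → Bool, (if ω i = true then (∏ j, bw p (ω j)) * G ω else 0)
          = ∑ ω : ι → Bool, (if ω i = false then R ω * (p : ℝ) * G (Function.update ω i true) else 0) := by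
        rw [← h3]; exact h2
      have h5 : ∑ ω : ι → Bool, R ω * (p : ℝ) * G (Function.update ω i true)
          = ∑ ω : ι → Bool, (if ω i = true then R ω * (p : ℝ) * G (Function.update ω i true) else 0)
          + ∑ ω : ι → Bool, (if ω i = false then R ω * (p : ℝ) * G (Function.update ω i true) else 0) := by
        rw [← Finset.sum_add_distrib]
        refine Finset.sum_congr rfl fun ω _ => ?_
        cases h : ω i <;> simp
      rw [← Finset.sum_div, h5, ← h1, ← h4]
      ring
    have hf : ∑ ω : ι → Bool, (if ω i = false then (∏ j, bw p (ω j)) * G ω else 0)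
        = ∑ ω, R ω * (1 - (p : ℝ)) * G (Function.update ω i false) / 2 := by
      have h1 : ∑ ω : ι → Bool, (if ω i = false then (∏ j, bw p (ω j)) * G ω else 0)
          = ∑ ω : ι → Bool, (if ω i = false then R ω * (1 - (p : ℝ)) * G (Function.update ω i false) else 0) := by
        refine Finset.sum_congr rfl fun ω _ => ?_
        by_cases h : ω i = false
        · have hu : Function.update ω i false = ω := by rw [← h, Function.update_eq_self]
          rw [if_pos h, if_pos h, hu, hprod', h, hbf]; ring
        · rw [if_neg h, if_neg h]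
      have h2 := hflip (fun ω => (∏ j, bw p (ω j)) * G ω) false
      have h3 : ∑ ω : ι → Bool, (if ω i = (!false) then (∏ j, bw p (Function.update ω i false j))
            * G (Function.update ω i false) else 0)
          = ∑ ω : ι → Bool, (if ω i = true then R ω * (1 - (p : ℝ)) * G (Function.update ω i false) else 0) := by
        refine Finset.sum_congr rfl fun ω _ => ?_
        rw [hprod, hbf]
        simp only [Bool.not_false]
        by_cases h : ω i = true
        · rw [if_pos h, if_pos h]; ring
        · rw [if_neg h, if_neg h]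
      have h4 : ∑ ω : ι → Bool, (if ω i = false then (∏ j, bw p (ω j)) * G ω else 0)
          = ∑ ω : ι → Bool, (if ω i = true then R ω * (1 - (p : ℝ)) * G (Function.update ω i false) else 0) := by
        rw [← h3]; exact h2
      have h5 : ∑ ω : ι → Bool, R ω * (1 - (p : ℝ)) * G (Function.update ω i false)
          = ∑ ω : ι → Bool, (if ω i = true then R ω * (1 - (p : ℝ)) * G (Function.update ω i false) else 0)
          + ∑ ω : ι → Bool, (if ω i = false then R ω * (1 - (p : ℝ)) * G (Function.update ω i false) else 0) := by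
        rw [← Finset.sum_add_distrib]
        refine Finset.sum_congr rfl fun ω _ => ?_
        cases h : ω i <;> simp
      rw [← Finset.sum_div, h5, ← h1, ← h4]
      ring
    rw [hcard G, ht, hf, ← Finset.sum_add_distrib]
    refine Finset.sum_congr rfl fun ω _ => ?_
    ring
  rw [A F, A (fun ω => (p : ℝ) * F (Function.update ω i true)
      + (1 - (p : ℝ)) * F (Function.update ω i false))]
  refine Finset.sum_congr rfl fun ω _ => ?_
  simp only [Function.update_idem]
  ring


section facts

variable (p : unitInterval)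

lemma ph_pq_pos (h0 : 0 < (p : ℝ)) (h1 : (p : ℝ) < 1) : 0 < (p : ℝ) * (1 - (p : ℝ)) :=
  mul_pos h0 (by linarith)

lemma ph_true (h0 : 0 < (p : ℝ)) (h1 : (p : ℝ) < 1) :
    (p : ℝ) * ph p true = Real.sqrt ((p : ℝ) * (1 - (p : ℝ))) := by
  have h := ph_pq_pos p h0 h1
  have hs : 0 < Real.sqrt ((p : ℝ) * (1 - (p : ℝ))) := Real.sqrt_pos.2 h
  unfold ph
  rw [if_pos rfl, mul_div_assoc', div_eq_iff hs.ne', Real.mul_self_sqrt h.le]

lemma ph_false (h0 : 0 < (p : ℝ)) (h1 : (p : ℝ) < 1) :
    (1 - (p : ℝ)) * ph p false = - Real.sqrt ((p : ℝ) * (1 - (p : ℝ))) := by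
  have h := ph_pq_pos p h0 h1
  have hs : 0 < Real.sqrt ((p : ℝ) * (1 - (p : ℝ))) := Real.sqrt_pos.2 h
  unfold ph
  rw [if_neg (by simp), mul_div_assoc', div_eq_iff hs.ne', neg_mul, Real.mul_self_sqrt h.le]
  ring

/-- the normalised coordinate has mean zero -/
lemma ph_mean (h0 : 0 < (p : ℝ)) (h1 : (p : ℝ) < 1) :
    (p : ℝ) * ph p true + (1 - (p : ℝ)) * ph p false = 0 := by
  rw [ph_true p h0 h1, ph_false p h0 h1]; ring

/-- the normalised coordinate has variance one -/
lemma ph_var (h0 : 0 < (p : ℝ)) (h1 : (p : ℝ) < 1) :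
    (p : ℝ) * ph p true ^ 2 + (1 - (p : ℝ)) * ph p false ^ 2 = 1 := by
  have h := ph_pq_pos p h0 h1
  have hs : 0 < Real.sqrt ((p : ℝ) * (1 - (p : ℝ))) := Real.sqrt_pos.2 h
  unfold ph
  have hne : (p : ℝ) ≠ 0 := h0.ne'
  have hne' : 1 - (p : ℝ) ≠ 0 := by linarith
  rw [if_pos rfl, if_neg (by simp), div_pow, div_pow, Real.sq_sqrt h.le]
  field_simp
  ring

/-- completeness for one coordinate -/
lemma ph_compl (h0 : 0 < (p : ℝ)) (h1 : (p : ℝ) < 1) (a b : Bool) :
    bw p b * (1 + ph p a * ph p b) = if a = b then 1 else 0 := by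
  have h := ph_pq_pos p h0 h1
  have h0' : (p : ℝ) ≠ 0 := h0.ne'
  have h1' : (1 - (p : ℝ)) ≠ 0 := by linarith
  have hs : 0 < Real.sqrt ((p : ℝ) * (1 - (p : ℝ))) := Real.sqrt_pos.2 h
  have hm : ph p a * ph p b
      = ((if a then 1 else 0) - (p : ℝ)) * ((if b then 1 else 0) - (p : ℝ))
        / ((p : ℝ) * (1 - (p : ℝ))) := by
    unfold ph
    rw [div_mul_div_comm, Real.mul_self_sqrt h.le]
  rw [hm]
  unfold bw
  cases a <;> cases b
  · simp only [Bool.false_eq_true, if_false, if_true]
    field_simp
    ring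
  · simp only [Bool.false_eq_true, if_false, if_true]
    field_simp
    ring
  · simp only [Bool.false_eq_true, if_false, if_true]
    rw [if_neg (by simp)]
    field_simp
    ring
  · simp only [if_true]
    field_simp
    ring

end facts

theorem chi_orth (p : unitInterval) (h0 : 0 < (p : ℝ)) (h1 : (p : ℝ) < 1) (S T : Finset ι) :
    Ex p (fun ω => chi p S ω * chi p T ω) = if S = T then 1 else 0 := by
  classical
  have e1 : ∀ ω : ι → Bool, chi p S ω * chi p T ω
      = ∏ i, ((if i ∈ S then ph p (ω i) else 1) * (if i ∈ T then ph p (ω i) else 1)) := by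
    intro ω
    unfold chi
    rw [Finset.prod_mul_distrib, Finset.prod_ite_mem, Finset.prod_ite_mem, Finset.univ_inter,
      Finset.univ_inter]
  simp_rw [e1]
  rw [Ex_prod p (fun i b => (if i ∈ S then ph p b else 1) * (if i ∈ T then ph p b else 1))]
  have e2 : ∀ i : ι, ((p : ℝ) * ((if i ∈ S then ph p true else 1) * (if i ∈ T then ph p true else 1))
      + (1 - (p : ℝ)) * ((if i ∈ S then ph p false else 1) * (if i ∈ T then ph p false else 1)))
      = if (i ∈ S ↔ i ∈ T) then 1 else 0 := by
    intro i
    have hm := ph_mean p h0 h1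
    have hv := ph_var p h0 h1
    by_cases hS : i ∈ S <;> by_cases hT : i ∈ T
    · simp only [hS, hT, if_true]; linarith
    · simp only [hS, hT, if_true, if_false]
      simpa using hm
    · simp only [hS, hT, if_true, if_false]
      simpa using hm
    · simp [hS, hT]
  simp_rw [e2]
  split_ifs with h
  · subst h
    simp
  · have : ∃ i, ¬ (i ∈ S ↔ i ∈ T) := by
      by_contra hc
      push Not at hc
      exact h (Finset.ext hc)
    obtain ⟨i, hi⟩ := this
    exact Finset.prod_eq_zero (Finset.mem_univ i) (by rw [if_neg hi])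

theorem fourier_expansion (p : unitInterval) (h0 : 0 < (p : ℝ)) (h1 : (p : ℝ) < 1)
    (f : (ι → Bool) → ℝ) (ω : ι → Bool) : f ω = ∑ S : Finset ι, fc p f S * chi p S ω := by
  classical
  have e1 : ∀ S : Finset ι, fc p f S * chi p S ω
      = ∑ η : ι → Bool, (∏ i, bw p (η i)) * f η * (chi p S η * chi p S ω) := by
    intro S
    unfold fc
    rw [Ex_eq_sum, Finset.sum_mul]
    refine Finset.sum_congr rfl fun η _ => ?_
    ring
  simp_rw [e1]
  rw [Finset.sum_comm]
  simp_rw [← Finset.mul_sum]
  have e2 : ∀ η : ι → Bool, ∑ S : Finset ι, chi p S η * chi p S ω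
      = ∏ i, (1 + ph p (η i) * ph p (ω i)) := by
    intro η
    rw [Finset.prod_one_add, Finset.powerset_univ]
    refine Finset.sum_congr rfl fun S _ => ?_
    unfold chi
    rw [Finset.prod_mul_distrib]
  simp_rw [e2]
  have e3 : ∀ η : ι → Bool, (∏ i, bw p (η i)) * f η * ∏ i, (1 + ph p (η i) * ph p (ω i))
      = if η = ω then f ω else 0 := by
    intro η
    have h2 : (∏ i, bw p (η i)) * f η * ∏ i, (1 + ph p (η i) * ph p (ω i))
        = f η * ∏ i, (bw p (η i) * (1 + ph p (ω i) * ph p (η i))) := by
      rw [Finset.prod_mul_distrib]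
      have h3 : ∀ i, ph p (η i) * ph p (ω i) = ph p (ω i) * ph p (η i) := fun i => mul_comm _ _
      simp_rw [h3]
      ring
    rw [h2]
    simp_rw [ph_compl p h0 h1]
    split_ifs with h
    · subst h; simp
    · have : ∃ i, ω i ≠ η i := by
        by_contra hc
        push Not at hc
        exact h (funext fun i => (hc i).symm)
      obtain ⟨i, hi⟩ := this
      rw [Finset.prod_eq_zero (Finset.mem_univ i) (by rw [if_neg hi]), mul_zero]
  simp_rw [e3]
  simp

/-- norm of a combination of characters -/
theorem Ex_comb_sq (p : unitInterval) (h0 : 0 < (p : ℝ)) (h1 : (p : ℝ) < 1)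
    (c : Finset ι → ℝ) (𝒮 : Finset (Finset ι)) :
    Ex p (fun ω => (∑ S ∈ 𝒮, c S * chi p S ω) ^ 2) = ∑ S ∈ 𝒮, c S ^ 2 := by
  have e1 : ∀ ω : ι → Bool, (∑ S ∈ 𝒮, c S * chi p S ω) ^ 2
      = ∑ S ∈ 𝒮, ∑ T ∈ 𝒮, (c S * c T) * (chi p S ω * chi p T ω) := by
    intro ω
    rw [sq, Finset.sum_mul_sum]
    refine Finset.sum_congr rfl fun S _ => Finset.sum_congr rfl fun T _ => ?_
    ring
  simp_rw [e1]
  rw [Ex_sum]
  refine Finset.sum_congr rfl fun S hS => ?_
  rw [Ex_sum]
  simp_rw [Ex_const_mul, chi_orth p h0 h1]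
  rw [Finset.sum_eq_single S]
  · simp [sq]
  · intro T _ hT
    rw [if_neg (Ne.symm hT), mul_zero]
  · intro h; exact absurd hS h

theorem parseval (p : unitInterval) (h0 : 0 < (p : ℝ)) (h1 : (p : ℝ) < 1)
    (f : (ι → Bool) → ℝ) : Ex p (fun ω => f ω ^ 2) = ∑ S : Finset ι, fc p f S ^ 2 := by
  rw [← Ex_comb_sq p h0 h1 (fc p f) Finset.univ]
  congr 1
  funext ω
  rw [← fourier_expansion p h0 h1 f ω]

lemma chi_update (p : unitInterval) (S : Finset ι) (i : ι) (h : i ∉ S) (ω : ι → Bool) (b : Bool) :
    chi p S (Function.update ω i b) = chi p S ω := by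
  unfold chi
  refine Finset.prod_congr rfl fun j hj => ?_
  rw [Function.update_of_ne (fun e : j = i => h (e ▸ hj))]

/-- the discrete derivative `D_i f = f - E_i f` has the Fourier coefficients of `f` at the sets
containing `i` -/
theorem fc_diff (p : unitInterval) (h0 : 0 < (p : ℝ)) (h1 : (p : ℝ) < 1) (f : (ι → Bool) → ℝ)
    (i : ι) (S : Finset ι) :
    fc p (fun ω => Real.sqrt ((p : ℝ) * (1 - (p : ℝ))) * ph p (ω i)
        * (f (Function.update ω i true) - f (Function.update ω i false))) S
      = if i ∈ S then fc p f S else 0 := by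
  have ht := ph_true p h0 h1
  have hf := ph_false p h0 h1
  have hm := ph_mean p h0 h1
  have hv := ph_var p h0 h1
  unfold fc
  set s := Real.sqrt ((p : ℝ) * (1 - (p : ℝ))) with hs
  split_ifs with hi
  · have hch : ∀ (ω : ι → Bool) (b : Bool), chi p S (Function.update ω i b)
        = ph p b * chi p (S.erase i) ω := by
      intro ω b
      have : chi p S (Function.update ω i b)
          = ph p (Function.update ω i b i) * chi p (S.erase i) (Function.update ω i b) := by
        unfold chi
        rw [Finset.mul_prod_erase S (fun j => ph p (Function.update ω i b j)) hi]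
      rw [this, Function.update_self, chi_update p _ i (Finset.notMem_erase i S)]
    rw [Ex_resample p i, Ex_resample p i (fun ω => f ω * chi p S ω)]
    congr 1
    funext ω
    simp only [hch, Function.update_idem, Function.update_self]
    set F1 := f (Function.update ω i true)
    set F0 := f (Function.update ω i false)
    set X := chi p (S.erase i) ω
    calc (p : ℝ) * (s * ph p true * (F1 - F0) * (ph p true * X))
          + (1 - (p : ℝ)) * (s * ph p false * (F1 - F0) * (ph p false * X))
        = s * (F1 - F0) * X * ((p : ℝ) * ph p true ^ 2 + (1 - (p : ℝ)) * ph p false ^ 2) := by ring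
      _ = s * F1 * X + (-s) * F0 * X := by rw [hv]; ring
      _ = (p : ℝ) * ph p true * F1 * X + (1 - (p : ℝ)) * ph p false * F0 * X := by rw [ht, hf]
      _ = _ := by ring
  · rw [Ex_resample p i]
    have : ∀ ω : ι → Bool,
        (p : ℝ) * ((fun ω => s * ph p (ω i) * (f (Function.update ω i true)
            - f (Function.update ω i false)) * chi p S ω) (Function.update ω i true))
          + (1 - (p : ℝ)) * ((fun ω => s * ph p (ω i) * (f (Function.update ω i true)
            - f (Function.update ω i false)) * chi p S ω) (Function.update ω i false)) = 0 := by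
      intro ω
      simp only [chi_update p S i hi, Function.update_idem, Function.update_self]
      set F1 := f (Function.update ω i true)
      set F0 := f (Function.update ω i false)
      set X := chi p S ω
      calc (p : ℝ) * (s * ph p true * (F1 - F0) * X) + (1 - (p : ℝ)) * (s * ph p false * (F1 - F0) * X)
          = s * (F1 - F0) * X * ((p : ℝ) * ph p true + (1 - (p : ℝ)) * ph p false) := by ring
        _ = 0 := by rw [hm, mul_zero]
    simp_rw [this]
    exact Ex_const p 0

end Pool.Agent.H41.QC
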