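import Pool.Agent.H41.QC.Path

/-! # QC module Gibbs: deterministic estimates for the Gibbs measure (paper 2.2, 2.4, 2.5) -/

namespace Pool.Agent.H41.QC

variable {d : ℕ}

lemma gibbs_W_pos (κ : Kind) (g : El d → ℕ) (N : ℕ) (B : Finset (V d)) : 0 < W κ g N B :=
  lt_of_lt_of_le one_pos (one_le_W κ g N B)

lemma gibbs_W_eq (κ : Kind) (g : El d → ℕ) (N : ℕ) (B : Finset (V d)) :
    W κ g N B = 1 + ∑ x ∈ B, ∑ s ∈ saws d N, Real.exp (-(En κ g x s : ℝ)) := rfl

lemma gibbs_avg_mono (κ : Kind) (g : El d → ℕ) (N : ℕ) (B : Finset (V d))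
    {F G : V d → (Fin N → Step d) → ℝ} (h : ∀ x ∈ B, ∀ s ∈ saws d N, F x s ≤ G x s) :
    avg κ g N B F ≤ avg κ g N B G := by
  unfold avg
  apply div_le_div_of_nonneg_right _ (gibbs_W_pos κ g N B).le
  exact Finset.sum_le_sum fun x hx => Finset.sum_le_sum fun s hs =>
    mul_le_mul_of_nonneg_left (h x hx s hs) (Real.exp_nonneg _)

lemma gibbs_avg_sum {ι : Type*} (κ : Kind) (g : El d → ℕ) (N : ℕ) (B : Finset (V d)) (Λ : Finset ι)
    (F : ι → V d → (Fin N → Step d) → ℝ) :
    ∑ e ∈ Λ, avg κ g N B (F e) = avg κ g N B (fun x s => ∑ e ∈ Λ, F e x s) := by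
  unfold avg
  rw [← Finset.sum_div, Finset.sum_comm]
  congr 1
  refine Finset.sum_congr rfl fun x _ => ?_
  rw [Finset.sum_comm]
  refine Finset.sum_congr rfl fun s _ => ?_
  rw [Finset.mul_sum]

lemma gibbs_avg_const_mul (κ : Kind) (g : El d → ℕ) (N : ℕ) (B : Finset (V d)) (c : ℝ)
    (F : V d → (Fin N → Step d) → ℝ) :
    avg κ g N B (fun x s => c * F x s) = c * avg κ g N B F := by
  unfold avg
  rw [← mul_div_assoc, Finset.mul_sum]
  congr 1
  refine Finset.sum_congr rfl fun x _ => ?_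
  rw [Finset.mul_sum]
  refine Finset.sum_congr rfl fun s _ => ?_
  ring

lemma gibbs_avg_const_le (κ : Kind) (g : El d → ℕ) (N : ℕ) (B : Finset (V d)) {c : ℝ} (hc : 0 ≤ c) :
    avg κ g N B (fun _ _ => c) ≤ c := by
  unfold avg
  rw [div_le_iff₀ (gibbs_W_pos κ g N B), gibbs_W_eq, mul_add, mul_one, Finset.mul_sum]
  have : ∑ x ∈ B, ∑ s ∈ saws d N, Real.exp (-(En κ g x s : ℝ)) * c =
      ∑ x ∈ B, c * ∑ s ∈ saws d N, Real.exp (-(En κ g x s : ℝ)) := by
    refine Finset.sum_congr rfl fun x _ => ?_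
    rw [Finset.mul_sum]
    refine Finset.sum_congr rfl fun s _ => ?_
    ring
  rw [this]
  linarith

open Classical in
/-- Gibbs probability that the element `e` is used -/
noncomputable def pu (κ : Kind) (g : El d → ℕ) (N : ℕ) (B : Finset (V d)) (e : El d) : ℝ :=
  avg κ g N B (fun x s => if ∃ t, el κ x s t = e then 1 else 0)

lemma pu_nonneg (κ : Kind) (g : El d → ℕ) (N : ℕ) (B : Finset (V d)) (e : El d) :
    0 ≤ pu κ g N B e := by
  classical
  unfold pu avg
  apply div_nonneg _ (gibbs_W_pos κ g N B).le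
  exact Finset.sum_nonneg fun x _ => Finset.sum_nonneg fun s _ =>
    mul_nonneg (Real.exp_nonneg _) (by dsimp only; split_ifs <;> norm_num)

lemma pu_le_one (κ : Kind) (g : El d → ℕ) (N : ℕ) (B : Finset (V d)) (e : El d) :
    pu κ g N B e ≤ 1 := by
  classical
  refine (gibbs_avg_mono κ g N B (G := fun _ _ => 1) fun x _ s _ => ?_).trans
    (gibbs_avg_const_le κ g N B zero_le_one)
  split_ifs <;> norm_num

open Classical in
lemma gibbs_En_update (κ : Kind) [DecidableEq (El d)] (g : El d → ℕ) {N : ℕ} (e : El d) (k : ℕ) (x : V d)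
    {s : Fin N → Step d} (hs : s ∈ saws d N) :
    En κ (Function.update g e k) x s = En κ (Function.update g e 0) x s +
      k * (if ∃ t, el κ x s t = e then 1 else 0) := by
  have hinj := el_injective κ x (mem_saws.1 hs)
  unfold En
  have h1 : ∀ t, Function.update g e k (el κ x s t) =
      Function.update g e 0 (el κ x s t) + if el κ x s t = e then k else 0 := by
    intro t
    by_cases h : el κ x s t = e
    · simp [h]
    · simp [h]
  simp_rw [h1]
  rw [Finset.sum_add_distrib]
  congr 1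
  by_cases h : ∃ t, el κ x s t = e
  · obtain ⟨t, ht⟩ := h
    rw [Finset.sum_eq_single t]
    · rw [if_pos ht, if_pos ⟨t, ht⟩, mul_one]
    · intro b _ hb
      rw [if_neg]
      intro h
      exact hb (hinj (h.trans ht.symm))
    · intro h
      exact absurd (Finset.mem_univ t) h
  · rw [if_neg h, mul_zero]
    apply Finset.sum_eq_zero
    intro t _
    rw [if_neg]
    intro h'
    exact h ⟨t, h'⟩

open Classical in
/-- mass of the paths using `e` when its penalty is zero -/
noncomputable def gibbsP (κ : Kind) [DecidableEq (El d)] (g : El d → ℕ) (N : ℕ) (B : Finset (V d)) (e : El d) : ℝ :=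
  ∑ x ∈ B, ∑ s ∈ saws d N, Real.exp (-(En κ (Function.update g e 0) x s : ℝ)) *
    (if ∃ t, el κ x s t = e then 1 else 0)

lemma gibbs_W_update (κ : Kind) [DecidableEq (El d)] (g : El d → ℕ) (N : ℕ) (B : Finset (V d))
    (e : El d) (k : ℕ) :
    W κ (Function.update g e k) N B =
      W κ (Function.update g e 0) N B - (1 - Real.exp (-(k : ℝ))) * gibbsP κ g N B e := by
  classical
  rw [gibbs_W_eq, gibbs_W_eq, gibbsP, add_sub_assoc]
  congr 1
  rw [Finset.mul_sum, ← Finset.sum_sub_distrib]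
  refine Finset.sum_congr rfl fun x _ => ?_
  rw [Finset.mul_sum, ← Finset.sum_sub_distrib]
  refine Finset.sum_congr rfl fun s hs => ?_
  rw [gibbs_En_update κ g e k x hs]
  by_cases hu : ∃ t, el κ x s t = e
  · simp only [hu, if_true, mul_one, Nat.cast_add]
    rw [neg_add, Real.exp_add]
    ring
  · simp only [hu, if_false, mul_zero, add_zero, sub_zero]

lemma gibbs_pu_update (κ : Kind) [DecidableEq (El d)] (g : El d → ℕ) (N : ℕ) (B : Finset (V d))
    (e : El d) (k : ℕ) :
    pu κ (Function.update g e k) N B e * W κ (Function.update g e k) N B =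
      Real.exp (-(k : ℝ)) * gibbsP κ g N B e := by
  classical
  unfold pu avg gibbsP
  rw [div_mul_cancel₀ _ (gibbs_W_pos _ _ _ _).ne', Finset.mul_sum]
  refine Finset.sum_congr rfl fun x _ => ?_
  rw [Finset.mul_sum]
  refine Finset.sum_congr rfl fun s hs => ?_
  rw [gibbs_En_update κ g e k x hs]
  by_cases hu : ∃ t, el κ x s t = e
  · simp only [hu, if_true, mul_one, Nat.cast_add]
    rw [neg_add, Real.exp_add]
    ring
  · simp only [hu, if_false, mul_zero]

lemma gibbsP_nonneg (κ : Kind) [DecidableEq (El d)] (g : El d → ℕ) (N : ℕ) (B : Finset (V d)) (e : El d) :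
    0 ≤ gibbsP κ g N B e := by
  classical
  unfold gibbsP
  exact Finset.sum_nonneg fun x _ => Finset.sum_nonneg fun s _ =>
    mul_nonneg (Real.exp_nonneg _) (by split_ifs <;> norm_num)

lemma gibbs_exp_le {x : ℝ} (h0 : 0 ≤ x) (h1 : x ≤ 1) :
    Real.exp (-x) ≤ 1 - x * (1 - Real.exp (-1)) := by
  have h := convexOn_exp.2 (Set.mem_univ (0 : ℝ)) (Set.mem_univ (-1 : ℝ)) (sub_nonneg.2 h1) h0 (by ring)
  simp only [smul_eq_mul, mul_zero, zero_add, mul_neg, mul_one, Real.exp_zero] at h
  linarith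

lemma gibbs_step (κ : Kind) [DecidableEq (El d)] (g : El d → ℕ) (N : ℕ) (B : Finset (V d)) (e : El d) (k : ℕ) :
    Lg κ (Function.update g e k) N B - Lg κ (Function.update g e (k + 1)) N B ≤
      pu κ (Function.update g e k) N B e := by
  set x := pu κ (Function.update g e k) N B e with hx
  have hx0 : 0 ≤ x := pu_nonneg _ _ _ _ _
  have hx1 : x ≤ 1 := pu_le_one _ _ _ _ _
  have hW := gibbs_W_pos κ (Function.update g e k) N B
  have hW' := gibbs_W_pos κ (Function.update g e (k + 1)) N B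
  have h1 := gibbs_pu_update κ g N B e k
  rw [← hx] at h1
  have h2 := gibbs_W_update κ g N B e k
  have h3 := gibbs_W_update κ g N B e (k + 1)
  have h4 : Real.exp (-((k + 1 : ℕ) : ℝ)) = Real.exp (-(k : ℝ)) * Real.exp (-1) := by
    rw [← Real.exp_add]; congr 1; push_cast; ring
  have h5 : W κ (Function.update g e (k + 1)) N B =
      W κ (Function.update g e k) N B * (1 - x * (1 - Real.exp (-1))) := by
    rw [h3, h4]
    have : W κ (Function.update g e k) N B * (1 - x * (1 - Real.exp (-1))) =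
      W κ (Function.update g e k) N B - (x * W κ (Function.update g e k) N B) * (1 - Real.exp (-1)) := by ring
    rw [this, h1, h2]
    ring
  unfold Lg
  rw [h5, Real.log_mul hW.ne']
  · have h6 : -x ≤ Real.log (1 - x * (1 - Real.exp (-1))) := by
      rw [Real.le_log_iff_exp_le]
      · exact gibbs_exp_le hx0 hx1
      · exact lt_of_lt_of_le (Real.exp_pos _) (gibbs_exp_le hx0 hx1)
    linarith
  · exact (lt_of_lt_of_le (Real.exp_pos _) (gibbs_exp_le hx0 hx1)).ne'

/-- paper 2.2: effect of setting the penalty of `e` to zero -/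
theorem Lg_update_zero (κ : Kind) [DecidableEq (El d)] (g : El d → ℕ) (N : ℕ) (B : Finset (V d))
    (e : El d) :
    0 ≤ Lg κ (Function.update g e 0) N B - Lg κ g N B ∧
      Lg κ (Function.update g e 0) N B - Lg κ g N B
        ≤ ∑ k ∈ Finset.range (g e), pu κ (Function.update g e k) N B e := by
  have hself : Function.update g e (g e) = g := Function.update_eq_self e g
  constructor
  · have h := gibbs_W_update κ g N B e (g e)
    rw [hself] at h
    unfold Lg
    rw [sub_nonneg]
    apply Real.log_le_log (gibbs_W_pos _ _ _ _)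
    rw [h]
    have h1 : Real.exp (-(g e : ℝ)) ≤ 1 := by
      rw [Real.exp_le_one_iff]; simp
    have := mul_nonneg (sub_nonneg.2 h1) (gibbsP_nonneg κ g N B e)
    linarith
  · have key : ∀ n : ℕ, Lg κ (Function.update g e 0) N B - Lg κ (Function.update g e n) N B ≤
        ∑ k ∈ Finset.range n, pu κ (Function.update g e k) N B e := by
      intro n
      induction n with
      | zero => simp
      | succ n ih =>
        rw [Finset.sum_range_succ]
        have := gibbs_step κ g N B e n
        linarith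
    have h := key (g e)
    rwa [hself] at h

/-- paper 2.4 -/
theorem sum_pu_le (κ : Kind) (g : El d → ℕ) (N : ℕ) (B : Finset (V d)) (Λ : Finset (El d)) :
    ∑ e ∈ Λ, pu κ g N B e ≤ N := by
  classical
  unfold pu
  rw [gibbs_avg_sum]
  refine (gibbs_avg_mono κ g N B (G := fun _ _ => (N : ℝ)) fun x _ s _ => ?_).trans
    (gibbs_avg_const_le κ g N B (Nat.cast_nonneg _))
  rw [Finset.sum_boole]
  have h1 : Λ.filter (fun e => ∃ t, el κ x s t = e) ⊆ Finset.univ.image (el κ x s) := by
    intro e he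
    rw [Finset.mem_filter] at he
    obtain ⟨t, ht⟩ := he.2
    exact Finset.mem_image.2 ⟨t, Finset.mem_univ _, ht⟩
  have h2 := (Finset.card_le_card h1).trans Finset.card_image_le
  simp only [Finset.card_univ, Fintype.card_fin] at h2
  exact_mod_cast h2

theorem sum_g_pu_le (κ : Kind) (g : El d → ℕ) (N : ℕ) (B : Finset (V d)) (Λ : Finset (El d)) :
    ∑ e ∈ Λ, (g e : ℝ) * pu κ g N B e ≤ avg κ g N B (fun x s => (En κ g x s : ℝ)) := by
  classical
  unfold pu
  simp_rw [← gibbs_avg_const_mul]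
  rw [gibbs_avg_sum]
  apply gibbs_avg_mono
  intro x _ s hs
  have hinj := el_injective κ x (mem_saws.1 hs)
  have h1 : ∑ e ∈ Λ, (g e : ℝ) * (if ∃ t, el κ x s t = e then 1 else 0) =
      ∑ e ∈ Λ.filter (fun e => ∃ t, el κ x s t = e), (g e : ℝ) := by
    rw [Finset.sum_filter]
    refine Finset.sum_congr rfl fun e _ => ?_
    split_ifs <;> simp
  rw [h1]
  have h2 : Λ.filter (fun e => ∃ t, el κ x s t = e) ⊆ Finset.univ.image (el κ x s) := by
    intro e he
    rw [Finset.mem_filter] at he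
    obtain ⟨t, ht⟩ := he.2
    exact Finset.mem_image.2 ⟨t, Finset.mem_univ _, ht⟩
  refine (Finset.sum_le_sum_of_subset_of_nonneg h2 fun e _ _ => Nat.cast_nonneg _).trans ?_
  rw [Finset.sum_image (fun a _ b _ h => hinj h)]
  unfold En
  push_cast
  exact le_rfl

/-- paper 2.5 -/
theorem avg_En_le (κ : Kind) (g : El d → ℕ) (N : ℕ) (B : Finset (V d)) :
    avg κ g N B (fun x s => (En κ g x s : ℝ)) ≤ 2 * Real.log (1 + B.card * (2 * d : ℝ) ^ N) := by
  set m := avg κ g N B (fun x s => (En κ g x s : ℝ)) / 2 with hm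
  have hW := gibbs_W_pos κ g N B
  have hmW : ∑ x ∈ B, ∑ s ∈ saws d N, Real.exp (-(En κ g x s : ℝ)) * (En κ g x s : ℝ) =
      2 * m * W κ g N B := by
    rw [hm]
    unfold avg
    field_simp
  -- the tangent line inequality
  have ht : ∀ y : ℝ, Real.exp m * (1 + y - m) ≤ Real.exp y := by
    intro y
    have h := Real.add_one_le_exp (y - m)
    have h2 := mul_le_mul_of_nonneg_left h (Real.exp_nonneg m)
    rw [← Real.exp_add] at h2
    have h3 : m + (y - m) = y := by ring
    rw [h3] at h2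
    calc Real.exp m * (1 + y - m) = Real.exp m * (y - m + 1) := by ring
      _ ≤ _ := h2
  have h0 := ht 0
  rw [Real.exp_zero] at h0
  have h1 : ∑ x ∈ B, ∑ s ∈ saws d N, Real.exp (-(En κ g x s : ℝ)) * (Real.exp m * (1 + (En κ g x s : ℝ) / 2 - m))
      ≤ ∑ x ∈ B, ∑ s ∈ saws d N, (1 : ℝ) := by
    refine Finset.sum_le_sum fun x _ => Finset.sum_le_sum fun s _ => ?_
    calc Real.exp (-(En κ g x s : ℝ)) * (Real.exp m * (1 + (En κ g x s : ℝ) / 2 - m)) ≤
        Real.exp (-(En κ g x s : ℝ)) * Real.exp ((En κ g x s : ℝ) / 2) :=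
          mul_le_mul_of_nonneg_left (ht _) (Real.exp_nonneg _)
      _ ≤ 1 := by
          rw [← Real.exp_add, Real.exp_le_one_iff]
          have : (0 : ℝ) ≤ (En κ g x s : ℝ) := Nat.cast_nonneg _
          linarith
  have h2 : ∑ x ∈ B, ∑ s ∈ saws d N, (1 : ℝ) ≤ B.card * (2 * d : ℝ) ^ N := by
    simp only [Finset.sum_const, nsmul_eq_mul, mul_one]
    exact mul_le_mul_of_nonneg_left (card_saws_le d N) (Nat.cast_nonneg _)
  have h3 : ∑ x ∈ B, ∑ s ∈ saws d N, Real.exp (-(En κ g x s : ℝ)) * (Real.exp m * (1 + (En κ g x s : ℝ) / 2 - m)) =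
      Real.exp m * ((1 - m) * (W κ g N B - 1) + (2 * m * W κ g N B) / 2) := by
    rw [← hmW, gibbs_W_eq, add_sub_cancel_left, Finset.mul_sum, Finset.sum_div, ← Finset.sum_add_distrib,
      Finset.mul_sum]
    refine Finset.sum_congr rfl fun x _ => ?_
    rw [Finset.mul_sum, Finset.sum_div, ← Finset.sum_add_distrib, Finset.mul_sum]
    refine Finset.sum_congr rfl fun s _ => ?_
    ring
  rw [h3] at h1
  have h4 : Real.exp m * W κ g N B ≤ 1 + B.card * (2 * d : ℝ) ^ N := by
    have e : Real.exp m * ((1 - m) * (W κ g N B - 1) + (2 * m * W κ g N B) / 2) =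
        Real.exp m * W κ g N B - Real.exp m * (1 + 0 - m) := by ring
    rw [e] at h1
    linarith
  have h5 : Real.exp m ≤ 1 + B.card * (2 * d : ℝ) ^ N := by
    have h6 := one_le_W κ g N B
    have h7 := mul_le_mul_of_nonneg_left h6 (Real.exp_nonneg m)
    linarith
  have h8 : m ≤ Real.log (1 + B.card * (2 * d : ℝ) ^ N) := by
    rw [Real.le_log_iff_exp_le (lt_of_lt_of_le (Real.exp_pos _) h5)]
    exact h5
  linarith

end Pool.Agent.H41.QC
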