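import Pool.Agent.H41.QC.Coupling

/-! # QC module Harris: Harris inequality and the square root trick (paper 7) -/

open MeasureTheory
open Pool.Agent.H17.IIC

namespace Pool.Agent.H41.QC

variable {ι : Type} [Fintype ι] [DecidableEq ι]

omit [DecidableEq ι] in
lemma harris_single (p : unitInterval) (ω : ι → Bool) :
    (prodBern ι p).real {ω} = ∏ i, (bern p).real {ω i} := by
  unfold prodBern
  rw [Measure.infinitePi_eq_pi, Measure.real, ← Set.univ_pi_singleton, Measure.pi_pi,
    ENNReal.toReal_prod]
  rfl

lemma harris_sum (p : unitInterval) (A : Set (ι → Bool)) :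
    (prodBern ι p).real A = ∑ ω, (prodBern ι p).real {ω} * A.indicator (fun _ => (1 : ℝ)) ω := by
  have hm : MeasurableSet A := (Set.toFinite A).measurableSet
  have h1 : (prodBern ι p).real A = ∫ ω, A.indicator (fun _ => (1 : ℝ)) ω ∂(prodBern ι p) :=
    (integral_indicator_one hm).symm
  rw [h1, integral_fintype (Integrable.of_finite)]
  simp only [smul_eq_mul]

theorem harris (p : unitInterval) {A B : Set (ι → Bool)} (hA : Incr A) (hB : Incr B) :
    (prodBern ι p).real A * (prodBern ι p).real B ≤ (prodBern ι p).real (A ∩ B) := by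
  have mono : ∀ {A : Set (ι → Bool)}, Incr A → Monotone (A.indicator (fun _ => (1 : ℝ))) := by
    intro A hA ω ω' h
    by_cases h1 : ω ∈ A
    · have h2 : ω' ∈ A := by
        refine hA ω ω' (fun e he => ?_) h1
        have := h e
        rw [he] at this
        exact Bool.eq_true_of_true_le this
      rw [Set.indicator_of_mem h1, Set.indicator_of_mem h2]
    · rw [Set.indicator_of_notMem h1]
      exact Set.indicator_nonneg (fun _ _ => zero_le_one) _
  have key := fkg (μ := fun ω : ι → Bool => (prodBern ι p).real {ω})
    (f := A.indicator (fun _ => (1 : ℝ))) (g := B.indicator (fun _ => (1 : ℝ)))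
    (fun _ => measureReal_nonneg) (fun _ => Set.indicator_nonneg (fun _ _ => zero_le_one) _)
    (fun _ => Set.indicator_nonneg (fun _ _ => zero_le_one) _) (mono hA) (mono hB) (by
      intro a b
      rw [harris_single, harris_single, harris_single, harris_single, ← Finset.prod_mul_distrib,
        ← Finset.prod_mul_distrib]
      apply le_of_eq
      apply Finset.prod_congr rfl
      intro i _
      simp only [Pi.inf_apply, Pi.sup_apply]
      cases a i <;> cases b i <;> simp [mul_comm])
  have e1 : ∑ ω : ι → Bool, (prodBern ι p).real {ω} = 1 := by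
    simp
  have e2 : ∑ ω : ι → Bool, (prodBern ι p).real {ω} *
      (A.indicator (fun _ => (1 : ℝ)) ω * B.indicator (fun _ => (1 : ℝ)) ω) =
      (prodBern ι p).real (A ∩ B) := by
    rw [harris_sum p (A ∩ B)]
    apply Finset.sum_congr rfl
    intro ω _
    congr 1
    by_cases h1 : ω ∈ A <;> by_cases h2 : ω ∈ B <;> simp [h1, h2]
  rw [← harris_sum, ← harris_sum, e1, e2, one_mul] at key
  exact key

omit [Fintype ι] [DecidableEq ι] in
lemma Incr.biUnion {κ : Type} (I : Finset κ) (A : κ → Set (ι → Bool))
    (hA : ∀ v ∈ I, Incr (A v)) : Incr (⋃ v ∈ I, A v) := by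
  intro ω ω' h h1
  simp only [Set.mem_iUnion] at h1 ⊢
  obtain ⟨v, hv, h2⟩ := h1
  exact ⟨v, hv, hA v hv ω ω' h h2⟩

/-- square root trick: complements of increasing events -/
theorem harris_compl (p : unitInterval) {κ : Type} (I : Finset κ) (A : κ → Set (ι → Bool))
    (hA : ∀ v ∈ I, Incr (A v)) :
    ∏ v ∈ I, (1 - (prodBern ι p).real (A v)) ≤ 1 - (prodBern ι p).real (⋃ v ∈ I, A v) := by
  classical
  induction I using Finset.induction_on with
  | empty => simp
  | insert v I hv ih =>
    have hI : ∀ v ∈ I, Incr (A v) := fun w hw => hA w (Finset.mem_insert_of_mem hw)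
    have ih' := ih hI
    have hv1 := hA v (Finset.mem_insert_self v I)
    rw [Finset.prod_insert hv, Finset.set_biUnion_insert]
    set B : Set (ι → Bool) := ⋃ x ∈ I, A x with hB
    have hBi : Incr B := Incr.biUnion I A hI
    have h1 := harris p hv1 hBi
    have hm : MeasurableSet B := (Set.toFinite B).measurableSet
    have h2 := measureReal_union_add_inter (μ := prodBern ι p) (s := A v) hm
      (measure_ne_top _ _) (measure_ne_top _ _)
    have h3 : 0 ≤ 1 - (prodBern ι p).real (A v) := by
      have := measureReal_le_one (μ := prodBern ι p) (s := A v)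
      linarith
    calc (1 - (prodBern ι p).real (A v)) * ∏ x ∈ I, (1 - (prodBern ι p).real (A x))
        ≤ (1 - (prodBern ι p).real (A v)) * (1 - (prodBern ι p).real B) :=
          mul_le_mul_of_nonneg_left ih' h3
      _ = 1 - (prodBern ι p).real (A v) - (prodBern ι p).real B +
          (prodBern ι p).real (A v) * (prodBern ι p).real B := by ring
      _ ≤ 1 - (prodBern ι p).real (A v ∪ B) := by linarith

end Pool.Agent.H41.QC
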