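import Pool.Agent.H41.QC.Rec

/-! # QC module SoftLower: typical small boxes in the soft model (paper 3.4) -/

open MeasureTheory

namespace Pool.Agent.H41.QC

/-- Chebyshev -/
lemma softLower_cheb {Ω : Type*} [MeasurableSpace Ω] (μ : Measure Ω) [IsProbabilityMeasure μ]
    (f : Ω → ℝ) (c t u A : ℝ) (hf : Integrable (fun ω => (f ω - c) ^ 2) μ)
    (hA : ∫ ω, (f ω - c) ^ 2 ∂μ ≤ A) (ht : 0 < t) (hu : u + t ≤ c) :
    μ.real {ω | f ω ≤ u} ≤ A / t ^ 2 := by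
  have h1 := mul_meas_ge_le_integral_of_nonneg (μ := μ) (f := fun ω => (f ω - c) ^ 2)
    (Filter.Eventually.of_forall fun ω => sq_nonneg _) hf (t ^ 2)
  have h2 : μ.real {ω | f ω ≤ u} ≤ μ.real {ω | t ^ 2 ≤ (f ω - c) ^ 2} := by
    refine measureReal_mono ?_ (measure_ne_top _ _)
    intro ω hω
    have hω' : f ω ≤ u := hω
    show t ^ 2 ≤ (f ω - c) ^ 2
    have : t ≤ c - f ω := by linarith
    nlinarith
  rw [le_div_iff₀ (by positivity)]
  nlinarith [mul_le_mul_of_nonneg_left h2 (sq_nonneg t)]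

theorem soft_lower (κ : Kind) (d : ℕ) (p : unitInterval) (hp : 0 < (p : ℝ)) {η : ℝ} (hη : 0 < η)
    (j : ℕ) :
    ∃ θ : ℝ, 0 < θ ∧ ∃ k₀ : ℕ, ∀ k : ℕ, k₀ ≤ k → j ≤ k → ∀ M : ℕ, 1 ≤ M → (M : ℝ) ≤ θ * 2 ^ k →
      (Q d p M).real {g | Lg κ g (2 ^ k) (box (0 : V d) (2 ^ (k - j))) ≤ (beta κ d p - η) * 2 ^ k}
        ≤ 1 / 8 := by
  obtain ⟨C, hC, hV⟩ := Vl_spec κ d p hp
  obtain ⟨C₀, hC₀, hvar⟩ := var_box d p hp
  set K : ℝ := (2 : ℝ) ^ (j * d) with hK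
  have hK0 : 0 < K := by positivity
  -- the choice of `θ`
  obtain ⟨θ, hθ0, hθ1, hθ2, hθ3⟩ : ∃ θ : ℝ, 0 < θ ∧ C * Real.sqrt θ ≤ η / 8 ∧
      Real.sqrt (K * (C₀ * θ)) ≤ η / 8 ∧ 4 * (C₀ * θ) / η ^ 2 ≤ 1 / 8 := by
    refine ⟨min ((η / 8 / C) ^ 2) (min ((η / 8) ^ 2 / (K * C₀)) (η ^ 2 / (32 * C₀))), ?_, ?_, ?_, ?_⟩
    · refine lt_min (by positivity) (lt_min (by positivity) (by positivity))
    · have h1 : Real.sqrt (min ((η / 8 / C) ^ 2) (min ((η / 8) ^ 2 / (K * C₀)) (η ^ 2 / (32 * C₀)))) ≤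
          η / 8 / C := by
        rw [← Real.sqrt_sq (show 0 ≤ η / 8 / C by positivity)]
        apply Real.sqrt_le_sqrt
        rw [Real.sqrt_sq (show 0 ≤ η / 8 / C by positivity)]
        exact min_le_left _ _
      calc _ ≤ C * (η / 8 / C) := mul_le_mul_of_nonneg_left h1 hC.le
        _ = η / 8 := by field_simp
    · have h1 : min ((η / 8 / C) ^ 2) (min ((η / 8) ^ 2 / (K * C₀)) (η ^ 2 / (32 * C₀))) ≤
          (η / 8) ^ 2 / (K * C₀) := (min_le_right _ _).trans (min_le_left _ _)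
      have h2 : K * (C₀ * min ((η / 8 / C) ^ 2) (min ((η / 8) ^ 2 / (K * C₀))
          (η ^ 2 / (32 * C₀)))) ≤ (η / 8) ^ 2 := by
        calc _ ≤ K * (C₀ * ((η / 8) ^ 2 / (K * C₀))) := by gcongr
          _ = (η / 8) ^ 2 := by field_simp
      exact (Real.sqrt_le_sqrt h2).trans (Real.sqrt_sq (show 0 ≤ η / 8 by positivity)).le
    · have h1 : min ((η / 8 / C) ^ 2) (min ((η / 8) ^ 2 / (K * C₀)) (η ^ 2 / (32 * C₀))) ≤
          η ^ 2 / (32 * C₀) := (min_le_right _ _).trans (min_le_right _ _)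
      calc _ ≤ 4 * (C₀ * (η ^ 2 / (32 * C₀))) / η ^ 2 := by gcongr
        _ = 1 / 8 := by field_simp; norm_num
  -- the choice of `k₀`
  obtain ⟨k₀, hk₀⟩ : ∃ k₀ : ℕ, (j * d : ℝ) ≤ η / 8 * 2 ^ k₀ := by
    obtain ⟨n, hn⟩ := pow_unbounded_of_one_lt ((j * d : ℝ) / (η / 8)) (show (1:ℝ) < 2 by norm_num)
    refine ⟨n, ?_⟩
    rw [div_lt_iff₀ (by positivity)] at hn
    linarith
  refine ⟨θ, hθ0, k₀, ?_⟩
  intro k hk hjk M hM hMθ
  have hnu : IsProbabilityMeasure (nu p M) := nu_prob p hM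
  have hQ : IsProbabilityMeasure (Q d p M) := by
    unfold Q
    infer_instance
  set N : ℝ := (2 : ℝ) ^ k with hN
  have hN0 : 0 < N := by positivity
  have hM0 : (0:ℝ) ≤ M := Nat.cast_nonneg _
  set m : ℕ := 2 ^ (k - j) with hm
  have hmN : 2 ^ j * m = 2 ^ k := by
    rw [hm, ← pow_add]
    congr 1
    omega
  -- the variance
  have hvar1 := hvar κ M (2 ^ k) (box (0 : V d) m) hM Nat.one_le_two_pow (by
    rw [card_box]
    push_cast
    apply pow_le_pow_left₀ (by positivity)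
    rw [hm]
    push_cast
    exact pow_le_pow_right₀ (by norm_num) (by omega))
  have hvar2 : C₀ * (M:ℝ) * ((2 ^ k : ℕ) : ℝ) ≤ C₀ * θ * N ^ 2 := by
    push_cast
    rw [← hN]
    calc C₀ * (M:ℝ) * N ≤ C₀ * (θ * N) * N := by gcongr
      _ = C₀ * θ * N ^ 2 := by ring
  have hvar3 := hvar1.trans hvar2
  -- the mean over the big box
  obtain ⟨I, hI1, hI2⟩ := box_cover (0 : V d) m (2 ^ j)
  rw [hmN] at hI2
  have hIne : I.Nonempty := by
    rw [← Finset.card_pos, hI1]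
    positivity
  have hIK : (I.card : ℝ) = K := by
    rw [hI1, hK]
    push_cast
    rw [pow_mul]
  have h1 := Phi_union_le κ p hM (2 ^ k) (box (0 : V d) (2 ^ k)) I hIne m hI2 hvar3
  obtain ⟨-, -, hV3⟩ := hV M hM
  have h2 := hV3 k
  have h3 := beta_le κ d p hp hM
  have h4 : Real.sqrt (M / 2 ^ k) ≤ Real.sqrt θ := by
    apply Real.sqrt_le_sqrt
    rw [div_le_iff₀ (by positivity)]
    exact hMθ
  have h5 : beta κ d p - η / 8 ≤ aa κ d p M k := by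
    have h6 : C * Real.sqrt (M / 2 ^ k) ≤ η / 8 :=
      (mul_le_mul_of_nonneg_left h4 hC.le).trans hθ1
    linarith
  have h6 : (beta κ d p - η / 8) * N ≤ Phi κ p M (2 ^ k) (box (0 : V d) (2 ^ k)) := by
    unfold aa at h5
    rwa [le_div_iff₀ (by positivity)] at h5
  have h7 : Real.log I.card ≤ η / 8 * N := by
    rw [hIK, hK, Real.log_pow]
    have e1 : Real.log 2 ≤ 1 := by
      have := Real.log_two_lt_d9
      linarith
    have e2 : (j * d : ℝ) ≤ η / 8 * N := by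
      refine hk₀.trans ?_
      apply mul_le_mul_of_nonneg_left _ (by positivity)
      exact pow_le_pow_right₀ (by norm_num) hk
    push_cast
    have e3 : (0:ℝ) ≤ (j:ℝ) * d := by positivity
    have e4 := mul_le_mul_of_nonneg_left e1 e3
    linarith only [e2, e4]
  have h8 : Real.sqrt (I.card * (C₀ * θ * N ^ 2)) ≤ η / 8 * N := by
    have e1 : (I.card : ℝ) * (C₀ * θ * N ^ 2) = (K * (C₀ * θ)) * N ^ 2 := by
      rw [hIK]; ring
    rw [e1, Real.sqrt_mul (by positivity), Real.sqrt_sq hN0.le]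
    exact mul_le_mul_of_nonneg_right hθ2 hN0.le
  have h9 : (beta κ d p - η) * N + η / 2 * N ≤ Phi κ p M (2 ^ k) (box (0 : V d) m) := by
    have h10 : 0 ≤ η * N := by positivity
    linarith only [h1, h6, h7, h8, h10]
  -- Chebyshev
  have h10 := softLower_cheb (Q d p M) (fun g => Lg κ g (2 ^ k) (box (0 : V d) m))
    (Phi κ p M (2 ^ k) (box (0 : V d) m)) (η / 2 * N) ((beta κ d p - η) * N) (C₀ * θ * N ^ 2)
    (Lg_sq_integrable κ p hM (2 ^ k) (box (0 : V d) m) _) hvar3 (by positivity) h9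
  refine h10.trans ?_
  calc C₀ * θ * N ^ 2 / (η / 2 * N) ^ 2 = 4 * (C₀ * θ) / η ^ 2 := by field_simp; norm_num
    _ ≤ 1 / 8 := hθ3

end Pool.Agent.H41.QC
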