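import Pool.Agent.H41.QC.Coupling
import Pool.Agent.H41.QC.SoftLower

/-! # QC module Heavy: near-top paths with few closed elements (paper 4) -/

open MeasureTheory
open Pool.Agent.H17.IIC

namespace Pool.Agent.H41.QC

variable {d : ℕ}

lemma heavy_mul_ncl_le (κ : Kind) (g : El d → ℕ) (x : V d) {N : ℕ} (h : ℕ)
    (s : Fin N → Step d) :
    h * ncl κ (fun e => decide (g e < h)) x s ≤ En κ g x s := by
  unfold ncl En
  have h1 : (Finset.univ.filter (fun t => decide (g (el κ x s t) < h) = false)).card • h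
      ≤ ∑ t ∈ Finset.univ.filter (fun t => decide (g (el κ x s t) < h) = false),
        g (el κ x s t) := by
    apply Finset.card_nsmul_le_sum
    intro t ht
    rw [Finset.mem_filter] at ht
    have := ht.2
    simp only [decide_eq_false_iff_not, not_lt] at this
    exact this
  have h2 : ∑ t ∈ Finset.univ.filter (fun t => decide (g (el κ x s t) < h) = false),
        g (el κ x s t) ≤ ∑ t, g (el κ x s t) :=
    Finset.sum_le_sum_of_subset (Finset.filter_subset _ _)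
  calc h * (Finset.univ.filter (fun t => decide (g (el κ x s t) < h) = false)).card
      = (Finset.univ.filter (fun t => decide (g (el κ x s t) < h) = false)).card • h := by
        rw [smul_eq_mul, mul_comm]
    _ ≤ _ := h1.trans h2

lemma heavy_cnt_eq (κ : Kind) (ω : El d → Bool) (N : ℕ) (B : Finset (V d)) (H : ℕ) :
    (cnt κ ω N B H : ℝ) = ∑ x ∈ B, ∑ s ∈ saws d N, if ncl κ ω x s ≤ H then (1 : ℝ) else 0 := by
  unfold cnt
  push_cast
  apply Finset.sum_congr rfl
  intro x _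
  rw [Finset.card_filter]
  push_cast
  rfl

/-- deterministic part: if the log partition function is large then many paths have at most `H`
elements with `g ≥ h` -/
theorem cnt_of_Lg (κ : Kind) (g : El d → ℕ) (N : ℕ) (B : Finset (V d)) {h H : ℕ} (hh : 1 ≤ h)
    (hH : 4 * Real.log (1 + B.card * (2 * d : ℝ) ^ N) ≤ h * H) :
    Real.exp (Lg κ g N B) / 2 - 1 ≤ (cnt κ (fun e => decide (g e < h)) N B H : ℝ) := by
  set Z : ℝ := 1 + B.card * (2 * d : ℝ) ^ N with hZ
  have hZ1 : 1 ≤ Z := by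
    rw [hZ]
    have : (0 : ℝ) ≤ B.card * (2 * d : ℝ) ^ N := by positivity
    linarith
  have hW : 1 ≤ W κ g N B := one_le_W κ g N B
  have hexp : Real.exp (Lg κ g N B) = W κ g N B := by
    unfold Lg
    exact Real.exp_log (by linarith)
  have hlog : 0 ≤ Real.log Z := Real.log_nonneg hZ1
  have hE : Real.exp (-((h : ℝ) * H)) ≤ 1 / Z := by
    have : Real.exp (-((h : ℝ) * H)) ≤ Real.exp (- Real.log Z) := by
      apply Real.exp_le_exp.mpr
      linarith
    rw [Real.exp_neg (Real.log Z), Real.exp_log (by linarith)] at this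
    rwa [one_div]
  have hterm : ∀ x ∈ B, ∀ s ∈ saws d N, Real.exp (-(En κ g x s : ℝ))
      ≤ (if ncl κ (fun e => decide (g e < h)) x s ≤ H then (1 : ℝ) else 0)
        + Real.exp (-((h : ℝ) * H)) := by
    intro x _ s _
    split_ifs with hc
    · have h1 : Real.exp (-(En κ g x s : ℝ)) ≤ 1 := by
        rw [Real.exp_le_one_iff]
        have : (0 : ℝ) ≤ (En κ g x s : ℝ) := Nat.cast_nonneg _
        linarith
      have h2 := Real.exp_pos (-((h : ℝ) * H))
      linarith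
    · have h1 : h * H ≤ En κ g x s :=
        (Nat.mul_le_mul_left h (by omega)).trans (heavy_mul_ncl_le κ g x h s)
      have h2 : ((h : ℝ) * H) ≤ (En κ g x s : ℝ) := by exact_mod_cast h1
      rw [zero_add]
      apply Real.exp_le_exp.mpr
      linarith
  have hsum : W κ g N B ≤ 1 + ((cnt κ (fun e => decide (g e < h)) N B H : ℝ)
      + B.card * ((saws d N).card * Real.exp (-((h : ℝ) * H)))) := by
    unfold W S
    rw [heavy_cnt_eq]
    have : ∑ x ∈ B, ∑ s ∈ saws d N, Real.exp (-(En κ g x s : ℝ))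
        ≤ ∑ x ∈ B, ∑ s ∈ saws d N,
          ((if ncl κ (fun e => decide (g e < h)) x s ≤ H then (1 : ℝ) else 0)
            + Real.exp (-((h : ℝ) * H))) :=
      Finset.sum_le_sum fun x hx => Finset.sum_le_sum fun s hs => hterm x hx s hs
    have h2 : ∑ x ∈ B, ∑ s ∈ saws d N,
          ((if ncl κ (fun e => decide (g e < h)) x s ≤ H then (1 : ℝ) else 0)
            + Real.exp (-((h : ℝ) * H)))
        = (∑ x ∈ B, ∑ s ∈ saws d N,
          (if ncl κ (fun e => decide (g e < h)) x s ≤ H then (1 : ℝ) else 0))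
          + B.card * ((saws d N).card * Real.exp (-((h : ℝ) * H))) := by
      simp only [Finset.sum_add_distrib, Finset.sum_const, nsmul_eq_mul]
    linarith
  have hsm : (B.card : ℝ) * ((saws d N).card * Real.exp (-((h : ℝ) * H))) ≤ 1 := by
    have h1 : (B.card : ℝ) * (saws d N).card ≤ Z := by
      have h0 : (B.card : ℝ) * (saws d N).card ≤ B.card * (2 * d : ℝ) ^ N :=
        mul_le_mul_of_nonneg_left (card_saws_le d N) (Nat.cast_nonneg _)
      rw [hZ]; linarith
    calc (B.card : ℝ) * ((saws d N).card * Real.exp (-((h : ℝ) * H)))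
        = (B.card : ℝ) * (saws d N).card * Real.exp (-((h : ℝ) * H)) := by ring
      _ ≤ Z * (1 / Z) := mul_le_mul h1 hE (Real.exp_pos _).le (by linarith)
      _ = 1 := by field_simp
  have hc0 : (0 : ℝ) ≤ (cnt κ (fun e => decide (g e < h)) N B H : ℝ) := Nat.cast_nonneg _
  rw [hexp]
  linarith

lemma heavy_measurable_ncl (κ : Kind) {N : ℕ} (x : V d) (s : Fin N → Step d) :
    Measurable (fun ω : El d → Bool => ncl κ ω x s) := by
  unfold ncl
  simp only [Finset.card_filter]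
  apply Finset.measurable_sum
  intro t _
  apply Measurable.ite _ measurable_const measurable_const
  exact measurableSet_eq_fun (measurable_pi_apply (el κ x s t)) measurable_const

lemma heavy_measurable_cnt (κ : Kind) (N : ℕ) (B : Finset (V d)) (H : ℕ) :
    Measurable (fun ω : El d → Bool => (cnt κ ω N B H : ℝ)) := by
  simp only [heavy_cnt_eq]
  apply Finset.measurable_sum
  intro x _
  apply Finset.measurable_sum
  intro s _
  apply Measurable.ite _ measurable_const measurable_const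
  exact (heavy_measurable_ncl κ x s) (measurableSet_Iic (a := H))

lemma heavy_ncl_anti (κ : Kind) {ω ω' : El d → Bool} (h : ∀ e, ω e = true → ω' e = true)
    {N : ℕ} (x : V d) (s : Fin N → Step d) : ncl κ ω' x s ≤ ncl κ ω x s := by
  unfold ncl
  apply Finset.card_le_card
  intro t ht
  rw [Finset.mem_filter] at ht ⊢
  refine ⟨ht.1, ?_⟩
  by_contra hc
  have h1 : ω (el κ x s t) = true := by simpa using hc
  have h2 := h _ h1
  rw [h2] at ht
  exact absurd ht.2 (by simp)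

lemma heavy_cnt_mono (κ : Kind) {ω ω' : El d → Bool} (h : ∀ e, ω e = true → ω' e = true)
    (N : ℕ) (B : Finset (V d)) (H : ℕ) : cnt κ ω N B H ≤ cnt κ ω' N B H := by
  unfold cnt
  apply Finset.sum_le_sum
  intro x _
  apply Finset.card_le_card
  intro s hs
  rw [Finset.mem_filter] at hs ⊢
  exact ⟨hs.1, (heavy_ncl_anti κ h x s).trans hs.2⟩

lemma heavy_log_bound (d k j : ℕ) :
    Real.log (1 + ((2 ^ (k - j)) ^ d : ℕ) * (2 * d : ℝ) ^ (2 ^ k))
      ≤ (3 * d + 1) * 2 ^ k := by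
  have hN1 : (1 : ℝ) ≤ 2 ^ k := one_le_pow₀ (by norm_num)
  have hk : (k : ℝ) ≤ 2 ^ k := by exact_mod_cast Nat.lt_two_pow_self.le
  have h1 : (((2 ^ (k - j)) ^ d : ℕ) : ℝ) ≤ Real.exp (d * 2 ^ k) := by
    push_cast
    have h2 : ((2 : ℝ) ^ (k - j)) ≤ Real.exp (2 ^ k) := by
      have h3 : ((2 : ℝ) ^ (k - j)) ≤ 2 ^ k := pow_le_pow_right₀ (by norm_num) (Nat.sub_le _ _)
      have h4 := Real.add_one_le_exp ((2 : ℝ) ^ k)
      linarith
    calc ((2 : ℝ) ^ (k - j)) ^ d ≤ (Real.exp (2 ^ k)) ^ d :=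
          pow_le_pow_left₀ (by positivity) h2 d
      _ = Real.exp (d * 2 ^ k) := by rw [← Real.exp_nat_mul]
  have h2 : ((2 * d : ℝ)) ^ (2 ^ k) ≤ Real.exp (2 * d * 2 ^ k) := by
    have h3 : (2 * d : ℝ) ≤ Real.exp (2 * d) := by
      have := Real.add_one_le_exp (2 * d : ℝ)
      linarith
    calc ((2 * d : ℝ)) ^ (2 ^ k) ≤ (Real.exp (2 * d)) ^ (2 ^ k) :=
          pow_le_pow_left₀ (by positivity) h3 _
      _ = Real.exp (2 * d * 2 ^ k) := by
          rw [← Real.exp_nat_mul]; push_cast; ring_nf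
  have h3 : (((2 ^ (k - j)) ^ d : ℕ) : ℝ) * (2 * d : ℝ) ^ (2 ^ k)
      ≤ Real.exp (3 * d * 2 ^ k) := by
    calc (((2 ^ (k - j)) ^ d : ℕ) : ℝ) * (2 * d : ℝ) ^ (2 ^ k)
        ≤ Real.exp (d * 2 ^ k) * Real.exp (2 * d * 2 ^ k) :=
          mul_le_mul h1 h2 (by positivity) (Real.exp_pos _).le
      _ = Real.exp (3 * d * 2 ^ k) := by rw [← Real.exp_add]; ring_nf
  have h4 : 1 + (((2 ^ (k - j)) ^ d : ℕ) : ℝ) * (2 * d : ℝ) ^ (2 ^ k)
      ≤ Real.exp ((3 * d + 1) * 2 ^ k) := by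
    have h5 : (1 : ℝ) ≤ Real.exp (3 * d * 2 ^ k) := Real.one_le_exp (by positivity)
    have h6 : (2 : ℝ) ≤ Real.exp (2 ^ k) := by
      have := Real.add_one_le_exp ((2 : ℝ) ^ k)
      linarith
    calc 1 + (((2 ^ (k - j)) ^ d : ℕ) : ℝ) * (2 * d : ℝ) ^ (2 ^ k)
        ≤ Real.exp (3 * d * 2 ^ k) + Real.exp (3 * d * 2 ^ k) := by linarith
      _ = Real.exp (3 * d * 2 ^ k) * 2 := by ring
      _ ≤ Real.exp (3 * d * 2 ^ k) * Real.exp (2 ^ k) :=
          mul_le_mul_of_nonneg_left h6 (Real.exp_pos _).le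
      _ = Real.exp ((3 * d + 1) * 2 ^ k) := by rw [← Real.exp_add]; ring_nf
  rw [Real.log_le_iff_le_exp (by positivity)]
  exact h4

lemma heavy_Q_prob (d : ℕ) (p : unitInterval) {M : ℕ} (hM : 1 ≤ M) :
    IsProbabilityMeasure (Q d p M) := by
  haveI : IsProbabilityMeasure (nu p M) := nu_prob p hM
  unfold Q
  infer_instance

theorem heavy (κ : Kind) (d : ℕ) (p p₁ : unitInterval) (hp : 0 < (p : ℝ)) (hpp : (p : ℝ) < p₁)
    {η : ℝ} (hη : 0 < η) (hβ : 2 * η ≤ beta κ d p) (j : ℕ) :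
    ∃ H k₀ : ℕ, ∀ k : ℕ, k₀ ≤ k → j ≤ k →
      3 / 4 ≤ (prodBern (El d) p₁).real {ω | Real.exp ((beta κ d p - 2 * η) * 2 ^ k)
        ≤ (cnt κ ω (2 ^ k) (box (0 : V d) (2 ^ (k - j))) H : ℝ)} := by
  obtain ⟨θ, hθ, k₁, hk₁⟩ := soft_lower κ d p hp hη j
  set ε : ℝ := (p₁ : ℝ) - p with hε
  have hε0 : 0 < ε := by rw [hε]; linarith
  have hε1 : ε ≤ 1 := by
    have h1 := p₁.2.2
    rw [hε]; linarith
  have hp1 : (p : ℝ) < 1 := lt_of_lt_of_le hpp p₁.2.2
  -- thresholds
  obtain ⟨k₂, hk₂⟩ : ∃ k₂ : ℕ, ∀ k : ℕ, k₂ ≤ k → 2 / θ ≤ 2 ^ k ∧ 2 / η ≤ (2 : ℝ) ^ k := by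
    obtain ⟨a, ha⟩ := pow_unbounded_of_one_lt (2 / θ) (by norm_num : (1 : ℝ) < 2)
    obtain ⟨b, hb⟩ := pow_unbounded_of_one_lt (2 / η) (by norm_num : (1 : ℝ) < 2)
    refine ⟨max a b, fun k hk => ⟨ha.le.trans ?_, hb.le.trans ?_⟩⟩
    · exact pow_le_pow_right₀ (by norm_num) ((le_max_left a b).trans hk)
    · exact pow_le_pow_right₀ (by norm_num) ((le_max_right a b).trans hk)
  obtain ⟨H, hH⟩ := exists_nat_ge (8 * (3 * d + 1) / (ε * θ))
  refine ⟨H, max k₁ k₂, fun k hk hjk => ?_⟩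
  have hkk₁ : k₁ ≤ k := (le_max_left _ _).trans hk
  obtain ⟨hNθ, hNη⟩ := hk₂ k ((le_max_right _ _).trans hk)
  set N : ℝ := (2 : ℝ) ^ k with hN
  have hN0 : 0 < N := by rw [hN]; positivity
  have hNθ' : 2 ≤ θ * N := by
    rw [div_le_iff₀ hθ] at hNθ; linarith
  have hNη' : 2 ≤ η * N := by
    rw [div_le_iff₀ hη] at hNη; linarith
  -- M and h
  set M : ℕ := ⌊θ * N⌋₊ with hM
  have hM1 : 1 ≤ M := by
    rw [hM]
    exact Nat.le_floor (by push_cast; linarith)
  have hMle : (M : ℝ) ≤ θ * N := Nat.floor_le (by positivity)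
  have hMge : θ * N / 2 ≤ M := by
    have := Nat.lt_floor_add_one (θ * N)
    rw [← hM] at this
    linarith
  have hM0 : (0 : ℝ) < M := by exact_mod_cast hM1
  set h : ℕ := ⌈ε * M⌉₊ with hh
  have hh1 : 1 ≤ h := by
    rw [hh]
    exact Nat.one_le_ceil_iff.mpr (by positivity)
  have hhM : h ≤ M := by
    rw [hh]
    apply Nat.ceil_le.mpr
    exact mul_le_of_le_one_left hM0.le hε1
  have hhge : ε * M ≤ h := Nat.le_ceil _
  have hhlt : ((h - 1 : ℕ) : ℝ) ≤ ε * M := by
    have h1 : (h : ℝ) < ε * M + 1 := Nat.ceil_lt_add_one (by positivity)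
    rw [Nat.cast_sub hh1]
    push_cast
    linarith
  -- the Bernoulli parameter
  set r : ℝ := 1 - 1 / (M : ℝ) with hr
  have hr0 : 0 ≤ r := by
    rw [hr, sub_nonneg, div_le_one hM0]
    exact_mod_cast hM1
  have hr1 : r ≤ 1 := by
    rw [hr]
    have : 0 ≤ 1 / (M : ℝ) := by positivity
    linarith
  have hrp0 : 0 ≤ r ^ (h - 1) := pow_nonneg hr0 _
  have hrp1 : r ^ (h - 1) ≤ 1 := pow_le_one₀ hr0 hr1
  have hrpow : 1 - ε ≤ r ^ (h - 1) := by
    have h1 := one_add_mul_le_pow (a := -(1 / (M : ℝ))) (by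
      have : 1 / (M : ℝ) ≤ 1 := by
        rw [div_le_one hM0]; exact_mod_cast hM1
      linarith) (h - 1)
    have h2 : (1 : ℝ) + -(1 / (M : ℝ)) = r := by rw [hr]; ring
    rw [h2] at h1
    have h3 : ((h - 1 : ℕ) : ℝ) * (1 / (M : ℝ)) ≤ ε := by
      rw [mul_one_div, div_le_iff₀ hM0]
      exact hhlt
    have h4 : 1 + ((h - 1 : ℕ) : ℝ) * -(1 / (M : ℝ)) = 1 - ((h - 1 : ℕ) : ℝ) * (1 / (M : ℝ)) := by
      ring
    rw [h4] at h1
    linarith
  have hp0 := p.2.1
  have hp'0 : 0 ≤ 1 - (1 - (p : ℝ)) * r ^ (h - 1) :=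
    sub_nonneg.2 (mul_le_one₀ (by linarith) hrp0 hrp1)
  have hp'1 : 1 - (1 - (p : ℝ)) * r ^ (h - 1) ≤ 1 :=
    sub_le_self _ (mul_nonneg (by linarith) hrp0)
  set p' : unitInterval := ⟨1 - (1 - (p : ℝ)) * r ^ (h - 1), hp'0, hp'1⟩ with hp'
  have hp'v : (p' : ℝ) = 1 - (1 - (p : ℝ)) * (1 - 1 / (M : ℝ)) ^ (h - 1) := by
    rw [hp', ← hr]
  have hp'le : (p' : ℝ) ≤ p₁ := by
    rw [hp'v, ← hr]
    have h1 : (1 - (p : ℝ)) * (1 - ε) ≤ (1 - (p : ℝ)) * r ^ (h - 1) :=
      mul_le_mul_of_nonneg_left hrpow (by linarith)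
    have h2 : (p₁ : ℝ) = p + ε := by rw [hε]; ring
    have h3 : 0 ≤ (p : ℝ) * ε := mul_nonneg hp0 hε0.le
    linarith only [h1, h2, h3]
  -- events
  set B := box (0 : V d) (2 ^ (k - j)) with hB
  set A : Set (El d → Bool) := {ω | Real.exp ((beta κ d p - 2 * η) * 2 ^ k)
        ≤ (cnt κ ω (2 ^ k) B H : ℝ)} with hA
  have hAm : MeasurableSet A := measurableSet_le measurable_const (heavy_measurable_cnt κ _ _ _)
  have hAI : Incr A := by
    intro ω ω' hω hωA
    have hωA' : Real.exp ((beta κ d p - 2 * η) * 2 ^ k) ≤ (cnt κ ω (2 ^ k) B H : ℝ) := hωA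
    show Real.exp ((beta κ d p - 2 * η) * 2 ^ k) ≤ (cnt κ ω' (2 ^ k) B H : ℝ)
    exact hωA'.trans (by exact_mod_cast heavy_cnt_mono κ hω _ _ _)
  have hsoft := hk₁ k hkk₁ hjk M hM1 hMle
  -- deterministic inclusion
  have hincl : ∀ g : El d → ℕ, ¬ (Lg κ g (2 ^ k) B ≤ (beta κ d p - η) * 2 ^ k) →
      (fun e => decide (g e < h)) ∈ A := by
    intro g hg
    rw [not_le] at hg
    have hcard : (B.card : ℕ) = (2 ^ (k - j)) ^ d := by rw [hB, card_box]
    have hlog : 4 * Real.log (1 + B.card * (2 * d : ℝ) ^ (2 ^ k)) ≤ h * H := by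
      rw [hcard]
      have h1 := heavy_log_bound d k j
      have h2 : 4 * ((3 * (d : ℝ) + 1) * 2 ^ k) ≤ h * H := by
        have h3 : ε * θ * N / 2 ≤ h := by
          calc ε * θ * N / 2 = ε * (θ * N / 2) := by ring
            _ ≤ ε * M := mul_le_mul_of_nonneg_left hMge hε0.le
            _ ≤ h := hhge
        have h4 : 8 * (3 * (d : ℝ) + 1) ≤ H * (ε * θ) := by
          rwa [div_le_iff₀ (by positivity)] at hH
        calc 4 * ((3 * (d : ℝ) + 1) * 2 ^ k) = (8 * (3 * (d : ℝ) + 1)) * (N / 2) := by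
              rw [hN]; ring
          _ ≤ (H * (ε * θ)) * (N / 2) := mul_le_mul_of_nonneg_right h4 (by positivity)
          _ = (ε * θ * N / 2) * H := by ring
          _ ≤ h * H := mul_le_mul_of_nonneg_right h3 (Nat.cast_nonneg _)
      linarith
    have hc := cnt_of_Lg κ g (2 ^ k) B hh1 hlog
    show Real.exp ((beta κ d p - 2 * η) * 2 ^ k)
      ≤ (cnt κ (fun e => decide (g e < h)) (2 ^ k) B H : ℝ)
    refine le_trans ?_ hc
    have h5 : Real.exp ((beta κ d p - η) * 2 ^ k) ≤ Real.exp (Lg κ g (2 ^ k) B) :=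
      Real.exp_le_exp.mpr hg.le
    have h6 : Real.exp ((beta κ d p - η) * 2 ^ k)
        = Real.exp ((beta κ d p - 2 * η) * 2 ^ k) * Real.exp (η * N) := by
      rw [← Real.exp_add]; congr 1; rw [hN]; ring
    have h7 : (4 : ℝ) ≤ Real.exp (η * N) := by
      have h8 : Real.exp 2 ≤ Real.exp (η * N) := Real.exp_le_exp.mpr hNη'
      have h9 : (4 : ℝ) ≤ Real.exp 2 := by
        have h10 : (2 : ℝ) ≤ Real.exp 1 := by
          have := Real.add_one_le_exp (1 : ℝ); linarith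
        have h11 : Real.exp 2 = Real.exp 1 * Real.exp 1 := by rw [← Real.exp_add]; norm_num
        rw [h11]; nlinarith only [h10]
      linarith
    have h12 : 1 ≤ Real.exp ((beta κ d p - 2 * η) * 2 ^ k) := by
      apply Real.one_le_exp
      have : 0 ≤ beta κ d p - 2 * η := by linarith
      positivity
    nlinarith only [h5, h6, h7, h12]
  -- measures
  haveI : IsProbabilityMeasure (Q d p M) := heavy_Q_prob d p hM1
  have hmap := Q_map d p p' hM1 hh1 hhM hp'v
  have hφm : Measurable (fun (g : El d → ℕ) (e : El d) => decide (g e < h)) := by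
    rw [measurable_pi_iff]
    intro e
    exact (measurable_of_countable (fun n : ℕ => decide (n < h))).comp (measurable_pi_apply e)
  have hQA : 7 / 8 ≤ (prodBern (El d) p').real A := by
    rw [← hmap, measureReal_def, Measure.map_apply hφm hAm, ← measureReal_def]
    set E : Set (El d → ℕ) := {g | Lg κ g (2 ^ k) B ≤ (beta κ d p - η) * 2 ^ k} with hE
    have hEm : MeasurableSet E := measurableSet_le (Lg_measurable κ _ _) measurable_const
    have h1 : Eᶜ ⊆ (fun (g : El d → ℕ) (e : El d) => decide (g e < h)) ⁻¹' A :=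
      fun g hg => hincl g hg
    have h2 : (Q d p M).real Eᶜ = 1 - (Q d p M).real E := probReal_compl_eq_one_sub hEm
    have h3 : (Q d p M).real Eᶜ
        ≤ (Q d p M).real ((fun (g : El d → ℕ) (e : El d) => decide (g e < h)) ⁻¹' A) :=
      measureReal_mono h1
    have h4 : (Q d p M).real E ≤ 1 / 8 := hsoft
    linarith
  have hmono : (prodBern (El d) p').real A ≤ (prodBern (El d) p₁).real A := by
    rw [measureReal_def, measureReal_def]
    exact ENNReal.toReal_mono (measure_ne_top _ _) (mono_p hAI hAm hp'le)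
  linarith

end Pool.Agent.H41.QC
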