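import Pool.Agent.H41.QC.Bonami
import Pool.Agent.H41.QC.Coupling

/-! # QC module KKL (paper 6.2) -/

open MeasureTheory
open Pool.Agent.H17.IIC

set_option linter.unusedSectionVars false

namespace Pool.Agent.H41.QC

/-- probability that `i` is pivotal for `A` -/
noncomputable def Inf {ι : Type} [DecidableEq ι] (p : unitInterval) (A : Set (ι → Bool)) (i : ι) : ℝ :=
  (prodBern ι p).real {ω | Function.update ω i true ∈ A ∧ Function.update ω i false ∉ A}

section
variable {ι : Type} [Fintype ι] [DecidableEq ι]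

lemma KKL_Ex_indicator (p : unitInterval) (A : Set (ι → Bool)) :
    Ex p (A.indicator fun _ => (1 : ℝ)) = (prodBern ι p).real A := by
  unfold Ex
  rw [integral_indicator (Set.toFinite A).measurableSet]
  simp

/-- the discrete derivative of the indicator of an increasing event -/
lemma KKL_diff_sq_le (p : unitInterval) (h0 : 0 < (p : ℝ)) (h1 : (p : ℝ) < 1) {A : Set (ι → Bool)}
    (i : ι) (ω : ι → Bool) (hA : Incr A) :
    |Real.sqrt ((p : ℝ) * (1 - (p : ℝ))) * ph p (ω i)
        * (A.indicator (fun _ => (1 : ℝ)) (Function.update ω i true) -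
          A.indicator (fun _ => (1 : ℝ)) (Function.update ω i false))| ≤
      {ω : ι → Bool | Function.update ω i true ∈ A ∧ Function.update ω i false ∉ A}.indicator
        (fun _ => (1 : ℝ)) ω := by
  have hs : 0 < Real.sqrt ((p : ℝ) * (1 - (p : ℝ))) :=
    Real.sqrt_pos.2 (mul_pos h0 (sub_pos.2 h1))
  have e1 : Real.sqrt ((p : ℝ) * (1 - (p : ℝ))) * ph p (ω i) = (if ω i then 1 else 0) - (p : ℝ) := by
    unfold ph
    field_simp
  have e2 : |(if ω i then (1 : ℝ) else 0) - (p : ℝ)| ≤ 1 := by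
    cases ω i
    · simp only [Bool.false_eq_true, if_false, zero_sub, abs_neg]
      rw [abs_of_pos h0]; exact h1.le
    · simp only [if_true]
      rw [abs_of_pos (by linarith)]; linarith
  rw [e1, abs_mul]
  have hinc : Function.update ω i false ∈ A → Function.update ω i true ∈ A := by
    apply hA
    intro e he
    by_cases h : e = i
    · subst h; simp
    · simpa [h] using he
  by_cases ht : Function.update ω i true ∈ A
  · by_cases hf : Function.update ω i false ∈ A
    · rw [Set.indicator_of_mem ht, Set.indicator_of_mem hf, sub_self, abs_zero, mul_zero]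
      exact Set.indicator_nonneg (fun _ _ => zero_le_one) _
    · rw [Set.indicator_of_mem ht, Set.indicator_of_notMem hf, sub_zero, abs_one, mul_one,
        Set.indicator_of_mem (show ω ∈ {ω : ι → Bool | Function.update ω i true ∈ A ∧
          Function.update ω i false ∉ A} from ⟨ht, hf⟩)]
      exact e2
  · have hf : Function.update ω i false ∉ A := fun h => ht (hinc h)
    rw [Set.indicator_of_notMem ht, Set.indicator_of_notMem hf, sub_self, abs_zero, mul_zero]
    exact Set.indicator_nonneg (fun _ _ => zero_le_one) _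

/-- Hoelder: `(E |G| 1_B)^4 ≤ E G^4 P(B)^3` -/
lemma KKL_holder (p : unitInterval) (G : (ι → Bool) → ℝ) (B : Set (ι → Bool)) :
    Ex p (fun ω => |G ω| * B.indicator (fun _ => (1 : ℝ)) ω) ^ 4 ≤
      Ex p (fun ω => G ω ^ 4) * (prodBern ι p).real B ^ 3 := by
  set b : (ι → Bool) → ℝ := B.indicator fun _ => (1 : ℝ) with hb
  have hbb : ∀ ω, b ω * b ω = b ω := by
    intro ω
    by_cases h : ω ∈ B
    · simp [hb, h]
    · simp [hb, h]
  have hb2 : ∀ ω, b ω ^ 2 = b ω := fun ω => by rw [sq, hbb]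
  have hPB : Ex p b = (prodBern ι p).real B := KKL_Ex_indicator p B
  have hP0 : 0 ≤ (prodBern ι p).real B := measureReal_nonneg
  have h1 := Ex_cs p (fun ω => |G ω| * b ω) b
  simp only [mul_assoc, hbb, mul_pow, hb2, sq_abs] at h1
  have h2 := Ex_cs p (fun ω => G ω ^ 2) b
  simp only [← pow_mul, hb2] at h2
  norm_num at h2
  rw [hPB] at h1 h2
  have h3 : 0 ≤ Ex p (fun ω => G ω ^ 2 * b ω) := Ex_nonneg p fun ω =>
    mul_nonneg (sq_nonneg _) (Set.indicator_nonneg (fun _ _ => zero_le_one) _)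
  calc Ex p (fun ω => |G ω| * b ω) ^ 4 = (Ex p (fun ω => |G ω| * b ω) ^ 2) ^ 2 := by ring
    _ ≤ (Ex p (fun ω => G ω ^ 2 * b ω) * (prodBern ι p).real B) ^ 2 :=
        pow_le_pow_left₀ (sq_nonneg _) h1 2
    _ = Ex p (fun ω => G ω ^ 2 * b ω) ^ 2 * (prodBern ι p).real B ^ 2 := by ring
    _ ≤ (Ex p (fun ω => G ω ^ 4) * (prodBern ι p).real B) * (prodBern ι p).real B ^ 2 :=
        mul_le_mul_of_nonneg_right h2 (sq_nonneg _)
    _ = _ := by ring

end

theorem kkl {a b : ℝ} (ha : 0 < a) (hb : b < 1) :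
    ∃ C : ℝ, 1 ≤ C ∧ ∀ (p : unitInterval), a ≤ (p : ℝ) → (p : ℝ) ≤ b →
      ∀ (ι : Type) [Fintype ι] [DecidableEq ι] (A : Set (ι → Bool)), Incr A → ∀ k : ℕ, 1 ≤ k →
        (prodBern ι p).real A * (1 - (prodBern ι p).real A)
          ≤ C ^ k * ∑ i, Inf p A i * Real.sqrt (Inf p A i) + 1 / k * ∑ i, Inf p A i := by
  obtain ⟨C, hC1, hC⟩ := bonami ha hb
  refine ⟨C, hC1, ?_⟩
  intro p hpa hpb ι _ _ A hA k hk
  have h0 : 0 < (p : ℝ) := lt_of_lt_of_le ha hpa
  have h1 : (p : ℝ) < 1 := lt_of_le_of_lt hpb hb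
  have hk0 : (0 : ℝ) < k := by exact_mod_cast hk
  set f : (ι → Bool) → ℝ := A.indicator fun _ => (1 : ℝ) with hf
  have hff : ∀ ω, f ω ^ 2 = f ω := by
    intro ω
    by_cases h : ω ∈ A
    · simp [hf, h]
    · simp [hf, h]
  have hPA : Ex p f = (prodBern ι p).real A := KKL_Ex_indicator p A
  have hI0 : ∀ i, 0 ≤ Inf p A i := fun i => measureReal_nonneg
  -- the discrete derivatives
  set D : ι → (ι → Bool) → ℝ := fun i ω => Real.sqrt ((p : ℝ) * (1 - (p : ℝ))) * ph p (ω i)
        * (f (Function.update ω i true) - f (Function.update ω i false)) with hD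
  set Bp : ι → Set (ι → Bool) := fun i =>
    {ω : ι → Bool | Function.update ω i true ∈ A ∧ Function.update ω i false ∉ A} with hBp
  have hDle : ∀ i ω, |D i ω| ≤ (Bp i).indicator (fun _ => (1 : ℝ)) ω := fun i ω =>
    KKL_diff_sq_le p h0 h1 i ω hA
  have hfcD : ∀ i S, fc p (D i) S = if i ∈ S then fc p f S else 0 := fun i S => fc_diff p h0 h1 f i S
  -- second moments of the derivatives
  have hD2 : ∀ i, ∑ S : Finset ι, (if i ∈ S then fc p f S ^ 2 else 0) ≤ Inf p A i := by
    intro i
    have e1 : ∑ S : Finset ι, (if i ∈ S then fc p f S ^ 2 else 0) = Ex p (fun ω => D i ω ^ 2) := by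
      rw [parseval p h0 h1]
      refine Finset.sum_congr rfl fun S _ => ?_
      rw [hfcD]
      split_ifs <;> simp
    rw [e1]
    have e2 : Inf p A i = Ex p ((Bp i).indicator fun _ => (1 : ℝ)) := (KKL_Ex_indicator p _).symm
    rw [e2]
    apply Ex_mono
    intro ω
    have h2 := hDle i ω
    have h3 : (Bp i).indicator (fun _ => (1 : ℝ)) ω ^ 2 = (Bp i).indicator (fun _ => (1 : ℝ)) ω := by
      by_cases h : ω ∈ Bp i
      · simp [h]
      · simp [h]
    rw [← h3, ← sq_abs (D i ω)]
    exact pow_le_pow_left₀ (abs_nonneg _) h2 2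
  -- low degree parts
  have hlow : ∀ i, ∑ S : Finset ι, (if i ∈ S ∧ S.card ≤ k then fc p f S ^ 2 else 0) ≤
      C ^ k * (Inf p A i * Real.sqrt (Inf p A i)) := by
    intro i
    set c : Finset ι → ℝ := fun S => if i ∈ S ∧ S.card ≤ k then fc p f S else 0 with hc
    set G : (ι → Bool) → ℝ := fun ω => ∑ S : Finset ι, c S * chi p S ω with hG
    set E := ∑ S : Finset ι, (if i ∈ S ∧ S.card ≤ k then fc p f S ^ 2 else 0) with hE
    have hG2 : Ex p (fun ω => G ω ^ 2) = E := by
      rw [hG]
      simp only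
      rw [Ex_comb_sq p h0 h1 c Finset.univ, hE]
      refine Finset.sum_congr rfl fun S _ => ?_
      simp only [hc]
      split_ifs <;> simp
    have hE0 : 0 ≤ E := by
      rw [← hG2]; exact Ex_nonneg p fun ω => sq_nonneg _
    have hGD : Ex p (fun ω => G ω * D i ω) = E := by
      rw [hG]
      simp only [Finset.sum_mul]
      rw [Ex_sum, hE]
      refine Finset.sum_congr rfl fun S _ => ?_
      have e1 : (fun ω => c S * chi p S ω * D i ω) = fun ω => c S * (D i ω * chi p S ω) := by
        funext ω; ring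
      rw [e1, Ex_const_mul]
      have e2 : Ex p (fun ω => D i ω * chi p S ω) = fc p (D i) S := rfl
      rw [e2, hfcD]
      simp only [hc]
      by_cases hi : i ∈ S
      · simp only [hi, true_and, if_true]
        split_ifs
        · ring
        · simp
      · simp [hi]
    have h2 : E ≤ Ex p (fun ω => |G ω| * (Bp i).indicator (fun _ => (1 : ℝ)) ω) := by
      rw [← hGD]
      apply Ex_mono
      intro ω
      calc G ω * D i ω ≤ |G ω * D i ω| := le_abs_self _
        _ = |G ω| * |D i ω| := abs_mul _ _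
        _ ≤ _ := mul_le_mul_of_nonneg_left (hDle i ω) (abs_nonneg _)
    have h3 := KKL_holder p G (Bp i)
    have h4 := hC p hpa hpb ι k c (fun S hS => by
      simp only [hc]
      rw [if_neg]
      intro h
      omega)
    have h4' : Ex p (fun ω => G ω ^ 4) ≤ C ^ k * E ^ 2 := by
      have := h4
      rw [← hG2]
      exact this
    have hInf : (prodBern ι p).real (Bp i) = Inf p A i := rfl
    rw [hInf] at h3
    have h5 : E ^ 4 ≤ C ^ k * E ^ 2 * Inf p A i ^ 3 := by
      calc E ^ 4 ≤ _ := pow_le_pow_left₀ hE0 h2 4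
        _ ≤ _ := h3
        _ ≤ _ := mul_le_mul_of_nonneg_right h4' (pow_nonneg (hI0 i) 3)
    have hCk : 1 ≤ C ^ k := one_le_pow₀ hC1
    rcases hE0.eq_or_lt with hz | hz
    · rw [← hz]
      exact mul_nonneg (by linarith) (mul_nonneg (hI0 i) (Real.sqrt_nonneg _))
    · have h6 : E ^ 2 ≤ C ^ k * Inf p A i ^ 3 := by
        have h7 : E ^ 2 * E ^ 2 ≤ (C ^ k * Inf p A i ^ 3) * E ^ 2 := by
          calc E ^ 2 * E ^ 2 = E ^ 4 := by ring
            _ ≤ _ := h5
            _ = _ := by ring
        exact le_of_mul_le_mul_right h7 (by positivity)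
      apply le_of_sq_le_sq _ (mul_nonneg (by linarith) (mul_nonneg (hI0 i) (Real.sqrt_nonneg _)))
      calc E ^ 2 ≤ C ^ k * Inf p A i ^ 3 := h6
        _ ≤ (C ^ k * C ^ k) * Inf p A i ^ 3 :=
          mul_le_mul_of_nonneg_right (le_mul_of_one_le_left (by linarith) hCk) (pow_nonneg (hI0 i) 3)
        _ = _ := by
          have h8 := Real.sq_sqrt (hI0 i)
          calc C ^ k * C ^ k * Inf p A i ^ 3 = C ^ k * C ^ k * Inf p A i ^ 2 * Inf p A i := by ring
            _ = C ^ k * C ^ k * Inf p A i ^ 2 * (Real.sqrt (Inf p A i) ^ 2) := by rw [h8]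
            _ = _ := by ring
  -- variance
  have hvar : (prodBern ι p).real A * (1 - (prodBern ι p).real A) =
      ∑ S : Finset ι, (if S = ∅ then 0 else fc p f S ^ 2) := by
    have e1 := parseval p h0 h1 f
    have e2 : Ex p (fun ω => f ω ^ 2) = (prodBern ι p).real A := by
      rw [← hPA]; congr 1; funext ω; exact hff ω
    have e3 : fc p f ∅ = (prodBern ι p).real A := by
      unfold fc chi
      simp only [Finset.prod_empty, mul_one]
      exact hPA
    have e4 : ∑ S : Finset ι, (if S = ∅ then 0 else fc p f S ^ 2) =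
        ∑ S : Finset ι, fc p f S ^ 2 - fc p f ∅ ^ 2 := by
      rw [eq_sub_iff_add_eq]
      have : fc p f ∅ ^ 2 = ∑ S : Finset ι, (if S = ∅ then fc p f S ^ 2 else 0) := by simp
      rw [this, ← Finset.sum_add_distrib]
      refine Finset.sum_congr rfl fun S _ => ?_
      split_ifs <;> simp
    rw [e4, ← e1, e2, e3]
    ring
  rw [hvar]
  -- splitting
  have hsplit : ∀ S : Finset ι, (if S = ∅ then 0 else fc p f S ^ 2) ≤
      ∑ i, (if i ∈ S ∧ S.card ≤ k then fc p f S ^ 2 else 0) +
        1 / k * ∑ i, (if i ∈ S then fc p f S ^ 2 else 0) := by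
    intro S
    have hs : ∑ i, (if i ∈ S then fc p f S ^ 2 else 0) = S.card * fc p f S ^ 2 := by
      rw [← Finset.sum_filter]
      simp
    have hn1 : 0 ≤ ∑ i, (if i ∈ S ∧ S.card ≤ k then fc p f S ^ 2 else 0) :=
      Finset.sum_nonneg fun i _ => by split_ifs <;> positivity
    have hn2 : 0 ≤ 1 / (k : ℝ) * ∑ i, (if i ∈ S then fc p f S ^ 2 else 0) := by
      rw [hs]; positivity
    split_ifs with hS
    · linarith
    · have hcard : 1 ≤ S.card := Finset.card_pos.2 (Finset.nonempty_iff_ne_empty.2 hS)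
      by_cases hk' : S.card ≤ k
      · have e : ∑ i, (if i ∈ S ∧ S.card ≤ k then fc p f S ^ 2 else 0) = S.card * fc p f S ^ 2 := by
          rw [← hs]
          refine Finset.sum_congr rfl fun i _ => ?_
          simp [hk']
        have h2 : (1 : ℝ) ≤ S.card := by exact_mod_cast hcard
        have h3 : fc p f S ^ 2 ≤ S.card * fc p f S ^ 2 :=
          le_mul_of_one_le_left (sq_nonneg _) h2
        rw [e]
        linarith
      · have h2 : (k : ℝ) ≤ S.card := by exact_mod_cast (not_le.1 hk').le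
        have h3 : fc p f S ^ 2 ≤ 1 / k * (S.card * fc p f S ^ 2) := by
          rw [div_mul_eq_mul_div, one_mul, le_div_iff₀ hk0, mul_comm]
          exact mul_le_mul_of_nonneg_right h2 (sq_nonneg _)
        rw [hs]
        linarith
  calc ∑ S : Finset ι, (if S = ∅ then 0 else fc p f S ^ 2) ≤
      ∑ S : Finset ι, (∑ i, (if i ∈ S ∧ S.card ≤ k then fc p f S ^ 2 else 0) +
        1 / k * ∑ i, (if i ∈ S then fc p f S ^ 2 else 0)) := Finset.sum_le_sum fun S _ => hsplit S
    _ = ∑ i, ∑ S : Finset ι, (if i ∈ S ∧ S.card ≤ k then fc p f S ^ 2 else 0) +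
        1 / k * ∑ i, ∑ S : Finset ι, (if i ∈ S then fc p f S ^ 2 else 0) := by
        rw [Finset.sum_add_distrib, Finset.sum_comm, ← Finset.mul_sum]
        congr 2
        rw [Finset.sum_comm]
    _ ≤ ∑ i, C ^ k * (Inf p A i * Real.sqrt (Inf p A i)) + 1 / k * ∑ i, Inf p A i := by
        apply add_le_add (Finset.sum_le_sum fun i _ => hlow i)
        exact mul_le_mul_of_nonneg_left (Finset.sum_le_sum fun i _ => hD2 i) (by positivity)
    _ = _ := by rw [Finset.mul_sum (a := C ^ k)]

end Pool.Agent.H41.QC
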