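import Pool.Agent.H41.QC.Defs

/-! # QC module Nu: the single element law -/

open MeasureTheory
open Pool.Agent.H17.IIC

namespace Pool.Agent.H41.QC

lemma nu_ratio_nonneg {M : ℕ} (hM : 1 ≤ M) : 0 ≤ 1 - 1 / (M : ℝ) := by
  have h1 : (1 : ℝ) ≤ M := by exact_mod_cast hM
  have h2 : 1 / (M : ℝ) ≤ 1 := by
    rw [div_le_one (by linarith)]
    exact h1
  linarith

lemma nu_ratio_le {M : ℕ} : 1 - 1 / (M : ℝ) ≤ 1 := by
  have : 0 ≤ 1 / (M : ℝ) := by positivity
  linarith

lemma nuW_nonneg (p : unitInterval) {M : ℕ} (hM : 1 ≤ M) (k : ℕ) : 0 ≤ nuW p M k := by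
  have h1 := p.2.1
  have h2 : 0 ≤ 1 - (p : ℝ) := by linarith [p.2.2]
  have h3 := nu_ratio_nonneg hM
  unfold nuW
  split_ifs
  · exact h1
  · positivity
  · positivity
  · exact le_rfl

lemma nuW_partial (p : ℝ) {M : ℕ} (h : ℕ) (hh : 1 ≤ h) (hM' : h ≤ M) :
    ∑ k ∈ Finset.range h, nuW p M k = 1 - (1 - p) * (1 - 1 / (M : ℝ)) ^ (h - 1) := by
  induction h, hh using Nat.le_induction with
  | base => simp [nuW]
  | succ n hn ih =>
    rw [Finset.sum_range_succ, ih (by omega)]
    have e1 : nuW p M n = (1 - p) / M * (1 - 1 / (M : ℝ)) ^ (n - 1) := by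
      unfold nuW
      rw [if_neg (by omega), if_pos (by omega)]
    rw [e1]
    have e2 : n + 1 - 1 = (n - 1) + 1 := by omega
    rw [e2, pow_succ]
    ring

lemma nuW_total (p : ℝ) {M : ℕ} (hM : 1 ≤ M) : ∑ k ∈ Finset.range (M + 1), nuW p M k = 1 := by
  rw [Finset.sum_range_succ, nuW_partial p M hM le_rfl]
  have e1 : nuW p M M = (1 - p) * (1 - 1 / (M : ℝ)) ^ (M - 1) := by
    unfold nuW
    rw [if_neg (by omega), if_neg (lt_irrefl _), if_pos rfl]
  rw [e1]
  ring

/-- total mass one -/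
theorem nu_prob (p : unitInterval) {M : ℕ} (hM : 1 ≤ M) : IsProbabilityMeasure (nu p M) := by
  constructor
  unfold nu
  rw [Measure.finsetSum_apply]
  simp only [Measure.smul_apply, measure_univ, smul_eq_mul, mul_one]
  rw [← ENNReal.ofReal_sum_of_nonneg (fun k _ => nuW_nonneg p hM k), nuW_total (p : ℝ) hM]
  simp

theorem integral_nu (p : unitInterval) {M : ℕ} (hM : 1 ≤ M) (f : ℕ → ℝ) :
    ∫ k, f k ∂(nu p M) = ∑ k ∈ Finset.range (M + 1), nuW p M k * f k := by
  unfold nu
  rw [integral_finsetSum_measure]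
  · apply Finset.sum_congr rfl
    intro k _
    rw [integral_smul_measure, integral_dirac, ENNReal.toReal_ofReal (nuW_nonneg p hM k),
      smul_eq_mul]
  · intro k _
    exact (integrable_dirac (by simp)).smul_measure (by simp)

lemma nu_sum_swap (w a : ℕ → ℝ) (n : ℕ) :
    ∑ G ∈ Finset.range n, w G * ∑ k ∈ Finset.range G, a k
      = ∑ k ∈ Finset.range n, a k * (∑ G ∈ Finset.range n, w G - ∑ G ∈ Finset.range (k + 1), w G) := by
  induction n with
  | zero => simp
  | succ n ih =>
    rw [Finset.sum_range_succ, ih, Finset.sum_range_succ (fun k => a k * (∑ G ∈ Finset.range (n + 1),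
      w G - ∑ G ∈ Finset.range (k + 1), w G)), sub_self, mul_zero, add_zero,
      Finset.sum_range_succ w n, Finset.mul_sum, ← Finset.sum_add_distrib]
    apply Finset.sum_congr rfl
    intro k _
    ring

lemma nu_sq_le (π : ℕ → ℝ) (h0 : ∀ k, 0 ≤ π k) (h1 : ∀ k, π k ≤ 1) (G : ℕ) :
    (∑ k ∈ Finset.range G, π k) ^ 2 ≤ ∑ k ∈ Finset.range G, (2 * (k : ℝ) + 1) * π k := by
  induction G with
  | zero => simp
  | succ G ih =>
    rw [Finset.sum_range_succ, Finset.sum_range_succ]
    have hs : ∑ k ∈ Finset.range G, π k ≤ G := by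
      calc ∑ k ∈ Finset.range G, π k ≤ ∑ k ∈ Finset.range G, (1 : ℝ) :=
            Finset.sum_le_sum (fun k _ => h1 k)
        _ = G := by simp
    have h2 : (∑ k ∈ Finset.range G, π k) * π G ≤ G * π G :=
      mul_le_mul_of_nonneg_right hs (h0 G)
    have h3 : π G * π G ≤ π G := by
      have := mul_le_mul_of_nonneg_right (h1 G) (h0 G)
      linarith
    nlinarith

/-- the memoryless inequality (paper 2.3) -/
theorem nu_memoryless (p : unitInterval) (hp : 0 < (p : ℝ)) {M : ℕ} (hM : 1 ≤ M) (π : ℕ → ℝ)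
    (h0 : ∀ k, 0 ≤ π k) (h1 : ∀ k, π k ≤ 1) :
    ∫ G, (∑ k ∈ Finset.range G, π k) ^ 2 ∂(nu p M)
      ≤ (1 - p) / p * ∫ G, π G ∂(nu p M) + 3 * M * ∫ G, (G : ℝ) * π G ∂(nu p M) := by
  rw [integral_nu p hM, integral_nu p hM, integral_nu p hM]
  have hq : 0 ≤ 1 - (p : ℝ) := by linarith [p.2.2]
  have hr := nu_ratio_nonneg hM
  have hM0 : (0 : ℝ) < M := by exact_mod_cast hM
  have step1 : ∑ k ∈ Finset.range (M + 1), nuW p M k * (∑ j ∈ Finset.range k, π j) ^ 2
      ≤ ∑ G ∈ Finset.range (M + 1), nuW p M G * ∑ k ∈ Finset.range G, (2 * (k : ℝ) + 1) * π k :=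
    Finset.sum_le_sum (fun k _ => mul_le_mul_of_nonneg_left (nu_sq_le π h0 h1 k) (nuW_nonneg p hM k))
  rw [nu_sum_swap] at step1
  refine step1.trans ?_
  rw [Finset.mul_sum, Finset.mul_sum, ← Finset.sum_add_distrib]
  apply Finset.sum_le_sum
  intro k hk
  rw [Finset.mem_range] at hk
  rw [nuW_total (p : ℝ) hM]
  have hw := nuW_nonneg p hM k
  rcases Nat.eq_zero_or_pos k with rfl | hk0
  · have e1 : ∑ G ∈ Finset.range (0 + 1), nuW p M G = p := by simp [nuW]
    have e2 : nuW p M 0 = p := by simp [nuW]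
    rw [e1, e2]
    have : (1 - (p : ℝ)) / p * (p * π 0) = (1 - p) * π 0 := by
      field_simp
    rw [this]
    have h2 := h0 0
    push_cast
    nlinarith
  · have hA : 0 ≤ (1 - (p : ℝ)) / p * (nuW p M k * π k) := by
      have := h0 k
      positivity
    rcases Nat.lt_or_ge k M with hkM | hkM
    · rw [nuW_partial (p : ℝ) (k + 1) (by omega) (by omega)]
      have e1 : nuW p M k = (1 - p) / M * (1 - 1 / (M : ℝ)) ^ (k - 1) := by
        unfold nuW
        rw [if_neg (by omega), if_pos (by omega)]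
      have e2 : 3 * (M : ℝ) * (nuW p M k * ((k : ℝ) * π k))
          = (1 - p) * (1 - 1 / (M : ℝ)) ^ (k - 1) * (3 * k) * π k := by
        rw [e1]
        field_simp
      have e3 : k + 1 - 1 = (k - 1) + 1 := by omega
      have h4 : (1 - 1 / (M : ℝ)) ^ (k + 1 - 1) ≤ (1 - 1 / (M : ℝ)) ^ (k - 1) := by
        rw [e3, pow_succ]
        have := pow_nonneg hr (k - 1)
        nlinarith [nu_ratio_le (M := M)]
      have hk1 : (1 : ℝ) ≤ k := by exact_mod_cast hk0
      have h5 : (2 * (k : ℝ) + 1) * π k * (1 - (1 - (1 - p) * (1 - 1 / (M : ℝ)) ^ (k + 1 - 1)))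
          ≤ (1 - p) * (1 - 1 / (M : ℝ)) ^ (k - 1) * (3 * k) * π k := by
        have h6 : (2 * (k : ℝ) + 1) * π k ≤ (3 * k) * π k :=
          mul_le_mul_of_nonneg_right (by linarith) (h0 k)
        have h7 : (1 - p) * (1 - 1 / (M : ℝ)) ^ (k + 1 - 1)
            ≤ (1 - p) * (1 - 1 / (M : ℝ)) ^ (k - 1) := mul_le_mul_of_nonneg_left h4 hq
        have h8 : 0 ≤ (2 * (k : ℝ) + 1) * π k := by
          have := h0 k
          positivity
        have h9 : 0 ≤ (1 - (p : ℝ)) * (1 - 1 / (M : ℝ)) ^ (k - 1) := by positivity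
        calc (2 * (k : ℝ) + 1) * π k * (1 - (1 - (1 - p) * (1 - 1 / (M : ℝ)) ^ (k + 1 - 1)))
            = (2 * (k : ℝ) + 1) * π k * ((1 - p) * (1 - 1 / (M : ℝ)) ^ (k + 1 - 1)) := by ring
          _ ≤ (2 * (k : ℝ) + 1) * π k * ((1 - p) * (1 - 1 / (M : ℝ)) ^ (k - 1)) :=
              mul_le_mul_of_nonneg_left h7 h8
          _ ≤ (3 * k) * π k * ((1 - p) * (1 - 1 / (M : ℝ)) ^ (k - 1)) :=
              mul_le_mul_of_nonneg_right h6 h9
          _ = _ := by ring
      rw [e2]
      linarith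
    · have hkM' : k = M := by omega
      subst hkM'
      rw [nuW_total (p : ℝ) hM, sub_self, mul_zero]
      have := h0 k
      positivity

/-- the indicator of `{g < h}` is Bernoulli -/
theorem nu_map (p p' : unitInterval) {M h : ℕ} (hM : 1 ≤ M) (hh : 1 ≤ h) (hM' : h ≤ M)
    (hp' : (p' : ℝ) = 1 - (1 - p) * (1 - 1 / (M : ℝ)) ^ (h - 1)) :
    (nu p M).map (fun k => decide (k < h)) = bern p' := by
  have := nu_prob p hM
  have : IsProbabilityMeasure ((nu p M).map (fun k => decide (k < h))) :=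
    Measure.isProbabilityMeasure_map Measurable.of_discrete.aemeasurable
  have key : ((nu p M).map (fun k => decide (k < h))) {true} = bern p' {true} := by
    rw [Measure.map_apply Measurable.of_discrete (MeasurableSet.of_discrete)]
    have e1 : bern p' {true} = ENNReal.ofReal (p' : ℝ) := by
      simp [bern]
    rw [e1, hp', ← nuW_partial (p : ℝ) h hh hM']
    unfold nu
    rw [Measure.finsetSum_apply]
    simp only [Measure.smul_apply, smul_eq_mul, Measure.dirac_apply]
    rw [ENNReal.ofReal_sum_of_nonneg (fun k _ => nuW_nonneg p hM k)]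
    have e2 : ∀ k, ENNReal.ofReal (nuW p M k) *
        Set.indicator ((fun k => decide (k < h)) ⁻¹' {true}) 1 k
        = if k < h then ENNReal.ofReal (nuW p M k) else 0 := by
      intro k
      by_cases hk : k < h
      · simp [hk, Set.indicator]
      · simp [hk, Set.indicator]
    rw [Finset.sum_congr rfl (fun k _ => e2 k), ← Finset.sum_filter]
    apply Finset.sum_congr _ (fun _ _ => rfl)
    ext k
    simp only [Finset.mem_filter, Finset.mem_range]
    omega
  apply Measure.ext_of_singleton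
  intro b
  cases b
  · have e : ({false} : Set Bool) = {true}ᶜ := by
      ext b
      cases b <;> simp
    rw [e, prob_compl_eq_one_sub (MeasurableSet.of_discrete),
      prob_compl_eq_one_sub (MeasurableSet.of_discrete), key]
  · exact key

/-- the indicator of `{g = 0}` is Bernoulli `p` -/
theorem nu_map_zero (p : unitInterval) {M : ℕ} (hM : 1 ≤ M) :
    (nu p M).map (fun k => decide (k = 0)) = bern p := by
  have h1 := nu_map p p hM le_rfl hM (by simp)
  rw [← h1]
  congr 1
  funext k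
  by_cases hk : k = 0
  · simp [hk]
  · simp only [hk, decide_false]
    symm
    simp only [decide_eq_false_iff_not]
    omega

/-- product versions -/
theorem Q_map (d : ℕ) (p p' : unitInterval) {M h : ℕ} (hM : 1 ≤ M) (hh : 1 ≤ h) (hM' : h ≤ M)
    (hp' : (p' : ℝ) = 1 - (1 - p) * (1 - 1 / (M : ℝ)) ^ (h - 1)) :
    (Q d p M).map (fun g e => decide (g e < h)) = prodBern (El d) p' := by
  have := nu_prob p hM
  unfold Q prodBern
  rw [Measure.infinitePi_map_pi (μ := fun _ : El d => nu p M)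
    (f := fun _ k => decide (k < h)) (fun _ => Measurable.of_discrete)]
  simp only [nu_map p p' hM hh hM' hp']

theorem Q_map_zero (d : ℕ) (p : unitInterval) {M : ℕ} (hM : 1 ≤ M) :
    (Q d p M).map (fun g e => decide (g e = 0)) = prodBern (El d) p := by
  have := nu_prob p hM
  unfold Q prodBern
  rw [Measure.infinitePi_map_pi (μ := fun _ : El d => nu p M)
    (f := fun _ k => decide (k = 0)) (fun _ => Measurable.of_discrete)]
  simp only [nu_map_zero p hM]

end Pool.Agent.H41.QC
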