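import Pool.Agent.H41.QC.Path

/-! # QC module PnBasic: deterministic facts on the number of open paths -/

namespace Pool.Agent.H41.QC

variable {d : ℕ}

lemma Pn_le_pow (κ : Kind) (ω : El d → Bool) (N : ℕ) (x : V d) :
    (Pn κ ω N x : ℝ) ≤ (2 * d : ℝ) ^ N := by
  refine le_trans ?_ (card_saws_le d N)
  unfold Pn
  exact_mod_cast Finset.card_le_card (Finset.filter_subset _ _)

open Classical in
/-- the finite set of open self-avoiding step sequences from `x` -/
noncomputable def PnBasic_OS (κ : Kind) (ω : El d → Bool) (N : ℕ) (x : V d) :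
    Finset (Fin N → Step d) :=
  (saws d N).filter
    (fun s => (∀ t, ω (el κ x s t) = true) ∧ (κ = .site → ω s(x, x) = true))

lemma PnBasic_card_OS (κ : Kind) (ω : El d → Bool) (N : ℕ) (x : V d) :
    (PnBasic_OS κ ω N x).card = Pn κ ω N x := rfl

lemma PnBasic_mem_OS {κ : Kind} {ω : El d → Bool} {N : ℕ} {x : V d} {s : Fin N → Step d} :
    s ∈ PnBasic_OS κ ω N x ↔ s ∈ saws d N ∧
      (∀ t, ω (el κ x s t) = true) ∧ (κ = .site → ω s(x, x) = true) := by
  unfold PnBasic_OS
  rw [Finset.mem_filter]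

lemma PnBasic_append {κ : Kind} {ω : El d → Bool} {m n : ℕ} {x : V d} {a : Fin m → Step d}
    {b : Fin n → Step d} (h : Fin.append a b ∈ PnBasic_OS κ ω (m + n) x) :
    a ∈ PnBasic_OS κ ω m x ∧ b ∈ PnBasic_OS κ ω n (x + pos a m) := by
  rw [PnBasic_mem_OS] at h
  obtain ⟨h1, h2, h3⟩ := h
  have ha : ∀ t, ω (el κ x a t) = true := fun t => by
    rw [← el_append_left κ x a b t]; exact h2 _
  rw [PnBasic_mem_OS, PnBasic_mem_OS]
  refine ⟨⟨saws_append_left h1, ha, h3⟩, saws_append_right h1, fun t => ?_, ?_⟩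
  · rw [← el_append_right κ x a b t]; exact h2 _
  · intro hκ
    subst hκ
    rcases Nat.eq_zero_or_pos m with hm | hm
    · subst hm
      rw [pos_zero, add_zero]; exact h3 rfl
    · have h4 := ha ⟨m - 1, by omega⟩
      have h5 : m - 1 + 1 = m := by omega
      simp only [el, h5] at h4
      exact h4

/-- submultiplicativity with a maximum over the new starting point -/
theorem Pn_add_le (κ : Kind) (ω : El d → Bool) (m n : ℕ) (x : V d) {A : ℝ} (hA : 0 ≤ A)
    (h : ∀ y : V d, (∀ i, |y i - x i| ≤ m) → (Pn κ ω n y : ℝ) ≤ A) :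
    (Pn κ ω (m + n) x : ℝ) ≤ Pn κ ω m x * A := by
  have h1 : Pn κ ω (m + n) x ≤ ∑ a ∈ PnBasic_OS κ ω m x, Pn κ ω n (x + pos a m) := by
    have h2 : ((PnBasic_OS κ ω m x).sigma
        (fun a => PnBasic_OS κ ω n (x + pos a m))).card
        = ∑ a ∈ PnBasic_OS κ ω m x, Pn κ ω n (x + pos a m) := by
      rw [Finset.card_sigma]
      rfl
    rw [← h2, ← PnBasic_card_OS]
    refine Finset.card_le_card_of_injOn
      (fun s => ⟨fun i => s (Fin.castAdd n i), fun i => s (Fin.natAdd m i)⟩) ?_ ?_
    · intro s hs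
      have hs' : Fin.append (fun i => s (Fin.castAdd n i)) (fun i => s (Fin.natAdd m i))
          ∈ PnBasic_OS κ ω (m + n) x := by
        rw [Fin.append_castAdd_natAdd]; exact hs
      have := PnBasic_append hs'
      simp only [Finset.coe_sigma, Set.mem_sigma_iff, Finset.mem_coe]
      exact this
    · intro s _ s' _ hss
      simp only [Sigma.mk.injEq, heq_eq_eq] at hss
      rw [← Fin.append_castAdd_natAdd (f := s), ← Fin.append_castAdd_natAdd (f := s'), hss.1,
        hss.2]
  calc (Pn κ ω (m + n) x : ℝ) ≤ ((∑ a ∈ PnBasic_OS κ ω m x, Pn κ ω n (x + pos a m) : ℕ) : ℝ) := by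
        exact_mod_cast h1
    _ = ∑ a ∈ PnBasic_OS κ ω m x, (Pn κ ω n (x + pos a m) : ℝ) := by push_cast; rfl
    _ ≤ ∑ _a ∈ PnBasic_OS κ ω m x, A := by
        refine Finset.sum_le_sum fun a _ => h _ fun i => ?_
        have : (x + pos a m) i - x i = pos a m i := by simp
        rw [this]
        exact abs_pos_le a m i
    _ = Pn κ ω m x * A := by
        rw [Finset.sum_const, nsmul_eq_mul, PnBasic_card_OS]

/-- shorter open paths exist -/
theorem Pn_pos_of_le (κ : Kind) (ω : El d → Bool) {m n : ℕ} (h : m ≤ n) (x : V d)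
    (hn : 0 < Pn κ ω n x) : 0 < Pn κ ω m x := by
  obtain ⟨k, rfl⟩ := Nat.exists_eq_add_of_le h
  rw [← PnBasic_card_OS, Finset.card_pos] at hn ⊢
  obtain ⟨s, hs⟩ := hn
  have hs' : Fin.append (fun i => s (Fin.castAdd k i)) (fun i => s (Fin.natAdd m i))
      ∈ PnBasic_OS κ ω (m + k) x := by
    rw [Fin.append_castAdd_natAdd]; exact hs
  exact ⟨_, (PnBasic_append hs').1⟩

/-- a path in the open graph gives an open self-avoiding step sequence -/
theorem PnBasic_of_isPath (κ : Kind) (ω : El d → Bool) {x y : V d} (w : (Gr κ ω).Walk x y)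
    (hw : w.IsPath) (hpos : 0 < w.length) : 0 < Pn κ ω w.length x := by
  have hadj : ∀ t, t < w.length → (Gr κ ω).Adj (w.getVert t) (w.getVert (t + 1)) :=
    fun t ht => w.adj_getVert_succ ht
  have hst : ∀ t : Fin w.length, ∃ s : Step d, w.getVert ((t : ℕ) + 1)
      = w.getVert (t : ℕ) + stepVec s := fun t => (hadj t t.2).1
  choose s hs using hst
  have hp : ∀ t, t ≤ w.length → x + pos s t = w.getVert t := by
    intro t
    induction t with
    | zero => intro _; rw [pos_zero, add_zero, SimpleGraph.Walk.getVert_zero]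
    | succ t ih =>
      intro ht
      have h1 := pos_succ s ⟨t, by omega⟩
      simp only at h1
      rw [h1, ← add_assoc, ih (by omega)]
      exact (hs ⟨t, by omega⟩).symm
  rw [← PnBasic_card_OS, Finset.card_pos]
  refine ⟨s, ?_⟩
  rw [PnBasic_mem_OS]
  refine ⟨?_, ?_, ?_⟩
  · rw [mem_saws]
    intro a b hab
    simp only at hab
    have h1 : w.getVert (a : ℕ) = w.getVert (b : ℕ) := by
      rw [← hp a (by omega), ← hp b (by omega), hab]
    exact Fin.ext (hw.getVert_injOn (by simp; omega) (by simp; omega) h1)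
  · intro t
    have h1 := (hadj t t.2).2
    have h2 := hp t (by omega)
    have h3 := hp (t + 1) (by omega)
    cases κ
    · simp only [el]
      rw [h2, h3]; exact h1
    · simp only [el]
      rw [h3]; exact h1.2
  · intro hκ
    subst hκ
    have h1 := (hadj 0 hpos).2
    rw [SimpleGraph.Walk.getVert_zero] at h1
    exact h1.1

lemma PnBasic_near (κ : Kind) (ω : El d → Bool) {x y : V d} (w : (Gr κ ω).Walk x y) (i : Fin d) :
    |y i - x i| ≤ w.length := by
  induction w with
  | nil => simp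
  | @cons u v z hadj w ih =>
    obtain ⟨⟨s, hs⟩, -⟩ := hadj
    have h1 : |v i - u i| ≤ 1 := by
      rw [hs]
      simp only [Pi.add_apply, add_sub_cancel_left]
      unfold stepVec
      rcases s with ⟨j, b⟩
      by_cases hij : i = j
      · subst hij; cases b <;> simp
      · simp [Pi.single_apply, hij]
    rw [SimpleGraph.Walk.length_cons]
    push_cast
    calc |z i - u i| = |(z i - v i) + (v i - u i)| := by ring_nf
      _ ≤ |z i - v i| + |v i - u i| := abs_add_le _ _
      _ ≤ (w.length : ℤ) + 1 := by linarith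

/-- an infinite open cluster gives open paths of every length -/
theorem Pn_pos_of_infinite (κ : Kind) (ω : El d → Bool)
    (h : {y | (Gr κ ω).Reachable 0 y}.Infinite) (N : ℕ) : 0 < Pn κ ω N (0 : V d) := by
  classical
  have hfin : (Set.Icc (fun _ => -(N : ℤ)) (fun _ => (N : ℤ)) : Set (V d)).Finite :=
    Set.finite_Icc _ _
  obtain ⟨y, hy, hyN⟩ := h.exists_notMem_finite hfin
  have h1 : ∃ i, (N : ℤ) < |y i| := by
    by_contra hcon
    push Not at hcon
    apply hyN
    rw [Set.mem_Icc]
    exact ⟨fun i => (abs_le.mp (hcon i)).1, fun i => (abs_le.mp (hcon i)).2⟩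
  obtain ⟨i, hi⟩ := h1
  obtain ⟨w⟩ := hy
  have h2 := PnBasic_near κ ω (w.toPath : (Gr κ ω).Walk 0 y) i
  simp only [Pi.zero_apply, sub_zero] at h2
  have h3 : N < (w.toPath : (Gr κ ω).Walk 0 y).length := by
    have := lt_of_lt_of_le hi h2
    exact_mod_cast this
  refine Pn_pos_of_le κ ω h3.le 0 ?_
  exact PnBasic_of_isPath κ ω _ w.toPath.2 (by omega)

end Pool.Agent.H41.QC
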