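import Pool.Agent.H41.QC.Defs

/-! # QC module Poincare: closed 1-cochains mod 2 on `ℤ^d` are exact (paper 11.1) -/

namespace Pool.Agent.H41.QC

/-- the lift of the translation by `e_i` to `ℤ^d × ℤ/2` -/
def shiftPerm {d : ℕ} (c : V d → Fin d → ZMod 2) (i : Fin d) : Equiv.Perm (V d × ZMod 2) where
  toFun z := (z.1 + Pi.single i 1, z.2 + c z.1 i)
  invFun z := (z.1 - Pi.single i 1, z.2 - c (z.1 - Pi.single i 1) i)
  left_inv z := by
    ext <;> simp
  right_inv z := by
    ext <;> simp

theorem poincare {d : ℕ} (c : V d → Fin d → ZMod 2)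
    (hc : ∀ x i j, c x i + c (x + Pi.single i 1) j = c x j + c (x + Pi.single j 1) i) :
    ∃ f : V d → ZMod 2, ∀ x i, f (x + Pi.single i 1) = f x + c x i := by
  classical
  have hcomm : ∀ i j, Commute (shiftPerm c i) (shiftPerm c j) := by
    intro i j
    apply Equiv.ext
    intro z
    show shiftPerm c i (shiftPerm c j z) = shiftPerm c j (shiftPerm c i z)
    have h := hc z.1 i j
    refine Prod.ext ?_ ?_
    · show z.1 + Pi.single j 1 + Pi.single i 1 = z.1 + Pi.single i 1 + Pi.single j 1
      abel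
    · show z.2 + c z.1 j + c (z.1 + Pi.single j 1) i = z.2 + c z.1 i + c (z.1 + Pi.single i 1) j
      rw [add_assoc, add_assoc, h]
  let φ : ∀ _ : Fin d, Multiplicative ℤ →* Equiv.Perm (V d × ZMod 2) :=
    fun i => zpowersHom _ (shiftPerm c i)
  have hφ : Pairwise fun i j => ∀ x y, Commute (φ i x) (φ j y) := by
    intro i j _ x y
    exact ((hcomm i j).zpow_left _).zpow_right _
  let G : (∀ _ : Fin d, Multiplicative ℤ) →* Equiv.Perm (V d × ZMod 2) :=
    MonoidHom.noncommPiCoprod φ hφ
  let S : Subgroup (∀ _ : Fin d, Multiplicative ℤ) :=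
    { carrier := {X | ∀ z, (G X z).1 = z.1 + fun i => Multiplicative.toAdd (X i)}
      mul_mem' := by
        intro X Y hX hY z
        rw [map_mul, Equiv.Perm.mul_apply, hX, hY]
        funext i
        simp only [Pi.add_apply, Pi.mul_apply, toAdd_mul]
        ring
      one_mem' := by
        intro z
        rw [map_one]
        funext i
        simp
      inv_mem' := by
        intro X hX z
        have h1 := hX (G X⁻¹ z)
        rw [← Equiv.Perm.mul_apply, ← map_mul, mul_inv_cancel, map_one, Equiv.Perm.one_apply] at h1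
        rw [h1]
        funext i
        simp }
  have hgen : ∀ i, (Pi.mulSingle i (Multiplicative.ofAdd (1 : ℤ)) :
      ∀ _ : Fin d, Multiplicative ℤ) ∈ S := by
    intro i z
    have h1 : G (Pi.mulSingle i (Multiplicative.ofAdd (1 : ℤ))) = shiftPerm c i := by
      show MonoidHom.noncommPiCoprod φ hφ (Pi.mulSingle i (Multiplicative.ofAdd (1 : ℤ))) = _
      rw [MonoidHom.noncommPiCoprod_mulSingle]
      simp [φ]
    rw [h1]
    show z.1 + Pi.single i 1 = _
    congr 1
  have hall : ∀ X : (∀ _ : Fin d, Multiplicative ℤ), X ∈ S := by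
    intro X
    rw [← Finset.univ_prod_mulSingle X]
    apply Subgroup.prod_mem
    intro i _
    have h1 : (Pi.mulSingle i (X i) : ∀ _ : Fin d, Multiplicative ℤ)
        = (Pi.mulSingle i (Multiplicative.ofAdd (1 : ℤ))) ^ (Multiplicative.toAdd (X i)) := by
      rw [← Pi.mulSingle_zpow]
      congr 1
      rw [← ofAdd_zsmul]
      simp
    rw [h1]
    exact S.zpow_mem (hgen i) _
  refine ⟨fun x => (G (fun i => Multiplicative.ofAdd (x i)) (0, 0)).2, ?_⟩
  intro x i
  have h1 : (fun k => Multiplicative.ofAdd ((x + Pi.single i 1 : V d) k))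
      = (Pi.mulSingle i (Multiplicative.ofAdd (1 : ℤ)) : ∀ _ : Fin d, Multiplicative ℤ)
        * fun k => Multiplicative.ofAdd (x k) := by
    funext k
    by_cases hik : k = i
    · subst hik
      simp [mul_comm]
    · simp [hik]
  have h2 : G (Pi.mulSingle i (Multiplicative.ofAdd (1 : ℤ))) = shiftPerm c i := by
    show MonoidHom.noncommPiCoprod φ hφ (Pi.mulSingle i (Multiplicative.ofAdd (1 : ℤ))) = _
    rw [MonoidHom.noncommPiCoprod_mulSingle]
    simp [φ]
  have h3 : (G (fun k => Multiplicative.ofAdd (x k)) (0, 0)).1 = x := by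
    have := hall (fun k => Multiplicative.ofAdd (x k)) (0, 0)
    rw [this]
    simp
  show (G (fun k => Multiplicative.ofAdd ((x + Pi.single i 1 : V d) k)) (0, 0)).2 = _
  rw [h1, map_mul, Equiv.Perm.mul_apply, h2]
  show (G (fun k => Multiplicative.ofAdd (x k)) (0, 0)).2
    + c (G (fun k => Multiplicative.ofAdd (x k)) (0, 0)).1 i = _
  rw [h3]

end Pool.Agent.H41.QC
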