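import Pool.Agent.H41.QC.Trans

/-! # QC module Union: mean over a union of boxes (paper 3.2) -/

open MeasureTheory

namespace Pool.Agent.H41.QC

variable {d : ℕ}

lemma union_sum_biUnion_le {α β : Type*} [DecidableEq α] [DecidableEq β] (I : Finset β)
    (F : β → Finset α) (f : α → ℝ) (hf : ∀ x, 0 ≤ f x) :
    ∑ x ∈ I.biUnion F, f x ≤ ∑ v ∈ I, ∑ x ∈ F v, f x := by
  induction I using Finset.induction_on with
  | empty => simp
  | insert a s ha ih =>
    rw [Finset.biUnion_insert, Finset.sum_insert ha]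
    have h1 : ∑ x ∈ F a ∪ s.biUnion F, f x + ∑ x ∈ F a ∩ s.biUnion F, f x =
        ∑ x ∈ F a, f x + ∑ x ∈ s.biUnion F, f x := Finset.sum_union_inter
    have h2 : 0 ≤ ∑ x ∈ F a ∩ s.biUnion F, f x := Finset.sum_nonneg fun x _ => hf x
    linarith

/-- deterministic part -/
lemma Lg_union_le (κ : Kind) (g : El d → ℕ) (N : ℕ) (B : Finset (V d)) (I : Finset (V d))
    (hI : I.Nonempty) (m : ℕ) (hB : B ⊆ I.biUnion fun v => box v m) (c : ℝ) :
    Lg κ g N B ≤ Real.log I.card + c + Real.sqrt (∑ v ∈ I, (Lg κ g N (box v m) - c) ^ 2) := by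
  set D : ℝ := Real.sqrt (∑ v ∈ I, (Lg κ g N (box v m) - c) ^ 2) with hD
  have hcard : (1 : ℝ) ≤ (I.card : ℝ) := by exact_mod_cast hI.card_pos
  have h1 : ∀ v ∈ I, W κ g N (box v m) ≤ Real.exp (c + D) := by
    intro v hv
    have hW := one_le_W κ g N (box v m)
    have h2 : Lg κ g N (box v m) - c ≤ D := by
      refine (le_abs_self _).trans (Real.abs_le_sqrt ?_)
      exact Finset.single_le_sum (f := fun v => (Lg κ g N (box v m) - c) ^ 2)
        (fun w _ => sq_nonneg _) hv
    have h3 : Real.exp (Lg κ g N (box v m)) = W κ g N (box v m) := by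
      unfold Lg
      exact Real.exp_log (by linarith)
    rw [← h3]
    exact Real.exp_le_exp.mpr (by linarith)
  have h2 : W κ g N B ≤ ∑ v ∈ I, W κ g N (box v m) := by
    unfold W
    rw [Finset.sum_add_distrib, Finset.sum_const, nsmul_eq_mul, mul_one]
    have h3 : ∑ x ∈ B, S κ g N x ≤ ∑ v ∈ I, ∑ x ∈ box v m, S κ g N x := by
      refine (Finset.sum_le_sum_of_subset_of_nonneg hB fun x _ _ => S_nonneg κ g N x).trans ?_
      exact union_sum_biUnion_le I (fun v => box v m) _ (fun x => S_nonneg κ g N x)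
    linarith
  have h3 : W κ g N B ≤ (I.card : ℝ) * Real.exp (c + D) := by
    refine h2.trans ((Finset.sum_le_sum h1).trans ?_)
    rw [Finset.sum_const, nsmul_eq_mul]
  have h4 : Lg κ g N B ≤ Real.log ((I.card : ℝ) * Real.exp (c + D)) := by
    unfold Lg
    exact Real.log_le_log (by have := one_le_W κ g N B; linarith) h3
  rw [Real.log_mul (by linarith) (Real.exp_pos _).ne', Real.log_exp] at h4
  linarith

/-- paper 3.2 -/
theorem Phi_union_le (κ : Kind) (p : unitInterval) {M : ℕ} (hM : 1 ≤ M) (N : ℕ)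
    (B : Finset (V d)) (I : Finset (V d)) (hI : I.Nonempty) (m : ℕ)
    (hB : B ⊆ I.biUnion fun v => box v m) {A : ℝ}
    (hA : ∫ g, (Lg κ g N (box (0 : V d) m) - Phi κ p M N (box (0 : V d) m)) ^ 2 ∂(Q d p M) ≤ A) :
    Phi κ p M N B ≤ Real.log I.card + Phi κ p M N (box (0 : V d) m) + Real.sqrt (I.card * A) := by
  have hnu : IsProbabilityMeasure (nu p M) := nu_prob p hM
  have hQ : IsProbabilityMeasure (Q d p M) := by
    unfold Q
    infer_instance
  set c : ℝ := Phi κ p M N (box (0 : V d) m) with hc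
  set Y : (El d → ℕ) → ℝ := fun g => ∑ v ∈ I, (Lg κ g N (box v m) - c) ^ 2 with hY
  have hYint : Integrable Y (Q d p M) :=
    integrable_finsetSum I fun v _ => Lg_sq_integrable κ p hM N (box v m) c
  have hY0 : ∀ g, 0 ≤ Y g := fun g => Finset.sum_nonneg fun v _ => sq_nonneg _
  have hsq : Integrable (fun g => Real.sqrt (Y g)) (Q d p M) := by
    refine (hYint.add (integrable_const (1:ℝ))).mono' ?_ (Filter.Eventually.of_forall fun g => ?_)
    · exact (Real.continuous_sqrt.measurable.comp_aemeasurable hYint.1.aemeasurable).aestronglyMeasurable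
    · rw [Real.norm_eq_abs, abs_of_nonneg (Real.sqrt_nonneg _)]
      have h1 := Real.sq_sqrt (hY0 g)
      have h2 : 0 ≤ (Real.sqrt (Y g) - 1/2)^2 := sq_nonneg _
      simp only [Pi.add_apply]
      nlinarith
  have h1 : Phi κ p M N B ≤ ∫ g, (Real.log I.card + c + Real.sqrt (Y g)) ∂(Q d p M) := by
    unfold Phi
    apply integral_mono (Lg_integrable κ p hM N B) ((integrable_const _).add hsq)
    intro g
    exact Lg_union_le κ g N B I hI m hB c
  rw [integral_add (integrable_const _) hsq, integral_const, probReal_univ, one_smul] at h1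
  have h2 : ∫ g, Real.sqrt (Y g) ∂(Q d p M) ≤ Real.sqrt (∫ g, Y g ∂(Q d p M)) :=
    Real.strictConcaveOn_sqrt.concaveOn.le_map_integral Real.continuous_sqrt.continuousOn
      isClosed_Ici (Filter.Eventually.of_forall fun g => hY0 g) hYint hsq
  have h3 : ∫ g, Y g ∂(Q d p M) ≤ I.card * A := by
    rw [hY]
    rw [integral_finsetSum I fun v _ => Lg_sq_integrable κ p hM N (box v m) c]
    have h4 : ∀ v ∈ I, ∫ g, (Lg κ g N (box v m) - c) ^ 2 ∂(Q d p M) ≤ A := by
      intro v _
      rw [var_shift κ p hM N v m c]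
      exact hA
    refine (Finset.sum_le_sum h4).trans ?_
    rw [Finset.sum_const, nsmul_eq_mul]
  have h5 := Real.sqrt_le_sqrt h3
  linarith

/-- a box of side `c m` is a union of `c^d` boxes of side `m` -/
lemma box_cover (v : V d) (m c : ℕ) :
    ∃ I : Finset (V d), I.card = c ^ d ∧ box v (c * m) ⊆ I.biUnion fun w => box w m := by
  rcases Nat.eq_zero_or_pos m with rfl | hm
  · refine ⟨box v c, card_box v c, ?_⟩
    intro x hx
    rw [mem_box] at hx
    rw [Finset.mem_biUnion]
    refine ⟨v, ?_, ?_⟩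
    · rw [mem_box]
      intro i
      have := hx i
      simp only [mul_zero, Nat.cast_zero, add_zero] at this
      omega
    · rw [mem_box]
      intro i
      have := hx i
      simp only [mul_zero, Nat.cast_zero, add_zero] at this
      omega
  · have hm' : (0:ℤ) < m := by exact_mod_cast hm
    have hinj : Function.Injective (fun (t : Fin d → ℕ) (i : Fin d) => v i + (m:ℤ) * (t i : ℤ)) := by
      intro t t' h
      funext i
      have h1 := congrFun h i
      simp only at h1
      have h2 : (m:ℤ) * (t i : ℤ) = (m:ℤ) * (t' i : ℤ) := by linarith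
      have h3 := mul_left_cancel₀ hm'.ne' h2
      exact_mod_cast h3
    refine ⟨(Fintype.piFinset (fun _ : Fin d => Finset.range c)).image
      (fun (t : Fin d → ℕ) (i : Fin d) => v i + (m:ℤ) * (t i : ℤ)), ?_, ?_⟩
    · rw [Finset.card_image_of_injective _ hinj, Fintype.card_piFinset_const, Finset.card_range]
    · intro x hx
      rw [mem_box] at hx
      rw [Finset.mem_biUnion]
      refine ⟨fun i => v i + (m:ℤ) * ((((x i - v i) / m).toNat : ℕ) : ℤ), ?_, ?_⟩
      · rw [Finset.mem_image]
        refine ⟨fun i => ((x i - v i) / m).toNat, ?_, rfl⟩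
        rw [Fintype.mem_piFinset]
        intro i
        rw [Finset.mem_range]
        have h1 := hx i
        have h2 : 0 ≤ (x i - v i) / (m:ℤ) := Int.ediv_nonneg (by linarith [h1.1]) hm'.le
        have h3 : (x i - v i) / (m:ℤ) < c := by
          apply Int.ediv_lt_of_lt_mul hm'
          have h4 := h1.2
          push_cast at h4
          linarith
        omega
      · rw [mem_box]
        intro i
        have h1 := hx i
        have h2 : 0 ≤ (x i - v i) / (m:ℤ) := Int.ediv_nonneg (by linarith [h1.1]) hm'.le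
        simp only [Int.toNat_of_nonneg h2]
        have h3 := Int.mul_ediv_add_emod (x i - v i) m
        have h4 := Int.emod_nonneg (x i - v i) hm'.ne'
        have h5 := Int.emod_lt_of_pos (x i - v i) hm'
        constructor <;> linarith

end Pool.Agent.H41.QC
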