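import Pool.Agent.H41.QC.Gibbs
import Pool.Agent.H41.QC.Nu
import Pool.Agent.H41.QC.Prod

/-! # QC module VarL: the variance bound (paper 2.6) -/

open MeasureTheory

namespace Pool.Agent.H41.QC

variable {d : ℕ}

lemma VarL_integrable {ι α : Type*} [MeasurableSpace α] [MeasurableSingletonClass α] [Countable α]
    [Nonempty α] (μ : Measure α) [IsProbabilityMeasure μ] {Λ : Finset ι} {F : (ι → α) → ℝ}
    (h : Dep Λ F) {C : ℝ} (hC : ∀ ω, |F ω| ≤ C) : Integrable F (PP ι μ) := by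
  have hm := h.measurable
  exact Integrable.of_bound hm.aestronglyMeasurable C (Filter.Eventually.of_forall fun ω => by
    rw [Real.norm_eq_abs]; exact hC ω)

lemma VarL_nuW_nonneg (p : unitInterval) {M : ℕ} (hM : 1 ≤ M) (k : ℕ) : 0 ≤ nuW p M k := by
  have h1 : (0 : ℝ) ≤ 1 - p := sub_nonneg.2 p.2.2
  have hM' : (1 : ℝ) ≤ M := by exact_mod_cast hM
  have h2 : (0 : ℝ) ≤ 1 - 1 / (M : ℝ) := by
    rw [sub_nonneg, div_le_one (by linarith)]
    exact hM'
  unfold nuW
  split_ifs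
  · exact p.2.1
  · exact mul_nonneg (div_nonneg h1 (by linarith)) (pow_nonneg h2 _)
  · exact mul_nonneg h1 (pow_nonneg h2 _)
  · exact le_rfl

lemma VarL_update_dep {ι α : Type*} [DecidableEq ι] {Λ : Finset ι} {F : (ι → α) → ℝ}
    (h : Dep Λ F) (e : ι) (a : α) : Dep Λ (fun g => F (Function.update g e a)) := by
  intro ω ω' hω
  apply h
  intro i hi
  by_cases hie : i = e
  · subst hie; simp
  · simp [hie, hω i hi]

/-- averaging out one coordinate, as a finite sum -/
lemma VarL_resample (p : unitInterval) {M : ℕ} (hM : 1 ≤ M) [DecidableEq (El d)] {Λ : Finset (El d)}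
    {F : (El d → ℕ) → ℝ} (h : Dep Λ F) {C : ℝ} (hC : ∀ ω, |F ω| ≤ C) (e : El d) :
    ∫ g, F g ∂(Q d p M) =
      ∫ g, (∑ a ∈ Finset.range (M + 1), nuW p M a * F (Function.update g e a)) ∂(Q d p M) := by
  have := nu_prob p hM
  have h1 := integral_resample (nu p M) h hC e
  have h2 := integral_nu p hM (fun a => ∫ g, F (Function.update g e a) ∂(PP (El d) (nu p M)))
  rw [show Q d p M = PP (El d) (nu p M) from rfl, h1, h2, integral_finsetSum]
  · refine Finset.sum_congr rfl fun a _ => ?_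
    rw [integral_const_mul]
  · intro a _
    exact (VarL_integrable (nu p M) (VarL_update_dep h e a) (C := C) fun ω => hC _).const_mul _

lemma VarL_En_congr (κ : Kind) {g g' : El d → ℕ} (N : ℕ) (B : Finset (V d))
    (h : ∀ e ∈ supp κ N B, g e = g' e) {x : V d} (hx : x ∈ B) {s : Fin N → Step d}
    (hs : s ∈ saws d N) : En κ g x s = En κ g' x s :=
  Finset.sum_congr rfl fun t _ => h _ (el_mem_supp κ hx hs t)

lemma VarL_pu_congr (κ : Kind) {g g' : El d → ℕ} (N : ℕ) (B : Finset (V d)) (e : El d)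
    (h : ∀ e ∈ supp κ N B, g e = g' e) : pu κ g N B e = pu κ g' N B e := by
  classical
  have hW : W κ g N B = W κ g' N B := by
    rw [gibbs_W_eq, gibbs_W_eq]
    congr 1
    exact Finset.sum_congr rfl fun x hx => Finset.sum_congr rfl fun s hs => by
      rw [VarL_En_congr κ N B h hx hs]
  unfold pu avg
  rw [hW]
  congr 1
  exact Finset.sum_congr rfl fun x hx => Finset.sum_congr rfl fun s hs => by
    rw [VarL_En_congr κ N B h hx hs]

lemma VarL_g_pu_le (κ : Kind) (g : El d → ℕ) (N : ℕ) (B : Finset (V d)) (e : El d) :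
    (g e : ℝ) * pu κ g N B e ≤ 2 * Real.log (1 + B.card * (2 * d : ℝ) ^ N) := by
  have h := (sum_g_pu_le κ g N B {e}).trans (avg_En_le κ g N B)
  simpa using h

lemma VarL_Lg_abs (κ : Kind) (g : El d → ℕ) (N : ℕ) (B : Finset (V d)) :
    |Lg κ g N B| ≤ Real.log (1 + B.card * (2 * d : ℝ) ^ N) := by
  rw [abs_of_nonneg (Lg_nonneg κ g N B)]
  exact Lg_le κ g N B

/-- the effect of one coordinate -/
lemma VarL_coord (κ : Kind) (p : unitInterval) (hp : 0 < (p : ℝ)) {M : ℕ} (hM : 1 ≤ M) (N : ℕ)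
    (B : Finset (V d)) [DecidableEq (El d)] (e : El d) :
    ∫ g, (Lg κ g N B - Lg κ (Function.update g e 0) N B) ^ 2 ∂(Q d p M) ≤
      (1 - p) / p * ∫ g, pu κ g N B e ∂(Q d p M) + 3 * M * ∫ g, (g e : ℝ) * pu κ g N B e ∂(Q d p M) := by
  have := nu_prob p hM
  set C := Real.log (1 + B.card * (2 * d : ℝ) ^ N) with hCdef
  set Λ : Finset (El d) := insert e (supp κ N B) with hΛ
  have hC0 : 0 ≤ C := (abs_nonneg _).trans (VarL_Lg_abs κ (fun _ => 0) N B)
  have hL : Dep Λ (fun g : El d → ℕ => Lg κ g N B) := fun ω ω' h =>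
    Lg_congr κ N B fun i hi => h i (Finset.mem_insert_of_mem hi)
  have hL0 : Dep Λ (fun g : El d → ℕ => Lg κ (Function.update g e 0) N B) :=
    VarL_update_dep hL e 0
  have hF4 : Dep Λ (fun g : El d → ℕ => (Lg κ g N B - Lg κ (Function.update g e 0) N B) ^ 2) := by
    intro ω ω' h
    have h1 := hL ω ω' h
    have h2 := hL0 ω ω' h
    simp only at h1 h2 ⊢
    rw [h1, h2]
  have hF1 : Dep Λ (fun g : El d → ℕ => pu κ g N B e) := fun ω ω' h =>
    VarL_pu_congr κ N B e fun i hi => h i (Finset.mem_insert_of_mem hi)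
  have hF2 : Dep Λ (fun g : El d → ℕ => (g e : ℝ) * pu κ g N B e) := by
    intro ω ω' h
    have h1 := hF1 ω ω' h
    simp only at h1 ⊢
    rw [h1, h e (Finset.mem_insert_self _ _)]
  have hF4b : ∀ g : El d → ℕ, |(Lg κ g N B - Lg κ (Function.update g e 0) N B) ^ 2| ≤ (2 * C) ^ 2 := by
    intro g
    rw [abs_of_nonneg (sq_nonneg _)]
    apply sq_le_sq'
    · have h1 := abs_le.1 (VarL_Lg_abs κ g N B)
      have h2 := abs_le.1 (VarL_Lg_abs κ (Function.update g e 0) N B)
      linarith [h1.1, h2.2]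
    · have h1 := abs_le.1 (VarL_Lg_abs κ g N B)
      have h2 := abs_le.1 (VarL_Lg_abs κ (Function.update g e 0) N B)
      linarith [h1.2, h2.1]
  have hF1b : ∀ g : El d → ℕ, |pu κ g N B e| ≤ 1 := fun g => by
    rw [abs_of_nonneg (pu_nonneg _ _ _ _ _)]; exact pu_le_one _ _ _ _ _
  have hF2b : ∀ g : El d → ℕ, |(g e : ℝ) * pu κ g N B e| ≤ 2 * C := fun g => by
    rw [abs_of_nonneg (mul_nonneg (Nat.cast_nonneg _) (pu_nonneg _ _ _ _ _))]
    exact VarL_g_pu_le κ g N B e
  have hI : ∀ {F : (El d → ℕ) → ℝ}, Dep Λ F → ∀ {c : ℝ}, (∀ g, |F g| ≤ c) →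
      Integrable (fun g => ∑ a ∈ Finset.range (M + 1), nuW p M a * F (Function.update g e a)) (Q d p M) := by
    intro F hF c hc
    apply integrable_finsetSum
    intro a _
    exact (VarL_integrable (nu p M) (VarL_update_dep hF e a) (C := c) fun ω => hc _).const_mul _
  rw [VarL_resample p hM hF4 hF4b e, VarL_resample p hM hF1 hF1b e, VarL_resample p hM hF2 hF2b e,
    ← integral_const_mul, ← integral_const_mul, ← integral_add ((hI hF1 hF1b).const_mul _) ((hI hF2 hF2b).const_mul _)]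
  apply integral_mono (hI hF4 hF4b) (((hI hF1 hF1b).const_mul _).add ((hI hF2 hF2b).const_mul _))
  intro g
  have hm := nu_memoryless p hp hM (fun k => pu κ (Function.update g e k) N B e)
    (fun k => pu_nonneg _ _ _ _ _) (fun k => pu_le_one _ _ _ _ _)
  rw [integral_nu p hM, integral_nu p hM, integral_nu p hM] at hm
  simp only [Function.update_idem, Function.update_self]
  refine le_trans ?_ (hm.trans (le_of_eq ?_))
  · refine Finset.sum_le_sum fun a _ => mul_le_mul_of_nonneg_left ?_ (VarL_nuW_nonneg p hM a)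
    have h := Lg_update_zero κ (Function.update g e a) N B e
    simp only [Function.update_idem, Function.update_self] at h
    have h2 : (Lg κ (Function.update g e a) N B - Lg κ (Function.update g e 0) N B) ^ 2 =
        (Lg κ (Function.update g e 0) N B - Lg κ (Function.update g e a) N B) ^ 2 := by ring
    rw [h2]
    exact pow_le_pow_left₀ h.1 h.2 2
  · rfl

theorem var_Lg (κ : Kind) (p : unitInterval) (hp : 0 < (p : ℝ)) {M : ℕ} (hM : 1 ≤ M) (N : ℕ)
    (B : Finset (V d)) :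
    ∫ g, Lg κ g N B ^ 2 ∂(Q d p M) - (∫ g, Lg κ g N B ∂(Q d p M)) ^ 2
      ≤ (1 - p) / p * N + 6 * M * Real.log (1 + B.card * (2 * d : ℝ) ^ N) := by
  classical
  have := nu_prob p hM
  have : IsProbabilityMeasure (Q d p M) := by
    unfold Q; infer_instance
  have hL : Dep (supp κ N B) (fun g : El d → ℕ => Lg κ g N B) := fun ω ω' h => Lg_congr κ N B h
  have h1 := efron (nu p M) hL (VarL_Lg_abs κ · N B) 0
  have h2 : ∑ e ∈ supp κ N B, ∫ g, (Lg κ g N B - Lg κ (Function.update g e 0) N B) ^ 2 ∂(PP (El d) (nu p M)) ≤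
      ∑ e ∈ supp κ N B, ((1 - p) / p * ∫ g, pu κ g N B e ∂(Q d p M) +
        3 * M * ∫ g, (g e : ℝ) * pu κ g N B e ∂(Q d p M)) :=
    Finset.sum_le_sum fun e _ => VarL_coord κ p hp hM N B e
  have hF1 : ∀ e, Integrable (fun g : El d → ℕ => pu κ g N B e) (Q d p M) := fun e =>
    VarL_integrable (nu p M) (Λ := supp κ N B) (fun ω ω' h => VarL_pu_congr κ N B e h) (C := 1) fun g => by
      rw [abs_of_nonneg (pu_nonneg _ _ _ _ _)]; exact pu_le_one _ _ _ _ _
  have hF2 : ∀ e, Integrable (fun g : El d → ℕ => (g e : ℝ) * pu κ g N B e) (Q d p M) := fun e =>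
    VarL_integrable (nu p M) (Λ := insert e (supp κ N B)) (fun ω ω' h => by
      rw [VarL_pu_congr κ N B e fun i hi => h i (Finset.mem_insert_of_mem hi),
        h e (Finset.mem_insert_self _ _)]) (C := 2 * Real.log (1 + B.card * (2 * d : ℝ) ^ N)) fun g => by
      rw [abs_of_nonneg (mul_nonneg (Nat.cast_nonneg _) (pu_nonneg _ _ _ _ _))]
      exact VarL_g_pu_le κ g N B e
  rw [Finset.sum_add_distrib, ← Finset.mul_sum, ← Finset.mul_sum, ← integral_finsetSum _ fun e _ => hF1 e,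
    ← integral_finsetSum _ fun e _ => hF2 e] at h2
  have h3 : ∫ g, ∑ e ∈ supp κ N B, pu κ g N B e ∂(Q d p M) ≤ N := by
    calc ∫ g, ∑ e ∈ supp κ N B, pu κ g N B e ∂(Q d p M) ≤ ∫ _, (N : ℝ) ∂(Q d p M) :=
          integral_mono (integrable_finsetSum _ fun e _ => hF1 e) (integrable_const _)
            fun g => sum_pu_le κ g N B _
      _ = N := by simp
  have h4 : ∫ g, ∑ e ∈ supp κ N B, (g e : ℝ) * pu κ g N B e ∂(Q d p M) ≤
      2 * Real.log (1 + B.card * (2 * d : ℝ) ^ N) := by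
    calc ∫ g, ∑ e ∈ supp κ N B, (g e : ℝ) * pu κ g N B e ∂(Q d p M) ≤
          ∫ _, (2 * Real.log (1 + B.card * (2 * d : ℝ) ^ N)) ∂(Q d p M) :=
          integral_mono (integrable_finsetSum _ fun e _ => hF2 e) (integrable_const _)
            fun g => (sum_g_pu_le κ g N B _).trans (avg_En_le κ g N B)
      _ = _ := by simp
  have h5 : (0 : ℝ) ≤ (1 - p) / p := div_nonneg (sub_nonneg.2 p.2.2) hp.le
  have h6 : (0 : ℝ) ≤ 3 * M := by positivity
  have h7 := mul_le_mul_of_nonneg_left h3 h5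
  have h8 := mul_le_mul_of_nonneg_left h4 h6
  calc _ ≤ _ := h1
    _ ≤ _ := h2
    _ ≤ (1 - p) / p * N + 3 * M * (2 * Real.log (1 + B.card * (2 * d : ℝ) ^ N)) := add_le_add h7 h8
    _ = _ := by ring

/-- uniform form: `E (L - E L)^2 ≤ C M N` -/
theorem var_box (d : ℕ) (p : unitInterval) (hp : 0 < (p : ℝ)) :
    ∃ C : ℝ, 0 < C ∧ ∀ (κ : Kind) (M N : ℕ) (B : Finset (V d)), 1 ≤ M → 1 ≤ N →
      (B.card : ℝ) ≤ (N : ℝ) ^ d →
      ∫ g, (Lg κ g N B - Phi κ p M N B) ^ 2 ∂(Q d p M) ≤ C * M * N := by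
  have h5 : (0 : ℝ) ≤ (1 - p) / p := div_nonneg (sub_nonneg.2 p.2.2) hp.le
  refine ⟨(1 - p) / p + 18 * d + 1, by positivity, ?_⟩
  intro κ M N B hM hN hB
  have := nu_prob p hM
  have : IsProbabilityMeasure (Q d p M) := by
    unfold Q; infer_instance
  have hM' : (1 : ℝ) ≤ M := by exact_mod_cast hM
  have hN' : (1 : ℝ) ≤ N := by exact_mod_cast hN
  have hL : Dep (supp κ N B) (fun g : El d → ℕ => Lg κ g N B) := fun ω ω' h => Lg_congr κ N B h
  have hi1 : Integrable (fun g : El d → ℕ => Lg κ g N B) (Q d p M) :=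
    VarL_integrable (nu p M) hL (VarL_Lg_abs κ · N B)
  have hi2 : Integrable (fun g : El d → ℕ => Lg κ g N B ^ 2) (Q d p M) := by
    refine VarL_integrable (nu p M) (Λ := supp κ N B) (fun ω ω' h => ?_)
      (C := Real.log (1 + B.card * (2 * d : ℝ) ^ N) ^ 2) fun g => ?_
    · have h1 := hL ω ω' h
      simp only at h1 ⊢
      rw [h1]
    · rw [abs_pow]
      exact pow_le_pow_left₀ (abs_nonneg _) (VarL_Lg_abs κ g N B) 2
  have e1 : ∫ g, (Lg κ g N B - Phi κ p M N B) ^ 2 ∂(Q d p M) =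
      ∫ g, Lg κ g N B ^ 2 ∂(Q d p M) - (∫ g, Lg κ g N B ∂(Q d p M)) ^ 2 := by
    have e2 : ∀ g : El d → ℕ, (Lg κ g N B - Phi κ p M N B) ^ 2 =
        Lg κ g N B ^ 2 - 2 * Phi κ p M N B * Lg κ g N B + Phi κ p M N B ^ 2 := fun g => by ring
    simp_rw [e2]
    have i3 : Integrable (fun g : El d → ℕ => 2 * Phi κ p M N B * Lg κ g N B) (Q d p M) := hi1.const_mul _
    have i4 : Integrable (fun g : El d → ℕ => Lg κ g N B ^ 2 - 2 * Phi κ p M N B * Lg κ g N B) (Q d p M) :=
      hi2.sub i3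
    rw [integral_add i4 (integrable_const _), integral_sub hi2 i3, integral_const_mul, integral_const]
    have e3 : ∫ g, Lg κ g N B ∂(Q d p M) = Phi κ p M N B := rfl
    rw [e3]
    simp only [probReal_univ, smul_eq_mul, one_mul]
    ring
  rw [e1]
  refine (var_Lg κ p hp hM N B).trans ?_
  have hlog : Real.log (1 + B.card * (2 * d : ℝ) ^ N) ≤ 3 * d * N := by
    have h1 : (1 : ℝ) + B.card * (2 * d : ℝ) ^ N ≤ (N : ℝ) ^ d * (2 * d + 1 : ℝ) ^ N := by
      have h2 : (2 * d : ℝ) ^ N + 1 ≤ (2 * d + 1 : ℝ) ^ N := by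
        obtain ⟨n, rfl⟩ : ∃ n, N = n + 1 := ⟨N - 1, by omega⟩
        have h3 : (2 * d : ℝ) ^ n ≤ (2 * d + 1 : ℝ) ^ n :=
          pow_le_pow_left₀ (by positivity) (by linarith) n
        have h4 : (1 : ℝ) ≤ (2 * d + 1 : ℝ) ^ n := one_le_pow₀ (by
          have : (0 : ℝ) ≤ d := Nat.cast_nonneg d
          linarith)
        rw [pow_succ, pow_succ]
        have hd : (0 : ℝ) ≤ 2 * d := by positivity
        nlinarith [mul_le_mul_of_nonneg_right h3 hd]
      have h3 : (1 : ℝ) ≤ (N : ℝ) ^ d := one_le_pow₀ hN'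
      calc (1 : ℝ) + B.card * (2 * d : ℝ) ^ N ≤ (N : ℝ) ^ d + (N : ℝ) ^ d * (2 * d : ℝ) ^ N := by
            apply add_le_add h3
            exact mul_le_mul_of_nonneg_right hB (by positivity)
        _ = (N : ℝ) ^ d * ((2 * d : ℝ) ^ N + 1) := by ring
        _ ≤ _ := mul_le_mul_of_nonneg_left h2 (by positivity)
    have hpos : (0 : ℝ) < 1 + B.card * (2 * d : ℝ) ^ N := by positivity
    have hNpos : (0 : ℝ) < N := by linarith
    have h2 : Real.log ((N : ℝ) ^ d * (2 * d + 1 : ℝ) ^ N) = d * Real.log N + N * Real.log (2 * d + 1) := by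
      rw [Real.log_mul (by positivity) (by positivity), Real.log_pow, Real.log_pow]
    have h3 : Real.log (N : ℝ) ≤ N := (Real.log_le_sub_one_of_pos hNpos).trans (by linarith)
    have h4 : Real.log (2 * d + 1 : ℝ) ≤ 2 * d :=
      (Real.log_le_sub_one_of_pos (by positivity)).trans (by linarith)
    calc Real.log (1 + B.card * (2 * d : ℝ) ^ N) ≤ _ := Real.log_le_log hpos h1
      _ = _ := h2
      _ ≤ d * N + N * (2 * d) := by
          apply add_le_add
          · exact mul_le_mul_of_nonneg_left h3 (Nat.cast_nonneg _)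
          · exact mul_le_mul_of_nonneg_left h4 hNpos.le
      _ = _ := by ring
  have h6 : (1 - p : ℝ) / p * N ≤ (1 - p) / p * M * N := by
    have : (1 - p : ℝ) / p * N * 1 ≤ (1 - p) / p * N * M :=
      mul_le_mul_of_nonneg_left hM' (mul_nonneg h5 (by linarith))
    linarith [this]
  have h7 : 6 * (M : ℝ) * Real.log (1 + B.card * (2 * d : ℝ) ^ N) ≤ 18 * d * M * N := by
    calc 6 * (M : ℝ) * Real.log (1 + B.card * (2 * d : ℝ) ^ N) ≤ 6 * M * (3 * d * N) :=
          mul_le_mul_of_nonneg_left hlog (by positivity)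
      _ = _ := by ring
  have h8 : (0 : ℝ) ≤ 1 * M * N := by positivity
  have h9 : ((1 - p : ℝ) / p + 18 * d + 1) * M * N =
      (1 - p) / p * M * N + 18 * d * M * N + 1 * M * N := by ring
  rw [h9]
  linarith

end Pool.Agent.H41.QC
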