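import Pool.Agent.H41.QC.Doubling
import Pool.Agent.H41.QC.Union
import Pool.Agent.H41.QC.VarL

/-! # QC module Rec: the recursion over dyadic scales (paper 3.3) -/

open MeasureTheory Filter Topology

namespace Pool.Agent.H41.QC

/-- mean over a box of side `c 2^k` -/
lemma rec_box (κ : Kind) (d : ℕ) (p : unitInterval) {C₀ : ℝ}
    (hvar : ∀ (κ : Kind) (M N : ℕ) (B : Finset (V d)), 1 ≤ M → 1 ≤ N →
      (B.card : ℝ) ≤ (N : ℝ) ^ d →
      ∫ g, (Lg κ g N B - Phi κ p M N B) ^ 2 ∂(Q d p M) ≤ C₀ * M * N) {M : ℕ} (hM : 1 ≤ M)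
    (N : ℕ) (hN : 1 ≤ N) (v : V d) (c : ℕ) (hc : 1 ≤ c) :
    Phi κ p M N (box v (c * N)) ≤ Real.log ((c : ℝ) ^ d) + Phi κ p M N (box (0 : V d) N)
      + Real.sqrt ((c : ℝ) ^ d * (C₀ * M * N)) := by
  obtain ⟨I, hI, hcov⟩ := box_cover v N c
  have hIne : I.Nonempty := by
    rw [← Finset.card_pos, hI]
    positivity
  have hA := hvar κ M N (box (0 : V d) N) hM hN (by rw [card_box]; push_cast; exact le_rfl)
  have h := Phi_union_le κ p hM N (box v (c * N)) I hIne N hcov hA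
  rw [hI] at h
  push_cast at h
  exact h

theorem aa_succ_le (κ : Kind) (d : ℕ) (p : unitInterval) (hp : 0 < (p : ℝ)) :
    ∃ C : ℝ, 0 < C ∧ ∀ M : ℕ, 1 ≤ M → ∀ k : ℕ,
      aa κ d p M (k + 1) ≤ aa κ d p M k + C * Real.sqrt (M / 2 ^ k) := by
  obtain ⟨C₀, hC₀, hvar⟩ := var_box d p hp
  set L2 : ℝ := Real.log ((2 : ℝ) ^ d) with hL2
  set L4 : ℝ := Real.log ((4 : ℝ) ^ d) with hL4
  have hL2n : 0 ≤ L2 := Real.log_nonneg (one_le_pow₀ (by norm_num))
  have hL4n : 0 ≤ L4 := Real.log_nonneg (one_le_pow₀ (by norm_num))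
  refine ⟨L2 + L4 + Real.sqrt ((2 : ℝ) ^ d * C₀) + Real.sqrt ((4 : ℝ) ^ d * C₀), ?_, ?_⟩
  · have h1 : 0 < Real.sqrt ((2 : ℝ) ^ d * C₀) := Real.sqrt_pos.mpr (by positivity)
    have h2 : 0 ≤ Real.sqrt ((4 : ℝ) ^ d * C₀) := Real.sqrt_nonneg _
    linarith
  intro M hM k
  have hN : 1 ≤ 2 ^ k := Nat.one_le_two_pow
  have e1 : 2 ^ (k + 1) = 2 ^ k + 2 ^ k := by ring
  have e2 : box (0 : V d) (2 ^ (k + 1)) = box (0 : V d) (2 * 2 ^ k) := by
    congr 1; ring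
  set v4 : V d := fun _ => -((2 ^ k : ℕ) : ℤ) with hv4
  have hdb : Phi κ p M (2 ^ (k + 1)) (box (0 : V d) (2 ^ (k + 1)))
      ≤ Phi κ p M (2 ^ k) (box (0 : V d) (2 * 2 ^ k))
        + Phi κ p M (2 ^ k) (box v4 (4 * 2 ^ k)) := by
    unfold Phi
    rw [← integral_add (Lg_integrable κ p hM _ _) (Lg_integrable κ p hM _ _)]
    refine integral_mono (Lg_integrable κ p hM _ _)
      ((Lg_integrable κ p hM _ _).add (Lg_integrable κ p hM _ _)) ?_
    intro g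
    have := Lg_doubling (d := d) κ g (2 ^ k)
    rw [e2, e1]
    exact this
  have h2 := rec_box κ d p hvar hM (2 ^ k) hN (0 : V d) 2 (by norm_num)
  have h4 := rec_box κ d p hvar hM (2 ^ k) hN v4 4 (by norm_num)
  have hPk : (0 : ℝ) < 2 ^ k := by positivity
  have hPk1 : (1 : ℝ) ≤ 2 ^ k := one_le_pow₀ (by norm_num)
  have hM1 : (1 : ℝ) ≤ M := by exact_mod_cast hM
  have hs1 : ∀ c : ℝ, 0 ≤ c → Real.sqrt (c * (C₀ * M * ((2 ^ k : ℕ) : ℝ)))
      = 2 ^ k * (Real.sqrt (c * C₀) * Real.sqrt (M / 2 ^ k)) := by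
    intro c hc
    rw [← Real.sqrt_mul (by positivity)]
    have h3 : (2 : ℝ) ^ k = Real.sqrt ((2 ^ k) ^ 2) := by
      rw [Real.sqrt_sq hPk.le]
    conv_rhs => rw [h3]
    rw [← Real.sqrt_mul (by positivity)]
    congr 1
    push_cast
    field_simp
    rw [Real.sqrt_sq hPk.le]
  have hs2 : 1 ≤ 2 ^ k * Real.sqrt (M / 2 ^ k) := by
    have h5 : Real.sqrt (1 / 2 ^ k) ≤ Real.sqrt (M / 2 ^ k) := by
      apply Real.sqrt_le_sqrt
      gcongr
    have h6 : (1 : ℝ) / 2 ^ k ≤ Real.sqrt (1 / 2 ^ k) := by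
      apply Real.le_sqrt_of_sq_le
      rw [div_pow, one_pow, div_le_div_iff₀ (by positivity) (by positivity)]
      nlinarith
    calc (1 : ℝ) = 2 ^ k * (1 / 2 ^ k) := by field_simp
      _ ≤ 2 ^ k * Real.sqrt (M / 2 ^ k) := by gcongr; exact h6.trans h5
  have hsn : 0 ≤ Real.sqrt (M / 2 ^ k) := Real.sqrt_nonneg _
  push_cast at h2 h4 hdb
  rw [show ((2 : ℝ) ^ k) = ((2 ^ k : ℕ) : ℝ) by push_cast; ring] at h2 h4
  rw [hs1 _ (by positivity)] at h2 h4
  unfold aa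
  rw [div_add' _ _ _ hPk.ne', div_le_div_iff₀ (by positivity) hPk]
  set X := Phi κ p M (2 ^ (k + 1)) (box (0 : V d) (2 ^ (k + 1)))
  set Y := Phi κ p M (2 ^ k) (box (0 : V d) (2 ^ k))
  set s := Real.sqrt (M / 2 ^ k)
  set s2 := Real.sqrt ((2 : ℝ) ^ d * C₀)
  set s4 := Real.sqrt ((4 : ℝ) ^ d * C₀)
  have hs2n : 0 ≤ s2 := Real.sqrt_nonneg _
  have hs4n : 0 ≤ s4 := Real.sqrt_nonneg _
  have hX : X ≤ (L2 + Y + 2 ^ k * (s2 * s)) + (L4 + Y + 2 ^ k * (s4 * s)) := by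
    refine hdb.trans (add_le_add ?_ ?_)
    · exact h2
    · exact h4
  have hLL : L2 + L4 ≤ (L2 + L4) * (2 ^ k * s) := le_mul_of_one_le_right (by positivity) hs2
  have hp1 : (2 : ℝ) ^ (k + 1) = 2 * 2 ^ k := by ring
  rw [hp1]
  have key : X ≤ 2 * (Y + (L2 + L4 + s2 + s4) * s * 2 ^ k) := by
    have h7 : 0 ≤ s2 * s * 2 ^ k := by positivity
    have h8 : 0 ≤ s4 * s * 2 ^ k := by positivity
    have h9 : 0 ≤ (L2 + L4) * (2 ^ k * s) := by positivity
    nlinarith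
  nlinarith

theorem aa_nonneg (κ : Kind) (d : ℕ) (p : unitInterval) (M k : ℕ) : 0 ≤ aa κ d p M k := by
  unfold aa Phi
  exact div_nonneg (integral_nonneg fun g => Lg_nonneg κ g _ _) (by positivity)

/-- abstract sequence lemma -/
theorem almost_antitone (a : ℕ → ℝ) (h0 : ∀ k, 0 ≤ a k) {D : ℝ} (hD : 0 ≤ D)
    (h : ∀ k, a (k + 1) ≤ a k + D / Real.sqrt (2 ^ k)) :
    Tendsto a atTop (𝓝 (liminf a atTop)) ∧ 0 ≤ liminf a atTop ∧
      ∀ k, liminf a atTop ≤ a k + 4 * D / Real.sqrt (2 ^ k) := by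
  set r : ℕ → ℝ := fun k => 1 / Real.sqrt (2 ^ k) with hr
  have hr0 : ∀ k, 0 ≤ r k := fun k => by simp only [hr]; positivity
  have hr1 : ∀ k, 1 + 4 * (r (k + 1) / r k) ≤ 4 := by
    intro k
    have h1 : 0 < Real.sqrt (2 ^ k) := Real.sqrt_pos.mpr (by positivity)
    have h2 : Real.sqrt (2 ^ (k + 1)) = Real.sqrt (2 ^ k) * Real.sqrt 2 := by
      rw [pow_succ, Real.sqrt_mul (by positivity)]
    have h3 : r (k + 1) / r k = 1 / Real.sqrt 2 := by
      simp only [hr]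
      rw [h2]
      have : 0 < Real.sqrt 2 := Real.sqrt_pos.mpr (by norm_num)
      field_simp
    rw [h3]
    have h4 : (4 : ℝ) / 3 ≤ Real.sqrt 2 := by
      apply Real.le_sqrt_of_sq_le
      norm_num
    have h5 : 1 / Real.sqrt 2 ≤ 3 / 4 := by
      rw [div_le_div_iff₀ (by positivity) (by norm_num)]
      linarith
    linarith
  have hr1' : ∀ k, r k + 4 * r (k + 1) ≤ 4 * r k := by
    intro k
    have hrk : 0 < r k := by simp only [hr]; positivity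
    have := hr1 k
    rw [← sub_nonneg] at this ⊢
    have h2 : 4 * r k - (r k + 4 * r (k + 1)) = r k * (4 - (1 + 4 * (r (k + 1) / r k))) := by
      field_simp
    rw [h2]
    positivity
  have hanti : Antitone (fun k => a k + 4 * D * r k) := by
    refine antitone_nat_of_succ_le fun k => ?_
    have h1 := h k
    have h2 := hr1' k
    have h3 : D / Real.sqrt (2 ^ k) = D * r k := by simp only [hr]; ring
    rw [h3] at h1
    nlinarith
  have hbdd : BddBelow (Set.range fun k => a k + 4 * D * r k) := by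
    refine ⟨0, ?_⟩
    rintro _ ⟨k, rfl⟩
    have := h0 k
    have := hr0 k
    positivity
  have hlim := tendsto_atTop_ciInf hanti hbdd
  set ℓ := ⨅ k, (a k + 4 * D * r k) with hℓ
  have hr_lim : Tendsto (fun k => 4 * D * r k) atTop (𝓝 0) := by
    have h1 : Tendsto (fun k : ℕ => Real.sqrt (2 ^ k)) atTop atTop := by
      refine Real.tendsto_sqrt_atTop.comp ?_
      exact tendsto_pow_atTop_atTop_of_one_lt (by norm_num)
    have h2 : Tendsto r atTop (𝓝 0) := by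
      have := h1.inv_tendsto_atTop
      refine this.congr fun k => ?_
      simp [hr]
    simpa using h2.const_mul (4 * D)
  have ha : Tendsto a atTop (𝓝 ℓ) := by
    have := hlim.sub hr_lim
    simpa using this
  have hle := ha.liminf_eq
  rw [hle]
  refine ⟨ha, ge_of_tendsto' ha h0, fun k => ?_⟩
  have h1 := ciInf_le hbdd k
  have h3 : 4 * D / Real.sqrt (2 ^ k) = 4 * D * r k := by simp only [hr]; ring
  rw [h3]
  exact h1

theorem Vl_spec (κ : Kind) (d : ℕ) (p : unitInterval) (hp : 0 < (p : ℝ)) :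
    ∃ C : ℝ, 0 < C ∧ ∀ M : ℕ, 1 ≤ M →
      Tendsto (aa κ d p M) atTop (𝓝 (Vl κ d p M)) ∧ 0 ≤ Vl κ d p M ∧
      ∀ k, Vl κ d p M ≤ aa κ d p M k + C * Real.sqrt (M / 2 ^ k) := by
  obtain ⟨C, hC, h⟩ := aa_succ_le κ d p hp
  refine ⟨4 * C, by positivity, fun M hM => ?_⟩
  have e : ∀ k : ℕ, Real.sqrt (M / 2 ^ k) = Real.sqrt M / Real.sqrt (2 ^ k) := fun k =>
    Real.sqrt_div (by positivity) _
  have := almost_antitone (aa κ d p M) (aa_nonneg κ d p M) (D := C * Real.sqrt M)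
    (by positivity) (fun k => by
      have h1 := h M hM k
      rw [e] at h1
      rw [mul_div_assoc]
      exact h1)
  refine ⟨this.1, this.2.1, fun k => ?_⟩
  have h2 := this.2.2 k
  rw [e]
  calc Vl κ d p M ≤ aa κ d p M k + 4 * (C * Real.sqrt M) / Real.sqrt (2 ^ k) := h2
    _ = _ := by ring

theorem beta_nonneg (κ : Kind) (d : ℕ) (p : unitInterval) (hp : 0 < (p : ℝ)) :
    0 ≤ beta κ d p := by
  obtain ⟨C, -, h⟩ := Vl_spec κ d p hp
  exact Real.iInf_nonneg fun M => (h (M + 1) (by omega)).2.1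

theorem beta_le (κ : Kind) (d : ℕ) (p : unitInterval) (hp : 0 < (p : ℝ)) {M : ℕ} (hM : 1 ≤ M) :
    beta κ d p ≤ Vl κ d p M := by
  obtain ⟨C, -, h⟩ := Vl_spec κ d p hp
  have hb : BddBelow (Set.range fun M : ℕ => Vl κ d p (M + 1)) := by
    refine ⟨0, ?_⟩
    rintro _ ⟨M, rfl⟩
    exact (h (M + 1) (by omega)).2.1
  have := ciInf_le hb (M - 1)
  simpa [beta, Nat.sub_add_cancel hM] using this

theorem exists_Vl_lt (κ : Kind) (d : ℕ) (p : unitInterval) (hp : 0 < (p : ℝ)) {η : ℝ}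
    (hη : 0 < η) : ∃ M : ℕ, 1 ≤ M ∧ Vl κ d p M < beta κ d p + η := by
  have h : (⨅ M : ℕ, Vl κ d p (M + 1)) < beta κ d p + η := by
    show beta κ d p < beta κ d p + η
    linarith
  obtain ⟨M, hM⟩ := exists_lt_of_ciInf_lt h
  exact ⟨M + 1, by omega, hM⟩

end Pool.Agent.H41.QC
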